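import Pool.Agent.Lib.MP_f8d36e_nt.EDefs

/-! The general matrix criterion. -/

set_option autoImplicit false

open Matrix Finset

namespace Pool.Agent.Lib.MP_f8d36e_nt.GG

section
variable {ι : Type} [Fintype ι] [DecidableEq ι]

/-- The Redei matrix of the field with `2 ^ e0` times the product of the odd primes. -/
def Rm (e0 : F2) (u w : ι → F2) (ρ : ι → ι → F2) : Matrix ι ι F2 :=
  Rmat (fun i => (1 + ∑ j, u j) * u i + e0 * w i) ρ

/-- Admissible pairs. -/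
def Adm (u w : ι → F2) (R : Matrix ι ι F2) (β : ι → F2) (ε : F2) : Prop :=
  (∀ i, (R *ᵥ β) i = u ⬝ᵥ β * u i + ε * w i) ∧ (β ≠ 0 ∨ ε ≠ 0)

variable {K : Type} [Field K] [Algebra F2 K]

/-- The row `i` of the linear system. -/
def Row (u w β : ι → F2) (R : Matrix ι ι F2) (p q T : K) (y : ι → K) (H H' : Fin 3 → K) (i : ι) :
    Prop :=
  T * algebraMap F2 K (w i) * y i + ∑ j, cf p q (β i) (β j) * algebraMap F2 K (R i j) * y j +
    algebraMap F2 K (u i) * (cf p q (β i) 0 * H 0 + H' 0) +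
    algebraMap F2 K (w i) * (cf p q (β i) 0 * H 1 + H' 1) = 0

/-- The three extra rows of the linear system. -/
def Ext (u w β : ι → F2) (p q : K) (y : ι → K) (H H' : Fin 3 → K) : Prop :=
  ∑ j, algebraMap F2 K (w j) * y j + H 2 = 0 ∧
    (p + q) * ∑ j, algebraMap F2 K (w j * β j) * y j + H' 2 = 0 ∧
    (p + q) * ∑ j, algebraMap F2 K (u j * β j) * y j + H' 0 = 0

/-- The linear system at a special point. -/
def LSys (u w β : ι → F2) (R : Matrix ι ι F2) (n0 n1 : ι) (x T : K) (y : ι → K)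
    (H H' : Fin 3 → K) : Prop :=
  y n0 = 0 ∧ y n1 = 0 ∧ (∀ i, i ≠ n0 → i ≠ n1 → Row u w β R 1 x T y H H' i) ∧ Ext u w β 1 x y H H'

/-- The four combinations of `1` and `x`. -/
def InF (x c : K) : Prop := c = 0 ∨ c = 1 ∨ c = x ∨ c = 1 + x

/-- First order condition at a special point. -/
def Loc (u w β : ι → F2) (R : Matrix ι ι F2) (n0 n1 : ι) (x T : K) : Prop :=
  ∀ h h' : Matrix (Fin 3) (Fin 3) K, (∀ k l, InF x (h k l) ∧ InF x (h' k l)) →
    (∀ z, h *ᵥ z = 0 → h' *ᵥ z = 0 → z = 0) →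
    ∀ y z, LSys u w β R n0 n1 x T y (h *ᵥ z) (h' *ᵥ z) → y = 0 ∧ z = 0

/-- Second order condition at a special point. -/
def Quad (u w β : ι → F2) (R : Matrix ι ι F2) (n0 n1 : ι) (x T : K) : Prop :=
  ∀ t0 t1 : Fin 3 → F2, t0 ≠ 0 → t1 ≠ 0 → t0 ≠ t1 → ∀ κ : K, κ = 1 ∨ κ = x →
    ∀ (y : ι → K) (z0 z2 z3 : K), LSys u w β R n0 n1 x T y
      (fun k => algebraMap F2 K (t0 k) * z0 + algebraMap F2 K (t1 k))
      (fun k => algebraMap F2 K (t0 k) * z2 + algebraMap F2 K (t1 k) * z3) →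
      z2 + κ * z0 + z0 * z3 ≠ 0

/-- The square system at the point with `p = q`. -/
def SqPt (w : ι → F2) (R : Matrix ι ι F2) (T : K) : Prop :=
  ∀ y : ι → K, (∀ i, T * algebraMap F2 K (w i) * y i + ∑ j, algebraMap F2 K (R i j) * y j = 0) →
    y = 0

/-- The special points of the line. -/
def Spec (a b x : K) : Prop := a + b * x = 0 ∨ a + b * x = 1 ∨ a + b * x = 1 + x

/-- All points of the line are good. -/
structure Pts (u w β : ι → F2) (R : Matrix ι ι F2) (n0 n1 : ι) (a b : Kb) : Prop where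
  h0 : β n0 = 0
  h1 : β n1 = 1
  b0 : b ≠ 0
  b1 : b ≠ 1
  pz : GoodPt u w β R 0 1 b
  gen : ∀ x, x ≠ 1 → ¬ Spec a b x → GoodPt u w β R 1 x (a + b * x)
  one : ¬ Spec a b 1 ∧ SqPt w R (a + b)
  spec : ∀ x, Spec a b x → x ≠ 0 ∧ Loc u w β R n0 n1 x (a + b * x) ∧
    Quad u w β R n0 n1 x (a + b * x)

/-- The criterion. -/
def Crit2 (u w : ι → F2) (R : Matrix ι ι F2) : Prop :=
  (∃ i, w i = 1) ∧ ∃ a b : Kb, ∀ β ε, Adm u w R β ε → ∃ n0 n1, Pts u w β R n0 n1 a b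

/-- Typical data, without sign conditions. -/
structure Typ2 (v : ℕ) (B : Finset ι) (u w : ι → F2) (ρ : ι → ι → F2) : Prop where
  card : Fintype.card ι ≤ v ^ 12
  bord : #Bᶜ ≤ v
  anti : ∀ i j, i ≠ j → ρ i j + ρ j i = u i * u j
  wit : ∀ η : ι → F2, η ≠ 0 → (∀ j ∈ B, η j = 0) →
    v ^ 9 ≤ #{j ∈ cls u w B 0 0 | ∑ i, ρ j i * η i = 1}
  five : v ^ 9 ≤ #(cls u w B 0 1)
  seven : v ^ 9 ≤ #(cls u w B 1 0)

end

/-- The criterion for `2 ^ e0 * m` with `m` odd. -/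
def CritN2 (e0 : F2) (m : ℕ) : Prop :=
  Crit2 (fun p : m.primeFactors => uN p) (fun p : m.primeFactors => wN p)
    (Rm e0 (fun p : m.primeFactors => uN p) (fun p : m.primeFactors => wN p)
      fun p q : m.primeFactors => rhoN p q)

end Pool.Agent.Lib.MP_f8d36e_nt.GG
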