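import Pool.Agent.Lib.MP_f8d36e_nt.Bad
import Pool.Agent.Lib.MP_f8d36e_nt.GG.CDefs

/-! Job AB: almost all numbers are typical. -/

set_option autoImplicit false

open Finset Filter
open scoped NumberTheorySymbols
open Pool.Agent.Lib.MP_696deb_nt Pool.Agent.Lib.MP_696deb_nt.Den

namespace Pool.Agent.Lib.MP_f8d36e_nt.GG

/-- Typical numbers. -/
def TypN2 (v m : ℕ) : Prop :=
  Typ2 v (univ.filter fun p : m.primeFactors => YY v < p) (fun p => uN p) (fun p => wN p)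
    fun p q => rhoN p q

theorem ab_typ {v m : ℕ} (ho : Odd m)
    (h1 : #(m.primeFactors) ≤ v ^ 12) (h2 : #{p ∈ m.primeFactors | p ≤ YY v} ≤ v)
    (h3 : ∀ d ∈ badD v, d ∣ m →
      v ^ 9 ≤ #{p ∈ m.primeFactors | YY v < p ∧ p % 8 = 1 ∧ J(p | d) = -1})
    (h4 : v ^ 9 ≤ #{p ∈ m.primeFactors | YY v < p ∧ p % 8 = 5})
    (h6 : v ^ 9 ≤ #{p ∈ m.primeFactors | YY v < p ∧ p % 8 = 7}) : TypN2 v m := by
  have pr : ∀ i : m.primeFactors, i.1.Prime := fun i => Nat.prime_of_mem_primeFactors i.2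
  have od : ∀ i : m.primeFactors, Odd i.1 := fun i =>
    ho.of_dvd_nat (Nat.dvd_of_mem_primeFactors i.2)
  have n2 : ∀ i : m.primeFactors, i.1 ≠ 2 := fun i e => absurd (e ▸ od i) (by decide)
  refine ⟨by rwa [Fintype.card_coe], (bad_ge _ _ fun x hx => by simpa using hx).trans h2,
    fun i j e => anti_N (pr i) (pr j) (n2 i) (n2 j) fun e' => e (Subtype.ext e'),
    fun η η0 η1 => ?_, h4.trans (bad_le _ _ fun x hx => ?_),
    h6.trans (bad_le _ _ fun x hx => ?_)⟩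
  · have f2 : ∀ t : F2, t ≠ 1 → t = 0 := by decide
    set T : Finset m.primeFactors := univ.filter fun i => η i = 1 with hT
    have sm : ∀ i ∈ T, i.1 ≤ YY v := fun i hi => not_lt.1 fun e => by
      have := η1 i (mem_filter.2 ⟨mem_univ _, e⟩)
      rw [(mem_filter.1 hi).2] at this
      exact one_ne_zero this
    have dv : ∀ n : ℕ, (∀ i ∈ T, i.1 ∣ n) → ∏ i ∈ T, i.1 ∣ n := fun n hn => by
      have := prod_primes_dvd (s := T.map (Function.Embedding.subtype _)) n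
        (fun a ha => by obtain ⟨i, -, rfl⟩ := mem_map.1 ha; exact (pr i).prime)
        (fun a ha => by obtain ⟨i, hi, rfl⟩ := mem_map.1 ha; exact hn i hi)
      rwa [prod_map] at this
    have hd : ∏ i ∈ T, i.1 ∈ badD v := by
      refine mem_filter.2 ⟨Nat.mem_divisors.2 ⟨dv _ fun i hi => Nat.dvd_of_mem_primeFactors ?_,
        (PP_sq _).ne_zero⟩, fun e => η0 (funext fun i => f2 _ fun e' => ?_), ?_⟩
      · rw [PP_pf]
        exact mem_filter.2 ⟨mem_Icc.2 ⟨(pr i).pos, sm i hi⟩, pr i, od i⟩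
      · exact (pr i).ne_one (Nat.dvd_one.1
          (e ▸ dvd_prod_of_mem (fun i : m.primeFactors => i.1) (mem_filter.2 ⟨mem_univ _, e'⟩)))
      · refine (prod_le_pow_card _ _ _ sm).trans ?_
        rw [YY, ← pow_mul, pow_succ v 26]
        exact Nat.pow_le_pow_right two_pos (Nat.mul_le_mul_left _ ((bad_ge _ _ sm).trans h2))
    refine (h3 _ hd (dv _ fun i _ => Nat.dvd_of_mem_primeFactors i.2)).trans
      (bad_le _ _ fun x ⟨x1, x2, x3⟩ => mem_filter.2 ⟨mem_filter.2 ⟨mem_filter.2 ⟨mem_univ _, x1⟩,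
        if_neg (by omega), if_neg (by omega)⟩, ?_⟩)
    have e := bad_rho x (fun i : m.primeFactors => i.1) (fun i => (pr i).ne_zero) T (by simp [x3])
    rw [rhoN, if_pos x3, hT, sum_filter] at e
    rw [← e]
    refine sum_congr rfl fun i _ => ?_
    split_ifs with h
    · rw [h, mul_one]
    · rw [f2 _ h, mul_zero]
  · exact mem_filter.2 ⟨mem_filter.2 ⟨mem_univ _, hx.1⟩, if_neg (by omega), if_pos (by omega)⟩
  · exact mem_filter.2 ⟨mem_filter.2 ⟨mem_univ _, hx.1⟩, if_pos (by omega), if_neg (by omega)⟩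

open Classical in
theorem few_bad2 {ε : ℝ} (hε : 0 < ε) : ∃ v0 : ℕ, ∀ v, v0 ≤ v → ∀ X, Win v X →
    (#{m ∈ SO X | ¬ TypN2 v m} : ℝ) ≤ ε * X := by
  obtain ⟨C, hC, few⟩ := bad_few
  obtain ⟨C1, wl⟩ := wit_lower
  obtain ⟨C5, c5⟩ := class_lower (a := 5) (by decide) (by norm_num)
  obtain ⟨C3, c3⟩ := class_lower (a := 7) (by decide) (by norm_num)
  set K : ℝ := 8 * Real.exp 6 with hK
  have K0 : 0 < K := by positivity
  have t1 := (tendsto_pow_const_div_const_pow_of_one_lt 78 (r := 2) one_lt_two).eventually_le_const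
    (show 0 < ε / (1 + K + C * K + 2 * C) by positivity)
  have t2 := (tendsto_pow_const_div_const_pow_of_one_lt 27 (r := 2) one_lt_two).eventually_le_const
    one_pos
  obtain ⟨v0, hv0⟩ := eventually_atTop.1 ((t1.and t2).and ((eventually_ge_atTop 30).and
    (tendsto_natCast_atTop_atTop (R := ℝ).eventually_ge_atTop (max C1 (max C5 C3)))))
  refine ⟨v0, fun v hv X hw => ?_⟩
  obtain ⟨⟨a1, a2⟩, a3, a4⟩ := hv0 v hv
  simp only [max_le_iff] at a4
  have a5 : v ^ 27 ≤ 2 ^ v := by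
    rw [div_le_one (by positivity)] at a2
    exact_mod_cast a2
  have a6 : (30 : ℝ) ≤ v := by exact_mod_cast a3
  have hY := bad_Y (v := v) (by omega)
  have hs := bad_sum (v := v) (by omega)
  have X0 : (0 : ℝ) ≤ X := Nat.cast_nonneg X
  have b1 := bad_markov X (v ^ 12) (fun _ => True) (Icc 1 X)
    fun m hm d hd => by
      obtain ⟨⟨m1, m2⟩, m3, -⟩ := An.mem_SO.1 hm
      rw [filter_true, Nat.prod_primeFactors_of_squarefree m3] at hd
      exact mem_Icc.2 ⟨Nat.pos_of_mem_divisors hd, (Nat.divisor_le hd).trans m2⟩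
  replace b1 := b1.trans (show (X : ℝ) * (∑ d ∈ Icc 1 X, 1 / (d : ℝ)) / 2 ^ v ^ 12 ≤ X / 2 ^ v by
    rw [div_le_div_iff₀ (by positivity) (by positivity), mul_assoc]
    exact mul_le_mul_of_nonneg_left ((mul_le_mul_of_nonneg_right (sum_inv_le X)
      (by positivity)).trans (bad_log (by omega) hw)) X0)
  have b2 := bad_markov X v (fun p => p ≤ YY v) (PP (YY v)).divisors fun m hm =>
    Nat.divisors_subset_of_dvd (PP_sq _).ne_zero (prod_dvd_prod_of_subset _ _ _ fun p hp => by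
      obtain ⟨p1, p2⟩ := mem_filter.1 hp
      have p3 := Nat.prime_of_mem_primeFactors p1
      exact mem_filter.2 ⟨mem_Icc.2 ⟨p3.pos, p2⟩, p3,
        (An.mem_SO.1 hm).2.2.of_dvd_nat (Nat.dvd_of_mem_primeFactors p1)⟩)
  replace b2 := b2.trans (show _ ≤ X * (K * (v : ℝ) ^ 78) / 2 ^ v by gcongr)
  obtain ⟨l1, l2⟩ := bad_loglog (d := 1) (by omega) a5 hw one_pos Nat.one_le_two_pow
  rw [Nat.div_one] at l1 l2
  have l3 := (bad_logs (v := v) (d := 1) (by omega) one_pos Nat.one_le_two_pow).1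
  have v0 : (0 : ℝ) ≤ (v : ℝ) ^ 12 := by positivity
  have b4 := few v X (v ^ 9) _ a3 l1 le_rfl (le_trans (by linarith) (c5 X _ l1 hY))
  have b5 := few v X (v ^ 9) _ a3 l1 le_rfl (le_trans (by linarith) (c3 X _ l1 hY))
  have b3 : ∀ d ∈ badD v, (#{m ∈ SO X | d ∣ m ∧
      #{p ∈ m.primeFactors | YY v < p ∧ p % 8 = 1 ∧ J(p | d) = -1} < v ^ 9} : ℝ) ≤
      C * X / 2 ^ v * (1 / (d : ℝ)) := by
    intro d hd
    obtain ⟨d1, d2, d3⟩ := mem_filter.1 hd
    have d0 := Nat.pos_of_mem_divisors d1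
    obtain ⟨l4, l5⟩ := bad_loglog (by omega) a5 hw d0 d3
    have l6 := (bad_logs (v := v) (by omega) d0 d3).2
    have := few v (X / d) (v ^ 9) _ a3 l4 le_rfl (le_trans (by linarith)
      (wl (X / d) _ d l4 hY (PP_div d1).1 (PP_div d1).2 d2 fun p hp => by
        have := Nat.primeFactors_mono (Nat.dvd_of_mem_divisors d1) (PP_sq _).ne_zero hp
        rw [PP_pf] at this
        exact (mem_Icc.1 (mem_filter.1 this).1).2))
    refine le_trans (Nat.cast_le.2 (card_le_card_of_injOn (· / d) (fun m hm => ?_)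
      fun m hm m' hm' e => ?_)) (this.trans ?_)
    · obtain ⟨m1, m2, m3⟩ := mem_filter.1 (mem_coe.1 hm)
      obtain ⟨⟨m4, m5⟩, m6, m7⟩ := An.mem_SO.1 m1
      have dv := Nat.div_dvd_of_dvd m2
      exact mem_coe.2 (mem_filter.2 ⟨An.mem_SO.2 ⟨⟨Nat.div_pos (Nat.le_of_dvd m4 m2) d0,
        Nat.div_le_div_right m5⟩, m6.squarefree_of_dvd dv, m7.of_dvd_nat dv⟩,
        (card_le_card (filter_subset_filter _ (Nat.primeFactors_mono dv m6.ne_zero))).trans_lt m3⟩)
    · exact (Nat.div_left_inj (mem_filter.1 (mem_coe.1 hm)).2.1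
        (mem_filter.1 (mem_coe.1 hm')).2.1).1 e
    · calc C * ((X / d : ℕ) : ℝ) / 2 ^ v ≤ C * (X / d) / 2 ^ v := by
            gcongr
            exact Nat.cast_div_le
        _ = _ := by ring
  have b6 := (Nat.cast_le (α := ℝ).2 (card_biUnion_le (s := badD v) (t := fun d => {m ∈ SO X |
    d ∣ m ∧ #{p ∈ m.primeFactors | YY v < p ∧ p % 8 = 1 ∧ J(p | d) = -1} < v ^ 9}))).trans
    (show _ ≤ C * X / 2 ^ v * (K * (v : ℝ) ^ 78) by
      rw [Nat.cast_sum]
      refine (sum_le_sum b3).trans ?_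
      rw [← mul_sum]
      exact mul_le_mul_of_nonneg_left ((sum_le_sum_of_subset_of_nonneg (filter_subset _ _)
        fun _ _ _ => by positivity).trans hs) (by positivity))
  have un : ∀ S1 S2 S3 S4 S5 T : Finset ℕ,
      (∀ m ∈ T, m ∉ S1 → m ∉ S2 → m ∉ S3 → m ∉ S4 → m ∉ S5 → False) →
      (#T : ℝ) ≤ #S1 + #S2 + #S3 + #S4 + #S5 := fun S1 S2 S3 S4 S5 T h => by
    have h1 := card_le_card (show T ⊆ S1 ∪ S2 ∪ S3 ∪ S4 ∪ S5 from fun m hm => by
      have := h m hm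
      simp only [mem_union]
      tauto)
    have h2 := card_union_le (S1 ∪ S2 ∪ S3 ∪ S4) S5
    have h3 := card_union_le (S1 ∪ S2 ∪ S3) S4
    have h4 := card_union_le (S1 ∪ S2) S3
    have h5 := card_union_le S1 S2
    exact_mod_cast (by omega : #T ≤ #S1 + #S2 + #S3 + #S4 + #S5)
  refine (un _ _ _ _ _ _ fun m hm n1 n2 n3 n4 n5 => ?_).trans
    ((add_le_add (add_le_add (add_le_add (add_le_add b1 b2) b6) b4) b5).trans ?_)
  · obtain ⟨m1, m3⟩ := mem_filter.1 hm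
    obtain ⟨-, -, m5⟩ := An.mem_SO.1 m1
    simp only [mem_filter, m1, true_and, not_lt, mem_biUnion, not_exists, not_and,
      filter_true] at n1 n2 n3 n4 n5
    exact m3 (ab_typ m5 n1 n2 n3 n4 n5)
  · have e1 : (1 : ℝ) ≤ (v : ℝ) ^ 78 := one_le_pow₀ (by linarith)
    rw [le_div_iff₀ (by positivity)] at a1
    calc _ ≤ X * (v : ℝ) ^ 78 / 2 ^ v + X * (K * (v : ℝ) ^ 78) / 2 ^ v +
          C * X / 2 ^ v * (K * (v : ℝ) ^ 78) + C * X * (v : ℝ) ^ 78 / 2 ^ v +
          C * X * (v : ℝ) ^ 78 / 2 ^ v := by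
          have e2 : (X : ℝ) / 2 ^ v ≤ X * (v : ℝ) ^ 78 / 2 ^ v :=
            div_le_div_of_nonneg_right (le_mul_of_one_le_right X0 e1) (by positivity)
          have e3 : C * X / 2 ^ v ≤ C * X * (v : ℝ) ^ 78 / 2 ^ v :=
            div_le_div_of_nonneg_right (le_mul_of_one_le_right (by positivity) e1) (by positivity)
          linarith
      _ = (v : ℝ) ^ 78 / 2 ^ v * (1 + K + C * K + 2 * C) * X := by ring
      _ ≤ _ := mul_le_mul_of_nonneg_right a1 X0

end Pool.Agent.Lib.MP_f8d36e_nt.GG
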