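import Pool.Agent.Lib.MP_f8d36e_nt.Elem
import Pool.Agent.Lib.MP_f8d36e_nt.GG.CDefs

/-! Job AE: the criterion does not depend on the names of the indices. -/

set_option autoImplicit false
set_option linter.unusedSectionVars false

open Matrix Finset

namespace Pool.Agent.Lib.MP_f8d36e_nt.GG

variable {ι κ : Type} [Fintype ι] [DecidableEq ι] [Fintype κ] [DecidableEq κ]

theorem ae_zero (e : ι ≃ κ) {K : Type} [Zero K] {y : κ → K} (h : (fun i => y (e i)) = 0) :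
    y = 0 := funext fun k => by
  obtain ⟨i, rfl⟩ := e.surjective k
  exact congrFun h i

theorem ae_good (e : ι ≃ κ) {u w β : κ → F2} {R : Matrix κ κ F2} {p q T : Kb}
    (h : GoodPt (fun i => u (e i)) (fun i => w (e i)) (fun i => β (e i)) (R.submatrix e e) p q T) :
    GoodPt u w β R p q T := fun y e1 e2 e3 e4 =>
  ae_zero e (h (fun i => y (e i)) (fun i => by rw [← e1 (e i), ← e.sum_comp]; rfl)
    ((e.sum_comp fun k => algebraMap F2 Kb (w k) * y k).trans e2)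
    ((e.sum_comp fun k => algebraMap F2 Kb (w k * β k) * y k).trans e3)
    ((e.sum_comp fun k => algebraMap F2 Kb (u k * β k) * y k).trans e4))

theorem ae_sq (e : ι ≃ κ) {w : κ → F2} {R : Matrix κ κ F2} {T : Kb}
    (h : SqPt (fun i => w (e i)) (R.submatrix e e) T) : SqPt w R T := fun y e1 =>
  ae_zero e (h (fun i => y (e i)) fun i => by rw [← e1 (e i), ← e.sum_comp]; rfl)

theorem ae_lsys (e : ι ≃ κ) {u w β : κ → F2} {R : Matrix κ κ F2} {n0 n1 : ι} {x T : Kb}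
    {y : κ → Kb} {H H' : Fin 3 → Kb} (h : LSys u w β R (e n0) (e n1) x T y H H') :
    LSys (fun i => u (e i)) (fun i => w (e i)) (fun i => β (e i)) (R.submatrix e e) n0 n1 x T
      (fun i => y (e i)) H H' := by
  obtain ⟨h0, h1, h2, h3, h4, h5⟩ := h
  refine ⟨h0, h1, fun i i0 i1 => ?_, ?_, ?_, ?_⟩
  · have := h2 (e i) (fun a => i0 (e.injective a)) fun a => i1 (e.injective a)
    unfold Row at this ⊢
    rw [← this, ← e.sum_comp]
    rfl
  · rw [← h3, ← e.sum_comp]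
  · rw [← h4, ← e.sum_comp]
  · rw [← h5, ← e.sum_comp]

theorem ae_pts (e : ι ≃ κ) {u w β : κ → F2} {R : Matrix κ κ F2} {n0 n1 : ι} {a b : Kb}
    (h : Pts (fun i => u (e i)) (fun i => w (e i)) (fun i => β (e i)) (R.submatrix e e) n0 n1
      a b) : Pts u w β R (e n0) (e n1) a b where
  h0 := h.h0
  h1 := h.h1
  b0 := h.b0
  b1 := h.b1
  pz := ae_good e h.pz
  gen := fun x x1 x2 => ae_good e (h.gen x x1 x2)
  one := ⟨h.one.1, ae_sq e h.one.2⟩
  spec := fun x hx => by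
    obtain ⟨s1, s2, s3⟩ := h.spec x hx
    refine ⟨s1, fun g g' g1 g2 y z hy => ?_, fun t0 t1 a1 a2 a3 c hc y z0 z2 z3 hy =>
      s3 t0 t1 a1 a2 a3 c hc _ z0 z2 z3 (ae_lsys e hy)⟩
    obtain ⟨b1, b2⟩ := s2 g g' g1 g2 _ z (ae_lsys e hy)
    exact ⟨ae_zero e b1, b2⟩

theorem Crit2.equiv (e : ι ≃ κ) {u w : κ → F2} {R : Matrix κ κ F2}
    (h : Crit2 (fun i => u (e i)) (fun i => w (e i)) (R.submatrix e e)) : Crit2 u w R := by
  obtain ⟨⟨i, hi⟩, a, b, h⟩ := h
  refine ⟨⟨e i, hi⟩, a, b, fun β ε hβ => ?_⟩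
  have d : ∀ f g : κ → F2, ((fun i => f (e i)) ⬝ᵥ fun i => g (e i)) = f ⬝ᵥ g := fun f g =>
    e.sum_comp fun k => f k * g k
  obtain ⟨n0, n1, hn⟩ := h (fun i => β (e i)) ε ⟨fun i => by
    rw [d, ← hβ.1 (e i)]
    exact d (R (e i)) β, hβ.2.imp_left fun h0 h1 => h0 (ae_zero e h1)⟩
  exact ⟨e n0, e n1, ae_pts e hn⟩

theorem Rm_equiv (e : ι ≃ κ) (e0 : F2) (u w : κ → F2) (ρ : κ → κ → F2) :
    Rm e0 (fun i => u (e i)) (fun i => w (e i)) (fun i j => ρ (e i) (e j)) =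
      (Rm e0 u w ρ).submatrix e e := by
  ext i j
  unfold Rm
  rw [e.sum_comp u]
  exact elem_Rmat e (fun k => (1 + ∑ j, u j) * u k + e0 * w k) ρ i j

theorem Typ2.equiv (e : ι ≃ κ) {v : ℕ} {B : Finset ι} {B' : Finset κ} {u w : ι → F2}
    {u' w' : κ → F2} {ρ : ι → ι → F2} {ρ' : κ → κ → F2} (hB : ∀ i, i ∈ B ↔ e i ∈ B')
    (hu : ∀ i, u i = u' (e i)) (hw : ∀ i, w i = w' (e i))
    (hρ : ∀ j ∈ B, ∀ i, i ∉ B → ρ j i = ρ' (e j) (e i))
    (ha : ∀ i j, i ≠ j → ρ i j + ρ j i = u i * u j) (h : Typ2 v B' u' w' ρ') :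
    Typ2 v B u w ρ := by
  have hc : ∀ a b i, i ∈ cls u w B a b ↔ e i ∈ cls u' w' B' a b := by
    intro a b i
    simp only [cls, mem_filter, hB, hu, hw]
  refine ⟨?_, ?_, ha, fun η h0 h1 => ?_, ?_, ?_⟩
  · rw [Fintype.card_congr e]; exact h.card
  · rw [Finset.card_equiv (t := B'ᶜ) e fun i => by simp only [mem_compl, hB]]
    exact h.bord
  · have h2 := h.wit (fun j => η (e.symm j)) (fun h3 => h0 (funext fun i => by
      simpa using congrFun h3 (e i))) (fun j hj => h1 _ ((hB _).2 (by simpa using hj)))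
    refine h2.trans (le_of_eq (Finset.card_equiv e fun j => ?_).symm)
    simp only [mem_filter, ← hc]
    refine and_congr_right fun hj => ?_
    have hj' : j ∈ B := (mem_filter.1 hj).1
    have : ∑ i, ρ j i * η i = ∑ i, ρ' (e j) i * η (e.symm i) := by
      rw [← Equiv.sum_comp e]
      refine sum_congr rfl fun i _ => ?_
      rw [e.symm_apply_apply]
      by_cases hi : i ∈ B
      · rw [h1 i hi, mul_zero, mul_zero]
      · rw [hρ j hj' i hi]
    rw [this]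
  · rw [Finset.card_equiv e (hc 0 1)]; exact h.five
  · rw [Finset.card_equiv e (hc 1 0)]; exact h.seven

end Pool.Agent.Lib.MP_f8d36e_nt.GG
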