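import Pool.Agent.Lib.MP_f8d36e_nt.GG.MDefs

/-! Job MC: the union bound over admissible pairs. -/

set_option autoImplicit false
set_option linter.unusedSectionVars false

open Matrix Finset

namespace Pool.Agent.Lib.MP_f8d36e_nt.GG

variable {ι : Type} [Fintype ι] [DecidableEq ι] {B : Finset ι} {u w β : ι → F2}
  {ρ : ι → ι → F2} {e0 ε : F2} {v : ℕ}

theorem Rm_add (s : Matrix ι ι F2) :
    Rm e0 u w (fun i j => ρ i j + s i j) = Rm e0 u w ρ + condLap s := cond_R s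

theorem Rm_anti (h : ∀ i j, i ≠ j → ρ i j + ρ j i = u i * u j) (i j : ι) :
    Rm e0 u w ρ i j + Rm e0 u w ρ j i = u i * u j + if i = j then u i else 0 := by
  by_cases e : i = j
  · subst e
    rw [cond_self, if_pos rfl]
    generalize u i = a
    revert a
    decide
  · simp only [Rm, Rmat, if_neg e, if_neg (Ne.symm e), h i j e, add_zero]

theorem Rm_row (i : ι) : ∑ j, Rm e0 u w ρ i j = (1 + ∑ j, u j) * u i + e0 * w i := by
  have k : ∑ j ∈ univ.erase i, Rm e0 u w ρ i j = ∑ j ∈ univ.erase i, ρ i j :=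
    sum_congr rfl fun j hj => if_neg (ne_of_mem_erase hj).symm
  have k' : Rm e0 u w ρ i i = (1 + ∑ j, u j) * u i + e0 * w i + ∑ j ∈ univ.erase i, ρ i j :=
    if_pos rfl
  rw [← add_sum_erase _ _ (mem_univ i), k, k', add_assoc, cond_self, add_zero]

theorem cond_up {n0 n1 : ι} (hn0 : n0 ∈ B) (hn1 : n1 ∈ B) (h0 : β n0 = 0) (h1 : β n1 = 1)
    (Φ : Matrix ι ι F2) (t : ι → F2) (E : Sym ((B.erase n0).erase n1) → Prop) :
    pr (fun s : Alt B => (∀ i, ((Φ + condLap (s : Matrix ι ι F2)) *ᵥ β) i = t i) ∧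
      E (condS n0 n1 s)) ≤ pr E / 2 ^ (#B - 1) := by
  let t0 : B.erase n1 → F2 := fun i => t i + (Φ *ᵥ β) i
  have e1 := pr_surj (condT (B := B) β n0 n1) (condT_surj hn0 hn1 h0 h1)
    fun x => E x.1 ∧ x.2 = t0
  rw [pr_prod, Nat.card_fun, Nat.card_zmod, Nat.card_eq_fintype_card, Fintype.card_coe,
    card_erase_of_mem hn1] at e1
  push_cast at e1
  rw [← e1]
  refine pr_mono fun s hs => ⟨hs.2, funext fun i => ?_⟩
  have k := hs.1 i
  rw [add_mulVec, Pi.add_apply] at k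
  change (condLap (s : Matrix ι ι F2) *ᵥ β) i = t i + (Φ *ᵥ β) i
  linear_combination k - cond_self ((Φ *ᵥ β) i)

theorem mc_num (hv : 10 ≤ v) {n : ℕ} (hn : n ≤ v ^ 12) :
    (2 : ℝ) ^ (v + 2) * Real.exp (n * ((1 / (v : ℝ) ^ 5) ^ 2 / 2) - 1 / (v : ℝ) ^ 5 * (v ^ 7 : ℕ))
      ≤ 1 / 2 ^ (2 * v + 3) := by
  have h6 : (10 : ℝ) ≤ v := by exact_mod_cast hv
  have h0 : (0 : ℝ) < v := by linarith
  have hn' : (n : ℝ) ≤ v ^ 12 := by exact_mod_cast hn
  have e1 : n * ((1 / (v : ℝ) ^ 5) ^ 2 / 2) - 1 / (v : ℝ) ^ 5 * (v ^ 7 : ℕ) ≤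
      -((3 * v + 5 : ℕ) : ℝ) := by
    have k1 : n * ((1 / (v : ℝ) ^ 5) ^ 2 / 2) ≤ v ^ 12 * ((1 / (v : ℝ) ^ 5) ^ 2 / 2) :=
      mul_le_mul_of_nonneg_right hn' (by positivity)
    have k2 : (v : ℝ) ^ 12 * ((1 / (v : ℝ) ^ 5) ^ 2 / 2) = v ^ 2 / 2 := by field_simp
    have k3 : 1 / (v : ℝ) ^ 5 * (v ^ 7 : ℕ) = v ^ 2 := by push_cast; field_simp
    rw [k3]
    push_cast
    nlinarith
  have e2 : (2 : ℝ) ^ (3 * v + 5) ≤ Real.exp ((3 * v + 5 : ℕ) : ℝ) := by
    rw [← Real.exp_one_pow]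
    exact pow_le_pow_left₀ zero_le_two (by linarith [Real.add_one_le_exp (1 : ℝ)]) _
  have e3 := (Real.exp_le_exp.mpr e1).trans ((Real.exp_neg _).trans_le
    (inv_anti₀ (by positivity) e2))
  refine (mul_le_mul_of_nonneg_left e3 (by positivity)).trans_eq ?_
  field_simp
  ring

theorem mc_off {η : ι → F2} (hη : ∀ j ∈ B, η j = 0) (a : ι → F2) {j : ι} (hj : j ∈ B) :
    (Rmat a ρ *ᵥ η) j = ∑ i, ρ j i * η i := by
  refine sum_congr rfl fun i _ => ?_
  by_cases e' : j = i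
  · rw [← e', hη j hj, mul_zero, mul_zero]
  · simp only [Rmat, if_neg e']

theorem cond_bad2 (hv : 10 ≤ v) (h : Typ2 v B u w ρ) :
    pr (fun β : ι → F2 => ¬ GoodB v B u w (Rm e0 u w ρ) β) ≤ 1 / 2 ^ (2 * v + 3) := by
  classical
  let A : (↥Bᶜ → F2) → Finset ι := fun ζ => {j ∈ cls u w B 0 0 | ∑ i : ↥Bᶜ, ρ j i * ζ i = 1}
  let 𝒜 : Finset (Finset ι) :=
    insert B (insert (cls u w B 0 1) (insert (cls u w B 1 0) (univ.image A)))
  have hA : #((univ : Finset F2) ×ˢ 𝒜) ≤ 2 ^ (v + 2) := by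
    have k1 : #(univ.image A) ≤ 2 ^ v := card_image_le.trans (by
      rw [card_univ, Fintype.card_fun, ZMod.card, Fintype.card_coe]
      exact Nat.pow_le_pow_right two_pos h.bord)
    have k2 : #𝒜 ≤ #(univ.image A) + 1 + 1 + 1 :=
      (card_insert_le _ _).trans (Nat.succ_le_succ ((card_insert_le _ _).trans
        (Nat.succ_le_succ (card_insert_le _ _))))
    have k3 : 2 ^ 2 ≤ 2 ^ v := Nat.pow_le_pow_right two_pos (by omega)
    rw [card_product, card_univ, ZMod.card, pow_add]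
    omega
  have k := pr_exists_le_card ((univ : Finset F2) ×ˢ 𝒜)
    (fun x (β : ι → F2) => 2 * cnt β x.2 x.1 + v ^ 7 < x.2.card)
    fun x _ => cond_tail x.2 x.1 (v ^ 7) (l := 1 / (v : ℝ) ^ 5) (by positivity)
  refine (pr_mono fun β hβ => ?_).trans (k.trans ((mul_le_mul_of_nonneg_right
    (by exact_mod_cast hA) (Real.exp_pos _).le).trans (mc_num hv h.card)))
  by_contra e
  simp only [not_exists, not_and, not_lt, Prod.forall, mem_product, mem_univ, true_and] at e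
  have k4 : v ^ 7 < v ^ 9 := Nat.pow_lt_pow_right (by omega) (by norm_num)
  refine hβ ⟨fun b η h0 hη => ?_, fun b => e b _ (by simp [𝒜]), fun b => e b _ (by simp [𝒜]),
    fun b => ?_⟩
  · have k1 := e b (A fun i => η i) (by simp [𝒜])
    have k2 : ∀ j, ∑ i : ↥Bᶜ, ρ j i * η i = ∑ i, ρ j i * η i := fun j => by
      rw [← sum_subset (subset_univ Bᶜ) fun i _ hi => by
        rw [hη i (by simpa using hi), mul_zero]]
      exact sum_coe_sort Bᶜ fun i => ρ j i * η i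
    have k3 : v ^ 9 ≤ #(A fun i => η i) := by
      simp only [A, k2]
      exact h.wit η h0 hη
    obtain ⟨j, hj⟩ := card_pos.mp (show 0 < cnt β (A fun i => η i) b by omega)
    simp only [A, k2, mem_filter] at hj
    exact ⟨j, hj.1.1, hj.2, (mc_off hη _ (mem_filter.mp hj.1.1).1).trans hj.1.2⟩
  · have k1 := e b (cls u w B 1 0) (by simp [𝒜])
    have k3 := h.seven
    obtain ⟨j, hj⟩ := card_pos.mp (show 0 < cnt β (cls u w B 1 0) b by omega)
    exact ⟨j, mem_filter.mp hj⟩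

/-- The rows off `B`. -/
def mc_rows (B : Finset ι) (R : Matrix ι ι F2) : Matrix ↥Bᶜ ι F2 := fun i j => R i j

theorem mc_surj (hv : 0 < v) (h : Typ2 v B u w ρ) (a : ι → F2) :
    Function.Surjective (mc_rows B (Rmat a ρ)).mulVecLin := by
  have h9 : 0 < v ^ 9 := pow_pos hv 9
  have hli : LinearIndependent F2 (mc_rows B (Rmat a ρ)).row := by
    rw [Fintype.linearIndependent_iff]
    intro c hc
    have k : ∀ j, ∑ i : ↥Bᶜ, c i * Rmat a ρ i j = 0 := fun j => by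
      have := congrFun hc j
      simpa [mc_rows, Matrix.row] using this
    let η : ι → F2 := fun i => if hi : i ∈ Bᶜ then c ⟨i, hi⟩ else 0
    have hη : ∀ i : ↥Bᶜ, η i = c i := fun i => dif_pos i.2
    have hη' : ∀ j ∈ B, η j = 0 := fun j hj => dif_neg (by simpa using hj)
    have k1 : η = 0 := by
      by_contra e
      obtain ⟨j, hj⟩ := card_pos.mp (h9.trans_le (h.wit η e hη'))
      simp only [cls, mem_filter] at hj
      obtain ⟨⟨hj, hu, hw⟩, hs⟩ := hj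
      have k3 : ∑ i, ρ j i * η i = ∑ i : ↥Bᶜ, c i * Rmat a ρ i j := by
        rw [← sum_subset (subset_univ Bᶜ) fun i _ hi => by
          rw [hη' i (by simpa using hi), mul_zero], ← sum_coe_sort]
        refine sum_congr rfl fun i _ => ?_
        have ne : (i : ι) ≠ j := fun e => (mem_compl.mp i.2) (e ▸ hj)
        have := h.anti i j ne
        rw [hu, mul_zero] at this
        rw [hη, Rmat, if_neg ne, mul_comm]
        congr 1
        linear_combination this - cond_self (ρ i j)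
      rw [k3, k j] at hs
      exact zero_ne_one hs
    intro i
    rw [← hη, k1]
    rfl
  rw [← LinearMap.range_eq_top]
  apply Submodule.eq_top_of_finrank_eq
  rw [Module.finrank_fintype_fun_eq_card, ← hli.rank_matrix, Matrix.rank]

theorem card_bord (hv : 0 < v) (h : Typ2 v B u w ρ) (t : ι → F2) :
    pr (fun β : ι → F2 => ∀ i, i ∉ B → (Rm e0 u w ρ *ᵥ β) i = t i) ≤ 1 / 2 ^ #Bᶜ := by
  have e := pr_surj (mc_rows B (Rm e0 u w ρ)).mulVecLin.toAddMonoidHom (mc_surj hv h _)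
    fun y => y = fun i : ↥Bᶜ => t i
  rw [cond_pt, Nat.card_fun, Nat.card_zmod, Nat.card_eq_fintype_card, Fintype.card_coe] at e
  push_cast at e
  rw [← e]
  exact pr_mono fun β k => funext fun i => k i (mem_compl.mp i.2)

theorem adm_two (hv : 0 < v) (h : Typ2 v B u w ρ) (s : Alt B)
    (ha : Adm u w (Rm e0 u w fun i j => ρ i j + (s : Matrix ι ι F2) i j) β ε) :
    ∃ n0 ∈ B, ∃ n1 ∈ B, β n0 = 0 ∧ β n1 = 1 := by
  have h9 : 0 < v ^ 9 := pow_pos hv 9
  have two : ∀ a : F2, a = 0 ∨ a = 1 := by decide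
  by_contra e
  obtain ⟨c, hc⟩ : ∃ c, ∀ j ∈ B, β j = c := by
    by_cases k : ∃ n0 ∈ B, β n0 = 0
    · obtain ⟨n0, hn0, h0⟩ := k
      exact ⟨0, fun j hj => (two _).resolve_right fun h1 => e ⟨n0, hn0, j, hj, h0, h1⟩⟩
    · exact ⟨1, fun j hj => (two _).resolve_left fun h0 => k ⟨j, hj, h0⟩⟩
  have row : ∀ i, (Rm e0 u w (fun i j => ρ i j + (s : Matrix ι ι F2) i j) *ᵥ fun _ => c) i =
      ((1 + ∑ j, u j) * u i + e0 * w i) * c := fun i => by
    rw [← Rm_row (ρ := fun i j => ρ i j + (s : Matrix ι ι F2) i j) i, sum_mul]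
    rfl
  have hη : ∀ j ∈ B, (β - fun _ => c : ι → F2) j = 0 := fun j hj => sub_eq_zero.mpr (hc j hj)
  have k1 : β = fun _ => c := by
    by_contra k
    obtain ⟨j, hj⟩ := card_pos.mp (h9.trans_le (h.wit _ (sub_ne_zero.mpr k) hη))
    simp only [cls, mem_filter] at hj
    obtain ⟨⟨hj, hu, hw⟩, hs⟩ := hj
    have k2 : (Rm e0 u w (fun i j => ρ i j + (s : Matrix ι ι F2) i j) *ᵥ
        (β - fun _ => c : ι → F2)) j = 0 := by
      rw [mulVec_sub, Pi.sub_apply, row, ha.1, hu, hw]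
      simp
    rw [Rm, mc_off hη _ hj] at k2
    have k3 : ∀ i, (ρ j i + (s : Matrix ι ι F2) j i) * (β - fun _ => c : ι → F2) i =
        ρ j i * (β - fun _ => c : ι → F2) i := fun i => by
      by_cases hi : i ∈ B
      · rw [hη i hi, mul_zero, mul_zero]
      · rw [s.2.1.1 j i, s.2.1.2 i j hi, add_zero]
    rw [sum_congr rfl fun i _ => k3 i, hs] at k2
    exact one_ne_zero k2
  have k4 := ha.1
  have k5 := ha.2
  rw [k1] at k4 k5
  rcases two c with rfl | rfl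
  · obtain ⟨j, hj⟩ := card_pos.mp (h9.trans_le h.five)
    have hj' := (mem_filter.mp hj).2
    have := k4 j
    rw [row, hj'.1, hj'.2] at this
    exact k5.elim (fun k => k rfl) fun k => k (by simpa using this.symm)
  · obtain ⟨j, hj⟩ := card_pos.mp (h9.trans_le h.seven)
    have hj' := (mem_filter.mp hj).2
    have := k4 j
    rw [row, hj'.1, hj'.2] at this
    simp [dotProduct] at this

theorem mc_term (hv : 0 < v) (h : Typ2 v B u w ρ) (Bad : Alt B → Prop) {d : ℝ} (hd : 0 ≤ d)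
    (hb : GoodB v B u w (Rm e0 u w ρ) β → pr (fun s : Alt B =>
      Adm u w (Rm e0 u w fun i j => ρ i j + (s : Matrix ι ι F2) i j) β ε ∧ Bad s) ≤ d) :
    pr (fun s : Alt B =>
      Adm u w (Rm e0 u w fun i j => ρ i j + (s : Matrix ι ι F2) i j) β ε ∧ Bad s) ≤
      d * ∑ η : F2, pr_ind (∀ i, i ∉ B → (Rm e0 u w ρ *ᵥ β) i = η * u i + ε * w i) +
        1 / 2 ^ (#B - 1) * pr_ind (¬ GoodB v B u w (Rm e0 u w ρ) β) := by
  have n1 : 0 ≤ ∑ η : F2, pr_ind (∀ i, i ∉ B → (Rm e0 u w ρ *ᵥ β) i = η * u i + ε * w i) :=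
    sum_nonneg fun _ _ => pr_ind_nonneg _
  have n2 := pr_ind_nonneg (¬ GoodB v B u w (Rm e0 u w ρ) β)
  by_cases hs : ∃ s : Alt B, Adm u w (Rm e0 u w fun i j => ρ i j + (s : Matrix ι ι F2) i j) β ε
  · obtain ⟨s0, hs0⟩ := hs
    by_cases hg : GoodB v B u w (Rm e0 u w ρ) β
    · have k : ∀ i, i ∉ B → (Rm e0 u w ρ *ᵥ β) i = u ⬝ᵥ β * u i + ε * w i := fun i hi => by
        rw [← hs0.1 i, Rm_add, add_mulVec, Pi.add_apply]
        simp [mulVec, dotProduct, condLap_zero fun l => s0.2.1.2 i l hi]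
      have k1 : (1 : ℝ) ≤
          ∑ η : F2, pr_ind (∀ i, i ∉ B → (Rm e0 u w ρ *ᵥ β) i = η * u i + ε * w i) :=
        (pr_ind_pos k).ge.trans (single_le_sum (f := fun η : F2 =>
          pr_ind (∀ i, i ∉ B → (Rm e0 u w ρ *ᵥ β) i = η * u i + ε * w i))
          (fun _ _ => pr_ind_nonneg _) (mem_univ _))
      exact (hb hg).trans ((le_mul_of_one_le_right hd k1).trans
        (le_add_of_nonneg_right (by positivity)))
    · obtain ⟨n0, hn0, n1, hn1, h0, h1⟩ := adm_two hv h s0 hs0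
      have k := cond_up hn0 hn1 h0 h1 (Rm e0 u w ρ) (fun i => u ⬝ᵥ β * u i + ε * w i)
        fun _ => True
      rw [pr_ind_pos hg, mul_one]
      refine (pr_mono fun s hs => ?_).trans (k.trans ((div_le_div_of_nonneg_right pr_le_one
        (by positivity)).trans (le_add_of_nonneg_left (by positivity))))
      exact ⟨fun i => by rw [← Rm_add]; exact hs.1.1 i, trivial⟩
  · rw [pr_eq_zero fun s k => hs ⟨s, k.1⟩]
    positivity

theorem mc_sum (P : (ι → F2) → Prop) {c : ℝ} (hc : pr P ≤ c) :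
    ∑ β, pr_ind (P β) ≤ c * (2 ^ #B * 2 ^ #Bᶜ) := by
  rw [pr_sum, div_le_iff₀ pr_card, Fintype.card_fun, ZMod.card, ← card_add_card_compl B] at hc
  push_cast at hc
  rwa [pow_add] at hc

theorem union_bound (hv : 10 ≤ v) (h : Typ2 v B u w ρ) (Bad : (ι → F2) → F2 → Alt B → Prop)
    {δ : ℝ} (hδ : 0 ≤ δ) (hb : ∀ β ε, GoodB v B u w (Rm e0 u w ρ) β → pr (fun s : Alt B =>
      Adm u w (Rm e0 u w fun i j => ρ i j + (s : Matrix ι ι F2) i j) β ε ∧ Bad β ε s) ≤
        δ / 2 ^ (#B - 1)) :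
    pr (fun s : Alt B => ∃ β ε,
      Adm u w (Rm e0 u w fun i j => ρ i j + (s : Matrix ι ι F2) i j) β ε ∧ Bad β ε s) ≤
        8 * δ + 1 / 2 ^ v := by
  have hv0 : 0 < v := by omega
  have k := pr_exists_le (univ : Finset (F2 × (ι → F2))) fun x (s : Alt B) =>
    Adm u w (Rm e0 u w fun i j => ρ i j + (s : Matrix ι ι F2) i j) x.2 x.1 ∧ Bad x.2 x.1 s
  refine (pr_mono fun s ⟨β, ε, hs⟩ => ⟨(ε, β), mem_univ _, hs⟩).trans (k.trans ?_)
  rw [Fintype.sum_prod_type]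
  have hB : (2 : ℝ) ^ #B ≤ 2 * 2 ^ (#B - 1) := by
    rw [← pow_succ']
    exact pow_le_pow_right₀ one_le_two (by omega)
  have hC : (2 : ℝ) ^ #Bᶜ ≤ 2 ^ v := pow_le_pow_right₀ one_le_two h.bord
  have k1 : ∀ ε : F2, ∑ β : ι → F2, pr (fun s : Alt B =>
      Adm u w (Rm e0 u w fun i j => ρ i j + (s : Matrix ι ι F2) i j) β ε ∧ Bad β ε s) ≤
      4 * δ + 1 / 2 ^ v / 2 := fun ε => by
    refine (sum_le_sum fun β _ => mc_term hv0 h (Bad β ε) (by positivity) (hb β ε)).trans ?_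
    rw [sum_add_distrib, ← mul_sum, ← mul_sum, sum_comm]
    have a1 : ∑ η : F2, ∑ β : ι → F2,
        pr_ind (∀ i, i ∉ B → (Rm e0 u w ρ *ᵥ β) i = η * u i + ε * w i) ≤ 4 * 2 ^ (#B - 1) := by
      refine (sum_le_card_nsmul _ _ _ fun η _ => mc_sum (B := B) _
        (card_bord hv0 h fun i => η * u i + ε * w i)).trans ?_
      rw [card_univ, ZMod.card, nsmul_eq_mul]
      have : (1 : ℝ) / 2 ^ #Bᶜ * (2 ^ #B * 2 ^ #Bᶜ) = 2 ^ #B := by field_simp
      rw [this]
      push_cast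
      linarith
    have a2 := (mc_sum (B := B) _ (cond_bad2 (e0 := e0) hv h)).trans
      (mul_le_mul_of_nonneg_left (mul_le_mul hB hC (by positivity) (by positivity))
        (by positivity))
    refine add_le_add ((mul_le_mul_of_nonneg_left a1 (by positivity)).trans_eq (by field_simp))
      ((mul_le_mul_of_nonneg_left a2 (by positivity)).trans ?_)
    have : (1 : ℝ) / 2 ^ (#B - 1) * (1 / 2 ^ (2 * v + 3) * (2 * 2 ^ (#B - 1) * 2 ^ v)) =
        1 / 2 ^ v / 4 := by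
      field_simp
      ring
    rw [this]
    have : (0 : ℝ) ≤ 1 / 2 ^ v := by positivity
    linarith
  refine (sum_le_card_nsmul _ _ _ fun ε _ => k1 ε).trans_eq ?_
  rw [card_univ, ZMod.card, nsmul_eq_mul]
  push_cast
  ring

end Pool.Agent.Lib.MP_f8d36e_nt.GG
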