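import Pool.Agent.Lib.MP_f8d36e_nt.GG.MB

/-! Job ML: the test along the line. -/

set_option autoImplicit false
set_option linter.unusedSectionVars false

open Matrix Finset

namespace Pool.Agent.Lib.MP_f8d36e_nt.GG

theorem ml_eta {ι K : Type} [Fintype ι] [DecidableEq ι] [Field K] [Algebra F2 K]
    {B J0 : Finset ι} {β : ι → F2} {Ψ0 Ψ1 : Matrix ι ι K} {x1 : K} {σ : ℕ} {st : ι} (c : F2)
    (hB : B ⊆ J0) (hst : st ∈ J0) (hst' : st ∉ B) (v γ : F2 → ι → F2)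
    (hv : ∀ b j, v b j ≠ 0 → j ∈ B ∧ β j = b) (hγ : ∀ b j, γ b j ≠ 0 → j ∈ B)
    (hs : ∀ b b', v b ⬝ᵥ γ b' = v b' ⬝ᵥ γ b)
    (h1 : ∀ x b, ∀ i ∈ J0, ((Ψ0 + x • Ψ1) *ᵥ
      ((fun j => algebraMap F2 K (v b j)) + Pi.single st (cf 1 x c b))) i =
        cf 1 x (β i) b * algebraMap F2 K (γ b i))
    (h2 : ∀ x b, ∀ i ∈ J0, ((Ψ0 + x • Ψ1)ᵀ *ᵥ
      ((fun j => algebraMap F2 K (v b j)) + Pi.single st (cf 1 x c b))) i =
        cf 1 x (β i) b * algebraMap F2 K (γ b i)) :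
    pr (fun S : Sym B => ∃ x, x ≠ 0 ∧ Ker J0 (J0.erase st) (pen β Ψ0 Ψ1 x S) ≠ ⊥) ≤
      pr (fun S : Sym B => ¬ Good σ x1 B J0 β Ψ0 Ψ1 S) +
      pr (fun S : Sym B => Mult J0 β Ψ0 Ψ1 S) + 4 * #J0 / 2 ^ σ := by
  rcases red_cases c with rfl | rfl
  swap
  · exact eta hB hst hst' v γ hv hγ hs h1 h2
  have t1 : ∀ a b : F2, a + 1 = b ↔ a = b + 1 := by decide
  have c1 : ∀ (x : K) (a b : F2), cf 1 x (a + 1) b = cf 1 x a (b + 1) := fun x a b => by
    simp only [cf, t1]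
  have c2 : ∀ (x : K) (b : F2), cf 1 x 1 b = cf 1 x 0 (b + 1) := fun x b => by
    rw [← c1, zero_add]
  have c3 : pen (fun i => β i + 1) Ψ0 Ψ1 = pen β Ψ0 Ψ1 := by
    funext x S
    ext i j
    simp only [pen, mat, cf, Matrix.of_apply, add_left_inj]
  have c4 : ∀ (b : F2) (y : ι → K), Vs B (fun i => β i + 1) b y = Vs B β (b + 1) y := fun b y => by
    simp only [Vs, t1]
  have := eta (β := fun i => β i + 1) (x1 := x1) (σ := σ) hB hst hst' (fun b => v (b + 1))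
    (fun b => γ (b + 1)) (fun b j h => ⟨(hv _ j h).1, (t1 _ _).2 (hv _ j h).2⟩) (fun b => hγ _)
    (fun b b' => hs _ _) (fun x b i hi => by rw [c1, c2]; exact h1 x _ i hi)
    fun x b i hi => by rw [c1, c2]; exact h2 x _ i hi
  unfold Good Mult at this ⊢
  rw [c3] at this
  simpa only [c4, zero_add, red_one, or_comm] using this

section
variable {ι k : Type} [Fintype ι] [DecidableEq ι] [Field k] [Finite k] [Algebra F2 k]
  {u w β : ι → F2} {Φ : Matrix ι ι F2} {B B' W Λ : Finset ι} {n0 n1 : ι} {v r : ℕ}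
  {f : k →+* Kb} {a b x1 : k} {c a1 a2 : F2}

theorem ml_mv {K : Type} [Field K] [Algebra F2 K] {bd : Bord K} (hs : IsSt bd c a1 a2)
    {R : Matrix ι ι F2} {y γ : ι → F2} {e : F2} {J : Finset ι} (x T : K)
    (hy : ∀ j, y j ≠ 0 → u j = 0 ∧ w j = 0 ∧ β j = e ∧ ∀ i, R i j = Φ j i)
    (hγ : ∀ i ∈ J, γ i = ∑ j, y j * Φ j i + if β i = c then a1 * w i + a2 * u i else 0)
    {i : ι ⊕ Fin 3} (hi : i ∈ J.disjSum univ) :
    (Bmat u w β R 1 x T bd *ᵥ ((fun j => algebraMap F2 K (Sum.elim y 0 j)) +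
      Pi.single (Sum.inr 2) (cf 1 x c e))) i =
      cf 1 x (bx β i) e * algebraMap F2 K (Sum.elim γ 0 i) := by
  rw [mulVec_add, Pi.add_apply, mulVec_single, mulVec, dotProduct, Fintype.sum_sum_type]
  rcases i with i | l
  · have a3 : ∀ j, Bmat u w β R 1 x T bd (.inl i) (.inl j) * algebraMap F2 K (y j) =
        cf 1 x (β i) e * algebraMap F2 K (y j * Φ j i) := fun j => by
      by_cases h : y j = 0
      · simp [h]
      · obtain ⟨-, h2, h3, h4⟩ := hy j h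
        simp only [Bmat, fromBlocks_apply₁₁, of_apply, h3, h4, map_mul]
        split_ifs with h5
        · rw [h5, h2, map_zero]
          ring
        · ring
    simp only [Sum.elim_inl, Sum.elim_inr, a3, Pi.zero_apply, map_zero, mul_zero, sum_const_zero,
      add_zero, op_smul_eq_mul, Pi.smul_apply, col_apply]
    rw [hγ i (inl_mem_disjSum.1 hi), map_add, map_sum, mul_add, mul_sum]
    simp only [Bmat, fromBlocks_apply₁₂, of_apply, (hs.1 _).1, (hs.1 _).2.2.1]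
    split_ifs with h
    · rw [h, map_add, map_mul, map_mul]
      ring
    · simp
  · have a3 : ∀ j, Bmat u w β R 1 x T bd (.inr l) (.inl j) * algebraMap F2 K (y j) = 0 := fun j => by
      by_cases h : y j = 0
      · simp [h]
      · simp [Bmat, (hy j h).1, (hy j h).2.1]
    simp only [Sum.elim_inl, Sum.elim_inr, a3, Pi.zero_apply, map_zero, mul_zero, sum_const_zero,
      add_zero, op_smul_eq_mul, Pi.smul_apply, col_apply]
    simp [Bmat, (hs.2 l).2]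

theorem ml_num (hv : 100 ≤ v) (hr : r ≤ 10 * v) {s : ℕ} (hs : s ≤ v + 5) :
    40 * r * (r + s + s + 1) ≤ v ^ 5 ∧ 40 * r * (v + s + s + 1) ^ 2 ≤ v ^ 5 := by
  have h2 : r + s + s + 1 ≤ 13 * v := by omega
  have h3 : v + s + s + 1 ≤ 4 * v := by omega
  constructor
  · calc 40 * r * (r + s + s + 1) ≤ 40 * (10 * v) * (13 * v) := by gcongr
      _ = 5200 * v ^ 2 := by ring
      _ ≤ 100 ^ 3 * v ^ 2 := by gcongr; norm_num
      _ ≤ v ^ 3 * v ^ 2 := by gcongr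
      _ = v ^ 5 := by ring
  · calc 40 * r * (v + s + s + 1) ^ 2 ≤ 40 * (10 * v) * (4 * v) ^ 2 := by gcongr
      _ = 6400 * v ^ 3 := by ring
      _ ≤ 100 ^ 2 * v ^ 3 := by gcongr; norm_num
      _ ≤ v ^ 2 * v ^ 3 := by gcongr
      _ = v ^ 5 := by ring

theorem ml_good (d : Dat2 v B B' W u w β Φ n0 n1) (hl : Line v r f a b x1) (b0 b1 : Bord k)
    (hc : ∀ x : Kb, x ≠ 0 → ColInj ((b0.map f).lin x (b1.map f)) univ univ ∧
      ColInj ((b0.map f).lin x (b1.map f)).tr univ univ)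
    (hΛ : Λ ⊆ cls u w B' 0 1) (h0 : v ^ 5 ≤ cnt β Λ 0) (h1 : v ^ 5 ≤ cnt β Λ 1) {J : Finset ι}
    (hW : W ⊆ J) (hΛJ : Λ ⊆ J) (h7 : ∀ c, ∃ i ∈ J, i ∈ cls u w B' 1 0 ∧ β i = c)
    (hJ : J ⊆ Jz n0 n1) :
    pr (fun S : Sym (inn B') => ¬ Good v (f x1) (inn B') (J.disjSum univ) (bx β)
      (Bmat u w β Φ 1 0 (f a) (b0.map f)) (Bmat u w β Φ 0 1 (f b) (b1.map f)) S) ≤ 6 / 2 ^ r := by
  have hv := d.big
  have h5 : ∀ c, ∃ i ∈ J, i ∈ cls u w B' 0 1 ∧ β i = c := fun c => by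
    obtain ⟨i, hi⟩ : ({i ∈ Λ | β i = c} : Finset ι).Nonempty := card_pos.mp (by
      refine lt_of_lt_of_le (show 0 < v ^ 5 by positivity) ?_
      rcases red_cases c with rfl | rfl
      exacts [h0, h1])
    rw [mem_filter] at hi
    exact ⟨i, hΛJ hi.1, hΛ hi.1, hi.2⟩
  have e0 : (Bmat u w β Φ 1 0 a b0).map f = Bmat u w β Φ 1 0 (f a) (b0.map f) := by
    rw [Bmat_map, map_one, map_zero]
  have e1 : (Bmat u w β Φ 0 1 b b1).map f = Bmat u w β Φ 0 1 (f b) (b1.map f) := by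
    rw [Bmat_map, map_one, map_zero]
  have hΛ' : inn Λ ⊆ J.disjSum univ ∩ inn B' :=
    subset_inter (disjSum_mono hΛJ (empty_subset _))
      (disjSum_mono (hΛ.trans (cls_sub _ _)) subset_rfl)
  have cs : #(J.disjSum univ \ inn B') ≤ #B'ᶜ + 3 := (card_sdiff_le _).trans_eq (card_inn B')
  have k0 := (cnt_inn (β := β) Λ 0).symm ▸ h0
  have k1 := (cnt_inn (β := β) Λ 1).symm ▸ h1
  have nm := ml_num hv hl.hi (s := #B'ᶜ + 3) (by have := d.cB; omega)
  have q1 := hc (f x1) ((_root_.map_ne_zero f).2 hl.x0)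
  rw [← Bord.map_lin] at q1
  have t1 := test_point hl.card hΛ' (fun _ _ => Iff.rfl) cs cs (shape_B d.ha hΛ)
    (inj_B (p := 1) (T := a + b * x1) d.toDat hW h5 h7 hJ hl.x0 (q1.1.of_map f))
    (by
      rw [Bmat_tr]
      exact inj_B d.tr.toDat hW h5 h7 hJ hl.x0 (ColInj.of_map f q1.2))
    k0 k1 nm.1 (.inl ⟨rfl, hl.x0, hl.g1, le_rfl⟩)
  have t2 := small_span f (x1 := f x1) (Ψ0 := Bmat u w β Φ 1 0 a b0) (Ψ1 := Bmat u w β Φ 0 1 b b1)
    hl.card hΛ' cs ⟨x1, rfl⟩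
    (fun x _ => by rw [e0, e1, Bmat_lin]; exact shape_B d.ha hΛ)
    (fun x hx => by rw [e0, e1, Bmat_lin]; exact inj_B d.toDat hW h5 h7 hJ hx (hc x hx).1)
    hl.line k0 k1 nm.2
  rw [e0, e1] at t2
  refine ((pr_mono fun S hS => ?_).trans pr_or_le).trans ((add_le_add t1 t2).trans_eq (by ring))
  refine or_iff_not_imp_left.2 fun h => ⟨?_, hS⟩
  have := ker_map f (not_not.1 h)
  rwa [mat_map, Bmat_map, map_one, Bord.map_lin, map_add, map_mul, ← Bmat_lin] at this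

theorem ml_dat (d : Dat v B B' W u w β Φ n0 n1) (c a1 a2 : F2) : ∃ y γ : F2 → ι → F2,
    (∀ e j, y e j ≠ 0 → j ∈ B' ∧ u j = 0 ∧ w j = 0 ∧ β j = e) ∧ (∀ e j, γ e j ≠ 0 → j ∈ B') ∧
    (∀ e e', y e ⬝ᵥ γ e' = y e' ⬝ᵥ γ e) ∧ ∀ e, ∀ i ∈ Jz n0 n1,
      γ e i = ∑ j, y e j * Φ j i + if β i = c then a1 * w i + a2 * u i else 0 := by
  choose y v1 v2 using fun e => red_onto d.wit e
    fun i => if β i = c then a1 * w i + a2 * u i else 0
  have hc := fun e j (hj : y e j ≠ 0) => mem_filter.1 (d.hW (v1 e j hj).1)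
  refine ⟨y, fun e i => if i ∈ B' then ∑ j, y e j * Φ j i +
    if β i = c then a1 * w i + a2 * u i else 0 else 0,
    fun e j hj => ⟨(hc e j hj).1, (hc e j hj).2.1, (hc e j hj).2.2, (v1 e j hj).2⟩,
    fun e j hj => by_contra fun h => hj (if_neg h), fun e e' => ?_, fun e i hi => ?_⟩
  · have t : ∀ e e', (y e ⬝ᵥ fun i => if i ∈ B' then ∑ j, y e' j * Φ j i +
        if β i = c then a1 * w i + a2 * u i else 0 else 0) =
        ∑ i, ∑ j, y e i * (y e' j * Φ j i) := fun e e' => sum_congr rfl fun i _ => by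
      by_cases h : y e i = 0
      · simp [h]
      · simp only [(hc e i h).1, (hc e i h).2.1, (hc e i h).2.2, if_true, mul_zero, add_zero,
          ite_self, mul_sum]
    rw [t, t, sum_comm]
    refine sum_congr rfl fun i _ => sum_congr rfl fun j _ => ?_
    by_cases h : y e j = 0
    · simp [h]
    · rw [red_symm d.ha (hc e j h).2.1 i]
      ring
  · by_cases h : i ∈ B'
    · exact if_pos h
    · simp only [mem_erase] at hi
      rw [v2 e i fun h' => h ((d.hB i).2 ⟨h', hi.2.1, hi.1⟩), red_self]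
      exact if_neg h

end

theorem pencil {ι k : Type} [Fintype ι] [DecidableEq ι] [Field k] [Finite k] [Algebra F2 k]
    {u w β : ι → F2} {Φ : Matrix ι ι F2} {B B' W : Finset ι} {n0 n1 : ι} {v r : ℕ}
    {f : k →+* Kb} {a b x1 : k} (d : Dat2 v B B' W u w β Φ n0 n1) (hl : Line v r f a b x1)
    (b0 b1 : Bord k) {c a1 a2 : F2}
    (hc : ∀ x : Kb, x ≠ 0 → ColInj ((b0.map f).lin x (b1.map f)) univ univ ∧
      ColInj ((b0.map f).lin x (b1.map f)).tr univ univ)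
    (hs : ∀ x : Kb, IsSt ((b0.map f).lin x (b1.map f)) c a1 a2) :
    pr (fun S : Sym B' => ∃ x : Kb, x ≠ 0 ∧ ¬ BS u w β (Φ + S) (Jz n0 n1) 1 x (f a + f b * x)
      ((b0.map f).lin x (b1.map f)) univ {0, 1}) ≤ 50 * (v : ℝ) ^ 24 / 2 ^ v := by
  have hv := d.big
  choose P hP hP' using fun c => exists_subset_card_eq
    (s := {i ∈ cls u w B' 0 1 | β i = c}) (n := v ^ 5)
    (by have := d.five c; unfold cnt at this; omega)
  have c0 : ∀ c, P c ⊆ P 0 ∪ P 1 → v ^ 5 ≤ cnt β (P 0 ∪ P 1) c := fun c hc => by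
    rw [← hP' c]
    exact card_le_card fun i hi => mem_filter.mpr ⟨hc hi, (mem_filter.mp (hP c hi)).2⟩
  have hΛ : P 0 ∪ P 1 ⊆ cls u w B' 0 1 :=
    union_subset ((hP 0).trans (filter_subset _ _)) ((hP 1).trans (filter_subset _ _))
  have cΛ : #(P 0 ∪ P 1) ≤ 2 * v ^ 5 := (card_union_le _ _).trans (by rw [hP', hP']; omega)
  have h0 := c0 0 subset_union_left
  have h1 := c0 1 subset_union_right
  generalize P 0 ∪ P 1 = Λ at hΛ cΛ h0 h1
  choose s s1 s2 using d.seven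
  have sub : B' ⊆ Jz n0 n1 := d.toDat.sub
  have hA : W ∪ Λ ∪ {s 0, s 1} ⊆ B' := union_subset
    (union_subset (d.hW.trans (cls_sub _ _)) (hΛ.trans (cls_sub _ _)))
    (insert_subset (cls_sub _ _ (s1 0)) (singleton_subset_iff.2 (cls_sub _ _ (s1 1))))
  have G : ∀ J : Finset ι, W ∪ Λ ∪ {s 0, s 1} ⊆ J → J ⊆ Jz n0 n1 →
      pr (fun S : Sym (inn B') => ¬ Good v (f x1) (inn B') (J.disjSum univ) (bx β)
        (Bmat u w β Φ 1 0 (f a) (b0.map f)) (Bmat u w β Φ 0 1 (f b) (b1.map f)) S) ≤ 6 / 2 ^ r ∧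
      pr (fun S : Sym (inn B') => ¬ Good v (f x1) (inn B') (J.disjSum univ) (bx β)
        (Bmat u w β Φ 1 0 (f a) (b0.map f))ᵀ (Bmat u w β Φ 0 1 (f b) (b1.map f))ᵀ S) ≤
        6 / 2 ^ r := fun J hJ hJ' => by
    have j1 := (subset_union_left.trans subset_union_left).trans hJ
    have j2 := (subset_union_right.trans subset_union_left).trans hJ
    have j3 : ∀ c, ∃ i ∈ J, i ∈ cls u w B' 1 0 ∧ β i = c := fun c =>
      ⟨s c, hJ (mem_union_right _ (by rcases red_cases c with rfl | rfl <;> simp)), s1 c, s2 c⟩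
    refine ⟨ml_good d hl b0 b1 hc hΛ h0 h1 j1 j2 j3 hJ', ?_⟩
    rw [Bmat_tr, Bmat_tr]
    exact ml_good d.tr hl b0.tr b1.tr (fun x hx => (hc x hx).symm) hΛ h0 h1 j1 j2 j3 hJ'
  obtain ⟨y, γ, e1, e2, e3, e4⟩ := ml_dat d.toDat c a1 a2
  have t1 := ml_eta (B := inn B') (J0 := (Jz n0 n1).disjSum univ) (β := bx β) (st := .inr 2)
    (Ψ0 := Bmat u w β Φ 1 0 (f a) (b0.map f)) (Ψ1 := Bmat u w β Φ 0 1 (f b) (b1.map f))
    (x1 := f x1) (σ := v) c (disjSum_mono sub (empty_subset _)) (by simp) (by simp)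
    (fun e => Sum.elim (y e) 0) (fun e => Sum.elim (γ e) 0)
    (by
      rintro e (j | j) h
      exacts [⟨inl_mem_disjSum.2 (e1 e j h).1, (e1 e j h).2.2.2⟩, absurd rfl h])
    (by
      rintro e (j | j) h
      exacts [inl_mem_disjSum.2 (e2 e j h), absurd rfl h])
    (fun e e' => by simp only [sumElim_dotProduct_sumElim, e3 e e', zero_dotProduct])
    (fun x e i hi => by
      rw [Bmat_lin]
      exact ml_mv (hs x) x _ (fun j h => ⟨(e1 e j h).2.1, (e1 e j h).2.2.1, (e1 e j h).2.2.2,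
        fun i => (red_symm d.ha (e1 e j h).2.1 i).symm⟩) (e4 e) hi)
    (fun x e i hi => by
      rw [Bmat_lin, Bmat_tr]
      exact ml_mv ⟨fun c' => ⟨((hs x).1 c').2.1, ((hs x).1 c').1, ((hs x).1 c').2.2.2,
        ((hs x).1 c').2.2.1⟩, fun l => ((hs x).2 l).symm⟩ x _
        (fun j h => ⟨(e1 e j h).2.1, (e1 e j h).2.2.1, (e1 e j h).2.2.2, fun i => rfl⟩) (e4 e) hi)
  have t2 := (G _ (hA.trans sub) subset_rfl).1
  have cz : #(Jz n0 n1) + 2 = Fintype.card ι := by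
    have c1 := card_erase_add_one (mem_univ n0)
    have c2 := card_erase_add_one (s := univ.erase n0) (a := n1) (by simp [d.hne])
    rw [card_univ] at c1
    unfold Jz
    omega
  have t3 := chain (B := inn B') (J0 := (Jz n0 n1).disjSum univ)
    (J1 := (Jz n0 n1 \ B' ∪ (W ∪ Λ ∪ {s 0, s 1})).disjSum univ)
    (disjSum_mono (union_subset sdiff_subset (hA.trans sub)) subset_rfl)
    (by
      rintro (j | j) hj
      · simp only [mem_sdiff, inl_mem_disjSum, mem_union] at hj ⊢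
        exact by_contra fun h => hj.2 (.inl ⟨hj.1, h⟩)
      · simp at hj)
    (by
      have c1 := card_union_le (Jz n0 n1 \ B') (W ∪ Λ ∪ {s 0, s 1})
      have c2 := card_union_le (W ∪ Λ) {s 0, s 1}
      have c3 := card_union_le W Λ
      have c4 := card_sdiff_le (B' := B') (Jz n0 n1)
      have c5 := d.cW
      have c6 := d.cB
      have c7 := card_le_two (a := s 0) (b := s 1)
      have c8 : v ≤ v ^ 5 := Nat.le_self_pow (by norm_num) v
      have c9 : 100 ^ 4 * v ^ 5 ≤ v ^ 9 := by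
        calc 100 ^ 4 * v ^ 5 ≤ v ^ 4 * v ^ 5 := by gcongr
          _ = v ^ 9 := by ring
      have c10 := d.lo
      rw [card_disjSum, card_disjSum, card_univ, Fintype.card_fin]
      omega)
    (fun J hJ hJ' => by
      have e : J = J.toLeft.disjSum univ := by
        ext (j | j)
        · simp
        · simpa using hJ (by simp)
      rw [e]
      exact G _ (fun j hj => mem_toLeft.2 (hJ (inl_mem_disjSum.2 (mem_union_right _ hj))))
        fun j hj => inl_mem_disjSum.1 (hJ' (mem_toLeft.1 hj)))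
  have e5 : ((Jz n0 n1).disjSum (univ : Finset (Fin 3))).erase (.inr 2) =
      (Jz n0 n1).disjSum {0, 1} := by
    ext (j | j)
    · simp
    · revert j
      simp only [mem_erase, inr_mem_disjSum, ne_eq, Sum.inr.injEq]
      decide
  simp only [pen, Bmat_lin, e5] at t1
  rw [← pr_equiv (symE B')] at t1
  simp only [BS, Bmat_add]
  refine t1.trans ((add_le_add (add_le_add t2 t3) le_rfl).trans ?_)
  have q1 : #((Jz n0 n1).disjSum (univ : Finset (Fin 3))) ≤ 2 * v ^ 12 ∧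
      Fintype.card (ι ⊕ Fin 3) ≤ 2 * v ^ 12 := by
    have c8 : v ≤ v ^ 12 := Nat.le_self_pow (by norm_num) v
    have := d.hi
    rw [card_disjSum, card_univ, Fintype.card_sum, Fintype.card_fin]
    omega
  have k1 : (1 : ℝ) / 2 ^ r ≤ 1 / 2 ^ v := one_div_le_one_div_of_le (by positivity)
    (pow_le_pow_right₀ (by norm_num) (by have := hl.lo; omega))
  have k2 : (#((Jz n0 n1).disjSum (univ : Finset (Fin 3))) : ℝ) ≤ 2 * (v : ℝ) ^ 12 := by
    exact_mod_cast q1.1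
  have k3 : (Fintype.card (ι ⊕ Fin 3) : ℝ) ≤ 2 * (v : ℝ) ^ 12 := by exact_mod_cast q1.2
  have k4 : (1 : ℝ) ≤ (v : ℝ) ^ 12 := one_le_pow₀ (by norm_cast; omega)
  have k5 : (v : ℝ) ^ 24 = (v : ℝ) ^ 12 * (v : ℝ) ^ 12 := by ring
  have k6 : (0 : ℝ) ≤ Fintype.card (ι ⊕ Fin 3) := Nat.cast_nonneg _
  rw [k5]
  generalize (v : ℝ) ^ 12 = V at k2 k3 k4 ⊢
  generalize (Fintype.card (ι ⊕ Fin 3) : ℝ) = n at k3 k6 ⊢
  generalize (#((Jz n0 n1).disjSum (univ : Finset (Fin 3))) : ℝ) = m at k2 ⊢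
  have k7 : n * n ≤ 2 * V * (2 * V) := mul_le_mul k3 k3 k6 (by linarith)
  have k8 : V ≤ V * V := le_mul_of_one_le_right (by linarith) k4
  calc _ = (6 + 12 * n) * (1 / 2 ^ r) + (2 * (n * n) + 4 * m) * (1 / 2 ^ v) := by ring
    _ ≤ (6 + 12 * n) * (1 / 2 ^ v) + (2 * (n * n) + 4 * m) * (1 / 2 ^ v) := by gcongr
    _ = (6 + 12 * n + 2 * (n * n) + 4 * m) * (1 / 2 ^ v) := by ring
    _ ≤ (50 * (V * V)) * (1 / 2 ^ v) := mul_le_mul_of_nonneg_right (by linarith) (by positivity)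
    _ = _ := by ring

end Pool.Agent.Lib.MP_f8d36e_nt.GG
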