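import Pool.Agent.Lib.MP_f8d36e_nt.GG.MQ
import Pool.Agent.Lib.MP_f8d36e_nt.GG.ML
import Pool.Agent.Lib.MP_f8d36e_nt.GG.MC

/-! Job MM: the random matrix theorem. -/

set_option autoImplicit false
set_option linter.unusedSectionVars false

open Matrix Finset

namespace Pool.Agent.Lib.MP_f8d36e_nt.GG

theorem mm_spec {k : Type} [Field k] [Algebra F2 k] (f : k →+* Kb) {a b : k} (b0 : b ≠ 0)
    (b1 : b ≠ 1) {x : Kb} (h : Spec (f a) (f b) x) :
    x = f (a / b) ∨ x = f ((a + 1) / b) ∨ x = f ((a + 1) / (b + 1)) := by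
  have t : (2 : Kb) = 0 := two_eq_zero
  have n0 : f b ≠ 0 := (map_ne_zero f).2 b0
  have n1 : f b + 1 ≠ 0 := fun e => b1 (f.injective (by rw [map_one]; linear_combination e - t))
  simp only [map_div₀, map_add, map_one]
  rcases h with h | h | h
  · exact .inl (eq_div_of_mul_eq n0 (by linear_combination h - f a * t))
  · exact .inr (.inl (eq_div_of_mul_eq n0 (by linear_combination h - f a * t)))
  · exact .inr (.inr (eq_div_of_mul_eq n1 (by linear_combination h + (x - f a) * t)))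

theorem pts_prob {ι k : Type} [Fintype ι] [DecidableEq ι] [Field k] [Finite k] [Algebra F2 k]
    {u w β : ι → F2} {Φ : Matrix ι ι F2} {B B' W : Finset ι} {n0 n1 : ι} {v r : ℕ}
    {f : k →+* Kb} {a b x1 : k} (d : Dat2 v B B' W u w β Φ n0 n1) (hl : Line2 v r f a b x1)
    (e0 ε : F2) :
    pr (fun S : Sym B' => ∃ R : Matrix ι ι F2, Fix e0 ε u w β R n0 n1 ∧
      (∀ i j, i ≠ n0 → i ≠ n1 → j ≠ n0 → j ≠ n1 → R i j = Φ i j + (S : Matrix ι ι F2) i j) ∧
      ¬ Pts u w β R n0 n1 (f a) (f b)) ≤ (50 * (v : ℝ) ^ 24 + 4 ^ 21) / 2 ^ v := by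
  by_cases hp : (pat e0 ε u w β).Ok
  swap
  · exact (pr_eq_zero fun S ⟨R, h, _⟩ => hp h.ok).trans_le (by positivity)
  set pt := pat e0 ε u w β with hpt
  have t : (2 : k) = 0 := two_eq_zero
  have nb : b + 1 ≠ 0 := fun e => hl.b1 (by linear_combination e - t)
  have na : a + 1 ≠ 0 := fun e => hl.a1 (by linear_combination e - t)
  obtain ⟨c0, c1, c, a1, a2, hs, hc⟩ := exists_pencil hp f a b
  have p1 := pencil d hl.toLine c0 c1 (fun x hx => (hc x hx).1) hs
  have p2 := test_pz d hl.card hl.hi hl.b0 hl.gb (raw_inj (pt := pt) hl.b0 hl.b1).1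
    (raw_inj hl.b0 hl.b1).2 (by decide)
  have p3 := test_qz d hl.card hl.hi hl.ga 0 0 (raw_ne (pt := pt) hl.a0 hl.a1).1.1
    (raw_ne hl.a0 hl.a1).1.2
  have p4 := test_qz d hl.card hl.hi hl.ga 1 1 (raw_ne (pt := pt) hl.a0 hl.a1).2.1
    (raw_ne hl.a0 hl.a1).2.2
  have p5 := test_gen d hl.card hl.hi one_ne_zero
    (.inl (gen_of_prime hl.prime hl.card hl.ab0 hl.ab1)) (sqb_inj (pt := pt) hl.ab0 hl.ab1).1
    (sqb_inj hl.ab0 hl.ab1).2 le_rfl
  have x1 : a / b ≠ 0 := div_ne_zero hl.a0 hl.b0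
  have x2 : (a + 1) / b ≠ 0 := div_ne_zero na hl.b0
  have x3 : (a + 1) / (b + 1) ≠ 0 := div_ne_zero na nb
  have p6 := special d hl.card hl.hi hl.prime f x1 (fun e => hl.ab0 (by
    rw [div_eq_iff hl.b0] at e; linear_combination e + b * t)) (a + b * (a / b))
  have p7 := special d hl.card hl.hi hl.prime f x2 (fun e => hl.ab1 (by
    rw [div_eq_iff hl.b0] at e; linear_combination e + (b - 1) * t)) (a + b * ((a + 1) / b))
  have p8 := special d hl.card hl.hi hl.prime f x3 (fun e => hl.ab0 (by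
    rw [div_eq_iff nb] at e; linear_combination e + b * t)) (a + b * ((a + 1) / (b + 1)))
  refine ((pr_mono fun S hS => ?_).trans pr_or_le).trans ((add_le_add p1 (pr_or_le.trans
    (add_le_add p2 (pr_or_le.trans (add_le_add p3 (pr_or_le.trans (add_le_add p4 (pr_or_le.trans
    (add_le_add p5 (pr_or_le.trans (add_le_add p6 (pr_or_le.trans
    (add_le_add p7 p8))))))))))))).trans ?_)
  · obtain ⟨R, hF, hR, hP⟩ := hS
    by_contra hn
    simp only [not_or, not_not] at hn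
    obtain ⟨q1, q2, q3, q4, q5, q6, q7, q8⟩ := hn
    simp only [not_exists, not_and, not_not] at q1
    have cg : ∀ J0 ⊆ Jz n0 n1, ∀ i ∈ J0, ∀ j ∈ J0, R i j = (Φ + (S : Matrix ι ι F2)) i j :=
      fun J0 h i hi j hj => by
        have hi := h hi
        have hj := h hj
        simp only [mem_erase] at hi hj
        exact hR i j hi.2.1 hi.1 hj.2.1 hj.1
    have sp : ∀ x : k, x ≠ 0 → Loc u w β (Φ + S) n0 n1 (f x) (f (a + b * x)) ∧
        Quad u w β (Φ + S) n0 n1 (f x) (f (a + b * x)) → f x ≠ 0 ∧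
        Loc u w β R n0 n1 (f x) (f a + f b * f x) ∧ Quad u w β R n0 n1 (f x) (f a + f b * f x) :=
      fun x hx h => by
        rw [map_add, map_mul] at h
        exact ⟨(map_ne_zero f).2 hx, fun g g' k1 k2 y z k3 => h.1 g g' k1 k2 y z (k3.congr hR),
          fun t0 t1 k1 k2 k3 κ k4 y z0 z2 z3 k5 =>
            h.2 t0 t1 k1 k2 k3 κ k4 y z0 z2 z3 (k5.congr hR)⟩
    refine hP ⟨hF.h0, hF.h1, (map_ne_zero f).2 hl.b0,
      fun e => hl.b1 (f.injective (e.trans (map_one f).symm)), ?_, fun x _ hx => ?_, ⟨?_, ?_⟩,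
      fun x hx => ?_⟩
    · have := (q2.congr (cg _ subset_rfl)).map f
      rw [raw_map, map_zero, map_one] at this
      exact good_raw hF this
    · rcases eq_or_ne x 0 with rfl | h0
      · have k3 := (q3.congr (cg _ (filter_subset _ _))).map f
        have k4 := (q4.congr (cg _ (filter_subset _ _))).map f
        rw [raw_map, map_zero, map_one] at k3 k4
        rw [mul_zero, add_zero]
        exact good_qz hF k3 k4
      · exact good_raw hF (((q1 x h0).congr (cg _ subset_rfl)).refine ((hc x h0).2 hx))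
    · have t' : (1 + 1 : Kb) = 0 := one_add_one_eq_two.trans two_eq_zero
      rw [Spec, mul_one, t', ← map_add, map_eq_zero]
      rintro (e | e | e)
      exacts [hl.ab0 e, hl.ab1 (f.injective (e.trans (map_one f).symm)), hl.ab0 e]
    · have := (q5.congr (cg _ subset_rfl)).map f
      rw [sqb_map, map_one, map_add] at this
      exact sq_of hF this
    · rcases mm_spec f hl.b0 hl.b1 hx with rfl | rfl | rfl
      exacts [sp _ x1 q6, sp _ x2 q7, sp _ x3 q8]
  · have e1 : (1 : ℝ) / 2 ^ r ≤ 1 / 2 ^ v := one_div_le_one_div_of_le (by positivity)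
      (pow_le_pow_right₀ (by norm_num) (by have := hl.lo; omega))
    have e2 : (0 : ℝ) ≤ 1 / 2 ^ v := by positivity
    rw [add_div, div_eq_mul_one_div 5, div_eq_mul_one_div (4 ^ 20 : ℝ),
      div_eq_mul_one_div (4 ^ 21 : ℝ)]
    linarith

theorem mm_ev {ε : ℝ} (hε : 0 < ε) : ∃ v0 : ℕ, ∀ v, v0 ≤ v → 100 ≤ v ∧
    8 * ((50 * (v : ℝ) ^ 24 + 4 ^ 21) / 2 ^ v) + 1 / 2 ^ v ≤ ε := by
  have h1 := tendsto_pow_const_div_const_pow_of_one_lt 24 (r := 2) one_lt_two
  have h2 := tendsto_pow_const_div_const_pow_of_one_lt 0 (r := 2) one_lt_two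
  have h3 := (h1.const_mul 400).add (h2.const_mul (8 * 4 ^ 21 + 1))
  rw [mul_zero, mul_zero, add_zero] at h3
  obtain ⟨v0, h⟩ := Filter.eventually_atTop.mp
    ((h3.eventually (gt_mem_nhds hε)).and (Filter.eventually_ge_atTop 100))
  exact ⟨v0, fun v hv => ⟨(h v hv).2, le_trans (le_of_eq (by ring)) (h v hv).1.le⟩⟩

theorem mm_dat {ι : Type} [Fintype ι] [DecidableEq ι] {v : ℕ} {B : Finset ι} {u w β : ι → F2}
    {ρ : ι → ι → F2} {e0 : F2} (h100 : 100 ≤ v) (ht : Typ2 v B u w ρ)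
    (hb : GoodB v B u w (Rm e0 u w ρ) β) : ∃ n0 n1 W, β n0 = 0 ∧ β n1 = 1 ∧
      Dat2 v B ((B.erase n0).erase n1) W u w β (Rm e0 u w ρ) n0 n1 := by
  have n1' : 100 ^ 2 * v ^ 7 ≤ v ^ 9 := by
    calc 100 ^ 2 * v ^ 7 ≤ v ^ 2 * v ^ 7 := by gcongr
      _ = v ^ 9 := by ring
  have n2' : 100 ^ 2 * v ^ 5 ≤ v ^ 7 := by
    calc 100 ^ 2 * v ^ 5 ≤ v ^ 2 * v ^ 5 := by gcongr
      _ = v ^ 7 := by ring
  have n3' : 1 ≤ v ^ 5 := Nat.one_le_pow _ _ (by omega)
  have h5 := ht.five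
  have hex : ∀ c, ∃ n, n ∈ B ∧ u n = 0 ∧ w n = 1 ∧ β n = c := fun c => by
    obtain ⟨n, hn⟩ : ({i ∈ cls u w B 0 1 | β i = c} : Finset ι).Nonempty :=
      card_pos.mp (by have := hb.bal5 c; unfold cnt at this; omega)
    simp only [cls, mem_filter] at hn
    exact ⟨n, hn.1.1, hn.1.2.1, hn.1.2.2, hn.2⟩
  obtain ⟨n0, m0, -, w0, b0⟩ := hex 0
  obtain ⟨n1, m1, -, w1, b1⟩ := hex 1
  obtain ⟨W, hW, cW, hW'⟩ := hb.wit.small
  refine ⟨n0, n1, W, b0, b1, ?_⟩
  set B' := (B.erase n0).erase n1 with hB'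
  have hB : ∀ j, j ∈ B' ↔ j ∈ B ∧ j ≠ n0 ∧ j ≠ n1 := fun j => by simp [hB']; tauto
  have hbord := ht.bord
  have sub : ∀ c, cls u w B c 0 ⊆ cls u w B' c 0 := fun c j hj => by
    simp only [cls, mem_filter] at hj ⊢
    refine ⟨(hB j).mpr ⟨hj.1, ?_, ?_⟩, hj.2⟩ <;> rintro rfl
    · exact zero_ne_one (hj.2.2.symm.trans w0)
    · exact zero_ne_one (hj.2.2.symm.trans w1)
  have k1 := cnt_le β (A := cls u w B 0 1) (A' := cls u w B' 0 1) (n0 := n0) (n1 := n1)
    fun j hj e0 e1 => by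
      simp only [cls, mem_filter] at hj ⊢
      exact ⟨(hB j).mpr ⟨hj.1, e0, e1⟩, hj.2⟩
  have k2 := cnt_le β (A := B) (A' := B') (n0 := n0) (n1 := n1)
    fun j hj e0 e1 => (hB j).mpr ⟨hj, e0, e1⟩
  have k3 := cnt_le β (A := B') (A' := B) (n0 := n0) (n1 := n1) fun j hj _ _ => ((hB j).mp hj).1
  have k4 := cnt_add β B
  exact
    { ha := Rm_anti ht.anti
      hB := hB
      hn := m1
      hne := fun e => by rw [e, b0] at b1; exact zero_ne_one b1
      hW := hW.trans (sub 0)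
      wit := hW'
      cW := by omega
      cB := by
        refine (card_le_card (t := Bᶜ ∪ {n0, n1}) fun j hj => ?_).trans
          ((card_union_le _ _).trans (add_le_add hbord card_le_two))
        simp only [mem_compl, hB, mem_union, mem_insert, mem_singleton] at hj ⊢
        tauto
      big := h100
      hn0 := m0
      five := fun c => by have := k1 c; have := hb.bal5 c; omega
      seven := fun c => (hb.bal7 c).imp fun i hi => ⟨sub 1 hi.1, hi.2⟩
      b0 := by have := k1 0; have := hb.bal5 0; have := hb.bal 1; have := k2 1; have := k3 0; omega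
      b1 := by have := k1 1; have := hb.bal5 1; have := hb.bal 0; have := k2 0; have := k3 1; omega
      lo := h5.trans (card_le_univ _)
      hi := ht.card }

theorem comb_main2 (e0 : F2) {ε : ℝ} (hε : 0 < ε) : ∃ v0 : ℕ, ∀ v, v0 ≤ v →
    ∀ (ι : Type) [Fintype ι] [DecidableEq ι] (B : Finset ι) (u w : ι → F2) (ρ : ι → ι → F2),
    Typ2 v B u w ρ → pr (fun s : Alt B =>
      ¬ Crit2 u w (Rm e0 u w fun i j => ρ i j + (s : Matrix ι ι F2) i j)) ≤ ε := by
  obtain ⟨v0, h⟩ := mm_ev hε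
  refine ⟨v0, fun v hv ι _ _ B u w ρ ht => ?_⟩
  obtain ⟨h100, hle⟩ := h v hv
  obtain ⟨r, k, _, _, _, f, a, b, x1, hl⟩ := exists_line2 (v := v) (by omega)
  refine le_trans (pr_mono fun s hs => ?_) ((union_bound (e0 := e0) (by omega) ht
    (fun β _ s => ¬ ∃ n0 n1, Pts u w β (Rm e0 u w fun i j => ρ i j + (s : Matrix ι ι F2) i j) n0 n1
      (f a) (f b)) (by positivity) fun β ε' hb => ?_).trans hle)
  · by_contra hn
    obtain ⟨i, hi⟩ : (cls u w B 0 1).Nonempty :=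
      card_pos.mp (lt_of_lt_of_le (by positivity) ht.five)
    refine hs ⟨⟨i, (mem_filter.mp hi).2.2⟩, f a, f b, fun β ε' ha => ?_⟩
    by_contra hc
    exact hn ⟨β, ε', ha, hc⟩
  · obtain ⟨n0, n1, W, b0, b1, d⟩ := mm_dat h100 ht hb
    refine le_trans (pr_mono fun s hs => ?_) ((cond_up d.hn0 d.hn b0 b1 (Rm e0 u w ρ)
      (fun i => u ⬝ᵥ β * u i + ε' * w i) _).trans
      (div_le_div_of_nonneg_right (pts_prob d hl e0 ε') (by positivity)))
    have han : ∀ i j, i ≠ j → (ρ i j + (s : Matrix ι ι F2) i j) +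
        (ρ j i + (s : Matrix ι ι F2) j i) = u i * u j := fun i j hij => by
      rw [← ht.anti i j hij, s.2.1.1 j i, add_add_add_comm, CharTwo.add_self_eq_zero, add_zero]
    refine ⟨by rw [← Rm_add]; exact hs.1.1, _, ⟨Rm_anti han, Rm_row, hs.1.1, b0, b1⟩,
      fun i j k1 k2 k3 k4 => ?_, fun hP => hs.2 ⟨n0, n1, hP⟩⟩
    rw [Rm_add, Matrix.add_apply]
    exact congrArg _ (if_pos ⟨k1, k2, k3, k4⟩).symm

end Pool.Agent.Lib.MP_f8d36e_nt.GG
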