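import Pool.Agent.Lib.MP_f8d36e_nt.Dens
import Pool.Agent.Lib.MP_f8d36e_nt.GG.AB
import Pool.Agent.Lib.MP_f8d36e_nt.GG.AE
import Pool.Agent.Lib.MP_f8d36e_nt.GG.MM

/-! Job AD: the criterion holds for almost all numbers. -/

set_option autoImplicit false

open Finset Filter
open scoped NumberTheorySymbols
open Pool.Agent.Lib.MP_696deb_nt Pool.Agent.Lib.MP_696deb_nt.Den

namespace Pool.Agent.Lib.MP_f8d36e_nt.GG

/-- The bad event in the model. -/
def adE (e0 : F2) (v : ℕ) {M k : ℕ} (t : Fin k → Ty M) (s : Pr k → F2) : Prop :=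
  Typ2 v (BM M k) (uM t) (wM t) (rhoM t) ∧
    ¬ Crit2 (uM t) (wM t) (Rm e0 (uM t) (wM t) fun i j => rhoM t i j + symM M s i j)

/-- The complement of the bad event. -/
def adG (e0 : F2) (v : ℕ) {M k : ℕ} (t : Fin k → Ty M) (s : Pr k → F2) : Prop := ¬ adE e0 v t s

theorem ad_pr (e0 : F2) {ε : ℝ} (hε : 0 < ε) : ∃ v0 : ℕ, ∀ v, v0 ≤ v →
    ∀ (M k : ℕ) (t : Fin k → Ty M), pr (adE e0 v t) ≤ ε := by
  obtain ⟨v0, H⟩ := comb_main2 e0 hε
  refine ⟨v0, fun v hv M k t => ?_⟩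
  by_cases h : Typ2 v (BM M k) (uM t) (wM t) (rhoM t)
  · have h1 := H v hv _ (BM M k) (uM t) (wM t) (rhoM t) h
    rw [← pr_equiv (modelEquiv M k)] at h1
    exact (pr_mono fun s hs => hs.2).trans h1
  · rw [pr_eq_zero fun s hs => h hs.1]
    exact hε.le

theorem ad_card (X : ℕ) : #(SO X) ≤ X := by
  refine (card_le_card (t := Icc 1 X) fun m hm => mem_Icc.2 (An.mem_SO.1 hm).1).trans ?_
  simp

section
variable {v M k Y Z : ℕ} {q : Fin k → ℕ} (hM : Squarefree M) (ho : Odd M)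
  (hY : ∀ p ∈ M.primeFactors, p ≤ Y) (h2 : 2 ≤ Y) (hq : q ∈ Tup k Y Z)
include hM ho hY h2 hq

theorem ad_typ (hv : Y = YY v) (h : TypN2 v (M * ∏ i, q i)) :
    Typ2 v (BM M k) (uM fun i => tyN M (q i)) (wM fun i => tyN M (q i))
      (rhoM fun i => tyN M (q i)) := by
  obtain ⟨e, he⟩ := model_exists_equiv hM ho hY h2 hq
  obtain ⟨hp, -⟩ := model_tup hq
  refine Typ2.equiv e (fun i => ?_) (fun i => ?_) (fun i => ?_) (fun j hj i hi => ?_)
    (fun i j hij => ?_) h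
  · rw [model_mem_BM, mem_filter, he, ← hv]
    rcases i with p | i
    · have := hY _ p.2
      simpa [modelVal] using this
    · simpa [modelVal] using (hp i).2
  · rw [model_uM, he]
  · rw [model_wM, he]
  · rw [he, he]
    rcases j with p | j
    · exact absurd ((model_mem_BM _).1 hj) (by simp)
    · rcases i with p | i
      · rfl
      · exact absurd ((model_mem_BM _).2 rfl) hi
  · have a1 := model_rho ho hY h2 hq hij
    have a2 := model_rho ho hY h2 hq hij.symm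
    have a3 := model_anti ho hY h2 hq hij
    have a4 : symM M (up q) i j = symM M (up q) j i := (model_symM_mem M (up q)).1.1 i j
    rw [model_uM, model_uM, ← a3, ← a1, ← a2, a4]
    generalize rhoM (fun i => tyN M (q i)) i j = x
    generalize rhoM (fun i => tyN M (q i)) j i = y
    generalize symM M (up q) j i = z
    revert x y z; decide

theorem ad_crit (e0 : F2) (h : Crit2 (uM fun i => tyN M (q i)) (wM fun i => tyN M (q i))
    (Rm e0 (uM fun i => tyN M (q i)) (wM fun i => tyN M (q i))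
      fun i j => rhoM (fun i => tyN M (q i)) i j + symM M (up q) i j)) :
    CritN2 e0 (M * ∏ i, q i) := by
  obtain ⟨e, he⟩ := model_exists_equiv hM ho hY h2 hq
  have hu : (uM fun i => tyN M (q i)) = fun i => uN (e i) := funext fun i => by rw [model_uM, he]
  have hw : (wM fun i => tyN M (q i)) = fun i => wN (e i) := funext fun i => by rw [model_wM, he]
  refine Crit2.equiv e ?_
  rw [← Rm_equiv e e0]
  rw [Rm, Rmat_congr _ (ρ' := fun i j => rhoN (e i) (e j))
    (fun i j hij => by rw [he, he]; exact model_rho ho hY h2 hq hij), hu, hw] at h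
  exact h

end

open Classical in
theorem bad_le (e0 : F2) {ε : ℝ} (hε : 0 < ε) : ∃ v0 : ℕ, ∀ v, v0 ≤ v → ∀ X, Win v X →
    (#{m ∈ SO X | TypN2 v m ∧ ¬ CritN2 e0 m} : ℝ) ≤ ε * X := by
  have hδ : 0 < ε / 2 := half_pos hε
  obtain ⟨v1, h1⟩ := ad_pr e0 hδ
  obtain ⟨C, hC, h2⟩ := equi
  obtain ⟨N, hN⟩ := pow_unbounded_of_one_lt (C / (ε / 2)) (one_lt_two (α := ℝ))
  refine ⟨max v1 (max 13 N), fun v hv X hX => ?_⟩
  simp only [max_le_iff] at hv
  obtain ⟨hv1, hv2, hv3⟩ := hv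
  have hY : 2 ≤ YY v := Nat.le_self_pow (by positivity) 2
  let S : Finset ℕ := {M ∈ SO X | (∀ p ∈ M.primeFactors, p ≤ YY v) ∧ #M.primeFactors ≤ v}
  let key : ℕ → ℕ × ℕ := fun m => (smooth (YY v) m, #{p ∈ m.primeFactors | YY v < p})
  have step : ∀ x ∈ S ×ˢ range (v ^ 12 + 1),
      (#{m ∈ {m ∈ SO X | TypN2 v m ∧ ¬ CritN2 e0 m} | key m = x} : ℝ) ≤
        ε / 2 * #{m ∈ SO X | key m = x} + C * X / 2 ^ (3 * v ^ 24) * (1 / x.1) := by
    rintro ⟨M, k⟩ hx
    obtain ⟨hM, hk⟩ := mem_product.1 hx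
    dsimp only at hM hk ⊢
    obtain ⟨hM1, hM2, hM3⟩ := mem_filter.1 hM
    obtain ⟨⟨hM4, -⟩, hM5, hM6⟩ := An.mem_SO.1 hM1
    have e : ∀ (P : ℕ → Prop) [DecidablePred P],
        (#{q ∈ Tup k (YY v) (X / M) | P (M * ∏ i, q i)} : ℝ) =
        k.factorial * #{m ∈ {m ∈ SO X | P m} | key m = (M, k)} := fun P _ => by
      rw [card_tup hM5 hM6 hM2 hY P, filter_filter]
      push_cast
      refine congrArg (fun s : Finset ℕ => (k.factorial : ℝ) * #s) (filter_congr fun m _ => ?_)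
      simp only [key, Prod.mk.injEq]
      tauto
    have a1 := h2 k (YY v) (X / M) (Ty M) (tyN M) (adG e0 v) hY
    have a2 := trans_err hC hv2 hX hM4 hM3 (Nat.lt_succ_iff.1 (mem_range.1 hk))
    have a3 : (1 - ε / 2) * (#(Tup k (YY v) (X / M)) : ℝ) ≤
        ∑ q ∈ Tup k (YY v) (X / M), pr (adG e0 v fun i => tyN M (q i)) := by
      rw [mul_comm, ← nsmul_eq_mul, ← sum_const]
      refine sum_le_sum fun q _ => ?_
      exact (sub_le_sub_left (h1 v hv1 M k _) 1).trans pr_not.ge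
    have a4 : (#{q ∈ Tup k (YY v) (X / M) |
          TypN2 v (M * ∏ i, q i) ∧ ¬ CritN2 e0 (M * ∏ i, q i)} : ℝ) +
        #{q ∈ Tup k (YY v) (X / M) | adG e0 v (fun i => tyN M (q i)) (up q)} ≤
        #(Tup k (YY v) (X / M)) := by
      rw [← Nat.cast_add, Nat.cast_le, ← card_union_of_disjoint]
      · exact card_le_card (union_subset (filter_subset _ _) (filter_subset _ _))
      · refine disjoint_left.2 fun q hq hq' => ?_
        obtain ⟨b1, b2, b3⟩ := mem_filter.1 hq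
        exact (mem_filter.1 hq').2 ⟨ad_typ hM5 hM6 hM2 hY b1 rfl b2,
          fun b4 => b3 (ad_crit hM5 hM6 hM2 hY b1 e0 b4)⟩
    have a5 := e fun m => TypN2 v m ∧ ¬ CritN2 e0 m
    have a6 := e fun _ => True
    rw [filter_true, filter_true] at a6
    have a7 : (1 : ℝ) ≤ k.factorial := by exact_mod_cast k.factorial_pos
    have a8 : 0 ≤ C * X / 2 ^ (3 * v ^ 24) * (1 / (M : ℝ)) := by positivity
    have a9 := mul_le_mul_of_nonneg_right a7 a8
    refine le_of_mul_le_mul_left ?_ (zero_lt_one.trans_le a7)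
    rw [mul_add, mul_left_comm, ← a6, ← a5]
    linarith
  have t1 : #{m ∈ SO X | TypN2 v m ∧ ¬ CritN2 e0 m} = ∑ x ∈ S ×ˢ range (v ^ 12 + 1),
      #{m ∈ {m ∈ SO X | TypN2 v m ∧ ¬ CritN2 e0 m} | key m = x} := by
    refine card_eq_sum_card_fiberwise fun m hm => ?_
    obtain ⟨hm1, hm2, -⟩ := mem_filter.1 (mem_coe.1 hm)
    obtain ⟨⟨-, hm3⟩, hm4, hm5⟩ := An.mem_SO.1 hm1
    have hd : smooth (YY v) m ∣ m := Dvd.intro _ (trans_split hm4 _)
    refine mem_coe.2 (mem_product.2 ⟨mem_filter.2 ⟨An.mem_SO.2 ⟨⟨?_, ?_⟩,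
      hm4.squarefree_of_dvd hd, hm5.of_dvd_nat hd⟩, fun p hp => ?_, ?_⟩, ?_⟩)
    · exact Nat.pos_of_dvd_of_pos hd hm5.pos
    · exact (Nat.le_of_dvd hm5.pos hd).trans hm3
    · rw [trans_pf_smooth] at hp
      exact (mem_filter.1 hp).2
    · rw [trans_pf_smooth]
      refine le_trans (card_le_card_of_surjOn (fun p : m.primeFactors => p.1) fun p hp => ?_)
        hm2.bord
      obtain ⟨b1, b2⟩ := mem_filter.1 (mem_coe.1 hp)
      exact ⟨⟨p, b1⟩, by simpa using b2, rfl⟩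
    · have := hm2.card
      rw [Fintype.card_coe] at this
      exact mem_range.2 (Nat.lt_succ_of_le ((card_filter_le _ _).trans this))
  have t2 : ∑ x ∈ S ×ˢ range (v ^ 12 + 1), #{m ∈ SO X | key m = x} ≤ X := by
    rw [sum_card_fiberwise_eq_card_filter]
    exact (card_filter_le _ _).trans (ad_card X)
  have t3 : ∑ x ∈ S ×ˢ range (v ^ 12 + 1), C * X / 2 ^ (3 * v ^ 24) * (1 / (x.1 : ℝ)) ≤
      ε / 2 * X := by
    rw [← mul_sum, sum_product_right]
    simp only [sum_const, card_range, nsmul_eq_mul]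
    have b1 : ∑ M ∈ S, 1 / (M : ℝ) ≤ 2 ^ v ^ 24 :=
      (sum_le_sum_of_subset_of_nonneg ((filter_subset _ _).trans (filter_subset _ _))
        fun _ _ _ => by positivity).trans ((sum_inv_le X).trans ((trans_log (by omega) hX).trans
          (pow_le_pow_right₀ one_le_two (Nat.pow_le_pow_right (by omega) (by norm_num)))))
    have b2 : ((v ^ 12 + 1 : ℕ) : ℝ) ≤ 2 ^ v ^ 24 := by
      have : v ^ 12 + 1 ≤ 2 ^ v ^ 24 := (Nat.succ_le_of_lt Nat.lt_two_pow_self).trans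
        (Nat.pow_le_pow_right two_pos (Nat.pow_le_pow_right (by omega) (by norm_num)))
      exact_mod_cast this
    have b3 : C / (ε / 2) ≤ 2 ^ v ^ 24 := hN.le.trans
      (pow_le_pow_right₀ one_le_two (hv3.trans (Nat.le_self_pow (by norm_num) v)))
    calc _ ≤ C * X / 2 ^ (3 * v ^ 24) * (2 ^ v ^ 24 * 2 ^ v ^ 24) := by gcongr
      _ = C / 2 ^ v ^ 24 * X := by
          rw [mul_comm 3 (v ^ 24), pow_mul]
          field_simp
      _ ≤ ε / 2 * X := by
          refine mul_le_mul_of_nonneg_right ?_ (Nat.cast_nonneg _)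
          rw [div_le_iff₀ (by positivity)]
          rwa [div_le_iff₀' hδ] at b3
  have t4 := sum_le_sum step
  rw [sum_add_distrib, ← mul_sum, ← Nat.cast_sum, ← Nat.cast_sum, ← t1] at t4
  have t5 := mul_le_mul_of_nonneg_left ((Nat.cast_le (α := ℝ)).2 t2) hδ.le
  linarith

open Classical in
theorem density2 (e0 : F2) {ε : ℝ} (hε : 0 < ε) :
    ∀ᶠ X : ℕ in atTop, (#{m ∈ SO X | ¬ CritN2 e0 m} : ℝ) ≤ ε * X := by
  obtain ⟨v1, h1⟩ := few_bad2 (half_pos hε)
  obtain ⟨v2, h2⟩ := bad_le e0 (half_pos hε)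
  filter_upwards [exists_win (max v1 v2)] with X ⟨v, hv, hw⟩
  have a := h1 v ((le_max_left _ _).trans hv) X hw
  have b := h2 v ((le_max_right _ _).trans hv) X hw
  have c : #{m ∈ SO X | ¬ CritN2 e0 m} ≤
      #{m ∈ SO X | ¬ TypN2 v m} + #{m ∈ SO X | TypN2 v m ∧ ¬ CritN2 e0 m} := by
    refine (card_le_card fun m hm => ?_).trans (card_union_le _ _)
    rw [mem_filter] at hm
    rw [mem_union, mem_filter, mem_filter]
    tauto
  have c' := (Nat.cast_le (α := ℝ)).2 c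
  push_cast at c'
  linarith

end Pool.Agent.Lib.MP_f8d36e_nt.GG
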