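import Pool.Agent.Lib.MP_f8d36e_nt.GG.AD

/-! From the two families of odd numbers to all squarefree numbers. -/

set_option autoImplicit false

open Finset Filter Topology
open Pool.Agent.Lib.MP_696deb_nt Pool.Agent.Lib.MP_696deb_nt.Den

namespace Pool.Agent.Lib.MP_f8d36e_nt.GG

open Classical in
theorem count_bad (P : ℕ → Prop) (hP : ∀ (e0 : F2) (m : ℕ), Squarefree m → Odd m →
    4 < 2 ^ e0.val * m → CritN2 e0 m → P (2 ^ e0.val * m)) {ε : ℝ} (hε : 0 < ε) :
    ∀ᶠ X : ℕ in atTop, (#{m ∈ Icc 1 X | Squarefree m ∧ ¬ P m} : ℝ) ≤ ε * X := by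
  have h3 : 0 < ε / 3 := by positivity
  filter_upwards [density2 0 h3, density2 1 h3,
    tendsto_natCast_atTop_atTop.eventually_ge_atTop (12 / ε)] with X a0 a1 a2
  have sub : ({m ∈ Icc 1 X | Squarefree m ∧ ¬ P m} : Finset ℕ) ⊆ Icc 1 4 ∪
      ({m ∈ SO X | ¬ CritN2 0 m} ∪ ({m ∈ SO X | ¬ CritN2 1 m} : Finset ℕ).image (2 * ·)) := by
    intro m hm
    obtain ⟨m1, m2, m3⟩ := mem_filter.1 hm
    obtain ⟨m4, m5⟩ := mem_Icc.1 m1
    by_cases h4 : m ≤ 4
    · exact mem_union_left _ (mem_Icc.2 ⟨m4, h4⟩)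
    refine mem_union_right _ ?_
    rcases Nat.even_or_odd m with ⟨n, hn⟩ | ho
    · have e : m = 2 ^ (1 : F2).val * n := by
        rw [ZMod.val_one, pow_one]
        omega
      have hs : Squarefree n := m2.squarefree_of_dvd ⟨2, by omega⟩
      have hn' : Odd n := by
        refine Nat.not_even_iff_odd.1 ?_
        rintro ⟨j, hj⟩
        exact absurd (Nat.isUnit_iff.1 (m2 2 ⟨j, by omega⟩)) (by norm_num)
      exact mem_union_right _ (mem_image.2 ⟨n, mem_filter.2 ⟨An.mem_SO.2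
        ⟨⟨by omega, by omega⟩, hs, hn'⟩, fun h => m3 (e ▸ hP 1 n hs hn' (by omega) h)⟩, by omega⟩)
    · have e : m = 2 ^ (0 : F2).val * m := by rw [ZMod.val_zero, pow_zero, one_mul]
      exact mem_union_left _ (mem_filter.2 ⟨An.mem_SO.2 ⟨⟨m4, m5⟩, m2, ho⟩,
        fun h => m3 (e ▸ hP 0 m m2 ho (by omega) h)⟩)
  have b := (card_le_card sub).trans ((card_union_le _ _).trans (add_le_add le_rfl
    ((card_union_le _ _).trans (add_le_add le_rfl card_image_le))))
  have b' := (Nat.cast_le (α := ℝ)).2 b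
  rw [div_le_iff₀ hε] at a2
  simp only [Nat.card_Icc] at b'
  push_cast at b'
  linarith

open Classical in
theorem count_ratio (P : ℕ → Prop) (hP : ∀ (e0 : F2) (m : ℕ), Squarefree m → Odd m →
    4 < 2 ^ e0.val * m → CritN2 e0 m → P (2 ^ e0.val * m)) :
    Tendsto (fun X : ℕ => (#((Icc 1 X).filter fun m => Squarefree m ∧ P m) : ℝ) /
      #((Icc 1 X).filter fun m => Squarefree m)) atTop (𝓝 1) := by
  rw [Metric.tendsto_nhds]
  intro ε hε
  filter_upwards [count_bad P hP (show 0 < ε / 40 by positivity), card_five,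
    eventually_ge_atTop 1] with X a0 a1 a2
  have c0 : #{m ∈ SO X | m % 8 = 5} ≤ #((Icc 1 X).filter fun m => Squarefree m) :=
    card_le_card fun m hm => by
      obtain ⟨m1, m2, -⟩ := An.mem_SO.1 (mem_filter.1 hm).1
      exact mem_filter.2 ⟨mem_Icc.2 m1, m2⟩
  have c1 := card_filter_add_card_filter_not (s := (Icc 1 X).filter fun m => Squarefree m) P
  rw [filter_filter, filter_filter] at c1
  have c2 := a1.trans ((Nat.cast_le (α := ℝ)).2 c0)
  have c3 : (1 : ℝ) ≤ X := by exact_mod_cast a2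
  have c4 := congrArg (Nat.cast : ℕ → ℝ) c1
  push_cast at c4
  have b0 : (0 : ℝ) ≤ #((Icc 1 X).filter fun m => Squarefree m ∧ ¬ P m) := Nat.cast_nonneg _
  generalize (#((Icc 1 X).filter fun m => Squarefree m) : ℝ) = n at c2 c4 ⊢
  generalize (#((Icc 1 X).filter fun m => Squarefree m ∧ P m) : ℝ) = g at c4 ⊢
  generalize (#((Icc 1 X).filter fun m => Squarefree m ∧ ¬ P m) : ℝ) = b at c4 a0 b0
  have n0 : 0 < n := by linarith
  rw [Real.dist_eq, show g / n - 1 = -(b / n) by field_simp; linarith, abs_neg,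
    abs_of_nonneg (by positivity), div_lt_iff₀ n0]
  nlinarith

end Pool.Agent.Lib.MP_f8d36e_nt.GG
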