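import Pool.Agent.Lib.MP_f8d36e_nt.Lead
import Pool.Agent.Lib.MP_f8d36e_nt.Scal
import Pool.Agent.Lib.MP_f8d36e_nt.GG.CDefs

/-! Definitions for the Galois half. -/

set_option autoImplicit false

open MvPowerSeries Matrix
open scoped MvPowerSeries.WithPiTopology

namespace Pool.Agent.Lib.MP_f8d36e_nt.GG

/-- The leading form of degree `k` of `f` has the value `c` at the point `(p, q, T)`. -/
def Val (p q T : Kb) (k : ℕ) (f : Lam) (c : Kb) : Prop := ∃ G, Ld k f G ∧ hev k p q T G = c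

/-- The leading form of `f` does not vanish at the point. -/
def NZ (p q T : Kb) (f : Lam) : Prop := ∃ k c, c ≠ 0 ∧ Val p q T k f c

/-- Some element whose leading form does not vanish at the point kills `M`. -/
def KillsAt (M : Type) [AddCommGroup M] [Module Lam M] (p q T : Kb) : Prop :=
  ∃ f, NZ p q T f ∧ ∀ y : M, f • y = 0

/-- The lift of a residue to the Iwasawa algebra. -/
noncomputable abbrev lf (t : F2) : Lam := (t.val : Lam)

/-- The residue of a 2-adic integer. -/
noncomputable abbrev rs (t : ℤ_[2]) : F2 := PadicInt.toZMod t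

section
variable {ι κ : Type} {M : Type} [AddCommGroup M] [Module Lam M]

/-- The module spanned by two families. -/
noncomputable def Qs (x : ι → M) (y : κ → M) : Submodule Lam M :=
  Submodule.span Lam (Set.range x) ⊔ Submodule.span Lam (Set.range y)

/-- First step of the filtration; the generators in `W` have weight one. -/
noncomputable def Fa (x : ι → M) (y : κ → M) (W : Finset κ) : Submodule Lam M :=
  mm • Qs x y ⊔ Submodule.span Lam (y '' W)

/-- Second step of the filtration. -/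
noncomputable def Fb (x : ι → M) (y : κ → M) (W : Finset κ) : Submodule Lam M := mm • Fa x y W

/-- The weight of a generator. -/
noncomputable def wt [DecidableEq κ] (W : Finset κ) (l : κ) : Lam := if l ∈ W then 2 else 1

variable [Fintype ι] [Fintype κ]

/-- A combination of the extra generators. -/
noncomputable def Yc (Θ : Fin 3 → κ → F2) (y : κ → M) (k : Fin 3) : M := ∑ l, lf (Θ k l) • y l

/-- The relations between the generators, to first order. -/
structure Rels2 (u w β : ι → F2) (R : Matrix ι ι F2) (x : ι → M) (y y' : κ → M) (W : Finset κ)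
    (Θ : Fin 3 → κ → F2) : Prop where
  row : ∀ i, (lf (w i) * X 1) • x i + ∑ j, (lf (R i j) * (2 + lf (β i + β j) * X 0)) • x j +
    lf (u i) • ((2 + lf (β i) * X 0 : Lam) • Yc Θ y 0 + Yc Θ y' 0) +
    lf (w i) • ((2 + lf (β i) * X 0 : Lam) • Yc Θ y 1 + Yc Θ y' 1) ∈ Fb x y W
  sw : ∑ j, lf (w j) • x j + Yc Θ y 2 ∈ Fa x y W
  swb : (X 0 : Lam) • ∑ j, lf (w j * β j) • x j + Yc Θ y' 2 ∈ Fb x y W
  sub : (X 0 : Lam) • ∑ j, lf (u j * β j) • x j + Yc Θ y' 0 ∈ Fb x y W

end

section
variable {ι : Type} [Fintype ι] {G : Type} [Group G] [TopologicalSpace G] {u w : ι → F2}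
  {R : Matrix ι ι F2} {A N : Subgroup G}

/-- The parameters of a quadratic character. -/
structure Par (s : Setup u w R A N) (χ : G →* Multiplicative F2) (β' : ι → F2) (ε η : F2) :
    Prop where
  tau : ∀ i, (χ (s.τ i)).toAdd = β' i
  phi : ∀ i, (χ (s.φ i)).toAdd = η * u i + ε * w i + (R *ᵥ β') i
  cc : (χ s.c).toAdd = η + u ⬝ᵥ β'
  dec : (∀ g ∈ s.D, χ g = 1) ↔ ε = 0 ∧ η = 0 ∧ w ⬝ᵥ β' = 0
  one : β' = 0 → ε = 0 → η = 0 → χ = 1

/-- Coordinates on `A`: anticyclotomic (index zero) and cyclotomic (index one). -/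
structure Coord2 (s : Setup u w R A N) (β : ι → F2) (e : A →* Multiplicative (Fin 2 → ℤ_[2])) :
    Prop where
  cont : Continuous e
  surj : Function.Surjective e
  conj : ∀ x y : A, (y : G) = s.c * x * s.c⁻¹ →
    (e y).toAdd 0 = -(e x).toAdd 0 ∧ (e y).toAdd 1 = (e x).toAdd 1
  tau : ∀ i, ∀ x : A, (x : G) = s.τ i * s.c⁻¹ → rs ((e x).toAdd 0) = β i ∧ (e x).toAdd 1 = 0
  phi : ∀ i, ∀ x : A, (x : G) = s.φ i → (e x).toAdd 0 = 0 ∧ rs ((e x).toAdd 1) = w i
  two : ∃ x : A, ((x : G) ∈ s.D ∨ (x : G) * s.c ∈ s.D) ∧ rs ((e x).toAdd 1) = 1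

end

/-- All data of the Galois half. -/
structure Env {ι : Type} [Fintype ι] {G : Type} [Group G] [TopologicalSpace G] (u w β : ι → F2)
    (R : Matrix ι ι F2) (A K N : Subgroup G) (M : Type) [AddCommGroup M] [TopologicalSpace M]
    [Module Lam M] where
  s : Setup u w R A N
  e : A →* Multiplicative (Fin 2 → ℤ_[2])
  co : Coord2 s β e
  cx : Ctx K N M
  hKA : K ≤ A
  hK : ∀ x : A, e x = 1 ↔ (x : G) ∈ K
  hN : N ≤ K
  hNc : IsClosed (N : Set G)
  h2 : ProTwo N
  hD : s.D ⊓ K ≤ N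
  hX : ∀ (i : Fin 2) (g : A), e g = Multiplicative.ofAdd (Pi.single i 1) →
    ∀ x : M, cx.act g x = (1 + X i : Lam) • x
  par : ∀ χ : G →* Multiplicative F2, Continuous χ → (∀ g ∈ N, χ g = 1) →
    ∃ β' ε η, Par s χ β' ε η
  wex : ∃ i, w i = 1

/-- Continuous cocycles that vanish on `N`. -/
structure Env.Coc {ι : Type} [Fintype ι] {G : Type} [Group G] [TopologicalSpace G]
    {u w β : ι → F2} {R : Matrix ι ι F2} {A K N : Subgroup G} {M : Type} [AddCommGroup M]
    [TopologicalSpace M] [Module Lam M] (E : Env u w β R A K N M) (δ : G → M) : Prop where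
  cont : Continuous δ
  mul : ∀ g h, δ (g * h) = δ g + E.cx.act g (δ h)
  zero : ∀ g ∈ N, δ g = 0

end Pool.Agent.Lib.MP_f8d36e_nt.GG
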