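import Pool.Agent.Lib.MP_f8d36e_nt.Ann
import Pool.Agent.Lib.MP_f8d36e_nt.GG.Env

/-! Job GV: values of leading forms, annihilators, Cramer. -/

set_option autoImplicit false
set_option linter.unusedSectionVars false

open MvPowerSeries Matrix
open scoped MvPowerSeries.WithPiTopology

namespace Pool.Agent.Lib.MP_f8d36e_nt.GG

variable {p q T c d : Kb} {k l : ℕ} {f g : Lam}

theorem gv_two (x : Kb) : x + x = 0 := CharTwo.add_self_eq_zero x

theorem gv_cases (t : F2) : algebraMap F2 Kb t = 0 ∨ algebraMap F2 Kb t = 1 := by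
  rcases (by decide : ∀ s : F2, s = 0 ∨ s = 1) t with rfl | rfl
  · exact Or.inl (map_zero _)
  · exact Or.inr (map_one _)

theorem Val.unique (h : Val p q T k f c) (h' : Val p q T k f d) : c = d := by
  obtain ⟨G, h1, rfl⟩ := h
  obtain ⟨G', h2, rfl⟩ := h'
  rw [h1.unique h2]

theorem Val.add (h : Val p q T k f c) (h' : Val p q T k g d) : Val p q T k (f + g) (c + d) := by
  obtain ⟨G, h1, rfl⟩ := h
  obtain ⟨G', h2, rfl⟩ := h'
  exact ⟨G + G', h1.add h2, hev_add⟩

theorem Val.neg (h : Val p q T k f c) : Val p q T k (-f) c := by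
  obtain ⟨G, h1, rfl⟩ := h
  have h2 := (lead_int (-1)).mul h1
  have e : ((-1 : ℤ) : MvPolynomial (Fin 2) F2) = 1 := by
    rw [← map_intCast (MvPolynomial.C : F2 →+* MvPolynomial (Fin 2) F2),
      (by decide : ((-1 : ℤ) : F2) = 1), map_one]
  rw [zero_add, e, one_mul, Int.cast_neg, Int.cast_one, neg_one_mul] at h2
  exact ⟨G, h2, rfl⟩

theorem Val.sub (h : Val p q T k f c) (h' : Val p q T k g d) : Val p q T k (f - g) (c + d) := by
  rw [sub_eq_add_neg]
  exact h.add h'.neg

theorem Val.mul (h : Val p q T k f c) (h' : Val p q T l g d) :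
    Val p q T (k + l) (f * g) (c * d) := by
  obtain ⟨G, h1, rfl⟩ := h
  obtain ⟨G', h2, rfl⟩ := h'
  exact ⟨G * G', h1.mul h2, hev_mul (ann_deg h1) (ann_deg h2)⟩

theorem Val.of_mem (h : f ∈ mm ^ (k + 1)) : Val p q T k f 0 := ⟨0, Ld.of_mem h, ann_hev_zero k⟩

theorem Val.lower (h : Val p q T (k + 1) f c) : Val p q T k f 0 := by
  obtain ⟨G, ⟨g, h1, -⟩, -⟩ := h
  exact ⟨0, ⟨2 * g, by rw [h1]; ring, (lead_red _).2 (dvd_mul_right _ _), by simp⟩,
    ann_hev_zero k⟩

theorem Val.of_sub (h : Val p q T k f c) (hg : g - f ∈ mm ^ (k + 1)) : Val p q T k g c := by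
  have := h.add (Val.of_mem hg)
  rwa [add_zero, add_sub_cancel] at this

theorem Val.const (t : F2) : Val p q T 0 (lf t) (algebraMap F2 Kb t) := ⟨_, Ld.const t, by
  rw [hev_C, pow_zero, mul_one]⟩

theorem Val.one : Val p q T 0 1 1 := by
  have := Val.const (p := p) (q := q) (T := T) 1
  rwa [map_one, lf, (by decide : (1 : F2).val = 1), Nat.cast_one] at this

theorem Val.two : Val p q T 1 2 p := ⟨1, Ld.two, by
  rw [← MvPolynomial.C_1, hev_C, map_one, one_mul, pow_one]⟩

theorem Val.X0 : Val p q T 1 (X 0) (p + q) := ⟨_, Ld.X 0, hev_X0⟩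

theorem Val.X1 : Val p q T 1 (X 1) T := ⟨_, Ld.X 1, hev_X1⟩

theorem Val.sum {α : Type} (s : Finset α) {a : α → Lam} {b : α → Kb}
    (h : ∀ i ∈ s, Val p q T k (a i) (b i)) : Val p q T k (∑ i ∈ s, a i) (∑ i ∈ s, b i) := by
  classical
  induction s using Finset.induction_on with
  | empty => exact Val.of_mem (Ideal.zero_mem _)
  | insert i s hi ih =>
    rw [Finset.sum_insert hi, Finset.sum_insert hi]
    exact (h i (Finset.mem_insert_self _ _)).add (ih fun j hj => h j (Finset.mem_insert_of_mem hj))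

theorem Val.det {α : Type} [Fintype α] [DecidableEq α] {A : Matrix α α Lam} {H : Matrix α α Kb}
    {n : α → ℕ} (h : ∀ i j, Val p q T (n i) (A i j) (H i j)) :
    Val p q T (∑ i, n i) A.det H.det := by
  choose B h1 h2 using h
  refine ⟨(Matrix.of B).det, Ld.det h1, (hev_det fun i j => ann_deg (h1 i j)).trans ?_⟩
  congr 1
  ext i j
  exact h2 i j

theorem val_res {t : F2} (h : f - lf t ∈ mm) : Val p q T 0 f (algebraMap F2 Kb t) := (Val.const t).of_sub (by rwa [zero_add, pow_one])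

theorem exists_lin (h : f ∈ mm) :
    ∃ a b c : F2, f - (lf a * 2 + lf b * X 0 + lf c * X 1) ∈ mm ^ 2 := by
  obtain ⟨a, b, c, rfl⟩ := Submodule.mem_span_triple.1 h
  obtain ⟨a', ha⟩ := exists_sub_mem_mm a
  obtain ⟨b', hb⟩ := exists_sub_mem_mm b
  obtain ⟨c', hc⟩ := exists_sub_mem_mm c
  refine ⟨a', b', c', ?_⟩
  have e : a • (2 : Lam) + b • (X 0 : Lam) + c • (X 1 : Lam) -
      (lf a' * 2 + lf b' * X 0 + lf c' * X 1) =
      (a - lf a') * 2 + (b - lf b') * X 0 + (c - lf c') * X 1 := by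
    simp only [smul_eq_mul]
    ring
  rw [e, pow_two]
  exact add_mem (add_mem (Ideal.mul_mem_mul ha scal_two_mem) (Ideal.mul_mem_mul hb (scal_X_mem 0)))
    (Ideal.mul_mem_mul hc (scal_X_mem 1))

theorem val_lin {a b c : F2} (h : f - (lf a * 2 + lf b * X 0 + lf c * X 1) ∈ mm ^ 2) :
    Val p q T 1 f (algebraMap F2 Kb a * p + algebraMap F2 Kb b * (p + q) +
      algebraMap F2 Kb c * T) := ((((Val.const a).mul Val.two).add ((Val.const b).mul Val.X0)).add
    ((Val.const c).mul Val.X1)).of_sub h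

theorem gv_inF_add {x : Kb} (h : InF x c) (h' : InF x d) : InF x (c + d) := by
  have e1 := gv_two x
  have e2 := gv_two 1
  unfold InF at *
  rcases h with rfl | rfl | rfl | rfl <;> rcases h' with rfl | rfl | rfl | rfl
  all_goals first
    | (left; linear_combination 0 * e1)
    | (left; linear_combination e1)
    | (left; linear_combination e2)
    | (left; linear_combination e1 + e2)
    | (right; left; linear_combination 0 * e1)
    | (right; left; linear_combination e1)
    | (right; right; left; linear_combination 0 * e1)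
    | (right; right; left; linear_combination e2)
    | (right; right; right; linear_combination 0 * e1)

theorem gv_inF_mul {x : Kb} (t : F2) (h : InF x c) : InF x (algebraMap F2 Kb t * c) := by
  rcases gv_cases t with e | e
  · rw [e, zero_mul]
    exact Or.inl rfl
  · rwa [e, one_mul]

/-- At a special point the values of first order lie among four elements. -/
theorem val_inF {x : Kb} (hT : T = 0 ∨ T = 1 ∨ T = 1 + x) (h : f ∈ mm) :
    ∃ c, InF x c ∧ Val 1 x T 1 f c := by
  obtain ⟨a, b, c, h1⟩ := exists_lin h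
  refine ⟨_, gv_inF_add (gv_inF_add (gv_inF_mul a (Or.inr (Or.inl rfl)))
    (gv_inF_mul b (Or.inr (Or.inr (Or.inr rfl))))) (gv_inF_mul c ?_), val_lin h1⟩
  rcases hT with e | e | e
  exacts [Or.inl e, Or.inr (Or.inl e), Or.inr (Or.inr (Or.inr e))]

theorem InF.add {x : Kb} (h : InF x c) (h' : InF x d) : InF x (c + d) := gv_inF_add h h'

theorem InF.const_mul {x : Kb} (t : F2) (h : InF x c) : InF x (algebraMap F2 Kb t * c) := gv_inF_mul t h

theorem NZ.mul (h : NZ p q T f) (h' : NZ p q T g) : NZ p q T (f * g) := by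
  obtain ⟨k, c, h1, h2⟩ := h
  obtain ⟨l, d, h3, h4⟩ := h'
  exact ⟨k + l, c * d, mul_ne_zero h1 h3, h2.mul h4⟩

theorem exists_inv (h : f ∈ mm) : ∃ m : Lam, m * (1 + f) = 1 ∧ m - 1 ∈ mm := by
  have h1 : IsUnit (1 + f) := by
    rw [isUnit_iff_constantCoeff, map_add, map_one]
    have h2 : constantCoeff f ∈ IsLocalRing.maximalIdeal ℤ_[2] := by
      rw [PadicInt.maximalIdeal_eq_span_p, Ideal.mem_span_singleton, Nat.cast_ofNat]
      exact mem_mm.1 h
    have h3 := IsLocalRing.isUnit_one_sub_self_of_mem_nonunits _ (neg_mem h2)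
    rwa [sub_neg_eq_add] at h3
  obtain ⟨m, hm⟩ := h1.exists_left_inv
  refine ⟨m, hm, ?_⟩
  rw [show m - 1 = -m * f by linear_combination hm]
  exact Ideal.mul_mem_left _ _ h

theorem gv_scale {G : MvPolynomial (Fin 2) F2} (h : G.totalDegree ≤ k) (c : Kb) :
    hev k (c * p) (c * q) (c * T) G = c ^ k * hev k p q T G := by
  rw [hev, hev, Finset.mul_sum]
  refine Finset.sum_congr rfl fun e he => ?_
  have a := (MvPolynomial.le_totalDegree he).trans h
  rw [lead_deg] at a
  obtain ⟨j, rfl⟩ := Nat.exists_eq_add_of_le a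
  rw [Nat.add_sub_cancel_left, ← mul_add, mul_pow c (p + q)]
  ring

variable {M : Type} [AddCommGroup M] [Module Lam M]

theorem exists_ann2 {a b : Kb} (h0 : KillsAt M 0 1 b) (h1 : ∀ x, KillsAt M 1 x (a + b * x))
    (P : Ideal Lam) (hP : P.IsPrime) (h : P.height ≤ 1) :
    ∃ f : Lam, f ∉ P ∧ ∀ y : M, f • y = 0 := by
  obtain ⟨f, rfl⟩ := principal_of_height P hP h
  have hf : ¬ IsUnit f := fun h => hP.ne_top (Ideal.span_singleton_eq_top.2 h)
  have key : ∀ p q T : Kb, KillsAt M p q T →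
      (∀ g, f ∣ g → ∀ N G, Ld N g G → hev N p q T G = 0) →
      ∃ g : Lam, g ∉ Ideal.span {f} ∧ ∀ y : M, g • y = 0 := by
    rintro p q T ⟨g, ⟨N, c, c0, G, h1, h2⟩, h3⟩ hz
    exact ⟨g, fun hg => c0 (h2.symm.trans (hz g (Ideal.mem_span_singleton.1 hg) N G h1)), h3⟩
  by_cases e : f = 0
  · refine key _ _ _ h0 fun g hg N G hG => ?_
    rw [e, zero_dvd_iff] at hg
    rw [hg] at hG
    rw [hG.unique (ann_zero N), ann_hev_zero]
  obtain ⟨k, F, k1, F0, hF⟩ := exists_ld e hf
  obtain ⟨p, q, hpq, hz⟩ := exists_hev_zero k1 (ann_deg hF) a b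
  by_cases hp : p = 0
  · have hq : q ≠ 0 := hpq.resolve_left (not_not.2 hp)
    refine key _ _ _ h0 fun g hg N G => ann_hev hF F0 ?_ hg
    have := gv_scale (p := 0) (q := 1) (T := b) (ann_deg hF) q
    rw [mul_zero, mul_one, show q * b = a * p + b * q by rw [hp]; ring, ← hp, hz, hp] at this
    exact (mul_eq_zero.1 this.symm).resolve_left (pow_ne_zero _ hq)
  · refine key _ _ _ (h1 (q / p)) fun g hg N G => ann_hev hF F0 ?_ hg
    have := gv_scale (p := 1) (q := q / p) (T := a + b * (q / p)) (ann_deg hF) p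
    rw [mul_one, show p * (q / p) = q by field_simp,
      show p * (a + b * (q / p)) = a * p + b * q by field_simp, hz] at this
    exact (mul_eq_zero.1 this.symm).resolve_left (pow_ne_zero _ hp)

theorem gv_adj {κ : Type} [Fintype κ] [DecidableEq κ] (x : κ → M) (x0 : M) (A : Matrix κ κ Lam)
    (a : κ → Lam) (rel : ∀ r, ∑ j, A r j • x j + a r • x0 = 0) (l : κ) :
    A.det • x l = -(cramer A a l) • x0 := by
  have h2 : ∑ i, adjugate A l i • (∑ j, A i j • x j + a i • x0) = 0 := by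
    simp only [rel, smul_zero, Finset.sum_const_zero]
  have h3 : ∀ j, ∑ i, adjugate A l i * A i j = if l = j then A.det else 0 := fun j => by
    have := congrFun (congrFun (adjugate_mul A) l) j
    rw [mul_apply, Matrix.smul_apply, one_apply, smul_eq_mul] at this
    simp only [this, mul_ite, mul_one, mul_zero]
  simp only [smul_add, Finset.sum_add_distrib, Finset.smul_sum, smul_smul] at h2
  rw [Finset.sum_comm] at h2
  simp only [← Finset.sum_smul, h3, ite_smul, zero_smul, Finset.sum_ite_eq, Finset.mem_univ,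
    if_true] at h2
  rw [cramer_eq_adjugate_mulVec, neg_smul]
  exact eq_neg_of_add_eq_zero_left h2

theorem gv_det {κ : Type} [Fintype κ] [DecidableEq κ] (A : Matrix κ κ Lam) (L : κ → Lam) :
    (Matrix.of fun r j => A r j * L j).det = (∏ j, L j) * A.det := by
  rw [← det_mul_row]
  congr 1
  ext r j
  rw [of_apply, of_apply, mul_comm]

/-- Relations whose matrix of values is injective give an annihilator. -/
theorem pres_kill {ρ κ : Type} [Fintype ρ] [Fintype κ] [DecidableEq κ] (x : κ → M) (L : κ → Lam)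
    (A : Matrix ρ κ Lam) (n : ρ → ℕ) (H : Matrix ρ κ Kb) (rel : ∀ r, ∑ j, A r j • x j = 0)
    (val : ∀ r j, Val p q T (n r) (A r j * L j) (H r j)) (inj : ∀ z, H *ᵥ z = 0 → z = 0) :
    ∃ Δ, NZ p q T Δ ∧ ∀ j, Δ • x j = 0 := by
  obtain ⟨σ, hσ⟩ := ann_minor H inj
  refine ⟨(Matrix.of fun r j => A.submatrix σ id r j * L j).det,
    ⟨_, _, hσ, Val.det (n := fun r => n (σ r)) fun r j => val (σ r) j⟩, fun j => ?_⟩
  rw [gv_det, mul_smul, gv_adj x 0 (A.submatrix σ id) 0
    (fun r => by rw [smul_zero, add_zero]; exact rel (σ r)) j, smul_zero, smul_zero]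

/-- The rule of Cramer with weights. -/
theorem pres_cramer {κ : Type} [Fintype κ] [DecidableEq κ] (x : κ → M) (x0 : M) (L : κ → Lam)
    (A : Matrix κ κ Lam) (a : κ → Lam) (n : κ → ℕ) (H : Matrix κ κ Kb) (h0 : κ → Kb)
    (rel : ∀ r, ∑ j, A r j • x j + a r • x0 = 0)
    (val : ∀ r j, Val p q T (n r) (A r j * L j) (H r j)) (va : ∀ r, Val p q T (n r) (a r) (h0 r))
    (inj : ∀ z, H *ᵥ z = 0 → z = 0) :
    ∃ (k : ℕ) (Δ : Lam) (c : Kb) (C : κ → Lam) (ξ : κ → Kb), c ≠ 0 ∧ Val p q T k Δ c ∧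
      H *ᵥ ξ + h0 = 0 ∧ ∀ j, Val p q T k (C j) (c * ξ j) ∧ Δ • x j = (L j * C j) • x0 := by
  have hd : H.det ≠ 0 := fun e => by
    obtain ⟨z, h1, h2⟩ := exists_mulVec_eq_zero_iff.2 e
    exact h1 (inj z h2)
  let A' : Matrix κ κ Lam := Matrix.of fun r j => A r j * L j
  refine ⟨∑ r, n r, A'.det, H.det, fun j => -(cramer A' a j), (H.det)⁻¹ • cramer H h0, hd,
    Val.det val, ?_, fun j => ⟨?_, ?_⟩⟩
  · rw [mulVec_smul, mulVec_cramer, smul_smul, inv_mul_cancel₀ hd, one_smul]
    exact funext fun r => gv_two _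
  · rw [Pi.smul_apply, smul_eq_mul, mul_inv_cancel_left₀ hd, cramer_apply]
    refine (Val.det (A := A'.updateCol j a) fun r i => ?_).neg
    rw [updateCol_apply, updateCol_apply]
    split_ifs
    exacts [va r, val r i]
  · have e : L j * cramer A' a j = (∏ i, L i) * cramer A a j := by
      rw [cramer_apply, cramer_apply, ← det_updateCol_smul, ← gv_det]
      congr 1
      ext r i
      rw [of_apply, updateCol_apply, updateCol_apply]
      split_ifs with hi
      · rw [hi, Pi.smul_apply, smul_eq_mul, mul_comm]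
      · rfl
    rw [mul_neg, e, gv_det, mul_smul, gv_adj x x0 A a rel j, smul_smul, mul_neg]

end Pool.Agent.Lib.MP_f8d36e_nt.GG
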