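import Pool.Agent.Lib.MP_f8d36e_nt.RelsThm
import Pool.Agent.Lib.MP_f8d36e_nt.Struct
import Pool.Agent.Lib.MP_f8d36e_nt.GG.GV

/-! Job GB: the action through scalars. -/

set_option autoImplicit false
set_option linter.unusedSectionVars false

open MvPowerSeries Matrix
open scoped MvPowerSeries.WithPiTopology

namespace Pool.Agent.Lib.MP_f8d36e_nt.GG

variable {ι : Type} [Fintype ι] [DecidableEq ι] {G : Type} [Group G] [TopologicalSpace G]
  [IsTopologicalGroup G] [CompactSpace G] [TotallyDisconnectedSpace G] {u w β : ι → F2}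
  {R : Matrix ι ι F2} {A K N : Subgroup G} [K.Normal] [N.Normal] {M : Type} [AddCommGroup M]
  [TopologicalSpace M] [IsTopologicalAddGroup M] [CompactSpace M] [T2Space M] [Module Lam M]
  [ContinuousSMul Lam M] (E : Env u w β R A K N M)
include E

namespace Env

theorem normalA : A.Normal := A.normal_of_index_eq_two E.s.index

theorem closedA : IsClosed (A : Set G) := A.isClosed_of_isOpen E.s.isOpen

theorem closedK : IsClosed (K : Set G) := by
  have h1 : (K : Set G) = Subtype.val '' (E.e ⁻¹' {1}) := by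
    ext g
    exact ⟨fun h => ⟨⟨g, E.hKA h⟩, (E.hK _).2 h, rfl⟩, fun ⟨y, h, e'⟩ => e' ▸ (E.hK y).1 h⟩
  rw [h1]
  exact E.closedA.isClosedEmbedding_subtypeVal.isClosedMap _
    (isClosed_singleton.preimage E.co.cont)

theorem act_mul (g h : G) (y : M) : E.cx.act (g * h) y = E.cx.act g (E.cx.act h y) := by
  rw [map_mul]
  rfl

theorem act_K {g : G} (hg : g ∈ K) (y : M) : E.cx.act g y = y := by
  rw [relsThm_act_one E.cx hg]
  rfl

theorem act_eq {g h : A} (e : E.e g = E.e h) (y : M) : E.cx.act g y = E.cx.act h y := by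
  have h1 := (E.hK (h⁻¹ * g)).1 (by rw [map_mul, map_inv, e, inv_mul_cancel])
  rw [← mul_inv_cancel_left (h : G) g, E.act_mul]
  exact congrArg _ (E.act_K h1 y)

theorem cont_act (g : G) : Continuous (E.cx.act g) :=
  E.cx.cont_act.comp (continuous_const.prodMk continuous_id)

theorem gb_odd {g : G} (hg : g ∉ A) : g * E.s.c⁻¹ ∈ A :=
  (Subgroup.mul_mem_iff_of_index_two E.s.index).2
    (iff_of_false hg fun h => E.s.c_not (A.inv_mem_iff.1 h))

theorem gb_sc (i : Fin 2) (g : A) (hg : ∀ j, j ≠ i → (E.e g).toAdd j = 0) :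
    ∃ μ : Lam, μ - lf (rs ((E.e g).toAdd i)) ∈ mm ∧
      ∀ x : M, E.cx.act g x = (1 + X i * μ : Lam) • x :=
  exists_scalar E.closedA E.co.cont E.co.surj E.cx.act E.cx.cont_act
    (fun g h => relsThm_act_one E.cx ((E.hK g).1 h)) E.hX i g hg

theorem gb_sc0 (g : A) (hg : (E.e g).toAdd 1 = 0) :
    ∃ μ : Lam, μ - lf (rs ((E.e g).toAdd 0)) ∈ mm ∧
      ∀ x : M, E.cx.act g x = (1 + X 0 * μ : Lam) • x :=
  E.gb_sc 0 g (Fin.forall_fin_two.2 ⟨fun h => absurd rfl h, fun _ => hg⟩)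

theorem gb_sc1 (g : A) (hg : (E.e g).toAdd 0 = 0) :
    ∃ μ : Lam, μ - lf (rs ((E.e g).toAdd 1)) ∈ mm ∧
      ∀ x : M, E.cx.act g x = (1 + X 1 * μ : Lam) • x :=
  E.gb_sc 1 g (Fin.forall_fin_two.2 ⟨fun _ => hg, fun h => absurd rfl h⟩)

theorem gb_surj (a b : ℤ_[2]) : ∃ g : A, (E.e g).toAdd 0 = a ∧ (E.e g).toAdd 1 = b :=
  (E.co.surj (Multiplicative.ofAdd ![a, b])).imp fun _ h => by
    rw [h]
    exact ⟨rfl, rfl⟩

theorem gb_ext {g h : A} (h0 : (E.e g).toAdd 0 = (E.e h).toAdd 0)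
    (h1 : (E.e g).toAdd 1 = (E.e h).toAdd 1) : E.e g = E.e h :=
  Multiplicative.toAdd.injective (funext (Fin.forall_fin_two.2 ⟨h0, h1⟩))

theorem odd {g : G} (hg : g ∉ A) : ∃ x : A, g = x * E.s.c :=
  ⟨⟨_, E.gb_odd hg⟩, (inv_mul_cancel_right g _).symm⟩

theorem scal (g : A) : ∃ l : Lam, l - 1 - (lf (rs ((E.e g).toAdd 0)) * X 0 +
    lf (rs ((E.e g).toAdd 1)) * X 1) ∈ mm ^ 2 ∧ l - 1 ∈ mm ∧ ∀ y : M, E.cx.act g y = l • y := by
  obtain ⟨g0, a0, b0⟩ := E.gb_surj ((E.e g).toAdd 0) 0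
  obtain ⟨g1, a1, b1⟩ := E.gb_surj 0 ((E.e g).toAdd 1)
  obtain ⟨μ, h0, hμ⟩ := E.gb_sc0 g0 b0
  obtain ⟨ν, h1, hν⟩ := E.gb_sc1 g1 a1
  rw [a0] at h0
  rw [b1] at h1
  have h3 : E.e g = E.e (g0 * g1) := E.gb_ext (by simp [a0, a1]) (by simp [b0, b1])
  refine ⟨(1 + X 0 * μ) * (1 + X 1 * ν), ?_, ?_, fun y => ?_⟩
  · generalize lf (rs ((E.e g).toAdd 0)) = a, lf (rs ((E.e g).toAdd 1)) = b at h0 h1 ⊢
    rw [show (1 + X 0 * μ) * (1 + X 1 * ν) - 1 - (a * X 0 + b * X 1) =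
      X 0 * (μ - a) + X 1 * (ν - b) + X 0 * (X 1 * (μ * ν)) by ring, pow_two]
    exact add_mem (add_mem (Ideal.mul_mem_mul relsThm_S h0) (Ideal.mul_mem_mul relsThm_T h1))
      (Ideal.mul_mem_mul relsThm_S (mm.mul_mem_right _ relsThm_T))
  · rw [show (1 + X 0 * μ) * (1 + X 1 * ν) - 1 = X 0 * (μ * (1 + X 1 * ν)) + X 1 * ν by ring]
    exact add_mem (mm.mul_mem_right _ relsThm_S) (mm.mul_mem_right _ relsThm_T)
  · rw [E.act_eq h3, Subgroup.coe_mul, E.act_mul, hμ, hν, mul_smul]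

theorem hT (y : M) : E.cx.act E.s.c ((X 1 : Lam) • y) = (X 1 : Lam) • E.cx.act E.s.c y := by
  obtain ⟨g, hg⟩ := E.co.surj (Multiplicative.ofAdd (Pi.single 1 1))
  have h1 := E.co.conj g ⟨_, E.normalA.conj_mem _ g.2 E.s.c⟩ rfl
  have h3 := E.hX 1 ⟨_, E.normalA.conj_mem _ g.2 E.s.c⟩
    ((E.gb_ext (by simpa [hg] using h1.1) h1.2).trans hg) (E.cx.act E.s.c y)
  rw [← E.act_mul, inv_mul_cancel_right, E.act_mul, E.hX 1 g hg, add_smul, one_smul, map_add,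
    add_smul, one_smul] at h3
  exact add_left_cancel h3

theorem hS : ∃ μ : Lam, μ - 1 ∈ mm ∧
    ∀ y : M, E.cx.act E.s.c ((X 0 : Lam) • y) = (X 0 * μ : Lam) • E.cx.act E.s.c y := by
  obtain ⟨g, hg⟩ := E.co.surj (Multiplicative.ofAdd (Pi.single 0 1))
  have h1 := E.co.conj g ⟨_, E.normalA.conj_mem _ g.2 E.s.c⟩ rfl
  obtain ⟨μ, h3, h4⟩ := E.gb_sc0 ⟨_, E.normalA.conj_mem _ g.2 E.s.c⟩ (by simpa [hg] using h1.2)
  refine ⟨μ, ?_, fun y => ?_⟩
  · have h5 : ((-1 : ZMod 2).val) = 1 := by decide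
    rwa [h1.1, hg, toAdd_ofAdd, Pi.single_eq_same, rs, lf, map_neg, map_one, h5,
      Nat.cast_one] at h3
  · have h5 := h4 (E.cx.act E.s.c y)
    rw [← E.act_mul, inv_mul_cancel_right, E.act_mul, E.hX 0 g hg, add_smul, one_smul, map_add,
      add_smul, one_smul] at h5
    exact add_left_cancel h5

theorem tau (j : ι) : ∃ μ : Lam, μ - lf (β j) ∈ mm ∧
    ∀ y : M, E.cx.act (E.s.τ j) y = (1 + X 0 * μ : Lam) • E.cx.act E.s.c y := by
  have h1 := E.co.tau j ⟨_, E.gb_odd (E.s.τ_not j)⟩ rfl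
  obtain ⟨μ, h3, h4⟩ := E.gb_sc0 ⟨_, E.gb_odd (E.s.τ_not j)⟩ h1.2
  refine ⟨μ, h1.1 ▸ h3, fun y => ?_⟩
  rw [← h4, ← E.act_mul, inv_mul_cancel_right]

theorem phi (i : ι) : ∃ ν : Lam, ν - lf (w i) ∈ mm ∧
    ∀ y : M, E.cx.act (E.s.φ i) y = (1 + X 1 * ν : Lam) • y := by
  have h1 := E.co.phi i ⟨_, E.s.φ_mem i⟩ rfl
  obtain ⟨ν, h3, h4⟩ := E.gb_sc1 ⟨_, E.s.φ_mem i⟩ h1.1
  exact ⟨ν, h1.2 ▸ h3, h4⟩

theorem e_conj {r : G} (hr : r ∉ A) (x y : A) (h : (y : G) = r * x * r⁻¹) :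
    (E.e y).toAdd 0 = -(E.e x).toAdd 0 ∧ (E.e y).toAdd 1 = (E.e x).toAdd 1 := by
  obtain ⟨x0, rfl⟩ := E.odd hr
  have h1 : y = x0 * ⟨_, E.normalA.conj_mem _ x.2 E.s.c⟩ * x0⁻¹ := Subtype.ext (by
    simp only [h, Subgroup.coe_mul, Subgroup.coe_inv, _root_.mul_inv_rev, mul_assoc])
  rw [h1, E.e.map_mul, E.e.map_mul, E.e.map_inv, mul_inv_cancel_comm]
  exact E.co.conj x _ rfl

theorem eq_mod {g h : A} (hg : (g : G) ∈ E.s.D) (hh : (h : G) ∈ E.s.D) (e : E.e g = E.e h) :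
    (g : G)⁻¹ * h ∈ N :=
  E.hD ⟨E.s.D.mul_mem (E.s.D.inv_mem hg) hh,
    (E.hK (g⁻¹ * h)).1 (by rw [map_mul, map_inv, e, inv_mul_cancel])⟩

variable {E}

theorem Coc.one {δ : G → M} (hδ : E.Coc δ) : δ 1 = 0 := hδ.zero 1 N.one_mem

theorem Coc.inv {δ : G → M} (hδ : E.Coc δ) (g : G) : δ g⁻¹ = -E.cx.act g⁻¹ (δ g) :=
  eq_neg_of_add_eq_zero_left (by rw [← hδ.mul, inv_mul_cancel, hδ.one])

theorem Coc.eq {δ : G → M} (hδ : E.Coc δ) {g h : G} (e : g⁻¹ * h ∈ N) : δ g = δ h := by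
  rw [← mul_inv_cancel_left g h, hδ.mul, hδ.zero _ e, map_zero, add_zero]

variable (E)

/-- Powers with 2-adic exponent inside a closed subgroup. -/
theorem pw (D0 : Subgroup G) (hD : IsClosed (D0 : Set G)) (g : A) (hg : (g : G) ∈ D0) {l : Lam}
    (hl : l - 1 ∈ mm) (hl' : ∀ y : M, E.cx.act g y = l • y) {δ : G → M} (hδ : E.Coc δ)
    (t : ℤ_[2]) : ∃ (h : A) (ν : Lam), (h : G) ∈ D0 ∧ (E.e h).toAdd = t • (E.e g).toAdd ∧
      ν - lf (rs t) ∈ mm ∧ (∀ y : M, E.cx.act h y = (1 + (l - 1) * ν) • y) ∧ δ h = ν • δ g ∧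
      ∀ χ : G →* Multiplicative F2, Continuous χ → (χ h).toAdd = rs t * (χ g).toAdd := by
  have : CompactSpace A := isCompact_iff_compactSpace.1 E.closedA.isCompact
  let Z : Set ((A × Lam) × ℤ_[2]) := {z | (z.1.1 : G) ∈ D0 ∧
    (E.e z.1.1).toAdd = z.2 • (E.e g).toAdd ∧ z.1.2 - lf (rs z.2) ∈ mm ∧
    (∀ y : M, E.cx.act z.1.1 y = (1 + (l - 1) * z.1.2) • y) ∧ δ z.1.1 = z.1.2 • δ g ∧
    ∀ χ : G →* Multiplicative F2, Continuous χ → (χ z.1.1).toAdd = rs z.2 * (χ g).toAdd}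
  have c0 : Continuous fun z : (A × Lam) × ℤ_[2] => (z.1.1 : G) := by fun_prop
  have c1 : Continuous fun z : (A × Lam) × ℤ_[2] => rs z.2 := struct_cont.comp continuous_snd
  have hZ : IsClosed Z := by
    simp only [Z, Set.ofPred_and, Set.ofPred_forall]
    exact (hD.preimage c0).inter ((isClosed_eq (continuous_toAdd.comp (E.co.cont.comp
      (continuous_fst.comp continuous_fst))) (by fun_prop)).inter ((isClosed_mm.preimage
      ((continuous_snd.comp continuous_fst).sub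
        ((continuous_of_discreteTopology (f := lf)).comp c1))).inter
      ((isClosed_iInter fun y => isClosed_eq (E.cx.cont_act.comp (c0.prodMk continuous_const))
      (by fun_prop)).inter ((isClosed_eq (hδ.cont.comp c0) (by fun_prop)).inter
      (isClosed_iInter fun χ => isClosed_iInter fun hχ => isClosed_eq
        (continuous_toAdd.comp (hχ.comp c0)) (c1.mul continuous_const))))))
  have hn : ∀ n : ℕ, (n : ℤ_[2]) ∈ Prod.snd '' Z := fun n => by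
    induction n with
    | zero => exact ⟨((1, 0), 0), ⟨D0.one_mem, by simp, by simp, by simp,
        by simpa using hδ.one, by simp⟩, Nat.cast_zero.symm⟩
    | succ n ih =>
      obtain ⟨⟨⟨h, ν⟩, s⟩, ⟨h1, h2, h3, h4, h5, h6⟩, h7⟩ := ih
      dsimp only at h1 h2 h3 h4 h5 h6 h7
      refine ⟨((g * h, 1 + l * ν), s + 1), ⟨D0.mul_mem hg h1, ?_, ?_, fun y => ?_, ?_,
        fun χ hχ => ?_⟩, by rw [Nat.cast_succ, ← h7]⟩ <;> dsimp only
      · rw [map_mul, toAdd_mul, h2, add_smul, one_smul, add_comm]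
      · have h8 := relsThm_val_add (rs s) 1
        rw [ZMod.val_one, Nat.cast_one] at h8
        have h9 := add_mem (add_mem (mm.mul_mem_right ν hl) h3) (sub_mem relsThm_two h8)
        rw [rs, map_add, map_one]
        exact (congrArg (· ∈ mm) (by ring)).mp h9
      · rw [Subgroup.coe_mul, E.act_mul, hl', h4, smul_smul]
        exact congrArg (· • y) (by ring)
      · rw [Subgroup.coe_mul, hδ.mul, hl', h5, add_smul, one_smul, mul_smul]
      · rw [Subgroup.coe_mul, map_mul, toAdd_mul, h6 χ hχ, rs, rs, map_add, map_one]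
        ring
  obtain ⟨⟨⟨h, ν⟩, s⟩, h1, rfl⟩ := PadicInt.denseRange_natCast.induction_on
    (p := fun t => t ∈ Prod.snd '' Z) t (isClosedMap_snd_of_compactSpace Z hZ) hn
  exact ⟨h, ν, h1⟩

theorem pw_D {g h : A} (hg : (g : G) ∈ E.s.D) (hh : (h : G) ∈ E.s.D) {t : ℤ_[2]}
    (e : (E.e h).toAdd = t • (E.e g).toAdd) {δ : G → M} (hδ : E.Coc δ) :
    ∃ ν : Lam, ν - lf (rs t) ∈ mm ∧ δ h = ν • δ g ∧ ∀ χ : G →* Multiplicative F2, Continuous χ →
      (∀ n ∈ N, χ n = 1) → (χ h).toAdd = rs t * (χ g).toAdd := by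
  obtain ⟨l, -, h1, h2⟩ := E.scal g
  obtain ⟨k, ν, a1, a2, a3, -, a5, a6⟩ := E.pw E.s.D E.s.closed g hg h1 h2 hδ t
  have h3 := E.eq_mod a1 hh (Multiplicative.toAdd.injective (a2.trans e.symm))
  refine ⟨ν, a3, (hδ.eq h3).symm.trans a5, fun χ hχ h4 => ?_⟩
  rw [← mul_inv_cancel_left (k : G) h, map_mul, h4 _ h3, mul_one, a6 χ hχ]

theorem pow_scalar {g h : A} {t : ℤ_[2]} (e : (E.e h).toAdd = t • (E.e g).toAdd) {l : Lam}
    (hl : l - 1 ∈ mm) (hl' : ∀ y : M, E.cx.act g y = l • y) :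
    ∃ ν : Lam, ν - lf (rs t) ∈ mm ∧ ∀ y : M, E.cx.act h y = (1 + (l - 1) * ν) • y := by
  obtain ⟨k, ν, -, a2, a3, a4, -⟩ := E.pw ⊤ isClosed_univ g trivial hl hl' (δ := fun _ => 0)
    ⟨continuous_const, fun _ _ => by simp, fun _ _ => rfl⟩ t
  exact ⟨ν, a3, fun y =>
    (E.act_eq (Multiplicative.toAdd.injective (e.trans a2.symm)) y).trans (a4 y)⟩

/-- The anticyclotomic elements act through scalars with known leading form. -/
theorem omega (g : A) (h1 : (E.e g).toAdd 1 = 0) (h0 : (E.e g).toAdd 0 ≠ 0) :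
    ∃ W : Lam, W ∈ mm ∧ W - lf (rs ((E.e g).toAdd 0)) * X 0 ∈ mm ^ 2 ∧
      (∀ y : M, E.cx.act g y = (1 + W) • y) ∧
      ∀ p q T : Kb, p ≠ 0 → q ≠ 0 → p + q ≠ 0 → NZ p q T W := by
  have e := PadicInt.unitCoeff_spec h0
  generalize PadicInt.unitCoeff h0 = v, ((E.e g).toAdd 0).valuation = j at e
  clear h0
  induction j generalizing g with
  | zero =>
    obtain ⟨μ, h2, h3⟩ := E.gb_sc0 g h1
    have h4 : rs ((E.e g).toAdd 0) = 1 := (struct_f2 _).resolve_left (by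
      rw [e, pow_zero, mul_one]
      exact (v.isUnit.map PadicInt.toZMod).ne_zero)
    rw [h4, lf, ZMod.val_one, Nat.cast_one] at h2 ⊢
    have h5 : X 0 * μ - X 0 ∈ mm ^ 2 := by
      rw [← mul_sub_one, pow_two]
      exact Ideal.mul_mem_mul relsThm_S h2
    exact ⟨X 0 * μ, mm.mul_mem_right _ relsThm_S, by rwa [one_mul], h3,
      fun p q T _ _ h => ⟨1, _, h, Val.X0.of_sub h5⟩⟩
  | succ j ih =>
    obtain ⟨k, a, b⟩ := E.gb_surj (v * ((2 : ℕ) : ℤ_[2]) ^ j) 0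
    obtain ⟨W, h2, h3, h4, h5⟩ := ih k b a
    have h6 : E.e g = E.e (k * k) := E.gb_ext
      (by rw [e, map_mul, toAdd_mul, Pi.add_apply, a]; push_cast; ring) (by simp [h1, b])
    have h7 : rs ((E.e g).toAdd 0) = 0 := by
      rw [e, pow_succ, rs, map_mul, map_mul, map_natCast, ZMod.natCast_self, mul_zero, mul_zero]
    refine ⟨W * (2 + W), mm.mul_mem_right _ h2, ?_, fun y => ?_, fun p q T hp hq h =>
      (h5 p q T hp hq h).mul ?_⟩
    · rw [h7, lf, ZMod.val_zero, Nat.cast_zero, zero_mul, sub_zero, pow_two]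
      exact Ideal.mul_mem_mul h2 (add_mem relsThm_two h2)
    · rw [E.act_eq h6, Subgroup.coe_mul, E.act_mul, h4, h4, smul_smul]
      exact congrArg (· • y) (by ring)
    · rcases struct_f2 (rs ((E.e k).toAdd 0)) with c | c <;> rw [c, lf] at h3
      · rw [ZMod.val_zero, Nat.cast_zero, zero_mul, sub_zero] at h3
        exact ⟨1, p, hp, Val.two.of_sub (by rwa [add_sub_cancel_left])⟩
      · rw [ZMod.val_one, Nat.cast_one, one_mul] at h3
        exact ⟨1, _, by rwa [← add_assoc, CharTwo.add_self_eq_zero, zero_add],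
          (Val.two.add Val.X0).of_sub (by rwa [add_sub_add_left_eq_sub])⟩

end Env

end Pool.Agent.Lib.MP_f8d36e_nt.GG
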