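import Pool.Agent.Lib.MP_f8d36e_nt.GG.GB

/-! Job GC: the cocycles. -/

set_option autoImplicit false
set_option linter.unusedSectionVars false

open MvPowerSeries Matrix
open scoped MvPowerSeries.WithPiTopology

namespace Pool.Agent.Lib.MP_f8d36e_nt.GG

variable {ι : Type} [Fintype ι] [DecidableEq ι] {G : Type} [Group G] [TopologicalSpace G]
  [IsTopologicalGroup G] [CompactSpace G] [TotallyDisconnectedSpace G] {u w β : ι → F2}
  {R : Matrix ι ι F2} {A K N : Subgroup G} [K.Normal] [N.Normal] {M : Type} [AddCommGroup M]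
  [TopologicalSpace M] [IsTopologicalAddGroup M] [CompactSpace M] [T2Space M] [Module Lam M]
  [ContinuousSMul Lam M] (E : Env u w β R A K N M)
include E

namespace Env

/-- Extension of a cocycle from the subgroup of index two. -/
theorem coc_ext {r : G} (hr : r ∉ A) (δ0 : A → M) (hc : Continuous δ0)
    (hm : ∀ g h : A, δ0 (g * h) = δ0 g + E.cx.act g (δ0 h))
    (hz : ∀ g : A, (g : G) ∈ N → δ0 g = 0) (κ : M)
    (h1 : ∀ g g' : A, (g' : G) = r * g * r⁻¹ →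
      δ0 g' = κ + E.cx.act r (δ0 g) - E.cx.act g' κ)
    (h2 : ∀ g : A, (g : G) = r * r → δ0 g = κ + E.cx.act r κ) :
    ∃ δ : G → M, E.Coc δ ∧ (∀ g : A, δ g = δ0 g) ∧ δ r = κ := by
  classical
  have i2 := E.s.index
  let f : G → M := fun g => if h : g ∈ A then δ0 ⟨g, h⟩ else
    δ0 ⟨g * r⁻¹, (Subgroup.mul_mem_iff_of_index_two i2).2 (by simp [h, hr])⟩ +
      E.cx.act (g * r⁻¹) κ
  have f1 : ∀ x : A, f x = δ0 x := fun x => dif_pos x.2
  have f2 : ∀ x : A, f (x * r) = δ0 x + E.cx.act x κ := fun x => by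
    have : (x : G) * r ∉ A := fun h => hr ((A.mul_mem_cancel_left x.2).1 h)
    simp only [f, dif_neg this, mul_inv_cancel_right]
  have f3 : ∀ g h, f (g * h) = f g + E.cx.act g (f h) := fun g h => by
    obtain ⟨x, rfl | rfl⟩ := struct_cases i2 hr g <;> obtain ⟨y, rfl | rfl⟩ := struct_cases i2 hr h
    · rw [← Subgroup.coe_mul, f1, f1, f1, hm]
    · rw [← mul_assoc, ← Subgroup.coe_mul, f2, f1, f2, hm, add_assoc, map_add, Subgroup.coe_mul,
        E.act_mul]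
    · obtain ⟨y', hy⟩ := struct_conj i2 r y
      rw [show (x : G) * r * y = (x * y' : A) * r by rw [Subgroup.coe_mul, hy]; group,
        f2, f2, f1, hm, h1 y y' hy, Subgroup.coe_mul, E.act_mul, E.act_mul, map_sub, map_add]
      abel
    · obtain ⟨y', hy⟩ := struct_conj i2 r y
      obtain ⟨s, hs⟩ : ∃ s : A, (s : G) = r * r :=
        ⟨⟨_, (Subgroup.mul_mem_iff_of_index_two i2).2 Iff.rfl⟩, rfl⟩
      have e : E.cx.act y' (E.cx.act r κ) = E.cx.act r (E.cx.act y κ) := by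
        rw [← E.act_mul, hy, inv_mul_cancel_right, E.act_mul]
      rw [show (x : G) * r * (y * r) = (x * (y' * s) : A) by
        rw [Subgroup.coe_mul, Subgroup.coe_mul, hy, hs]; group,
        f1, f2, f2, hm, hm, h1 y y' hy, h2 s hs, E.act_mul]
      simp only [map_add, map_sub, e]
      abel
  have c1 : ContinuousAt f 1 :=
    (E.s.isOpen.isOpenEmbedding_subtypeVal.continuousAt_iff (x := ⟨1, A.one_mem⟩)).1
      (hc.congr fun x => (f1 x).symm).continuousAt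
  refine ⟨f, ⟨continuous_iff_continuousAt.2 fun g => ?_, f3,
    fun g hg => (f1 ⟨g, E.hKA (E.hN hg)⟩).trans (hz _ hg)⟩, f1, ?_⟩
  · rw [show f = fun h => f g + E.cx.act g (f (g⁻¹ * h)) from
      funext fun h => by rw [← f3, mul_inv_cancel_left]]
    exact continuousAt_const.add ((E.cont_act g).continuousAt.comp
      (c1.comp_of_eq (by fun_prop) (inv_mul_cancel g)))
  · have := f2 1
    rwa [Subgroup.coe_one, one_mul, hz 1 N.one_mem, zero_add, E.act_K K.one_mem] at this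

open Classical in
/-- The projection, extended by zero. -/
noncomputable def gcPi (g : G) : M := if h : g ∈ K then (E.cx.π ⟨g, h⟩).toAdd else 0

/-- The class of a commutator. -/
noncomputable def gcP (z g : G) : M := E.gcPi (z * g * z⁻¹ * g⁻¹)

variable {z z' g h k : G}

theorem gcPi_coe (k : K) : E.gcPi k = (E.cx.π k).toAdd := dif_pos k.2

theorem gcPi_mul (hg : g ∈ K) (hh : h ∈ K) : E.gcPi (g * h) = E.gcPi g + E.gcPi h := by
  have := E.gcPi_coe (⟨g, hg⟩ * ⟨h, hh⟩)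
  rwa [map_mul, toAdd_mul, ← E.gcPi_coe, ← E.gcPi_coe] at this

theorem gcPi_conj (g : G) (hk : k ∈ K) : E.gcPi (g * k * g⁻¹) = E.cx.act g (E.gcPi k) := by
  rw [E.gcPi_coe ⟨_, ‹K.Normal›.conj_mem k hk g⟩, E.cx.spec g ⟨k, hk⟩ _ rfl, ← E.gcPi_coe]

theorem gcPi_N (hk : k ∈ N) : E.gcPi k = 0 := by
  rw [E.gcPi_coe ⟨k, E.hN hk⟩, toAdd_eq_zero, ← MonoidHom.mem_ker, E.cx.ker]
  exact hk

theorem gcPi_inv (hk : k ∈ K) : E.gcPi k⁻¹ = -E.gcPi k := by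
  have := E.gcPi_coe (⟨k, hk⟩⁻¹)
  rwa [map_inv, toAdd_inv, ← E.gcPi_coe] at this

theorem gc_comm (hz : z ∈ A) (hg : g ∈ A) : z * g * z⁻¹ * g⁻¹ ∈ K :=
  (E.hK (⟨z, hz⟩ * ⟨g, hg⟩ * ⟨z, hz⟩⁻¹ * ⟨g, hg⟩⁻¹)).1 (by
    rw [map_mul, map_mul, map_mul, map_inv, map_inv, mul_inv_cancel_comm, mul_inv_cancel])

theorem gcP_cont {X : Type} [TopologicalSpace X] {f : X → G} (hf : Continuous f)
    (h : ∀ x, z * f x * z⁻¹ * (f x)⁻¹ ∈ K) : Continuous fun x => E.gcP z (f x) :=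
  (continuous_toAdd.comp (E.cx.cont.comp (Continuous.subtype_mk (by fun_prop) h))).congr
    fun x => (E.gcPi_coe ⟨_, h x⟩).symm

theorem gcP_mul (hg : z * g * z⁻¹ * g⁻¹ ∈ K) (hh : z * h * z⁻¹ * h⁻¹ ∈ K) :
    E.gcP z (g * h) = E.gcP z g + E.cx.act g (E.gcP z h) := by
  rw [gcP, gcP, gcP, ← E.gcPi_conj g hh, ← E.gcPi_mul hg (‹K.Normal›.conj_mem _ hh g)]
  congr 1
  group

theorem gcP_K (z : G) (hk : k ∈ K) : E.gcP z k = E.cx.act z (E.gcPi k) - E.gcPi k := by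
  rw [gcP, E.gcPi_mul (‹K.Normal›.conj_mem k hk z) (inv_mem hk), E.gcPi_conj z hk, E.gcPi_inv hk,
    sub_eq_add_neg]

theorem gcP_N (z : G) (hk : k ∈ N) : E.gcP z k = 0 :=
  E.gcPi_N (mul_mem (‹N.Normal›.conj_mem k hk z) (inv_mem hk))

theorem gcP_D (hz : z ∈ E.s.D) (hg : g ∈ E.s.D) (h : z * g * z⁻¹ * g⁻¹ ∈ K) : E.gcP z g = 0 :=
  E.gcPi_N (E.hD (Subgroup.mem_inf.2
    ⟨mul_mem (mul_mem (mul_mem hz hg) (inv_mem hz)) (inv_mem hg), h⟩))

theorem gcP_conj (r : G) (hg : z * g * z⁻¹ * g⁻¹ ∈ K) :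
    E.cx.act r (E.gcP z g) = E.gcP (r * z * r⁻¹) (r * g * r⁻¹) := by
  rw [gcP, gcP, ← E.gcPi_conj r hg]
  congr 1
  group

theorem gcP_swap (hg : z * g * z⁻¹ * g⁻¹ ∈ K) : E.gcP g z = -E.gcP z g := by
  rw [gcP, gcP, ← E.gcPi_inv hg]
  congr 1
  group

theorem gcP_congr (hg : z * g * z⁻¹ * g⁻¹ ∈ K) (h : z⁻¹ * z' ∈ N) : E.gcP z' g = E.gcP z g := by
  have n := ‹N.Normal›.conj_mem _ (mul_mem h (‹N.Normal›.conj_mem _ (inv_mem h) g)) z
  rw [gcP, gcP, ← zero_add (E.gcPi (z * g * z⁻¹ * g⁻¹)), ← E.gcPi_N n, ← E.gcPi_mul (E.hN n) hg]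
  congr 1
  group

theorem gcP_jac (hz : z ∈ A) (hz' : z' ∈ A) (hg : g ∈ A) :
    E.cx.act z' (E.gcP z g) - E.gcP z g = -E.gcP z z' + (E.cx.act z (E.gcP z' g) - E.gcP z' g) -
      E.cx.act g (-E.gcP z z') := by
  have k := E.gc_comm hz' hg
  have h1 := E.gcP_mul (E.gc_comm hz (E.hKA k)) (E.gc_comm hz (mul_mem hg hz'))
  rw [show z' * g * z'⁻¹ * g⁻¹ * (g * z') = z' * g by group, E.act_K k, E.gcP_K z k,
    E.gcP_mul (E.gc_comm hz hz') (E.gc_comm hz hg),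
    E.gcP_mul (E.gc_comm hz hg) (E.gc_comm hz hz'), ← gcP] at h1
  rw [map_neg]
  linear_combination (norm := abel) h1

theorem gc_val (g : A) : ∃ l : Lam, l - 1 ∈ mm ∧ (∀ y : M, E.cx.act g y = l • y) ∧
    ∀ p q T : Kb, Val p q T 1 (l - 1) (algebraMap F2 Kb (rs ((E.e g).toAdd 0)) * (p + q) +
      algebraMap F2 Kb (rs ((E.e g).toAdd 1)) * T) := by
  obtain ⟨l, h1, h2, h3⟩ := E.scal g
  refine ⟨l, h2, h3, fun p q T => ?_⟩
  simpa using val_lin (p := p) (q := q) (T := T) (a := 0) (by simpa using h1)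

theorem gc_nz (g : A) (h : rs ((E.e g).toAdd 1) = 1) : ∃ l : Lam, (∀ y : M, E.cx.act g y = l • y) ∧
    ∀ p q T : Kb, T ≠ 0 → T ≠ p + q → NZ p q T (l - 1) := by
  obtain ⟨l, -, h1, h2⟩ := E.gc_val g
  refine ⟨l, h1, fun p q T a b => ⟨1, _, ?_, h2 p q T⟩⟩
  rw [h, map_one, one_mul]
  rcases struct_f2 (rs ((E.e g).toAdd 0)) with e | e <;> rw [e]
  · simpa using a
  · rw [map_one, one_mul, Ne, CharTwo.add_eq_zero]
    exact b.symm

theorem gc_one {x x' : A} {r : G} (hr : r ∉ A) (hx : (x' : G) = r * x * r⁻¹)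
    (hD : ((x * x' : A) : G) ∈ E.s.D) (h : rs ((E.e x).toAdd 1) = 1) :
    ∃ (δ : G → M) (θ : Lam), E.Coc δ ∧ (∀ g ∈ E.s.D, δ g = 0) ∧
      (∀ k : K, δ k = θ • (E.cx.π k).toAdd) ∧
      ∀ p q T : Kb, T ≠ 0 → T ≠ p → T ≠ p + q → NZ p q T θ := by
  obtain ⟨e0, e1⟩ := E.e_conj hr x x' hx
  have z0 : (E.e (x * x')).toAdd 0 = 0 := by simp [e0]
  have cen : ∀ g : G, (x * x' : A) * g * ((x * x' : A) : G)⁻¹ * g⁻¹ ∈ K := fun g => by
    by_cases hg : g ∈ A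
    · exact E.gc_comm (x * x').2 hg
    obtain ⟨y, hy⟩ := struct_conj E.s.index g (x * x')
    obtain ⟨a, b⟩ := E.e_conj hg _ y hy
    have := (E.hK (x * x' * y⁻¹)).1 (by
      rw [map_mul, map_inv, mul_inv_eq_one]
      refine Multiplicative.toAdd.injective (funext (Fin.forall_fin_two.2 ⟨?_, b.symm⟩))
      rw [a, z0, neg_zero])
    rwa [Subgroup.coe_mul _ _ y⁻¹, Subgroup.coe_inv, hy, _root_.mul_inv_rev, _root_.mul_inv_rev,
      inv_inv, ← mul_assoc, ← mul_assoc] at this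
  obtain ⟨y, hy⟩ := E.co.surj (Multiplicative.ofAdd ![0, (E.e x).toAdd 1])
  obtain ⟨l, -, h1, h2⟩ := E.gc_val y
  have h3 : E.e (x * x') = E.e (y * y) :=
    Multiplicative.toAdd.injective (funext (Fin.forall_fin_two.2 (by simp [e0, e1, hy])))
  refine ⟨E.gcP (x * x' : A), (l - 1) * (2 + (l - 1)), ⟨E.gcP_cont continuous_id cen,
    fun g h => E.gcP_mul (cen g) (cen h), fun g => E.gcP_N _⟩, fun g hg => E.gcP_D hD hg (cen g),
    fun k => ?_, fun p q T a b _ => ?_⟩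
  · rw [E.gcP_K _ k.2, E.act_eq h3, Subgroup.coe_mul, E.act_mul, h1, h1, E.gcPi_coe,
      show (l - 1) * (2 + (l - 1)) = l * l - 1 by ring, sub_smul, one_smul, mul_smul]
  · have h4 : Val p q T 1 (l - 1) T := by simpa [hy, h] using h2 p q T
    exact ⟨_, _, mul_ne_zero a fun e => b (CharTwo.add_eq_zero.1 e).symm, h4.mul (Val.two.add h4)⟩

/-- A cocycle that kills the decomposition group. -/
theorem coc_A : ∃ (δ : G → M) (θ : Lam), E.Coc δ ∧ (∀ g ∈ E.s.D, δ g = 0) ∧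
    (∀ k : K, δ k = θ • (E.cx.π k).toAdd) ∧
    ∀ p q T : Kb, T ≠ 0 → T ≠ p → T ≠ p + q → NZ p q T θ := by
  obtain ⟨x, hx, h⟩ := E.co.two
  obtain ⟨x', hx'⟩ := struct_conj E.s.index E.s.c x
  have ci := inv_eq_of_mul_eq_one_right E.s.c_sq
  rcases hx with hx | hx
  swap
  · refine E.gc_one E.s.c_not hx' ?_ h
    rw [Subgroup.coe_mul, hx', ci, mul_assoc, ← mul_assoc]
    exact mul_mem hx hx
  by_cases hD : E.s.D ≤ A
  swap
  · obtain ⟨r, h1, h2⟩ := SetLike.not_le_iff_exists.1 hD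
    obtain ⟨y, hy⟩ := struct_conj E.s.index r x
    refine E.gc_one h2 hy ?_ h
    rw [Subgroup.coe_mul, hy]
    exact mul_mem hx (mul_mem (mul_mem h1 hx) (inv_mem h1))
  obtain ⟨l, l1, l2⟩ := E.gc_nz x h
  obtain ⟨m, m1, m2⟩ := E.gc_nz x' (by rw [(E.co.conj x x' hx').2, h])
  have cx : E.s.c * x' * E.s.c⁻¹ = x := by
    rw [hx', ci, ← mul_assoc, ← mul_assoc, E.s.c_sq, one_mul, mul_assoc, E.s.c_sq, mul_one]
  have m3 : ∀ y : M, (m - 1) • y = E.cx.act x' y - y := fun y => by rw [m1, sub_smul, one_smul]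
  obtain ⟨δ, d1, d2, -⟩ := E.coc_ext E.s.c_not (fun g => (m - 1) • E.gcP x g)
    ((E.gcP_cont continuous_subtype_val fun g => E.gc_comm x.2 g.2).const_smul _)
    (fun g h => by
      obtain ⟨n, -, -, hn⟩ := E.scal g
      rw [Subgroup.coe_mul, E.gcP_mul (E.gc_comm x.2 g.2) (E.gc_comm x.2 h.2), hn, hn, smul_add,
        smul_comm n])
    (fun g hg => by rw [E.gcP_N _ hg, smul_zero]) (-E.gcP x x')
    (fun g g' e => by
      rw [m3, m3, map_sub, ← E.act_mul, ← inv_mul_cancel_right (E.s.c * x') E.s.c, cx, E.act_mul,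
        E.gcP_conj _ (E.gc_comm x.2 g.2), ← hx', ← e]
      exact E.gcP_jac x.2 x'.2 g'.2)
    fun g e => by
      rw [e, E.s.c_sq, E.gcP_N _ N.one_mem, smul_zero, map_neg, E.gcP_conj _ (E.gc_comm x.2 x'.2),
        cx, ← hx', E.gcP_swap (E.gc_comm x.2 x'.2), neg_neg, neg_add_cancel]
  refine ⟨δ, (m - 1) * (l - 1), d1, fun g hg => ?_, fun k => ?_,
    fun p q T a _ b => (m2 p q T a b).mul (l2 p q T a b)⟩
  · rw [d2 ⟨g, hD hg⟩, E.gcP_D hx hg (E.gc_comm x.2 (hD hg)), smul_zero]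
  · rw [d2 ⟨k, E.hKA k.2⟩, E.gcP_K _ k.2, l1, E.gcPi_coe, mul_smul, sub_smul l, one_smul]

/-- A cocycle that kills two inertia generators. -/
theorem coc_C {n0 n1 : ι} (h0 : β n0 = 0) (h1 : β n1 = 1) :
    ∃ (δ : G → M) (θ : Lam), E.Coc δ ∧ δ (E.s.τ n0) = 0 ∧ δ (E.s.τ n1) = 0 ∧
      (∀ k : K, δ k = θ • (E.cx.π k).toAdd) ∧ ∀ p q T : Kb, p + q ≠ 0 → NZ p q T θ := by
  obtain ⟨x0, a0⟩ := struct_tau E.s n0
  obtain ⟨x1, a1⟩ := struct_tau E.s n1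
  obtain ⟨y, hy⟩ := struct_conj E.s.index E.s.c x0
  obtain ⟨b0, b1⟩ := E.co.tau n0 x0 a0
  obtain ⟨b2, b3⟩ := E.co.tau n1 x1 a1
  obtain ⟨b4, b5⟩ := E.co.conj x0 y hy
  obtain ⟨l, l1, l2, l3⟩ := E.gc_val (x1 * y)
  obtain ⟨m, m1, m2⟩ := exists_inv l1
  rw [add_sub_cancel] at m1
  have l4 : ∀ p q T : Kb, Val p q T 1 (l - 1) (p + q) := fun p q T => by
    simpa [b0, b1, b2, b3, b4, b5, h0, h1] using l3 p q T
  have ea : ((x1 * y : A) : G) = E.s.τ n1 * E.s.τ n0 := by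
    rw [Subgroup.coe_mul, hy, a0, a1, show E.s.τ n1 * E.s.c⁻¹ * (E.s.c * (E.s.τ n0 * E.s.c⁻¹) *
      E.s.c⁻¹) = E.s.τ n1 * E.s.τ n0 * (E.s.c * E.s.c)⁻¹ by group, E.s.c_sq, inv_one, mul_one]
  generalize x1 * y = a at l2 ea
  have n1' : (a : G) * (E.s.τ n1 * a * (E.s.τ n1)⁻¹) ∈ N := by
    have := ‹N.Normal›.conj_mem _ (mul_mem (‹N.Normal›.conj_mem _ (E.s.τ_sq n1) (E.s.τ n0))
      (E.s.τ_sq n0)) (E.s.τ n1)
    convert this using 1
    rw [ea]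
    group
  have m3 : ∀ v : M, E.cx.act (a : G)⁻¹ v = m • v := fun v => by
    conv_lhs => rw [← one_smul Lam v, ← m1, mul_comm, mul_smul, ← l2, ← E.act_mul, inv_mul_cancel,
      E.act_K K.one_mem]
  have ai := inv_mem a.2
  obtain ⟨δ, d1, d2, d3⟩ := E.coc_ext (E.s.τ_not n1) (fun g => E.gcP a g + E.gcP (a : G)⁻¹ g)
    ((E.gcP_cont continuous_subtype_val fun g => E.gc_comm a.2 g.2).add
      (E.gcP_cont continuous_subtype_val fun g => E.gc_comm ai g.2))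
    (fun g h => by
      rw [Subgroup.coe_mul, E.gcP_mul (E.gc_comm a.2 g.2) (E.gc_comm a.2 h.2),
        E.gcP_mul (E.gc_comm ai g.2) (E.gc_comm ai h.2), map_add, add_add_add_comm])
    (fun g hg => by rw [E.gcP_N _ hg, E.gcP_N _ hg, add_zero]) 0
    (fun g g' e => by
      rw [map_zero, sub_zero, zero_add, map_add, E.gcP_conj _ (E.gc_comm a.2 g.2),
        E.gcP_conj _ (E.gc_comm ai g.2), ← e,
        E.gcP_congr (z' := _ * _ * _) (E.gc_comm ai g'.2) (by rwa [inv_inv]),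
        E.gcP_congr (z' := _ * _ * _) (E.gc_comm a.2 g'.2) (by
          convert inv_mem (‹N.Normal›.mem_comm n1') using 1
          group), add_comm])
    fun g e => by
      rw [e, E.gcP_N _ (E.s.τ_sq n1), E.gcP_N _ (E.s.τ_sq n1), map_zero]
  refine ⟨δ, m * ((l - 1) * (l - 1)), d1, ?_, d3, fun k => ?_, fun p q T a => ⟨_, _, ?_,
    (val_res (t := 1) (by rwa [lf, ZMod.val_one, Nat.cast_one])).mul ((l4 p q T).mul (l4 p q T))⟩⟩
  · have h2 := d1.mul (E.s.τ n1) (E.s.τ n0)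
    rw [← ea, d2, d3, zero_add, gcP, gcP, E.gcPi_N (by simp), E.gcPi_N (by simp), zero_add] at h2
    rw [← E.act_K K.one_mem (δ _), ← inv_mul_cancel (E.s.τ n1), E.act_mul, ← h2, map_zero]
  · rw [d2 ⟨k, E.hKA k.2⟩, E.gcP_K _ k.2, E.gcP_K _ k.2, l2, m3, E.gcPi_coe,
      show m * ((l - 1) * (l - 1)) = l - 1 + (m - 1) by linear_combination (l - 2) * m1,
      add_smul, sub_smul, sub_smul, one_smul]
  · simpa using a

/-- From the span of the cocycle to the whole module. -/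
theorem kills_of {δ : G → M} {θ Δ : Lam} (hθ : ∀ k : K, δ k = θ • (E.cx.π k).toAdd)
    (hΔ : ∀ g, Δ • δ g = 0) {p q T : Kb} (h1 : NZ p q T θ) (h2 : NZ p q T Δ) :
    KillsAt M p q T := ⟨Δ * θ, h2.mul h1, fun y => by
  obtain ⟨k, hk⟩ := E.cx.surj (Multiplicative.ofAdd y)
  have := hΔ k
  rwa [hθ, hk, toAdd_ofAdd, ← mul_smul] at this⟩

end Env

end Pool.Agent.Lib.MP_f8d36e_nt.GG
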