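import Pool.Agent.Lib.MP_f8d36e_nt.CtxEx
import Pool.Agent.Lib.MP_f8d36e_nt.GG.GB

/-! Job GF: the module is finitely generated. -/

set_option autoImplicit false
set_option linter.unusedSectionVars false

open MvPowerSeries Matrix
open scoped MvPowerSeries.WithPiTopology

namespace Pool.Agent.Lib.MP_f8d36e_nt.GG

variable {ι : Type} [Fintype ι] [DecidableEq ι] {G : Type} [Group G] [TopologicalSpace G]
  [IsTopologicalGroup G] [CompactSpace G] [TotallyDisconnectedSpace G] {u w β : ι → F2}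
  {R : Matrix ι ι F2} {A K N : Subgroup G} [K.Normal] [N.Normal] {M : Type} [AddCommGroup M]
  [TopologicalSpace M] [IsTopologicalAddGroup M] [CompactSpace M] [T2Space M] [Module Lam M]
  [ContinuousSMul Lam M] (E : Env u w β R A K N M)
include E

/-- Topological generators of the subgroup of index two. -/
theorem gf_gen : ∃ a : ι × Fin 4 → A, ∀ P : Subgroup G, P ≤ A → IsClosed (P : Set G) → N ≤ P →
    (∀ z, (a z : G) ∈ P) → A ≤ P := by
  have hi := @Subgroup.mul_mem_iff_of_index_two _ _ _ E.s.index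
  have hc := E.s.c_not
  have c1 := E.s.c_sq
  have hχ := E.s.chars
  generalize E.s.c = c at hc c1 hχ
  have c2 : ∀ x, c * (c * x) = x := fun x => by rw [← mul_assoc, c1, one_mul]
  have c3 : c⁻¹ = c := inv_eq_of_mul_eq_one_right c1
  refine ⟨fun z => ![⟨E.s.τ z.1 * c, by simp [hi, hc, E.s.τ_not]⟩,
    ⟨c * E.s.τ z.1, by simp [hi, hc, E.s.τ_not]⟩, ⟨E.s.φ z.1, E.s.φ_mem _⟩,
    ⟨c * E.s.φ z.1 * c, by simp [hi, hc, E.s.φ_mem]⟩] z.2, fun P hA hP hN h g hg => ?_⟩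
  let H : Subgroup G :=
    { carrier := {g | (g ∈ P ∧ c * g * c ∈ P) ∨ (g * c ∈ P ∧ c * g ∈ P)}
      one_mem' := Or.inl ⟨P.one_mem, by simpa only [mul_one, c1] using P.one_mem⟩
      mul_mem' := by
        rintro a b (⟨a1, a2⟩ | ⟨a1, a2⟩) (⟨b1, b2⟩ | ⟨b1, b2⟩)
        · exact Or.inl ⟨P.mul_mem a1 b1, by simpa only [mul_assoc, c2] using P.mul_mem a2 b2⟩
        · exact Or.inr ⟨by simpa only [mul_assoc] using P.mul_mem a1 b1,
            by simpa only [mul_assoc, c2] using P.mul_mem a2 b2⟩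
        · exact Or.inr ⟨by simpa only [mul_assoc, c2] using P.mul_mem a1 b2,
            by simpa only [mul_assoc] using P.mul_mem a2 b1⟩
        · exact Or.inl ⟨by simpa only [mul_assoc, c2] using P.mul_mem a1 b2,
            by simpa only [mul_assoc] using P.mul_mem a2 b1⟩
      inv_mem' := by
        rintro a (⟨a1, a2⟩ | ⟨a1, a2⟩)
        · exact Or.inl ⟨P.inv_mem a1, by
            simpa only [_root_.mul_inv_rev, c3, mul_assoc] using P.inv_mem a2⟩
        · exact Or.inr ⟨by simpa only [_root_.mul_inv_rev, c3] using P.inv_mem a2,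
            by simpa only [_root_.mul_inv_rev, c3] using P.inv_mem a1⟩ }
  have hN' : N ≤ H := fun n hn =>
    Or.inl ⟨hN hn, hN (by simpa only [c3] using ‹N.Normal›.conj_mem n hn c)⟩
  have hH : H = ⊤ := by
    by_contra hne
    obtain ⟨χ, k1, k2, k3⟩ := exists_char E.h2 H hN'
      ((hP.inter (hP.preimage (f := fun g => c * g * c) (by fun_prop))).union
        ((hP.preimage (f := fun g => g * c) (by fun_prop)).inter
          (hP.preimage (f := fun g => c * g) (by fun_prop)))) hne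
    obtain ⟨β', ε, η, b1, b2, b3, -, b4⟩ := hχ χ k1 fun g hg => k3 g (hN' hg)
    obtain rfl : β' = 0 := funext fun i => by
      rw [← b1 i, k3 _ (Or.inr ⟨h (i, 0), h (i, 1)⟩)]
      rfl
    obtain ⟨i, e⟩ := E.wex
    have b5 := b2 i
    rw [k3 c (Or.inr ⟨c1 ▸ P.one_mem, c1 ▸ P.one_mem⟩), dotProduct_zero, add_zero, toAdd_one] at b3
    rw [k3 (E.s.φ i) (Or.inl ⟨h (i, 2), h (i, 3)⟩), ← b3, e, mulVec_zero] at b5
    exact k2 (b4 rfl (by simpa using b5.symm) b3.symm)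
  rcases (hH.symm ▸ Subgroup.mem_top g : g ∈ H) with k | k
  · exact k.1
  · exact (hc ((A.mul_mem_cancel_left hg).1 (hA k.1))).elim

/-- A closed subgroup of the kernel that contains finitely many elements is the kernel. -/
theorem gf_ker : ∃ k : Option (ι × Fin 4) → K, ∀ Q : Subgroup G, IsClosed (Q : Set G) → N ≤ Q →
    (∀ a ∈ A, ∀ q ∈ Q, a * q * a⁻¹ ∈ Q) → (∀ z, (k z : G) ∈ Q) → K ≤ Q := by
  obtain ⟨a, ha⟩ := gf_gen E
  choose g hg using fun i : Fin 2 => E.co.surj (Multiplicative.ofAdd (Pi.single i 1))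
  let C : Subgroup G := (Subgroup.closure (Set.range fun i => (g i : G))).topologicalClosure
  have hC : ∀ (i : Fin 2) (t : ℤ_[2]), ∃ h : A, (h : G) ∈ C ∧ (E.e h).toAdd = Pi.single i t :=
    fun i t => by
      obtain ⟨l, -, h1, h2⟩ := E.scal (g i)
      obtain ⟨h, ν, k1, k2, -⟩ := E.pw C (Subgroup.isClosed_topologicalClosure _) (g i)
        (Subgroup.le_topologicalClosure _ (Subgroup.subset_closure ⟨i, rfl⟩)) h1 h2
        (δ := fun _ => 0) ⟨continuous_const, fun _ _ => by simp, fun _ _ => rfl⟩ t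
      exact ⟨h, k1, by rw [k2, hg, toAdd_ofAdd, ← Pi.single_smul, smul_eq_mul, mul_one]⟩
  have hs : ∀ b : A, ∃ (k : K), ∃ h ∈ C, (b : G) = k * h := fun b => by
    obtain ⟨h0, m0, e0⟩ := hC 0 ((E.e b).toAdd 0)
    obtain ⟨h1, m1, e1⟩ := hC 1 ((E.e b).toAdd 1)
    refine ⟨⟨_, (E.hK (b * (h0 * h1)⁻¹)).1 ?_⟩, h0 * h1, C.mul_mem m0 m1, by simp [mul_assoc]⟩
    rw [map_mul, map_inv, mul_inv_eq_one, map_mul]
    refine Multiplicative.toAdd.injective (funext fun j => ?_)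
    rw [toAdd_mul, e0, e1]
    fin_cases j <;> simp
  choose k h hh e using fun z => hs (a z)
  refine ⟨fun o => o.elim ⟨_, (E.hK ((g 0 * g 1)⁻¹ * (g 1 * g 0))).1 (by
    rw [map_mul, map_inv, map_mul, map_mul, mul_comm (E.e (g 0)), inv_mul_cancel])⟩ k,
    fun Q hQ hN hn hk y hy => mem_of_forall_open Q hQ fun W hW ho => ?_⟩
  obtain ⟨n, hp⟩ := ctxEx_pow E.h2 (W := N ⊔ W) inferInstance
    (Subgroup.isOpen_mono le_sup_right ho) le_sup_left
  let V : Subgroup A :=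
    { carrier := {b | (b : G) ∈ Q ⊔ W ∧ ∀ i, (2 : ℤ_[2]) ^ n ∣ (E.e b).toAdd i}
      one_mem' := ⟨one_mem _, fun i => by simp⟩
      mul_mem' := fun {a b} ha hb => ⟨mul_mem ha.1 hb.1, fun i => by
        simpa using (ha.2 i).add (hb.2 i)⟩
      inv_mem' := fun {a} ha => ⟨inv_mem ha.1, fun i => by simpa using ha.2 i⟩ }
  have hV : ∀ b : A, (b : G) ∈ Q → (b : G) ∈ K → b ∈ V := fun b h1 h2 =>
    ⟨Subgroup.mem_sup_left h1, fun i => by simp [(E.hK b).2 h2]⟩
  have : V.Normal := ⟨fun b hb c => ⟨by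
    obtain ⟨q, h1, z, h2, e⟩ := Subgroup.mem_sup_of_normal_right.1 hb.1
    have := Subgroup.mul_mem_sup (hn c c.2 q h1) (hW.conj_mem z h2 c)
    simpa [← e, mul_assoc] using this, fun i => by simpa using hb.2 i⟩⟩
  have cm : Commute (QuotientGroup.mk' V (g 0)) (QuotientGroup.mk' V (g 1)) := by
    rw [commute_iff_eq, ← map_mul, ← map_mul]
    refine QuotientGroup.eq.2 (hV _ (hk none) ((E.hK _).1 ?_))
    rw [map_mul, map_inv, map_mul, map_mul, mul_comm (E.e (g 0)), inv_mul_cancel]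
  let f := MonoidHom.noncommCoprod (zpowersHom _ (QuotientGroup.mk' V (g 0)))
    (zpowersHom _ (QuotientGroup.mk' V (g 1))) fun a b => cm.zpow_zpow _ _
  let P : Subgroup G := (f.range.comap (QuotientGroup.mk' V)).map A.subtype
  have hP : ∀ b ∈ V, (b : G) ∈ P := fun b hb =>
    ⟨b, ⟨1, (map_one f).trans ((QuotientGroup.eq_one_iff b).2 hb).symm⟩, rfl⟩
  have cl : IsClosed (P : Set G) := by
    refine P.isClosed_of_isOpen (Subgroup.isOpen_mono (H₁ := V.map A.subtype)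
      (fun _ ⟨b, hb, e⟩ => e ▸ hP b hb) (E.s.isOpen.isOpenMap_subtype_val _ (IsOpen.inter
        ((Subgroup.isOpen_mono le_sup_right ho).preimage continuous_subtype_val) ?_)))
    show IsOpen {b : A | ∀ i, (2 : ℤ_[2]) ^ n ∣ (E.e b).toAdd i}
    simp only [Set.ofPred_forall, lim_dvd_iff, ← mem_closedBall_zero_iff]
    exact isOpen_iInter_of_finite fun i =>
      (IsUltrametricDist.isOpen_closedBall _ (by positivity)).preimage
        ((continuous_apply i).comp (continuous_toAdd.comp E.co.cont))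
  have hCP : C ≤ P := Subgroup.topologicalClosure_minimal _ ((Subgroup.closure_le _).2 (by
    rintro _ ⟨i, rfl⟩
    fin_cases i
    · exact ⟨g 0, ⟨(Multiplicative.ofAdd 1, 1), by simp [f]⟩, rfl⟩
    · exact ⟨g 1, ⟨(1, Multiplicative.ofAdd 1), by simp [f]⟩, rfl⟩)) cl
  obtain ⟨b, ⟨p, hb⟩, rfl⟩ := ha P (Subgroup.map_subtype_le _) cl
    (fun z hz => hP ⟨z, E.hKA (E.hN hz)⟩ (hV _ (hN hz) (E.hN hz))) (fun z => by
      rw [e]
      exact P.mul_mem (hP ⟨k z, E.hKA (k z).2⟩ (hV _ (hk (some z)) (k z).2)) (hCP (hh z)))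
    (E.hKA hy)
  obtain ⟨h1, h2⟩ : (g 0 ^ p.1.toAdd * g 1 ^ p.2.toAdd)⁻¹ * b ∈ V :=
    QuotientGroup.eq.1 (by simpa [f] using hb)
  have h3 : ∀ (i : Fin 2) (m : ℤ), (2 : ℤ_[2]) ^ n ∣ m → ((g i ^ m : A) : G) ∈ Q ⊔ W :=
    fun i m hm => by
      obtain ⟨t, rfl⟩ := (PadicInt.pow_p_dvd_int_iff (p := 2) n m).1 (by exact_mod_cast hm)
      rw [Subgroup.coe_zpow, _root_.zpow_mul, ← Nat.cast_pow, zpow_natCast]
      exact zpow_mem (sup_le_sup_right hN W (hp _)) t
  have h4 := (E.hK b).2 hy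
  rw [Subgroup.coe_mul, Subgroup.coe_inv, Subgroup.coe_mul] at h1
  exact (Subgroup.mul_mem_cancel_left _ (inv_mem (mul_mem
    (h3 0 _ (by simpa [h4, hg] using h2 0)) (h3 1 _ (by simpa [h4, hg] using h2 1))))).1 h1

theorem Env.finite : Module.Finite Lam M := by
  obtain ⟨k, hk⟩ := gf_ker E
  let Q := Submodule.span Lam (Set.range fun z => (E.cx.π (k z)).toAdd)
  have := hk (((AddSubgroup.toSubgroup Q.toAddSubgroup).comap E.cx.π).map K.subtype)
    (E.closedK.isClosedMap_subtype_val _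
      ((isClosed_span _).preimage (continuous_toAdd.comp E.cx.cont)))
    (fun n hn => ⟨⟨n, E.hN hn⟩, by
      have : (⟨n, E.hN hn⟩ : K) ∈ E.cx.π.ker := E.cx.ker ▸ hn
      show (E.cx.π _).toAdd ∈ Q
      rw [this]
      exact Q.zero_mem, rfl⟩)
    (by
      rintro a ha _ ⟨q, hq, rfl⟩
      obtain ⟨l, -, -, hl⟩ := E.scal ⟨a, ha⟩
      refine ⟨⟨_, ‹K.Normal›.conj_mem _ q.2 a⟩, ?_, rfl⟩
      show (E.cx.π _).toAdd ∈ Q
      rw [E.cx.spec a q _ rfl, hl]
      exact Q.smul_mem _ hq)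
    fun z => ⟨k z, Submodule.subset_span (R := Lam) ⟨z, rfl⟩, rfl⟩
  refine ⟨Submodule.fg_def.2 ⟨_, Set.finite_range fun z => (E.cx.π (k z)).toAdd,
    eq_top_iff.2 fun y _ => ?_⟩⟩
  obtain ⟨z, hz⟩ := E.cx.surj (Multiplicative.ofAdd y)
  obtain ⟨q, hq, e⟩ := this z.2
  rw [Subtype.ext e, SetLike.mem_coe, Subgroup.mem_comap, hz] at hq
  exact hq

end Pool.Agent.Lib.MP_f8d36e_nt.GG
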