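import Pool.Agent.Lib.MP_f8d36e_nt.Chars
import Pool.Agent.Lib.MP_f8d36e_nt.GG.Env

/-! Job GH: the quadratic characters for every field. -/

set_option autoImplicit false
set_option linter.unusedSectionVars false

open MvPowerSeries Matrix
open scoped MvPowerSeries.WithPiTopology

namespace Pool.Agent.Lib.MP_f8d36e_nt.GG

open scoped Pointwise IntermediateField

theorem gh_odd {m : ℕ} (ho : Odd m) (p : m.primeFactors) : (p : ℕ) % 2 = 1 :=
  Nat.odd_iff.1 (ho.of_dvd_nat (Nat.dvd_of_mem_primeFactors p.2))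

theorem gh_prod {m : ℕ} (hm : Squarefree m) : ∏ p : m.primeFactors, ((p : ℕ) : ℤ) = m := by
  rw [← Nat.cast_prod, Finset.prod_coe_sort m.primeFactors fun p => p,
    Nat.prod_primeFactors_of_squarefree hm]

theorem gh_st (p : ℕ) : (p : ℤ) = (-1) ^ (uN p).val * charsSt p := by
  unfold uN charsSt
  split_ifs <;> simp [ZMod.val_one]

/-- The shape of a squarefree number with given odd prime factors. -/
theorem gh_shape {m : ℕ} (hm : Squarefree m) {d : ℤ} (hd : Squarefree d)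
    (β : m.primeFactors → F2) (h1 : ∀ p, β p = 1 → ((p : ℕ) : ℤ) ∣ d)
    (h2 : ∀ q : ℕ, q.Prime → q ≠ 2 → (q : ℤ) ∣ d → ∃ p : m.primeFactors, (p : ℕ) = q ∧ β p = 1) :
    ∃ η ε : F2, d = (-1) ^ η.val * (2 ^ ε.val * ∏ p : m.primeFactors, charsSt p ^ (β p).val) := by
  obtain ⟨Q, hQ⟩ : ∃ Q, Q = ∏ p : m.primeFactors, charsSt p ^ (β p).val := ⟨_, rfl⟩
  have q1 : Q ∣ m := by
    rw [← gh_prod hm, hQ]
    refine Finset.prod_dvd_prod_of_dvd _ _ fun p _ => ?_
    rcases chars_two (β p) with h | h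
    · simp [h]
    · rw [h, ZMod.val_one, pow_one, gh_st]
      exact dvd_mul_left _ _
  have q2 : Squarefree Q := (Int.squarefree_natCast.2 hm).squarefree_of_dvd q1
  obtain ⟨e, rfl⟩ : Q ∣ d := chars_dvd q2 fun q hq h => by
    rw [hQ] at h
    obtain ⟨p, -, hp⟩ := (Nat.prime_iff_prime_int.1 hq).exists_mem_finset_dvd h
    rcases chars_two (β p) with k | k
    · rw [k, ZMod.val_zero, pow_zero] at hp
      exact absurd (isUnit_of_dvd_one hp) (Nat.prime_iff_prime_int.1 hq).not_isUnit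
    · rw [k, ZMod.val_one, pow_one, chars_dvd_st,
        Nat.prime_dvd_prime_iff_eq hq (Nat.prime_of_mem_primeFactors p.2)] at hp
      exact hp ▸ h1 p k
  have q3 : Q * e ∣ Q * 2 := chars_dvd hd fun q hq h => by
    by_cases h0 : q = 2
    · exact h0 ▸ dvd_mul_left _ _
    · obtain ⟨p, rfl, hp⟩ := h2 q hq h0 h
      refine Dvd.dvd.mul_right (hQ ▸ (Dvd.dvd.trans ?_ (Finset.dvd_prod_of_mem _
        (Finset.mem_univ p)))) _
      rw [hp, ZMod.val_one, pow_one, chars_dvd_st]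
  have q4 := (mul_dvd_mul_iff_left q2.ne_zero).1 q3
  have q5 := Int.le_of_dvd two_pos q4
  have q6 := Int.le_of_dvd two_pos (neg_dvd.2 q4)
  have q7 : e ≠ 0 := by
    rintro rfl
    simp at q4
  have q8 : e = 1 ∨ e = -1 ∨ e = 2 ∨ e = -2 := by omega
  rw [← hQ]
  rcases q8 with rfl | rfl | rfl | rfl
  · exact ⟨0, 0, by simp⟩
  · exact ⟨1, 0, by simp [ZMod.val_one]⟩
  · exact ⟨0, 1, by simp [ZMod.val_one, mul_comm]⟩
  · exact ⟨1, 1, by simp [ZMod.val_one, mul_comm]⟩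

/-- The local data at a prime factor. -/
theorem gh_local {d : ℤ} (hd : Squarefree d) {θ : Qbar} (hθ : θ ^ 2 = d) {p : ℕ} (hp : p.Prime)
    (hpd : (p : ℤ) ∣ d) : ∃ (P : Ideal Zbar) (τ φ : Gam), P.IsMaximal ∧ (p : Zbar) ∈ P ∧
      τ ∈ P.inertia Gam ∧ τ θ ≠ θ ∧ φ θ = θ ∧ ∀ y : Zbar, φ • y - y ^ p ∈ P := by
  obtain ⟨P, h1, h2⟩ := exists_maximal hp
  obtain ⟨τ, h3, h4⟩ := inertia_moves hd hθ hp hpd P h1 h2
  obtain ⟨φ, -, h5⟩ := exists_frob hp P h1 h2
  rcases apply_sqrt hθ φ with h6 | h6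
  · exact ⟨P, τ, φ, h1, h2, h3, h4, h6, h5⟩
  · refine ⟨P, τ, τ * φ, h1, h2, h3, h4, ?_, fun y => ?_⟩
    · rw [AlgEquiv.mul_apply, h6, map_neg, (apply_sqrt hθ τ).resolve_left h4, neg_neg]
    · rw [mul_smul]
      exact sub_add_sub_cancel (τ • φ • y) (φ • y) _ ▸ P.add_mem (h3 _) (h5 y)

/-- Two splits in the quadratic field of a number that is one modulo eight. -/
theorem gh_split {d : ℤ} (h8 : d % 8 = 1) {x : Qbar} (hx : x ^ 2 = d) {P : Ideal Zbar}
    (hP : P.IsMaximal) (h : (2 : Zbar) ∈ P) {g : Gam} (hg : g ∈ MulAction.stabilizer Gam P) :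
    g x = x := by
  refine (apply_sqrt hx g).resolve_right fun k => hP.ne_top ((Ideal.eq_top_iff_one P).2 ?_)
  obtain ⟨c, rfl⟩ : ∃ c, d = 8 * c + 1 := ⟨d / 8, by omega⟩
  have e0 : ((1 + x) / 2) ^ 2 - (1 + x) / 2 = ((2 * c : ℤ) : Qbar) := by
    push_cast at hx ⊢
    linear_combination hx / 4
  have i1 : IsIntegral ℤ ((1 + x) / 2) := by
    refine ⟨Polynomial.X ^ 2 - (Polynomial.X + Polynomial.C (2 * c)),
      Polynomial.monic_X_pow_sub (by rw [Polynomial.degree_X_add_C]; norm_num), ?_⟩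
    rw [Polynomial.eval₂_sub, Polynomial.eval₂_X_pow, Polynomial.eval₂_add, Polynomial.eval₂_X,
      Polynomial.eval₂_C, eq_intCast, ← e0]
    ring
  obtain ⟨y, hy⟩ : ∃ y : Zbar, y = ⟨_, i1⟩ := ⟨_, rfl⟩
  have h1 : g • y = 1 - y := Subtype.ext (by
    rw [quad_coe_smul, hy]
    change g ((1 + x) / 2) = 1 - (1 + x) / 2
    rw [map_div₀, map_add, map_one, k, map_ofNat]
    ring)
  have h2 : y * (1 - y) ∈ P := by
    have e1 : y ^ 2 - y = ((2 * c : ℤ) : Zbar) := hy ▸ Subtype.ext e0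
    rw [show y * (1 - y) = -(y ^ 2 - y) by ring, e1]
    push_cast
    exact P.neg_mem (P.mul_mem_right _ h)
  have h3 : ∀ z ∈ P, g • z ∈ P := fun z hz =>
    MulAction.mem_stabilizer_iff.1 hg ▸ Ideal.smul_mem_pointwise_smul g z P hz
  rcases hP.isPrime.mem_or_mem h2 with a | a
  · simpa [h1] using P.add_mem a (h3 y a)
  · simpa [smul_sub, h1] using P.add_mem a (h3 _ a)

theorem exists_setup2 (e0 : F2) {m : ℕ} (hm : Squarefree m) (ho : Odd m) {θ : Qbar}
    (hθ : θ ^ 2 = -((2 ^ e0.val * m : ℕ) : Qbar)) (N : Subgroup Gam)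
    (hN : ∀ P : Ideal Zbar, P.IsMaximal → (2 : Zbar) ∉ P →
      P.inertia Gam ⊓ ℚ⟮θ⟯.fixingSubgroup ≤ N) :
    ∃ s : Setup (fun p : m.primeFactors => uN p) (fun p : m.primeFactors => wN p)
      (Rm e0 (fun p : m.primeFactors => uN p) (fun p : m.primeFactors => wN p)
        fun p q : m.primeFactors => rhoN p q) ℚ⟮θ⟯.fixingSubgroup N,
      (∀ χ : Gam →* Multiplicative F2, Continuous χ → (∀ g ∈ N, χ g = 1) →
        ∃ β' ε η, Par s χ β' ε η) ∧
      ∃ P : Ideal Zbar, P.IsMaximal ∧ (2 : Zbar) ∈ P ∧ s.D = MulAction.stabilizer Gam P := by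
  have hθ' : θ ^ 2 = ((-(2 ^ e0.val * m : ℕ) : ℤ) : Qbar) := by
    rw [hθ, Int.cast_neg, Int.cast_natCast]
  have m0 := ho.pos
  have n0 : 0 < 2 ^ e0.val * m := by positivity
  have hsq : Squarefree (-(2 ^ e0.val * m : ℕ) : ℤ) := by
    rw [← Int.squarefree_natAbs, Int.natAbs_neg, Int.natAbs_natCast]
    rcases chars_two e0 with rfl | rfl
    · simpa using hm
    · rw [ZMod.val_one, pow_one]
      exact (Nat.squarefree_mul ho.coprime_two_left).2 ⟨Nat.squarefree_two, hm⟩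
  replace ho := gh_odd ho
  have hpr : ∀ p : m.primeFactors, (p : ℕ).Prime := fun p => Nat.prime_of_mem_primeFactors p.2
  have hp2 : ∀ p : m.primeFactors, (p : ℕ) ≠ 2 := fun p h => by have := ho p; omega
  have hi : ℚ⟮θ⟯.fixingSubgroup.index = 2 := fixing_index hsq (by omega) hθ'
  choose P τ φ h1 h2 h3 h4 h5 h6 using fun p : m.primeFactors => gh_local hsq hθ' (hpr p)
    (dvd_neg.2 (Int.natCast_dvd_natCast.2 ((Nat.dvd_of_mem_primeFactors p.2).mul_left _)))
  obtain ⟨P2, k1, k2⟩ := exists_maximal Nat.prime_two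
  rw [Nat.cast_ofNat] at k2
  obtain ⟨c, c1, c2⟩ := exists_conj
  have n2 := fun p => chars_not_two (ho p) (h1 p) (h2 p)
  have t1 : ∀ p, τ p ∉ ℚ⟮θ⟯.fixingSubgroup := fun p h => h4 p ((mem_fixing _).1 h)
  have t2 : ∀ p, φ p ∈ ℚ⟮θ⟯.fixingSubgroup := fun p => (mem_fixing _).2 (h5 p)
  have s0 : ∀ p : m.primeFactors, charsSt p ≠ 0 := fun p h =>
    (hpr p).ne_zero (by rw [← chars_abs p, h, Int.natAbs_zero])
  have cc : ∀ a : ℤ, a ≠ 0 → charsChi a c = if 0 < a then 0 else 1 := fun a ha =>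
    chars_ext _ _ (by
      rw [chars_chi (chars_sq a), c2 _ _ ha (chars_sq a)]
      split_ifs with h <;> simp [h])
  have fr := fun (a : ℤ) p (h : ¬ ((p : m.primeFactors) : ℕ) ∣ a.natAbs) =>
    chars_frob (hpr p) (hp2 p) (mt Int.natCast_dvd.1 h) (h1 p) (h2 p) (h6 p)
  have f1 : ∀ p, charsChi (-1) (φ p) = uN p := fun p => by
    rw [fr _ p (by simpa using (hpr p).ne_one), chars_neg_one (ho p)]
  have f2 : ∀ p, charsChi 2 (φ p) = wN p := fun p => by
    rw [fr 2 p (mt (Nat.prime_dvd_prime_iff_eq (hpr p) Nat.prime_two).1 (hp2 p)),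
      chars_at_two (ho p)]
  have f3 : ∀ p q : m.primeFactors, p ≠ q → charsChi (charsSt q) (φ p) = rhoN p q :=
    fun p q h => by
      rw [fr _ p (by
        rw [chars_abs, Nat.prime_dvd_prime_iff_eq (hpr p) (hpr q)]
        exact fun e => h (Subtype.ext e)), chars_rec (ho q) (ho p), rhoN]
  have f4 : ∀ p q : m.primeFactors, charsChi (charsSt q) (φ p) =
      Rm e0 (fun p : m.primeFactors => uN p) (fun p : m.primeFactors => wN p)
        (fun p q : m.primeFactors => rhoN p q) p q := by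
    intro p q
    rw [Rm, Rmat]
    split_ifs with h
    · subst h
      have e := (chars_chi hθ' _).2 (h5 p)
      have e1 : ∀ q : m.primeFactors, charsChi (q : ℕ) (φ p) =
          uN p * uN q + charsChi (charsSt q) (φ p) := fun q => by
        rw [gh_st, chars_mul (by positivity) (s0 q), chars_pow, f1]
      rw [← neg_one_mul, chars_mul (by norm_num) (by omega), f1, Nat.cast_mul, Nat.cast_pow,
        Nat.cast_ofNat, chars_mul (by positivity) (by omega), chars_pow, f2, ← gh_prod hm,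
        chars_prod _ fun q => Int.natCast_ne_zero.2 (hpr q).ne_zero,
        Finset.sum_congr rfl fun q _ => e1 q, Finset.sum_add_distrib, ← Finset.mul_sum,
        ← Finset.add_sum_erase _ (fun q : m.primeFactors => charsChi (charsSt q) (φ p))
          (Finset.mem_univ p),
        Finset.sum_congr rfl fun q hq => f3 p q (Finset.ne_of_mem_erase hq).symm] at e
      exact (by decide : ∀ a w e s b c : F2, a + (w * e + (a * s + (b + c))) = 0 →
        b = (1 + s) * a + e * w + c) _ _ _ _ _ _ e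
    · exact f3 p q h
  have par : ∀ χ : Gam →* Multiplicative F2, Continuous χ → (∀ g ∈ N, χ g = 1) →
      ∃ (β' : m.primeFactors → F2) (ε η : F2), (∀ i, (χ (τ i)).toAdd = β' i) ∧
      (∀ i, (χ (φ i)).toAdd = η * uN i + ε * wN i + (Rm e0 (fun p : m.primeFactors => uN p)
        (fun p : m.primeFactors => wN p) (fun p q : m.primeFactors => rhoN p q) *ᵥ β') i) ∧
      (χ c).toAdd = η + (fun p : m.primeFactors => uN p) ⬝ᵥ β' ∧
      ((∀ g ∈ MulAction.stabilizer Gam P2, χ g = 1) ↔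
        ε = 0 ∧ η = 0 ∧ (fun p : m.primeFactors => wN p) ⬝ᵥ β' = 0) ∧
      (β' = 0 → ε = 0 → η = 0 → χ = 1) := by
    intro χ hχ hχN
    obtain ⟨d, x, hd, hx, hχx⟩ := exists_sqrt χ hχ
    obtain ⟨η, ε, e⟩ := gh_shape hm hd (fun p => (χ (τ p)).toAdd) (fun p hp => by
      by_contra h
      rw [(hχx _).2 (inertia_fixes hx (hpr p) (hp2 p) h _ (h1 p) (h2 p) _ (h3 p))] at hp
      exact absurd hp (by decide)) (fun q hq q2 hqd => by
      have hqm : (q : ℤ) ∣ -(2 ^ e0.val * m : ℕ) := by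
        by_contra h
        obtain ⟨Q, a1, a2⟩ := exists_maximal hq
        obtain ⟨t, a3, a4⟩ := inertia_moves hd hx hq hqd Q a1 a2
        exact a4 ((hχx t).1 (hχN t (hN Q a1
          (chars_not_two (hq.eq_two_or_odd.resolve_left q2) a1 a2)
          ⟨a3, (mem_fixing _).2 (inertia_fixes hθ' hq q2 h Q a1 a2 t a3)⟩)))
      obtain ⟨p, rfl⟩ : ∃ p : m.primeFactors, (p : ℕ) = q := ⟨⟨q, Nat.mem_primeFactors.2
        ⟨hq, (hq.dvd_mul.1 (Int.natCast_dvd_natCast.1 (dvd_neg.1 hqm))).resolve_left fun k =>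
          q2 ((Nat.prime_dvd_prime_iff_eq hq Nat.prime_two).1 (hq.dvd_of_dvd_pow k)),
          hm.ne_zero⟩⟩, rfl⟩
      refine ⟨p, rfl, (chars_two _).resolve_left fun h0 => ?_⟩
      obtain ⟨t, a3, a4⟩ := inertia_moves hd hx hq hqd _ (h1 p) (h2 p)
      refine a4 ((hχx t).1 ?_)
      by_cases ht : t ∈ ℚ⟮θ⟯.fixingSubgroup
      · exact hχN t (hN _ (h1 p) (n2 p) ⟨a3, ht⟩)
      · have := hχN _ (hN _ (h1 p) (n2 p) ⟨mul_mem a3 (h3 p),
          (Subgroup.mul_mem_iff_of_index_two hi).2 (iff_of_false ht (t1 p))⟩)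
        rwa [map_mul, toAdd_eq_zero.1 h0, mul_one] at this)
    have key : ∀ g, (χ g).toAdd = η * charsChi (-1) g + ε * charsChi 2 g +
        ∑ p : m.primeFactors, charsChi (charsSt p) g * (χ (τ p)).toAdd := fun g => by
      have a1 : (χ g).toAdd = charsChi d g :=
        chars_ext _ _ (by rw [toAdd_eq_zero, chars_chi hx, hχx])
      have a2 := fun p => pow_ne_zero (χ (τ p)).toAdd.val (s0 p)
      have a3 := Finset.prod_ne_zero_iff.2 fun p (_ : p ∈ Finset.univ) => a2 p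
      rw [a1, e, chars_mul (by positivity) (by positivity), chars_mul (by positivity) a3,
        chars_prod _ a2]
      simp only [chars_pow]
      ring
    have a8 : d % 8 = 1 ↔ ε = 0 ∧ η = 0 ∧
        (fun p : m.primeFactors => wN p) ⬝ᵥ (fun p => (χ (τ p)).toAdd) = 0 := by
      have a2 : d % 8 = 1 ↔ (d : ZMod 8) = ((1 : ℤ) : ZMod 8) :=
        (ZMod.intCast_eq_intCast_iff' d 1 8).symm
      rw [a2, e, Int.cast_mul, Int.cast_mul, chars_F_prod _ ho, Int.cast_pow, Int.cast_pow,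
        Int.cast_neg, Int.cast_one, Int.cast_ofNat]
      exact (by decide : ∀ a b c : F2, (-1) ^ a.val * (2 ^ b.val * charsF c) = 1 ↔
        b = 0 ∧ a = 0 ∧ c = 0) _ _ _
    refine ⟨fun p => (χ (τ p)).toAdd, ε, η, fun _ => rfl, fun p => ?_, ?_,
      ⟨fun hD => a8.1 (split_two hd hx P2 k1 k2 fun g hg => (hχx g).1 (hD g hg)),
        fun k g hg => (hχx g).2 (gh_split (a8.2 k) hx k1 k2 hg)⟩,
      fun b0 e0 e1 => MonoidHom.ext fun g => ?_⟩
    · rw [key, f1, f2]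
      simp only [f4]
      rfl
    · rw [key, cc _ (by norm_num), cc _ (by norm_num), if_neg (by norm_num), if_pos (by norm_num),
        mul_one, mul_zero, add_zero]
      refine congrArg _ (Finset.sum_congr rfl fun p _ => congrArg (· * _) ?_)
      have := (hpr p).pos
      rw [cc _ (s0 p), charsSt]
      by_cases h : (p : ℕ) % 4 = 3 <;> simp [uN, h, this]
    · have := key g
      simp only [e0, e1, show ∀ p, (χ (τ p)).toAdd = 0 from congrFun b0, zero_mul, mul_zero,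
        Finset.sum_const_zero, add_zero] at this
      exact toAdd_eq_zero.1 this
  refine ⟨⟨τ, φ, c, MulAction.stabilizer Gam P2, hi, fixing_open, t1,
    fun p => hN _ (h1 p) (n2 p) ⟨mul_mem (h3 p) (h3 p), ?_⟩, t2,
    fun p => hN _ (h1 p) (n2 p) ⟨mul_mem (chars_conj (h6 p) (h3 p))
      ((Ideal.inertia Gam (P p)).inv_mem (h3 p)), ?_⟩,
    fun h => ?_, c1, stabilizer_closed P2, fun χ hχ hχN => ?_⟩, fun χ hχ hχN => ?_,
    P2, k1, k2, rfl⟩
  · exact (Subgroup.mul_mem_iff_of_index_two hi).2 Iff.rfl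
  · change _ ∈ ℚ⟮θ⟯.fixingSubgroup
    simp [Subgroup.mul_mem_iff_of_index_two hi, t1, t2]
  · have := (c2 θ _ (by omega) hθ').1 ((mem_fixing _).1 h)
    omega
  · obtain ⟨β', ε, η, a1, a2, a3, a4, a5⟩ := par χ hχ hχN
    exact ⟨β', ε, η, a1, a2, a3, a4.1, a5⟩
  · obtain ⟨β', ε, η, a1, a2, a3, a4, a5⟩ := par χ hχ hχN
    exact ⟨β', ε, η, a1, a2, a3, a4, a5⟩

end Pool.Agent.Lib.MP_f8d36e_nt.GG
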