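import Pool.Agent.Lib.MP_f8d36e_nt.GG.GV

/-! Job GP: from relations to annihilators. -/

set_option autoImplicit false
set_option linter.unusedSectionVars false

open MvPowerSeries Matrix
open scoped MvPowerSeries.WithPiTopology

namespace Pool.Agent.Lib.MP_f8d36e_nt.GG

variable {ι κ : Type} [Fintype ι] [DecidableEq ι] [Fintype κ] [DecidableEq κ] {u w β : ι → F2}
  {R : Matrix ι ι F2} {M : Type} [AddCommGroup M] [Module Lam M]

/-- The combination of the extra unknowns. -/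
noncomputable def Hm (Θ : Fin 3 → κ → F2) (z : κ → Kb) : Fin 3 → Kb :=
  fun k => ∑ l, algebraMap F2 Kb (Θ k l) * z l

theorem mem_Qs_left (x : ι → M) (y : κ → M) (i : ι) : x i ∈ Qs x y :=
  Submodule.mem_sup_left (Submodule.subset_span ⟨i, rfl⟩)

theorem mem_Qs_right (x : ι → M) (y : κ → M) (l : κ) : y l ∈ Qs x y :=
  Submodule.mem_sup_right (Submodule.subset_span ⟨l, rfl⟩)

theorem mem_Fa {x : ι → M} {y : κ → M} {W : Finset κ} {c : κ → Lam} (h : ∀ l, l ∉ W → c l ∈ mm) :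
    ∑ l, c l • y l ∈ Fa x y W := by
  refine Submodule.sum_mem _ fun l _ => ?_
  by_cases k : l ∈ W
  · exact Submodule.smul_mem _ _ (Submodule.mem_sup_right (Submodule.subset_span ⟨l, k, rfl⟩))
  · exact Submodule.mem_sup_left (Submodule.smul_mem_smul (h l k) (mem_Qs_right x y l))

theorem mem_Fb {x : ι → M} {y : κ → M} {W : Finset κ} {c : κ → Lam}
    (h : ∀ l, l ∉ W → c l ∈ mm ^ 2) (h' : ∀ l ∈ W, c l ∈ mm) : ∑ l, c l • y l ∈ Fb x y W := by
  refine Submodule.sum_mem _ fun l _ => ?_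
  by_cases k : l ∈ W
  · exact Submodule.smul_mem_smul (h' l k)
      (Submodule.mem_sup_right (Submodule.subset_span ⟨l, k, rfl⟩))
  · have := Submodule.smul_mem_smul (h l k) (mem_Qs_right x y l)
    rw [sq, Submodule.mul_smul] at this
    exact Submodule.smul_mono le_rfl le_sup_left this

theorem gp_Qs {x : ι → M} {y : κ → M} {c : Lam} (hx : ∀ i, c • x i = 0) (hy : ∀ l, c • y l = 0) :
    ∀ v ∈ Qs x y, c • v = 0 :=
  show Qs x y ≤ LinearMap.ker (LinearMap.lsmul Lam M c) from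
    sup_le (Submodule.span_le.2 (Set.range_subset_iff.2 hx))
      (Submodule.span_le.2 (Set.range_subset_iff.2 hy))

section

variable {σ : Type} [Fintype σ] [DecidableEq σ] {g : σ → M} {L : σ → Lam} {p q T : Kb} {n m : ℕ}
  {v v' : M} {φ φ' : (σ → Kb) → Kb}

variable (g L) in
/-- Combinations whose weighted coefficients lie in an ideal. -/
def gpS (I : Ideal Lam) : Submodule Lam M where
  carrier := {v | ∃ a : σ → Lam, ∑ j, a j • g j = v ∧ ∀ j, a j * L j ∈ I}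
  add_mem' := by
    rintro _ _ ⟨a, rfl, h⟩ ⟨b, rfl, k⟩
    exact ⟨a + b, by simp [add_smul, Finset.sum_add_distrib],
      fun j => by rw [Pi.add_apply, add_mul]; exact add_mem (h j) (k j)⟩
  zero_mem' := ⟨0, by simp, by simp⟩
  smul_mem' := by
    rintro c _ ⟨a, rfl, h⟩
    exact ⟨fun j => c * a j, by simp [mul_smul, Finset.smul_sum],
      fun j => mul_assoc c _ _ ▸ I.mul_mem_left c (h j)⟩

theorem gpS_gen {I : Ideal Lam} {j : σ} (h : L j ∈ I) : g j ∈ gpS g L I :=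
  ⟨Pi.single j 1, by simp [Pi.single_apply], fun i => by
    by_cases e : i = j <;> simp [e, h]⟩

theorem gpS_smul {I J : Ideal Lam} {N : Submodule Lam M} (h : N ≤ gpS g L J) :
    I • N ≤ gpS g L (I * J) :=
  Submodule.smul_le.2 fun c hc v hv => by
    obtain ⟨a, rfl, k⟩ := h hv
    exact ⟨fun j => c * a j, by simp [mul_smul, Finset.smul_sum],
      fun j => mul_assoc c _ _ ▸ Ideal.mul_mem_mul hc (k j)⟩

variable (p q T g L n v φ) in
/-- `v` is a combination whose weighted coefficients have the values given by a linear form. -/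
def gpR : Prop := ∃ (a : σ → Lam) (h : σ → Kb), ∑ j, a j • g j = v ∧
  (∀ j, Val p q T n (a j * L j) (h j)) ∧ ∀ z, h ⬝ᵥ z = φ z

theorem gpR.congr (h : gpR g L p q T n v φ) (e : v = v') (e' : ∀ z, φ z = φ' z) :
    gpR g L p q T n v' φ' := e ▸ funext e' ▸ h

theorem gpR.add (h : gpR g L p q T n v φ) (h' : gpR g L p q T n v' φ') :
    gpR g L p q T n (v + v') fun z => φ z + φ' z := by
  obtain ⟨a, b, rfl, h1, h2⟩ := h
  obtain ⟨a', b', rfl, h1', h2'⟩ := h'
  exact ⟨a + a', b + b', by simp [add_smul, Finset.sum_add_distrib],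
    fun j => by rw [Pi.add_apply, add_mul]; exact (h1 j).add (h1' j),
    fun z => by rw [add_dotProduct, h2, h2']⟩

theorem gpR.smul {c : Lam} {e : Kb} (hc : Val p q T m c e) (h : gpR g L p q T n v φ) :
    gpR g L p q T (m + n) (c • v) fun z => e * φ z := by
  obtain ⟨a, b, rfl, h1, h2⟩ := h
  exact ⟨fun j => c * a j, e • b, by simp [mul_smul, Finset.smul_sum],
    fun j => mul_assoc c _ _ ▸ hc.mul (h1 j), fun z => by rw [smul_dotProduct, h2, smul_eq_mul]⟩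

theorem gpR.of_mem (h : v ∈ gpS g L (mm ^ (n + 1))) : gpR g L p q T n v fun _ => 0 := by
  obtain ⟨a, h1, h2⟩ := h
  exact ⟨a, 0, h1, fun j => .of_mem (h2 j), zero_dotProduct⟩

theorem gpR.sum {α : Type} (s : Finset α) {f : α → M} {ψ : α → (σ → Kb) → Kb}
    (h : ∀ i, gpR g L p q T n (f i) (ψ i)) :
    gpR g L p q T n (∑ i ∈ s, f i) fun z => ∑ i ∈ s, ψ i z := by
  classical
  induction s using Finset.induction_on with
  | empty => simpa using gpR.of_mem (zero_mem _)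
  | insert i s hi ih => simpa only [Finset.sum_insert hi] using (h i).add ih

theorem gpR.gen {j : σ} {c : Lam} {e : Kb} (h : Val p q T n (c * L j) e) :
    gpR g L p q T n (c • g j) fun z => e * z j :=
  ⟨Pi.single j c, Pi.single j e, by simp [Pi.single_apply], fun i => by
    by_cases k : i = j
    · rwa [k, Pi.single_eq_same, Pi.single_eq_same]
    · rw [Pi.single_eq_of_ne k, Pi.single_eq_of_ne k, zero_mul]
      exact .of_mem (zero_mem _), fun _ => single_dotProduct ..⟩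

theorem gpR.zero (h : gpR g L p q T n v φ) (k : v ∈ gpS g L (mm ^ (n + 1))) :
    gpR g L p q T n 0 φ :=
  (h.add (.of_mem (neg_mem k))).congr (add_neg_cancel v) fun _ => add_zero _

theorem gp_fam {φ₀ φ₄ : ι → (σ → Kb) → Kb} {φ₁ φ₂ φ₃ : (σ → Kb) → Kb}
    (r0 : ∀ i, gpR g L p q T 1 0 (φ₀ i)) (r1 : gpR g L p q T 0 0 φ₁) (r2 : gpR g L p q T 1 0 φ₂)
    (r3 : gpR g L p q T 1 0 φ₃) (r4 : ∀ i, gpR g L p q T 0 0 (φ₄ i)) :
    ∃ (n : Bool → ι ⊕ Fin 3 → ℕ) (φ : Bool → ι ⊕ Fin 3 → (σ → Kb) → Kb),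
      (∀ b r, gpR g L p q T (n b r) 0 (φ b r)) ∧
      φ false = Sum.elim φ₄ 0 ∧ φ true = Sum.elim φ₀ ![φ₁, φ₂, φ₃] := by
  refine ⟨fun b => b.rec 0 (Sum.elim 1 ![0, 1, 1]),
    fun b => b.rec (Sum.elim φ₄ 0) (Sum.elim φ₀ ![φ₁, φ₂, φ₃]), ?_, rfl, rfl⟩
  rintro (_ | _) (i | k)
  exacts [r4 i, gpR.of_mem (zero_mem _), r0 i, by fin_cases k; exacts [r1, r2, r3]]

end

theorem gp_cf {p q T : Kb} (b b' : F2) : Val p q T 1 (2 + lf (b + b') * X 0) (cf p q b b') := by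
  have := (Val.two (p := p) (q := q) (T := T)).add ((Val.const (b + b')).mul .X0)
  have two : p + p = 0 := CharTwo.add_self_eq_zero p
  rcases (by decide : ∀ b b' : F2, b = b' ∧ b + b' = 0 ∨ b ≠ b' ∧ b + b' = 1) b b' with h | h
  · convert this
    rw [cf, if_pos h.1, h.2, map_zero, zero_mul, add_zero]
  · convert this
    rw [cf, if_neg h.1, h.2, map_one, one_mul, ← add_assoc, two, zero_add]

/-- The relations and their values. -/
theorem gp_core {x : ι → M} {y y' : κ → M} {W : Finset κ} {Θ : Fin 3 → κ → F2}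
    (hR : Rels2 u w β R x y y' W Θ) (hW : ∀ k, ∀ l ∈ W, Θ k l = 0) {lam : κ → κ → Lam}
    (hy : ∀ l, l ∉ W → y' l = ∑ l', lam l l' • y l') {p q T : Kb} {lv : Matrix κ κ Kb}
    (hv : ∀ l, l ∉ W → ∀ l', Val p q T 1 (lam l l' * wt W l') (lv l l')) (Z : Set ι)
    (hZ : ∀ i ∈ Z, x i = 0) : ∃ (n : Bool → ι ⊕ Fin 3 → ℕ)
      (φ : Bool → ι ⊕ Fin 3 → (ι ⊕ κ → Kb) → Kb),
      (∀ b r, gpR (Sum.elim x y) (Sum.elim 1 (wt W)) p q T (n b r) 0 (φ b r)) ∧ ∀ yv z,
        (∀ i ∈ Z, φ false (.inl i) (Sum.elim yv z) = yv i) ∧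
        (∀ i, φ true (.inl i) (Sum.elim yv z) = 0 ↔
          Row u w β R p q T yv (Hm Θ z) (Hm Θ (lv *ᵥ z)) i) ∧
        ((∀ k, φ true (.inr k) (Sum.elim yv z) = 0) ↔
          Ext u w β p q yv (Hm Θ z) (Hm Θ (lv *ᵥ z))) := by
  classical
  have gs := fun I j => gpS_gen (g := Sum.elim x y) (L := Sum.elim 1 (wt W)) (I := I) (j := j)
  have fa : Fa x y W ≤ gpS (Sum.elim x y) (Sum.elim 1 (wt W)) (mm ^ (0 + 1)) := by
    rw [zero_add, pow_one]
    refine sup_le ((gpS_smul (J := ⊤) (sup_le (Submodule.span_le.2 ?_)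
      (Submodule.span_le.2 ?_))).trans (by rw [Ideal.mul_top])) (Submodule.span_le.2 ?_)
    · rintro _ ⟨i, rfl⟩
      exact gs _ (.inl i) trivial
    · rintro _ ⟨l, rfl⟩
      exact gs _ (.inr l) trivial
    · rintro _ ⟨l, hl, rfl⟩
      refine gs _ (.inr l) ?_
      rw [Sum.elim_inr, wt, if_pos (Finset.mem_coe.1 hl)]
      exact Ideal.subset_span (.inl rfl)
  have fb : Fb x y W ≤ gpS (Sum.elim x y) (Sum.elim 1 (wt W)) (mm ^ (1 + 1)) :=
    (gpS_smul fa).trans (by rw [← pow_succ'])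
  have gg := fun n j c e => gpR.gen (g := Sum.elim x y) (L := Sum.elim 1 (wt W)) (p := p) (q := q)
    (T := T) (n := n) (j := j) (c := c) (e := e)
  have gx : ∀ {n c e} (j : ι), Val p q T n c e →
      gpR (Sum.elim x y) (Sum.elim 1 (wt W)) p q T n (c • x j) fun z => e * z (.inl j) :=
    fun j h => gg _ (.inl j) _ _ (by rwa [Sum.elim_inl, Pi.one_apply, mul_one])
  have y0 : ∀ k, gpR (Sum.elim x y) (Sum.elim 1 (wt W)) p q T 0 (Yc Θ y k)
      fun z => Hm Θ (fun l => z (.inr l)) k := fun k => gpR.sum _ fun l =>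
    gg _ (.inr l) _ _ (by
      by_cases e : l ∈ W
      · rw [hW k l e, map_zero, lf, ZMod.val_zero, Nat.cast_zero, zero_mul]
        exact .of_mem (zero_mem _)
      · rw [Sum.elim_inr, wt, if_neg e, mul_one]
        exact .const _)
  have y1 : ∀ k, gpR (Sum.elim x y) (Sum.elim 1 (wt W)) p q T 1 (Yc Θ y' k)
      fun z => Hm Θ (lv *ᵥ fun l => z (.inr l)) k := fun k => gpR.sum _ fun l => by
    by_cases e : l ∈ W
    · rw [hW k l e, map_zero, lf, ZMod.val_zero, Nat.cast_zero, zero_smul]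
      exact (gpR.of_mem (zero_mem _)).congr rfl fun _ => (zero_mul _).symm
    · rw [hy l e]
      exact gpR.smul (.const _) (gpR.sum _ fun l' => gg _ (.inr l') _ _ (hv l e l'))
  have c0 : ∀ b, Val p q T 1 (2 + lf b * X 0) (cf p q b 0) := fun b => by
    simpa only [add_zero] using gp_cf (p := p) (q := q) (T := T) b 0
  have r0 := fun i => ((((gx i ((Val.const (w i)).mul .X1)).add (gpR.sum Finset.univ fun j =>
    gx j ((Val.const (R i j)).mul (gp_cf (β i) (β j))))).add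
    (gpR.smul (.const (u i)) ((gpR.smul (c0 (β i)) (y0 0)).add (y1 0)))).add
    (gpR.smul (.const (w i)) ((gpR.smul (c0 (β i)) (y0 1)).add (y1 1)))).zero (fb (hR.row i))
  have r1 := ((gpR.sum Finset.univ fun j => gx j (.const (w j))).add (y0 2)).zero (fa hR.sw)
  have r2 := ((gpR.smul .X0 (gpR.sum Finset.univ fun j => gx j (.const (w j * β j)))).add
    (y1 2)).zero (fb hR.swb)
  have r3 := ((gpR.smul .X0 (gpR.sum Finset.univ fun j => gx j (.const (u j * β j)))).add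
    (y1 0)).zero (fb hR.sub)
  have r4 : ∀ i, gpR (Sum.elim x y) (Sum.elim 1 (wt W)) p q T 0 0
      fun z => if i ∈ Z then z (.inl i) else 0 := fun i => by
    by_cases e : i ∈ Z
    · exact (gx i .one).congr (by rw [hZ i e, smul_zero]) fun z => by rw [if_pos e, one_mul]
    · exact (gpR.of_mem (zero_mem _)).congr rfl fun z => by rw [if_neg e]
  obtain ⟨n, φ, h0, h1, h2⟩ := gp_fam r0 r1 r2 r3 r4
  refine ⟨n, φ, h0, fun yv z => ⟨fun i hi => ?_, fun i => ?_, ?_⟩⟩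
  · rw [h1]
    exact if_pos hi
  · rw [h2]
    refine Eq.congr_left ?_
    simp only [Sum.elim_inl, Sum.elim_inr, mul_comm (algebraMap F2 Kb (w i)) T,
      mul_comm (algebraMap F2 Kb (R i _))]
  · rw [h2, Fin.forall_fin_succ, Fin.forall_fin_two]
    rfl

theorem kill_rels {x : ι → M} {y y' : κ → M} {W : Finset κ} {Θ : Fin 3 → κ → F2}
    (hR : Rels2 u w β R x y y' W Θ) (hW : ∀ k, ∀ l ∈ W, Θ k l = 0) {lam : κ → κ → Lam}
    (hy : ∀ l, l ∉ W → y' l = ∑ l', lam l l' • y l') {p q T : Kb} {lv : Matrix κ κ Kb}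
    (hv : ∀ l, l ∉ W → ∀ l', Val p q T 1 (lam l l' * wt W l') (lv l l'))
    (Z : Set ι) (hZ : ∀ i ∈ Z, x i = 0)
    (inj : ∀ (yv : ι → Kb) (z : κ → Kb), (∀ i ∈ Z, yv i = 0) →
      (∀ i, Row u w β R p q T yv (Hm Θ z) (Hm Θ (lv *ᵥ z)) i) →
      Ext u w β p q yv (Hm Θ z) (Hm Θ (lv *ᵥ z)) → yv = 0 ∧ z = 0) :
    ∃ Δ, NZ p q T Δ ∧ ∀ v ∈ Qs x y, Δ • v = 0 := by
  obtain ⟨n, φ, h1, h2⟩ := gp_core hR hW hy hv Z hZ
  choose A H k1 k2 k3 using h1
  obtain ⟨Δ, d1, d2⟩ := pres_kill (ρ := Bool × (ι ⊕ Fin 3)) _ _ (fun r => A r.1 r.2)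
    (fun r => n r.1 r.2) (fun r => H r.1 r.2) (fun r => k1 _ _) (fun r => k2 _ _) fun z hz => by
      have e : ∀ b r, φ b r (Sum.elim (z ∘ .inl) (z ∘ .inr)) = 0 := fun b r => by
        rw [Sum.elim_comp_inl_inr, ← k3]
        exact congrFun hz (b, r)
      obtain ⟨a, b, c⟩ := h2 (z ∘ .inl) (z ∘ .inr)
      obtain ⟨e1, e2⟩ := inj _ _ (fun i hi => (a i hi).symm.trans (e _ _))
        (fun i => (b i).1 (e _ _)) (c.1 fun k => e _ _)
      rw [← Sum.elim_comp_inl_inr z, e1, e2, Sum.elim_zero_zero]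
  exact ⟨Δ, d1, gp_Qs (fun i => d2 (.inl i)) fun l => d2 (.inr l)⟩

theorem cramer_rels {x : ι → M} {y y' : Option (Fin 3) → M} {W : Finset (Option (Fin 3))}
    {Θ : Fin 3 → Option (Fin 3) → F2} (hR : Rels2 u w β R x y y' W Θ)
    (hW : ∀ k, ∀ l ∈ W, Θ k l = 0) (hn : none ∉ W) {lam : Option (Fin 3) → Option (Fin 3) → Lam}
    (hy : ∀ l, l ∉ W → y' l = ∑ l', lam l l' • y l') {q T : Kb}
    {lv : Matrix (Option (Fin 3)) (Option (Fin 3)) Kb}
    (hv : ∀ l, l ∉ W → ∀ l', Val 1 q T 1 (lam l l' * wt W l') (lv l l'))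
    {n0 n1 : ι} (h0 : x n0 = 0) (h1 : x n1 = 0)
    (inj : ∀ (yv : ι → Kb) (z : Option (Fin 3) → Kb), z none = 0 →
      LSys u w β R n0 n1 q T yv (Hm Θ z) (Hm Θ (lv *ᵥ z)) → yv = 0 ∧ z = 0) :
    ∃ (k : ℕ) (Δ : Lam) (c : Kb) (C : Fin 3 → Lam) (yv : ι → Kb) (z : Option (Fin 3) → Kb),
      c ≠ 0 ∧ Val 1 q T k Δ c ∧ z none = 1 ∧
      LSys u w β R n0 n1 q T yv (Hm Θ z) (Hm Θ (lv *ᵥ z)) ∧
      (∀ l, Val 1 q T k (C l) (c * z (some l)) ∧
        Δ • y (some l) = (wt W (some l) * C l) • y none) ∧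
      ∀ f : Lam, f • y none = 0 → ∀ v ∈ Qs x y, (Δ * f) • v = 0 := by
  obtain ⟨n, φ, h1, h2⟩ := gp_core hR hW hy hv {n0, n1} (by rintro _ (rfl | rfl) <;> assumption)
  choose A H k1 k2 k3 using h1
  obtain ⟨s, hs⟩ : ∃ s : ι ⊕ Fin 3 → Bool, s = Sum.elim (fun i => decide (i ≠ n0 ∧ i ≠ n1))
    fun _ => true := ⟨_, rfl⟩
  have sys : ∀ (ξ : ι ⊕ Fin 3 → Kb) (t : Kb), (∀ r, ∑ j, H (s r) r (Sum.map id some j) * ξ j +
      H (s r) r (.inr none) * t = 0) → LSys u w β R n0 n1 q T (ξ ∘ .inl)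
      (Hm Θ fun o => o.elim t (ξ ∘ .inr)) (Hm Θ (lv *ᵥ fun o => o.elim t (ξ ∘ .inr))) := by
    intro ξ t h
    have e : ∀ r, φ (s r) r (Sum.elim (ξ ∘ .inl) fun o => o.elim t (ξ ∘ .inr)) = 0 := fun r => by
      rw [← k3, ← h r]
      simp [dotProduct, add_comm, add_left_comm]
    obtain ⟨a, b, c⟩ := h2 (ξ ∘ .inl) fun o => o.elim t (ξ ∘ .inr)
    refine ⟨(a _ (.inl rfl)).symm.trans ?_, (a _ (.inr rfl)).symm.trans ?_,
      fun i i0 i1 => (b i).1 ?_, c.1 fun k => ?_⟩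
    · simpa [hs] using e (.inl n0)
    · simpa [hs] using e (.inl n1)
    · simpa [hs, i0, i1] using e (.inl i)
    · simpa [hs] using e (.inr k)
  obtain ⟨k, Δ, c, C, ξ, c0, c1, c2, c3⟩ := pres_cramer (p := 1) (q := q) (T := T)
    (fun j => Sum.elim x y (Sum.map id some j)) (y none)
    (fun j => Sum.elim 1 (wt W) (Sum.map id some j)) (fun r j => A (s r) r (Sum.map id some j))
    (fun r => A (s r) r (.inr none)) (fun r => n (s r) r)
    (fun r j => H (s r) r (Sum.map id some j)) (fun r => H (s r) r (.inr none))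
    (fun r => by
      rw [← k1 (s r) r]
      simp [add_comm, add_left_comm])
    (fun r j => k2 _ _ _) (fun r => by simpa [wt, hn] using k2 (s r) r (.inr none)) fun ξ h => by
      obtain ⟨e1, e2⟩ := inj _ _ rfl (sys ξ 0 fun r => by
        rw [mul_zero, add_zero]
        exact congrFun h r)
      funext j
      rcases j with i | l
      exacts [congrFun e1 i, congrFun e2 (some l)]
  refine ⟨k, Δ, c, fun l => C (.inr l), ξ ∘ .inl, fun o => o.elim 1 (ξ ∘ .inr), c0, c1, rfl,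
    sys ξ 1 fun r => by rw [mul_one]; exact congrFun c2 r, fun l => c3 (.inr l), fun f hf => ?_⟩
  have e : ∀ j, (Δ * f) • Sum.elim x y (Sum.map id some j) = 0 := fun j => by
    rw [mul_comm, mul_smul, (c3 j).2, smul_comm, hf, smul_zero]
  refine gp_Qs (fun i => e (.inl i)) ?_
  rintro (_ | l)
  · rw [mul_smul, hf, smul_zero]
  · exact e (.inr l)

end Pool.Agent.Lib.MP_f8d36e_nt.GG
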