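import Pool.Agent.Lib.MP_f8d36e_nt.GG.GB

/-! Job GT: generators of the decomposition group. -/

set_option autoImplicit false
set_option linter.unusedSectionVars false

open MvPowerSeries Matrix
open scoped MvPowerSeries.WithPiTopology

namespace Pool.Agent.Lib.MP_f8d36e_nt.GG

theorem gt_div {X : Type} (f : X → ℤ_[2]) (S : Set X) (h : S.Nonempty) :
    ∃ a ∈ S, ∀ x ∈ S, f a ∣ f x := by
  obtain ⟨_, ⟨a, ha, rfl⟩, H⟩ := wellFounded_dvdNotUnit.has_min _ (h.image f)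
  refine ⟨a, ha, fun x hx => by_contra fun k => H _ ⟨x, hx, rfl⟩ (dvd_and_not_dvd_iff.1 ⟨?_, k⟩)⟩
  exact (ValuationRing.dvd_total _ _).resolve_right k

theorem gt_lin {k V : Type} [Field k] [AddCommGroup V] [Module k V] [FiniteDimensional k V]
    (U : Submodule k (V × V)) (h : ∀ x ∈ U, x.1 = 0 ↔ x.2 = 0) :
    ∃ g : V ≃ₗ[k] V, ∀ x ∈ U, g x.1 = x.2 := by
  have h1 : Function.Injective ((LinearMap.fst k V V).comp U.subtype) :=
    (injective_iff_map_eq_zero _).2 fun x e => Subtype.ext (Prod.ext e ((h _ x.2).1 e))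
  have h2 : Function.Injective ((LinearMap.snd k V V).comp U.subtype) :=
    (injective_iff_map_eq_zero _).2 fun x e => Subtype.ext (Prod.ext ((h _ x.2).2 e) e)
  obtain ⟨g, hg⟩ := Submodule.exists_linearEquiv_restrict_eq
    ((LinearEquiv.ofInjective _ h1).symm ≪≫ₗ LinearEquiv.ofInjective _ h2)
  refine ⟨g, fun x hx => ?_⟩
  have := hg (LinearEquiv.ofInjective _ h1 ⟨x, hx⟩)
  rw [LinearEquiv.trans_apply, LinearEquiv.symm_apply_apply] at this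
  exact this.symm

variable {ι : Type} [Fintype ι] [DecidableEq ι] {G : Type} [Group G] [TopologicalSpace G]
  [IsTopologicalGroup G] [CompactSpace G] [TotallyDisconnectedSpace G] {u w β : ι → F2}
  {R : Matrix ι ι F2} {A K N : Subgroup G} [K.Normal] [N.Normal] {M : Type} [AddCommGroup M]
  [TopologicalSpace M] [IsTopologicalAddGroup M] [CompactSpace M] [T2Space M] [Module Lam M]
  [ContinuousSMul Lam M] (E : Env u w β R A K N M)
include E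

namespace Env

/-- Two generators of the part of the decomposition group in `A`. -/
structure Gens (i : Fin 2) (d1 z0 : A) : Prop where
  m1 : (d1 : G) ∈ E.s.D
  m0 : (z0 : G) ∈ E.s.D
  z : (E.e z0).toAdd i = 0
  cen : ∀ d : A, (d : G) ∈ E.s.D → (E.e d).toAdd i = 0 →
    ∃ t : ℤ_[2], (E.e d).toAdd = t • (E.e z0).toAdd
  dvd : ∀ d : A, (d : G) ∈ E.s.D → (E.e d1).toAdd i ∣ (E.e d).toAdd i
  coc : ∀ δ : G → M, E.Coc δ → ∀ d : A, (d : G) ∈ E.s.D → ∃ a b : Lam, δ d = a • δ d1 + b • δ z0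
  chr : ∀ χ : G →* Multiplicative F2, Continuous χ → (∀ n ∈ N, χ n = 1) → χ d1 = 1 → χ z0 = 1 →
    ∀ d : A, (d : G) ∈ E.s.D → χ d = 1

theorem gt_zero : E.Coc fun _ => 0 := ⟨continuous_const, fun _ _ => by simp, fun _ _ => rfl⟩

theorem gt_mk {i : Fin 2} {d1 z0 : A} (m1 : (d1 : G) ∈ E.s.D) (m0 : (z0 : G) ∈ E.s.D)
    (z : (E.e z0).toAdd i = 0) (cen : ∀ d : A, (d : G) ∈ E.s.D → (E.e d).toAdd i = 0 →
      ∃ t : ℤ_[2], (E.e d).toAdd = t • (E.e z0).toAdd)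
    (dvd : ∀ d : A, (d : G) ∈ E.s.D → (E.e d1).toAdd i ∣ (E.e d).toAdd i) : E.Gens i d1 z0 := by
  have key : ∀ δ : G → M, E.Coc δ → ∀ d : A, (d : G) ∈ E.s.D →
      (∃ a b : Lam, δ d = a • δ d1 + b • δ z0) ∧ ∀ χ : G →* Multiplicative F2, Continuous χ →
        (∀ n ∈ N, χ n = 1) → χ d1 = 1 → χ z0 = 1 → χ d = 1 := fun δ hδ d hd => by
    obtain ⟨s, hs⟩ := dvd d hd
    obtain ⟨l, -, hl, hl'⟩ := E.scal d1
    obtain ⟨h1, ν, a1, a2, -, a3, a4, a5⟩ := E.pw E.s.D E.s.closed d1 m1 hl hl' hδ s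
    have b1 : ((h1⁻¹ * d : A) : G) ∈ E.s.D := E.s.D.mul_mem (E.s.D.inv_mem a1) hd
    obtain ⟨t, ht⟩ := cen _ b1 (by
      rw [map_mul, map_inv, toAdd_mul, toAdd_inv, Pi.add_apply, Pi.neg_apply, a2, hs, Pi.smul_apply,
        smul_eq_mul, mul_comm, neg_add_cancel])
    obtain ⟨ν', -, b2, b3⟩ := E.pw_D m0 b1 ht hδ
    have e : (d : G) = h1 * (h1⁻¹ * d : A) := by simp
    refine ⟨⟨ν, (1 + (l - 1) * ν) * ν', by rw [e, hδ.mul, a3, a4, b2, mul_smul]⟩,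
      fun χ c n c1 c0 => ?_⟩
    have c2 := a5 χ c
    have c3 := b3 χ c n
    rw [c1, toAdd_one, mul_zero, toAdd_eq_zero] at c2
    rw [c0, toAdd_one, mul_zero, toAdd_eq_zero] at c3
    rw [e, map_mul, c2, c3, mul_one]
  exact ⟨m1, m0, z, cen, dvd, fun δ hδ d hd => (key δ hδ d hd).1,
    fun χ c n c1 c0 d hd => (key _ E.gt_zero d hd).2 χ c n c1 c0⟩

theorem exists_gens (i : Fin 2) : ∃ d1 z0, E.Gens i d1 z0 := by
  obtain ⟨d1, m1, h1⟩ := gt_div (fun d : A => (E.e d).toAdd i) {d | (d : G) ∈ E.s.D}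
    ⟨1, E.s.D.one_mem⟩
  obtain ⟨z0, ⟨m0, z⟩, h0⟩ := gt_div (fun d : A => (E.e d).toAdd (i + 1))
    {d | (d : G) ∈ E.s.D ∧ (E.e d).toAdd i = 0} ⟨1, E.s.D.one_mem, by simp⟩
  refine ⟨d1, z0, E.gt_mk m1 m0 z (fun d hd e => ?_) h1⟩
  obtain ⟨t, ht⟩ := h0 d ⟨hd, e⟩
  refine ⟨t, funext fun k => ?_⟩
  rcases (by decide : ∀ i k : Fin 2, k = i ∨ k = i + 1) i k with rfl | rfl
  · rw [e, Pi.smul_apply, z, smul_zero]
  · rw [Pi.smul_apply, smul_eq_mul, mul_comm]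
    exact ht

theorem exists_gens_one : ∃ d1 z0, E.Gens 1 d1 z0 ∧ ((E.e d1).toAdd 0 = 0 ∨
    ((E.e d1).toAdd 0 ≠ 0 ∧ 2 * (E.e d1).toAdd 0 ∣ (E.e z0).toAdd 0)) := by
  obtain ⟨d1, z0, H⟩ := E.exists_gens 1
  by_cases h : (E.e z0).toAdd 0 ∣ (E.e d1).toAdd 0
  · obtain ⟨t, ht⟩ := h
    obtain ⟨l, -, hl, hl'⟩ := E.scal z0
    obtain ⟨h, -, a1, a2, -⟩ := E.pw E.s.D E.s.closed z0 H.m0 hl hl' E.gt_zero (-t)
    have e : ∀ k, (E.e (d1 * h)).toAdd k = (E.e d1).toAdd k - t * (E.e z0).toAdd k := fun k => by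
      rw [map_mul, toAdd_mul, Pi.add_apply, a2, Pi.smul_apply, smul_eq_mul, neg_mul, sub_eq_add_neg]
    refine ⟨d1 * h, z0, E.gt_mk (E.s.D.mul_mem H.m1 a1) H.m0 H.z H.cen fun d hd => ?_, .inl ?_⟩
    · rw [e, H.z, mul_zero, sub_zero]
      exact H.dvd d hd
    · rw [e, ht, mul_comm, sub_self]
  · refine ⟨d1, z0, H, .inr ⟨fun e => h (e ▸ dvd_zero _), ?_⟩⟩
    obtain ⟨c, hc⟩ := (ValuationRing.dvd_total _ _).resolve_left h
    have : ¬ IsUnit c := fun k => h (hc ▸ k.mul_right_dvd.2 dvd_rfl)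
    rw [hc, mul_comm]
    exact mul_dvd_mul_left _ ((PadicInt.norm_lt_one_iff_dvd c).1 (PadicInt.not_isUnit_iff.1 this))

theorem gt_mul {χ1 χ2 : G →* Multiplicative F2} {β1 β2 β3 : ι → F2} {ε1 ε2 ε3 η1 η2 η3 : F2}
    (h1 : Par E.s χ1 β1 ε1 η1) (h2 : Par E.s χ2 β2 ε2 η2) (h3 : Par E.s (χ1 * χ2) β3 ε3 η3) :
    β3 = β1 + β2 ∧ ε3 = ε1 + ε2 ∧ η3 = η1 + η2 := by
  obtain rfl : β3 = β1 + β2 := funext fun i => by
    rw [← h3.tau, Pi.add_apply, ← h1.tau, ← h2.tau, MonoidHom.mul_apply, toAdd_mul]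
  obtain rfl : η3 = η1 + η2 := by
    have := h3.cc
    rw [MonoidHom.mul_apply, toAdd_mul, h1.cc, h2.cc, dotProduct_add] at this
    linear_combination -this
  obtain ⟨i, hi⟩ := E.wex
  have := h3.phi i
  rw [MonoidHom.mul_apply, toAdd_mul, h1.phi, h2.phi, mulVec_add, Pi.add_apply, hi] at this
  exact ⟨rfl, by linear_combination -this, rfl⟩

theorem par_unique {χ : G →* Multiplicative F2} {β1 β2 : ι → F2} {ε1 ε2 η1 η2 : F2}
    (h1 : Par E.s χ β1 ε1 η1) (h2 : Par E.s χ β2 ε2 η2) : β1 = β2 ∧ ε1 = ε2 ∧ η1 = η2 := by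
  obtain rfl : β1 = β2 := funext fun i => (h1.tau i).symm.trans (h2.tau i)
  obtain rfl : η1 = η2 := add_right_cancel (h1.cc.symm.trans h2.cc)
  obtain ⟨i, hi⟩ := E.wex
  have := (h1.phi i).symm.trans (h2.phi i)
  rw [hi] at this
  exact ⟨rfl, by linear_combination this, rfl⟩

/-- The parameters at two are invertible combinations of the values on generators. -/
theorem exists_theta (d : Fin 3 → G) (hd : ∀ l, d l ∈ E.s.D)
    (hgen : ∀ χ : G →* Multiplicative F2, Continuous χ → (∀ n ∈ N, χ n = 1) →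
      (∀ l, χ (d l) = 1) → ∀ g ∈ E.s.D, χ g = 1) :
    ∃ Θ : Matrix (Fin 3) (Fin 3) F2, Θ.det ≠ 0 ∧
      ∀ (χ : G →* Multiplicative F2) (β' : ι → F2) (ε η : F2), Continuous χ →
        (∀ n ∈ N, χ n = 1) → Par E.s χ β' ε η →
        ∀ k, ![η, ε, w ⬝ᵥ β'] k = ∑ l, Θ k l * (χ (d l)).toAdd := by
  let S : Set ((Fin 3 → F2) × (Fin 3 → F2)) := {x | ∃ (χ : G →* Multiplicative F2) (β' : ι → F2)
    (ε η : F2), Continuous χ ∧ (∀ n ∈ N, χ n = 1) ∧ Par E.s χ β' ε η ∧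
    x = (fun l => (χ (d l)).toAdd, ![η, ε, w ⬝ᵥ β'])}
  have h0 : 0 ∈ S := by
    obtain ⟨β', ε, η, h⟩ := E.par 1 continuous_const fun _ _ => rfl
    obtain ⟨a, b, c⟩ := h.dec.1 fun _ _ => rfl
    exact ⟨1, β', ε, η, continuous_const, fun _ _ => rfl, h,
      Prod.ext rfl (by rw [a, b, c]; exact (by decide : (0 : Fin 3 → F2) = ![0, 0, 0]))⟩
  let U : Submodule F2 ((Fin 3 → F2) × (Fin 3 → F2)) :=
    { carrier := S
      zero_mem' := h0
      add_mem' := by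
        rintro _ _ ⟨χ1, β1, ε1, η1, c1, n1, h1, rfl⟩ ⟨χ2, β2, ε2, η2, c2, n2, h2, rfl⟩
        have c : Continuous (χ1 * χ2) := c1.mul c2
        have n : ∀ n ∈ N, (χ1 * χ2) n = 1 := fun g hg => by
          rw [MonoidHom.mul_apply, n1 g hg, n2 g hg, mul_one]
        obtain ⟨β', ε, η, h⟩ := E.par _ c n
        obtain ⟨rfl, rfl, rfl⟩ := E.gt_mul h1 h2 h
        exact ⟨_, _, _, _, c, n, h, Prod.ext rfl (by simp)⟩
      smul_mem' := fun c x hx => by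
        rcases (by decide : ∀ c : F2, c = 0 ∨ c = 1) c with rfl | rfl
        · rwa [zero_smul]
        · rwa [one_smul] }
  obtain ⟨g, hg⟩ := gt_lin U (by
    rintro _ ⟨χ, β', ε, η, c, n, h, rfl⟩
    refine ⟨fun e => ?_, fun e => funext fun l => ?_⟩
    · obtain ⟨a, b, c⟩ := h.dec.1 (hgen χ c n fun l => toAdd_eq_zero.1 (congrFun e l))
      simp [a, b, c]
    · exact toAdd_eq_zero.2 (h.dec.2 ⟨congrFun e 1, congrFun e 0, congrFun e 2⟩ _ (hd l)))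
  refine ⟨LinearMap.toMatrix' g.toLinearMap, ?_, fun χ β' ε η c n h k => ?_⟩
  · rw [LinearMap.det_toMatrix']
    exact g.isUnit_det'.ne_zero
  · exact congrFun ((LinearMap.toMatrix'_mulVec g.toLinearMap _).trans
      (hg _ ⟨χ, β', ε, η, c, n, h, rfl⟩)).symm k

end Env

end Pool.Agent.Lib.MP_f8d36e_nt.GG
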