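import Pool.Agent.Lib.MP_f8d36e_nt.GG.GR
import Pool.Agent.Lib.MP_f8d36e_nt.GG.GP
import Pool.Agent.Lib.MP_f8d36e_nt.GG.GC
import Pool.Agent.Lib.MP_f8d36e_nt.GG.GT

/-! Job GS: special points when two splits. -/

set_option autoImplicit false
set_option linter.unusedSectionVars false

open MvPowerSeries Matrix
open scoped MvPowerSeries.WithPiTopology

namespace Pool.Agent.Lib.MP_f8d36e_nt.GG

theorem gs_alg {L M : Type} [CommRing L] [AddCommGroup M] [Module L M] {y0 y1 p0 p1 : M}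
    {l l' om m Δ C0 C1 C2 : L} (r1 : y0 + l • y1 = y1 + (1 + om) • y0)
    (r2 : p0 + l' • p1 = p1 + m • p0) (c0 : Δ • y0 = (1 * C0) • y1)
    (c1 : Δ • (p0 + y0) = (2 * C1) • y1) (c2 : Δ • (p1 + y1) = (2 * C2) • y1)
    (hm : m * (1 + om) = 1) : ((l - l') * (Δ * (C2 * 2 - Δ)) +
      om * (Δ * C0 * (2 - m * om) - C0 * C2 * 2 - Δ * C1 * (2 * m))) • y1 = 0 := by
  have P1 : ((l - 1) * Δ - om * C0) • y1 = 0 := by
    linear_combination (norm := module) Δ • r1 + om • c0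
  have P2 : ((l' - 1) * (2 * C2 - Δ) - (m - 1) * (2 * C1 - C0)) • y1 = 0 := by
    linear_combination (norm := module) Δ • r2 - (l' - 1) • c2 + (m - 1) • c1 - (m - 1) • c0
  have e : (l - l') * (Δ * (C2 * 2 - Δ)) +
      om * (Δ * C0 * (2 - m * om) - C0 * C2 * 2 - Δ * C1 * (2 * m)) =
      (2 * C2 - Δ) * ((l - 1) * Δ - om * C0) -
        Δ * ((l' - 1) * (2 * C2 - Δ) - (m - 1) * (2 * C1 - C0)) := by
    linear_combination (Δ * C0 * (1 - om) - 2 * Δ * C1) * hm
  rw [e, sub_smul, mul_smul, mul_smul, P1, P2, smul_zero, smul_zero, sub_zero]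

theorem gs_one {x T : Kb} {m : Lam} (h : m - 1 ∈ mm) : Val 1 x T 0 m 1 := by
  simpa using val_res (p := 1) (q := x) (T := T) (f := m) (t := 1) h

theorem gs_br {x T c z0 z2 z3 a : Kb} {k : ℕ} {om m Δ C0 C1 C2 : Lam} (hΔ : Val 1 x T k Δ c)
    (h0 : Val 1 x T k C0 (c * z0)) (h1 : Val 1 x T k C1 (c * z2)) (h2 : Val 1 x T k C2 (c * z3))
    (hm : m - 1 ∈ mm) (ho : Val 1 x T 1 om a) :
    Val 1 x T (k + k + 1) (Δ * C0 * (2 - m * om) - C0 * C2 * 2 - Δ * C1 * (2 * m))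
      (c ^ 2 * (z2 + (1 + a) * z0 + z0 * z3)) := by
  have h := (((hΔ.mul h0).mul (Val.two.sub ((gs_one hm).mul ho))).sub
    ((h0.mul h2).mul Val.two)).sub ((hΔ.mul h1).mul (Val.two.mul (gs_one hm)))
  have e : c ^ 2 * (z2 + (1 + a) * z0 + z0 * z3) =
      c * (c * z0) * (1 + 1 * a) + c * z0 * (c * z3) * 1 + c * (c * z2) * (1 * 1) := by ring
  rw [e]
  exact h

/-- The generators of weight one. -/
def gsW : Finset (Option (Fin 3)) := {some 1, some 2}

/-- The generator that carries the trace. -/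
def gsT (o : Option (Fin 3)) : Option (Fin 3) := o.elim (some 2) ![some 1, some 1, some 2]

theorem gs_cases (o : Option (Fin 3)) : o = none ∨ o = some 0 ∨ o = some 1 ∨ o = some 2 := by
  revert o
  decide

theorem gsT_mem (o : Option (Fin 3)) : gsT o ∈ gsW := by
  revert o
  decide

theorem gs_two : (2 : Lam) ∈ mm := Ideal.subset_span (by simp)

theorem gs_h2 : (2 : Kb) = 0 := by
  rw [← map_ofNat (algebraMap F2 Kb) 2, show (OfNat.ofNat 2 : F2) = 0 from rfl, map_zero]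

variable {ι : Type} [Fintype ι] [DecidableEq ι] {G : Type} [Group G] [TopologicalSpace G]
  [IsTopologicalGroup G] [CompactSpace G] [TotallyDisconnectedSpace G] {u w β : ι → F2}
  {R : Matrix ι ι F2} {A K N : Subgroup G} [K.Normal] [N.Normal] {M : Type} [AddCommGroup M]
  [TopologicalSpace M] [IsTopologicalAddGroup M] [CompactSpace M] [T2Space M] [Module Lam M]
  [ContinuousSMul Lam M] (E : Env u w β R A K N M)
include E

/-- The first order step. -/
theorem Env.gs_first (hD : E.s.D ≤ A) {n0 n1 : ι} {x T : Kb} (hL : Loc u w β R n0 n1 x T)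
    (hQ : Quad u w β R n0 n1 x T) {g g1 : A} (hG : E.Gens 1 g g1) {δ : G → M} (hδ : E.Coc δ)
    (h0 : δ (E.s.τ n0) = 0) (h1 : δ (E.s.τ n1) = 0) :
    ∃ (k : ℕ) (Δ C0 C1 C2 : Lam) (c z0 z2 z3 : Kb), c ≠ 0 ∧ Val 1 x T k Δ c ∧
      Val 1 x T k C0 (c * z0) ∧ Val 1 x T k C1 (c * z2) ∧ Val 1 x T k C2 (c * z3) ∧
      Δ • δ g = (1 * C0) • δ g1 ∧ Δ • (E.cx.act E.s.c (δ g) + δ g) = (2 * C1) • δ g1 ∧
      Δ • (E.cx.act E.s.c (δ g1) + δ g1) = (2 * C2) • δ g1 ∧
      (∀ κ, κ = 1 ∨ κ = x → z2 + κ * z0 + z0 * z3 ≠ 0) ∧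
      ∀ f : Lam, f • δ g1 = 0 → ∀ h, (Δ * f) • δ h = 0 := by
  obtain ⟨Θ0, hdet, hΘ0⟩ := E.exists_theta ![g, g1, 1]
    (fun l => by fin_cases l; exacts [hG.m1, hG.m0, one_mem _])
    fun χ hc hn hl h hh => hG.chr χ hc hn (hl 0) (hl 1) ⟨h, hD hh⟩ hh
  have PP : ∀ v, E.cx.act E.s.c (E.cx.act E.s.c v) = v := fun v => by
    rw [← E.act_mul, E.s.c_sq, E.act_K (one_mem K)]
  let y : Option (Fin 3) → M := fun o => o.elim (δ g1)
    ![δ g, E.cx.act E.s.c (δ g) + δ g, E.cx.act E.s.c (δ g1) + δ g1]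
  let Θ : Fin 3 → Option (Fin 3) → F2 := fun k o => o.elim (Θ0 k 1) ![Θ0 k 0, 0, 0]
  let lam : Option (Fin 3) → Option (Fin 3) → Lam := fun l l' =>
    if l' = gsT l then wt gsW l else 0
  let lv : Matrix (Option (Fin 3)) (Option (Fin 3)) Kb := fun l l' => if l' = gsT l then 1 else 0
  have w0 : wt gsW (some 0) = 1 := if_neg (by decide)
  have w1 : wt gsW (some 1) = 2 := if_pos (by decide)
  have w2 : wt gsW (some 2) = 2 := if_pos (by decide)
  have wn : wt gsW none = 1 := if_neg (by decide)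
  have hy : ∀ l, E.cx.act E.s.c (y l) + y l = ∑ l', lam l l' • y l' := fun l => by
    rw [Finset.sum_eq_single (gsT l) (fun l' _ h => by simp only [lam, if_neg h, zero_smul])
      fun h => absurd (Finset.mem_univ _) h]
    simp only [lam, if_true]
    rcases gs_cases l with rfl | rfl | rfl | rfl
    · rw [wn, one_smul]; rfl
    · rw [w0, one_smul]; rfl
    · rw [w1, two_smul]
      change E.cx.act E.s.c (_ + _) + (_ + _) = (_ + _) + (_ + _)
      rw [map_add, PP, add_comm (δ g)]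
    · rw [w2, two_smul]
      change E.cx.act E.s.c (_ + _) + (_ + _) = (_ + _) + (_ + _)
      rw [map_add, PP, add_comm (δ g1)]
  have hl0 : ∀ l l', l' ∉ gsW → lam l l' = 0 := fun l l' h =>
    if_neg fun e : l' = gsT l => h (e ▸ gsT_mem l)
  have hW : ∀ k, ∀ l ∈ gsW, Θ k l = 0 := fun k l hl => by
    rcases gs_cases l with rfl | rfl | rfl | rfl
    exacts [absurd hl (by decide), absurd hl (by decide), rfl, rfl]
  obtain ⟨hall, hR⟩ := E.rels2 hδ y gsW (fun o => o.elim g1 fun _ => g) Θ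
    (fun h hh => by
      obtain ⟨a, b, e⟩ := hG.coc δ hδ ⟨h, hD hh⟩ hh
      rw [show δ h = _ from e]
      exact add_mem (Submodule.smul_mem _ _ (mem_Qs_right _ y (some 0)))
        (Submodule.smul_mem _ _ (mem_Qs_right _ y none)))
    (fun l hl => by
      rcases gs_cases l with rfl | rfl | rfl | rfl
      exacts [rfl, rfl, absurd (by decide) hl, absurd (by decide) hl]) hW
    (fun χ β' ε η hc hz hP k => by
      rw [hΘ0 χ β' ε η hc (fun n hn => hz n (hδ.zero n hn)) hP k]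
      simp [Θ, Fintype.sum_option, Fin.sum_univ_three, add_comm])
    (fun l => hy l ▸ mem_Fa fun l' h => hl0 l l' h ▸ zero_mem _)
    fun l hl => hy l ▸ mem_Fb (fun l' h => hl0 l l' h ▸ zero_mem _) fun l' _ => by
      simp only [lam, wt, if_pos hl]
      split_ifs
      exacts [gs_two, zero_mem _]
  have hH : ∀ z : Option (Fin 3) → Kb, Hm Θ z = fun k =>
      algebraMap F2 Kb (Θ0 k 0) * z (some 0) + algebraMap F2 Kb (Θ0 k 1) * z none := fun z => by
    ext k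
    simp [Hm, Θ, Fintype.sum_option, Fin.sum_univ_three, add_comm]
  have hv : ∀ z : Option (Fin 3) → Kb, lv *ᵥ z = fun l => z (gsT l) := fun z => by
    ext l
    simp [lv, mulVec, dotProduct]
  have hdK : (Θ0.map (algebraMap F2 Kb)).det ≠ 0 := by
    rw [← RingHom.mapMatrix_apply, ← RingHom.map_det]
    exact (map_ne_zero _).2 hdet
  have iK : ∀ a b : Kb, (∀ k, algebraMap F2 Kb (Θ0 k 0) * a + algebraMap F2 Kb (Θ0 k 1) * b = 0) →
      a = 0 ∧ b = 0 := fun a b h => by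
    have := eq_zero_of_mulVec_eq_zero hdK (v := ![a, b, 0]) (funext fun k => by
      simpa [mulVec, dotProduct, Fin.sum_univ_three] using h k)
    exact ⟨congrFun this 0, congrFun this 1⟩
  have inF : ∀ t : F2, InF x (algebraMap F2 Kb t) := fun t => by
    simpa using InF.const_mul t (show InF x 1 from .inr (.inl rfl))
  obtain ⟨k, Δ, c, C, yv, z, hc, hΔ, hz, hS, hC, hf⟩ := cramer_rels hR hW (by decide)
    (fun l _ => hy l) (q := x) (T := T) (lv := lv) (fun l hl l' => by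
      simp only [lam, lv]
      split_ifs with e
      · rw [wt, if_neg hl, wt, if_pos (e ▸ gsT_mem l), one_mul]
        exact Val.two
      · rw [zero_mul]
        exact Val.of_mem (zero_mem _)) h0 h1 fun yv z hz hS => by
      obtain ⟨e1, e2⟩ := hL (of fun k l => ![algebraMap F2 Kb (Θ0 k 0), 0, 0] l)
        (of fun k l => ![0, algebraMap F2 Kb (Θ0 k 0), algebraMap F2 Kb (Θ0 k 1)] l)
        (fun k l => by
          fin_cases l
          exacts [⟨inF _, .inl rfl⟩, ⟨.inl rfl, inF _⟩, ⟨.inl rfl, inF _⟩])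
        (fun z a b => by
          have a1 := iK (z 0) 0 fun k => by
            simpa [mulVec, dotProduct, Fin.sum_univ_three] using congrFun a k
          have a2 := iK (z 1) (z 2) fun k => by
            simpa [mulVec, dotProduct, Fin.sum_univ_three] using congrFun b k
          ext l
          fin_cases l
          exacts [a1.1, a2.1, a2.2]) yv (fun l => z (some l)) (by
          rw [hH, hH, hv, hz] at hS
          convert hS using 1 <;> ext k <;> simp [mulVec, dotProduct, Fin.sum_univ_three, gsT])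
      refine ⟨e1, funext fun o => ?_⟩
      rcases o with _ | l
      exacts [hz, congrFun e2 l]
  refine ⟨k, Δ, C 0, C 1, C 2, c, z (some 0), z (some 1), z (some 2), hc, hΔ, (hC 0).1, (hC 1).1,
    (hC 2).1, w0 ▸ (hC 0).2, w1 ▸ (hC 1).2, w2 ▸ (hC 2).2, fun κ hκ => ?_,
    fun f h h' => hf f h _ (hall h')⟩
  rw [hH, hH, hv, hz] at hS
  refine hQ (fun k => Θ0 k 0) (fun k => Θ0 k 1) (fun e => ?_) (fun e => ?_) (fun e => ?_) κ hκ yv
    _ _ _ (by simp only [mul_one] at hS; exact hS)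
  · exact one_ne_zero (iK 1 0 fun k => by simp [show Θ0 k 0 = 0 from congrFun e k]).1
  · exact one_ne_zero (iK 0 1 fun k => by simp [show Θ0 k 1 = 0 from congrFun e k]).2
  · exact one_ne_zero (iK 1 (-1) fun k => by simp [show Θ0 k 0 = Θ0 k 1 from congrFun e k]).1

theorem Env.gs_ext {g h : A} (h0 : (E.e g).toAdd 0 = (E.e h).toAdd 0)
    (h1 : (E.e g).toAdd 1 = (E.e h).toAdd 1) : E.e g = E.e h :=
  Multiplicative.toAdd.injective (funext (Fin.forall_fin_two.2 ⟨h0, h1⟩))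

/-- The two relations that come from the commutation of the generators. -/
theorem Env.gs_rel {g g1 g' : A} (hG : E.Gens 1 g g1) (hg' : (g' : G) = E.s.c * g * E.s.c⁻¹)
    {δ : G → M} (hδ : E.Coc δ) {l l' om m : Lam} (hl : ∀ y : M, E.cx.act g y = l • y)
    (hl' : ∀ y : M, E.cx.act g' y = l' • y) (ho : ∀ y : M, E.cx.act g1 y = (1 + om) • y)
    (hm : m * (1 + om) = 1) : δ g + l • δ g1 = δ g1 + (1 + om) • δ g ∧
      E.cx.act E.s.c (δ g) + l' • E.cx.act E.s.c (δ g1) =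
        E.cx.act E.s.c (δ g1) + m • E.cx.act E.s.c (δ g) := by
  have e := hδ.eq (E.eq_mod (g := g * g1) (h := g1 * g) (mul_mem hG.m1 hG.m0) (mul_mem hG.m0 hG.m1)
    (by rw [map_mul, map_mul, mul_comm]))
  rw [Subgroup.coe_mul, Subgroup.coe_mul, hδ.mul, hδ.mul] at e
  let g2 : A := ⟨_, E.normalA.conj_mem _ g1.2 E.s.c⟩
  have h2 := E.co.conj g1 g2 rfl
  have h3 : ∀ y : M, E.cx.act g2 y = m • y := fun y => by
    have := E.act_eq (g := g2 * g1) (h := 1) (E.gs_ext (by simp [h2.1]) (by simp [h2.2, hG.z]))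
      (m • y)
    rwa [Subgroup.coe_mul, E.act_mul, ho, ← mul_smul, mul_comm, hm, one_smul, Subgroup.coe_one,
      E.act_K (one_mem K)] at this
  have h4 : ∀ (a b : G) (y : M), b = E.s.c * a * E.s.c⁻¹ →
      E.cx.act E.s.c (E.cx.act a y) = E.cx.act b (E.cx.act E.s.c y) := fun a b y h => by
    rw [← E.act_mul, ← E.act_mul, h, inv_mul_cancel_right]
  refine ⟨by rw [← hl, ← ho, e], ?_⟩
  rw [← hl', ← h3, ← h4 _ _ _ hg', ← h4 g1 g2 _ rfl, ← map_add, ← map_add, e]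

theorem Env.kill_S (hD : E.s.D ≤ A) {n0 n1 : ι} (h0 : β n0 = 0) (h1 : β n1 = 1) {x T : Kb}
    (hx0 : x ≠ 0) (hx : x ≠ 1) (hL : Loc u w β R n0 n1 x T) (hQ : Quad u w β R n0 n1 x T) :
    KillsAt M 1 x T := by
  obtain ⟨g, g1, hG, hcase⟩ := E.exists_gens_one
  obtain ⟨δ, θ, hδ, d0, d1, hθ, nθ⟩ := E.coc_C h0 h1
  have hx1 : 1 + x ≠ 0 := fun e => hx (by linear_combination e - gs_h2)
  obtain ⟨k, Δ, C0, C1, C2, c, z0, z2, z3, hc, hΔ, v0, v1, v2, c0, c1, c2, hq, hf⟩ :=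
    E.gs_first hD hL hQ hG hδ d0 d1
  suffices h : ∃ f, NZ 1 x T f ∧ f • δ g1 = 0 by
    obtain ⟨f, n, e⟩ := h
    exact E.kills_of hθ (hf f e) (nθ _ _ _ hx1) (NZ.mul ⟨k, c, hc, hΔ⟩ n)
  let g' : A := ⟨_, E.normalA.conj_mem _ g.2 E.s.c⟩
  have e' := E.co.conj g g' rfl
  rcases hcase with hμ | ⟨hμ, t, ht⟩
  · by_cases hν : (E.e g1).toAdd 0 = 0
    · refine ⟨1, ⟨0, 1, one_ne_zero, Val.one⟩, ?_⟩
      rw [hδ.zero _ (E.hD ⟨hG.m0, (E.hK g1).1 ((E.gs_ext (h := 1) (by simpa using hν)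
        (by simpa using hG.z)).trans (map_one _))⟩), smul_zero]
    obtain ⟨om, o1, o2, o3, o4⟩ := E.omega g1 hG.z hν
    obtain ⟨m, hm, hm'⟩ := exists_inv o1
    obtain ⟨l, -, -, hl⟩ := E.scal g
    obtain ⟨r1, r2⟩ := E.gs_rel hG (g' := g') rfl hδ hl (fun y => (E.act_eq
      (E.gs_ext (by rw [e'.1, hμ, neg_zero]) e'.2) y).trans (hl y)) o3 hm
    have k1 := gs_alg r1 r2 c0 c1 c2 hm
    rw [sub_self, zero_mul, zero_add] at k1
    have vo := val_lin (p := 1) (q := x) (T := T) (f := om) (a := 0) (b := rs ((E.e g1).toAdd 0))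
      (c := 0) (by simpa using o2)
    refine ⟨_, (o4 1 x T one_ne_zero hx0 hx1).mul ⟨_, _, mul_ne_zero (pow_ne_zero 2 hc)
      (hq _ ?_), gs_br hΔ v0 v1 v2 hm' vo⟩, k1⟩
    generalize rs ((E.e g1).toAdd 0) = b
    have hb : b = 0 ∨ b = 1 := by revert b; decide
    rcases hb with rfl | rfl
    · exact .inl (by simp)
    · refine .inr ?_
      simp only [map_zero, map_one]
      linear_combination gs_h2
  · have a0 : (E.e (g * g'⁻¹)).toAdd 0 = 2 * (E.e g).toAdd 0 := by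
      simp [e'.1, two_mul]
    have a1 : (E.e (g * g'⁻¹)).toAdd 1 = 0 := by simp [e'.2]
    obtain ⟨W, o1, -, o3, o4⟩ := E.omega (g * g'⁻¹) a1 (a0 ▸ mul_ne_zero two_ne_zero hμ)
    obtain ⟨l', -, hl1, hl'⟩ := E.scal g'
    obtain ⟨ν, n1, n2⟩ := E.pow_scalar (g := g * g'⁻¹) (h := g1) (t := t)
      (funext (Fin.forall_fin_two.2 ⟨by rw [Pi.smul_apply, a0, ht, smul_eq_mul, mul_comm],
        by rw [Pi.smul_apply, a1, hG.z, smul_zero]⟩)) (l := 1 + W) (by simpa using o1) o3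
    rw [add_sub_cancel_left] at n2
    have o5 : W * ν ∈ mm := Ideal.mul_mem_right _ _ o1
    obtain ⟨m, hm, hm'⟩ := exists_inv o5
    obtain ⟨r1, r2⟩ := E.gs_rel hG (g' := g') rfl hδ (l := (1 + W) * l') (fun y => by
      rw [mul_smul, ← hl', ← o3, ← E.act_mul, ← Subgroup.coe_mul, inv_mul_cancel_right]) hl' n2 hm
    have k1 := gs_alg r1 r2 c0 c1 c2 hm
    obtain ⟨a, b, d, hlin⟩ := exists_lin o5
    have vb := (val_res n1).mul (gs_br hΔ v0 v1 v2 hm' (val_lin hlin)).lower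
    have va := (gs_one hl1).mul (hΔ.mul ((v2.mul Val.two).lower.sub hΔ))
    refine ⟨_, (o4 1 x T one_ne_zero hx0 hx1).mul ⟨_, _, ?_, va.add vb⟩, ?_⟩
    · simpa using hc
    · rw [← k1]
      congr 1
      ring

end Pool.Agent.Lib.MP_f8d36e_nt.GG
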