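import Pool.Agent.Lib.MP_f8d36e_nt.GG.GN
import Pool.Agent.Lib.MP_f8d36e_nt.GG.GS
import Pool.Agent.Lib.MP_f8d36e_nt.GG.GF

/-! Job GK: all points of the line. -/

set_option autoImplicit false
set_option linter.unusedSectionVars false

open MvPowerSeries Matrix
open scoped MvPowerSeries.WithPiTopology

namespace Pool.Agent.Lib.MP_f8d36e_nt.GG

variable {ι : Type} [Fintype ι] [DecidableEq ι] {G : Type} [Group G] [TopologicalSpace G]
  [IsTopologicalGroup G] [CompactSpace G] [TotallyDisconnectedSpace G] {u w β : ι → F2}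
  {R : Matrix ι ι F2} {A K N : Subgroup G} [K.Normal] [N.Normal] {M : Type} [AddCommGroup M]
  [TopologicalSpace M] [IsTopologicalAddGroup M] [CompactSpace M] [T2Space M] [Module Lam M]
  [ContinuousSMul Lam M] (E : Env u w β R A K N M)
include E

theorem Env.kill_I {p q T : Kb} (h0 : T ≠ 0) (h1 : T ≠ p) (h2 : T ≠ p + q)
    (inj : ∀ y : ι → Kb, (∀ i, Row u w β R p q T y 0 0 i) → Ext u w β p q y 0 0 → y = 0) :
    KillsAt M p q T := by
  obtain ⟨δ, θ, hδ, hD, hθ, hz⟩ := E.coc_A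
  obtain ⟨r1, r2⟩ := E.rels2 hδ (κ := Empty) Empty.elim ∅ Empty.elim (fun _ => Empty.elim)
    (fun g hg => hD g hg ▸ zero_mem _) (fun l => l.elim) (fun _ l => l.elim)
    (fun χ β' ε η _ hχ hP k => by
      obtain ⟨e1, e2, e3⟩ := hP.dec.1 fun g hg => hχ g (hD g hg)
      fin_cases k <;> simp [e1, e2, e3])
    (fun l => l.elim) fun l => l.elim
  have hH : ∀ z : Empty → Kb, Hm (fun _ => Empty.elim) z = 0 := fun z => funext fun k => by
    simp [Hm]
  obtain ⟨Δ, d1, d2⟩ := kill_rels r2 (fun _ l => l.elim) (lam := fun l => l.elim)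
    (fun l => l.elim) (p := p) (q := q) (T := T) (lv := 0) (fun l => l.elim) ∅ (fun _ h => h.elim)
    fun yv z _ a b => by
      rw [hH, hH] at b
      simp only [hH] at a
      exact ⟨inj yv a b, Subsingleton.elim _ _⟩
  exact E.kills_of hθ (fun g => d2 _ (r1 g)) (hz p q T h0 h1 h2) d1

theorem Env.gk_good {p q T : Kb} (h0 : T ≠ 0) (h1 : T ≠ p) (h2 : T ≠ p + q) (h3 : p + q ≠ 0)
    (h : GoodPt u w β R p q T) : KillsAt M p q T :=
  E.kill_I h0 h1 h2 fun y a b => h y (fun i => by simpa [Row, cf] using a i)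
    (by simpa using b.1) (by simpa [h3] using b.2.1) (by simpa [h3] using b.2.2)

theorem Env.null {n0 n1 : ι} {a b : Kb} (h : Pts u w β R n0 n1 a b) : PseudoNull Lam M := by
  refine ⟨E.finite, fun Q hQ => ?_⟩
  obtain ⟨f, hf, hf'⟩ := exists_ann2 (M := M) (a := a) (b := b)
    (E.gk_good h.b0 h.b0 (by simpa using h.b1) (by simp) h.pz) (fun x => by
      by_cases hs : Spec a b x
      · have hx : x ≠ 1 := fun e => h.one.1 (e ▸ hs)
        obtain ⟨k0, k1, k2⟩ := h.spec x hs
        by_cases hD : E.s.D ≤ A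
        exacts [E.kill_S hD h.h0 h.h1 k0 hx k1 k2, E.kill_N hD h.h0 h.h1 hx hs k1]
      have hs' := hs
      simp only [Spec, not_or] at hs'
      by_cases hx : x = 1
      · subst hx
        exact E.kill_I hs'.1 hs'.2.1 hs'.2.2 fun y k _ => h.one.2 y fun i => by
          simpa [Row, cf] using k i
      · exact E.gk_good hs'.1 hs'.2.1 hs'.2.2 (fun e => hx (CharTwo.add_eq_zero.1 e).symm)
          (h.gen x hx hs)) Q.asIdeal Q.isPrime hQ
  exact LocalizedModule.subsingleton_iff.mpr fun y => ⟨f, hf, hf' y⟩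

end Pool.Agent.Lib.MP_f8d36e_nt.GG
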