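import Pool.Agent.Lib.MP_f8d36e_nt.GG.GR
import Pool.Agent.Lib.MP_f8d36e_nt.GG.GP
import Pool.Agent.Lib.MP_f8d36e_nt.GG.GC
import Pool.Agent.Lib.MP_f8d36e_nt.GG.GT

/-! Job GN: special points when two does not split. -/

set_option autoImplicit false
set_option linter.unusedSectionVars false

open MvPowerSeries Matrix
open scoped MvPowerSeries.WithPiTopology

namespace Pool.Agent.Lib.MP_f8d36e_nt.GG

theorem gn_mod {Λ M : Type} [CommRing Λ] [AddCommGroup M] [Module Λ M] (l : Λ) {l0 l1 a b : Λ}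
    {y0 y1 y2 p0 p1 p2 : M} (h0 : y0 + p0 = b • y2) (h1 : y0 + p1 - l1 • y0 + l1 • y1 = a • y2)
    (h2 : y2 = y0 + p2 - l0 • y0) :
    l • p0 + y0 = (1 - l) • y0 + (0 : Λ) • y1 + (l * b) • y2 ∧
    l • p1 + y1 = (l * (l1 - 1)) • y0 + (1 - l - l * (l1 - 1)) • y1 + (l * a) • y2 ∧
    l • p2 + y2 = (l * (l0 - 1)) • y0 + (0 : Λ) • y1 + (1 + l) • y2 :=
  ⟨by linear_combination (norm := module) l • h0, by linear_combination (norm := module) l • h1,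
    by linear_combination (norm := module) -(l • h2)⟩

variable {ι : Type} [Fintype ι] [DecidableEq ι] {G : Type} [Group G] [TopologicalSpace G]
  [IsTopologicalGroup G] [CompactSpace G] [TotallyDisconnectedSpace G] {u w β : ι → F2}
  {R : Matrix ι ι F2} {A K N : Subgroup G} [K.Normal] [N.Normal] {M : Type} [AddCommGroup M]
  [TopologicalSpace M] [IsTopologicalAddGroup M] [CompactSpace M] [T2Space M] [Module Lam M]
  [ContinuousSMul Lam M] (E : Env u w β R A K N M)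
include E

theorem Env.gn_core {δ : G → M} (hδ : E.Coc δ) {n0 n1 : ι} (t0 : δ (E.s.τ n0) = 0)
    (t1 : δ (E.s.τ n1) = 0) {x T : Kb} (hT : T = 0 ∨ T = 1 ∨ T = 1 + x)
    (hL : Loc u w β R n0 n1 x T) (d : Fin 3 → G) (W : Finset (Fin 3))
    (Θ : Matrix (Fin 3) (Fin 3) F2) (lam : Fin 3 → Fin 3 → Lam)
    (hD : ∀ g ∈ E.s.D, δ g ∈ Qs (fun i => δ (E.s.τ i)) fun l => δ (d l))
    (hW : ∀ k, ∀ l ∈ W, Θ k l = 0)
    (hΘ : ∀ (χ : G →* Multiplicative F2) (β' : ι → F2) (ε η : F2), Continuous χ →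
      (∀ n ∈ N, χ n = 1) → Par E.s χ β' ε η →
      ∀ k, ![η, ε, w ⬝ᵥ β'] k = ∑ l, Θ k l * (χ (d l)).toAdd)
    (hy : ∀ l, E.cx.act E.s.c (δ (d l)) + δ (d l) = ∑ l', lam l l' • δ (d l'))
    (h1 : ∀ l l', l' ∉ W → lam l l' ∈ mm) (h2 : ∀ l ∈ W, ∀ l', l' ∉ W → lam l l' ∈ mm ^ 2)
    (h3 : ∀ l ∈ W, ∀ l' ∈ W, lam l l' ∈ mm)
    (inj : ∀ lv : Matrix (Fin 3) (Fin 3) Kb,
      (∀ l l', Val 1 x T 1 (lam l l' * wt W l') (lv l l')) → ∀ z,
      Θ.map (algebraMap F2 Kb) *ᵥ z = 0 → Θ.map (algebraMap F2 Kb) *ᵥ (lv *ᵥ z) = 0 → z = 0) :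
    ∃ Δ, NZ 1 x T Δ ∧ ∀ g, Δ • δ g = 0 := by
  obtain ⟨hQ, hR⟩ := E.rels2 hδ (fun l => δ (d l)) W d Θ hD (fun _ _ => rfl) hW
    (fun χ β' ε η hc hk => hΘ χ β' ε η hc fun n hn => hk n (hδ.zero n hn))
    (fun l => by rw [hy l]; exact mem_Fa (h1 l))
    (fun l hl => by rw [hy l]; exact mem_Fb (h2 l hl) (h3 l hl))
  have hm : ∀ l l', lam l l' * wt W l' ∈ mm := fun l l' => by
    unfold wt
    split_ifs with h
    · exact mm.mul_mem_left _ scal_two_mem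
    · exact mm.mul_mem_right _ (h1 l l' h)
  choose lv hI hv using fun l l' => val_inF hT (hm l l')
  obtain ⟨Δ, hΔ, hk⟩ := kill_rels hR hW (lam := lam) (fun l _ => hy l) (lv := Matrix.of lv)
    (fun l _ l' => hv l l') {n0, n1} (by rintro _ (rfl | rfl) <;> assumption)
    fun yv z hZ hr he => by
      refine hL (Θ.map (algebraMap F2 Kb)) (Θ.map (algebraMap F2 Kb) * Matrix.of lv)
        (fun k l => ⟨?_, ?_⟩) (fun z a b => inj (Matrix.of lv) hv z a (by rwa [mulVec_mulVec]))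
        yv z ?_
      · simpa using InF.const_mul (Θ k l) (c := 1) (x := x) (Or.inr (Or.inl rfl))
      · rw [mul_apply, Fin.sum_univ_three]
        exact ((InF.const_mul _ (hI 0 l)).add (InF.const_mul _ (hI 1 l))).add
          (InF.const_mul _ (hI 2 l))
      · rw [← mulVec_mulVec]
        exact ⟨hZ _ (Or.inl rfl), hZ _ (Or.inr rfl), fun i _ _ => hr i, he⟩
  exact ⟨Δ, hΔ, fun g => hk _ (hQ g)⟩

theorem Env.gn_cen {d1 z0 : A} (hG : E.Gens 0 d1 z0) {δ : G → M} (hδ : E.Coc δ) (x y : A)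
    (e0 : (E.e x).toAdd 0 + (E.e y).toAdd 0 = 0) (e1 : (E.e x).toAdd 1 = (E.e y).toAdd 1)
    (hm : (x : G) * y ∈ E.s.D) (hχ : ∀ χ : G →* Multiplicative F2, χ (x * y) = 1) :
    ∃ (t : F2) (ν : Lam), ν - lf t ∈ mm ∧ δ (x * y) = ν • δ z0 ∧
      (t ≠ 0 → rs ((E.e z0).toAdd 1) = 0 ∧ ∀ χ : G →* Multiplicative F2, Continuous χ →
        (∀ n ∈ N, χ n = 1) → (χ z0).toAdd = 0) := by
  obtain ⟨t, ht⟩ := hG.cen (x * y) hm (by rw [map_mul, toAdd_mul]; exact e0)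
  obtain ⟨ν, h1, h2, h3⟩ := E.pw_D hG.m0 (h := x * y) hm ht hδ
  refine ⟨rs t, ν, h1, h2, fun h => ⟨?_, fun χ hc hk => ?_⟩⟩
  · have h4 := congrArg PadicInt.toZMod (congrFun ht 1)
    rw [map_mul, toAdd_mul, Pi.add_apply, e1, Pi.smul_apply, smul_eq_mul, map_add, map_mul,
      CharTwo.add_self_eq_zero] at h4
    exact (mul_eq_zero.1 h4.symm).resolve_left h
  · have h4 := h3 χ hc hk
    rw [Subgroup.coe_mul, hχ, toAdd_one] at h4
    exact (mul_eq_zero.1 h4.symm).resolve_left h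

theorem Env.gn_conj {δ : G → M} (hδ : E.Coc δ) (r g : G) :
    δ (r * g * r⁻¹) = δ r + E.cx.act r (δ g) - E.cx.act (r * g * r⁻¹) (δ r) := by
  rw [← hδ.mul, eq_sub_iff_add_eq, ← hδ.mul, inv_mul_cancel_right]

theorem Env.kill_N (hD : ¬ E.s.D ≤ A) {n0 n1 : ι} (h0 : β n0 = 0) (h1 : β n1 = 1) {x T : Kb}
    (hx : x ≠ 1) (hT : T = 0 ∨ T = 1 ∨ T = 1 + x) (hL : Loc u w β R n0 n1 x T) :
    KillsAt M 1 x T := by
  have := E.normalA
  obtain ⟨ρ, hρ, hρA⟩ := SetLike.not_le_iff_exists.1 hD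
  obtain ⟨x0, hx0⟩ := E.odd hρA
  obtain ⟨d1, z0, hG⟩ := E.exists_gens 0
  obtain ⟨δ, θ, hδ, t0, t1, hθ, hz⟩ := E.coc_C h0 h1
  have hodd : ∀ g ∈ E.s.D, g ∉ A → ∃ h : A, (h : G) ∈ E.s.D ∧ g = h * ρ := fun g hg hA =>
    ⟨⟨g * ρ⁻¹, (Subgroup.mul_mem_iff_of_index_two E.s.index).2
      (iff_of_false hA (mt inv_mem_iff.1 hρA))⟩, mul_mem hg (inv_mem hρ),
      (inv_mul_cancel_right g ρ).symm⟩
  have sq : ∀ a : Multiplicative F2, a * a = 1 := by decide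
  obtain ⟨Θ, hdet, hΘ⟩ := E.exists_theta ![ρ, d1, z0]
    (fun l => by fin_cases l; exacts [hρ, hG.m1, hG.m0]) fun χ hc hk hl g hg => by
      by_cases hA : g ∈ A
      · exact hG.chr χ hc hk (hl 1) (hl 2) ⟨g, hA⟩ hg
      · obtain ⟨h, hh, rfl⟩ := hodd g hg hA
        rw [map_mul, hG.chr χ hc hk (hl 1) (hl 2) h hh, one_mul]
        exact hl 0
  have hQ : ∀ g ∈ E.s.D, δ g ∈ Qs (fun i => δ (E.s.τ i)) fun l => δ (![ρ, d1, z0] l) := by
    have q := mem_Qs_right (fun i => δ (E.s.τ i)) fun l => δ (![ρ, (d1 : G), z0] l)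
    have hA : ∀ h : A, (h : G) ∈ E.s.D →
        δ h ∈ Qs (fun i => δ (E.s.τ i)) fun l => δ (![ρ, d1, z0] l) := fun h hh => by
      obtain ⟨a, b, e⟩ := hG.coc δ hδ h hh
      rw [e]
      exact add_mem (Submodule.smul_mem _ _ (q 1)) (Submodule.smul_mem _ _ (q 2))
    intro g hg
    by_cases h : g ∈ A
    · exact hA ⟨g, h⟩ hg
    · obtain ⟨k, hk, rfl⟩ := hodd g hg h
      obtain ⟨l, -, -, hl⟩ := E.scal k
      rw [hδ.mul, hl]
      exact add_mem (hA k hk) (Submodule.smul_mem _ _ (q 0))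
  let cj : G → A → A := fun r g => ⟨r * g * r⁻¹, this.conj_mem _ g.2 r⟩
  have hr2 : (x0 : G) * cj E.s.c x0 = ρ * ρ := by
    rw [hx0, show (cj E.s.c x0 : G) = E.s.c * x0 * E.s.c⁻¹ from rfl,
      inv_eq_of_mul_eq_one_right E.s.c_sq]
    simp only [mul_assoc]
  have c0 := E.co.conj x0 (cj E.s.c x0) rfl
  obtain ⟨b, νb, b1, b2, b3⟩ := E.gn_cen hG hδ x0 (cj E.s.c x0) (by rw [c0.1, add_neg_cancel])
    c0.2.symm (hr2 ▸ mul_mem hρ hρ) fun χ => by rw [hr2, map_mul, sq]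
  have c1 := E.e_conj hρA d1 (cj ρ d1) rfl
  have hcj : ∀ g : A, (g : G) ∈ E.s.D → (cj ρ g : G) ∈ E.s.D := fun g hg =>
    mul_mem (mul_mem hρ hg) (inv_mem hρ)
  obtain ⟨a, νa, a1, a2, a3⟩ := E.gn_cen hG hδ (cj ρ d1) d1 (by rw [c1.1, neg_add_cancel])
    c1.2 (mul_mem (hcj d1 hG.m1) hG.m1) fun χ => by
      rw [map_mul, show (cj ρ d1 : G) = ρ * d1 * ρ⁻¹ from rfl, map_mul, map_mul, map_inv,
        mul_inv_cancel_comm, sq]
  have c2 := E.e_conj hρA z0 (cj ρ z0) rfl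
  have c3 : E.e (cj ρ z0) = E.e z0 := Multiplicative.toAdd.injective (funext fun i => by
    fin_cases i
    · exact c2.1.trans (by rw [hG.z, neg_zero]; exact hG.z.symm)
    · exact c2.2)
  obtain ⟨l, -, ml, hl⟩ := E.scal x0⁻¹
  obtain ⟨l1, -, m1, hl1⟩ := E.scal (cj ρ d1)
  obtain ⟨l0, q0, m0, hl0⟩ := E.scal z0
  have hc : ∀ y : M, E.cx.act E.s.c y = l • E.cx.act ρ y := fun y => by
    rw [← hl, ← E.act_mul, hx0, Subgroup.coe_inv, inv_mul_cancel_left]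
  rw [hr2, hδ.mul] at b2
  have p1 : δ (cj ρ d1) = δ ρ + E.cx.act ρ (δ d1) - E.cx.act (cj ρ d1) (δ ρ) :=
    E.gn_conj hδ ρ d1
  have p2 : δ (cj ρ z0) = δ ρ + E.cx.act ρ (δ z0) - E.cx.act (cj ρ z0) (δ ρ) :=
    E.gn_conj hδ ρ z0
  rw [hδ.mul, p1, hl1, hl1] at a2
  rw [hδ.eq (E.eq_mod (hcj z0 hG.m0) hG.m0 c3), E.act_eq c3, hl0] at p2
  let lam : Fin 3 → Fin 3 → Lam := ![![1 - l, 0, l * νb],
    ![l * (l1 - 1), 1 - l - l * (l1 - 1), l * νa], ![l * (l0 - 1), 0, 1 + l]]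
  have hy : ∀ k, E.cx.act E.s.c (δ (![ρ, d1, z0] k)) + δ (![ρ, d1, z0] k) =
      ∑ k', lam k k' • δ (![ρ, d1, z0] k') := fun k => by
    rw [hc, Fin.sum_univ_three]
    fin_cases k
    exacts [(gn_mod l b2 a2 p2).1, (gn_mod l b2 a2 p2).2.1, (gn_mod l b2 a2 p2).2.2]
  have k1 : 1 - l ∈ mm := by simpa using neg_mem ml
  have k2 : 1 + l ∈ mm := by
    convert add_mem scal_two_mem ml using 1
    ring
  have k3 : ∀ k k', k' ≠ 2 → lam k k' ∈ mm := fun k k' h => by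
    fin_cases k <;> fin_cases k'
    exacts [k1, zero_mem _, (h rfl).elim, mm.mul_mem_left _ m1, sub_mem k1 (mm.mul_mem_left _ m1),
      (h rfl).elim, mm.mul_mem_left _ m0, zero_mem _, (h rfl).elim]
  have hinj : ∀ z, Θ.map (algebraMap F2 Kb) *ᵥ z = 0 → z = 0 := fun z h =>
    eq_zero_of_mulVec_eq_zero (by
      rw [← RingHom.mapMatrix_apply, ← RingHom.map_det]
      exact (map_ne_zero _).2 hdet) h
  have hpq : 1 + x ≠ 0 := fun h => hx (by linear_combination h - (CharTwo.two_eq_zero : (2 : Kb) = 0))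
  suffices h : ∃ Δ, NZ 1 x T Δ ∧ ∀ g, Δ • δ g = 0 by
    obtain ⟨Δ, h, h'⟩ := h
    exact E.kills_of hθ h' (hz 1 x T hpq) h
  by_cases hab : a = 0 ∧ b = 0
  · rw [hab.1] at a1
    rw [hab.2] at b1
    refine E.gn_core hδ t0 t1 hT hL _ ∅ Θ lam hQ (by simp) hΘ hy (fun k k' _ => ?_) (by simp)
      (by simp) fun _ _ z h _ => hinj z h
    by_cases h : k' = 2
    · subst h
      fin_cases k
      exacts [mm.mul_mem_left _ (by simpa using b1), mm.mul_mem_left _ (by simpa using a1), k2]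
    · exact k3 k k' h
  · obtain ⟨z1, z2⟩ := (not_and_or.1 hab).elim a3 b3
    have hu : ∀ z : Fin 3 → Kb, (Θ.updateCol 2 0).map (algebraMap F2 Kb) *ᵥ z = 0 →
        z 0 = 0 ∧ z 1 = 0 := fun z h => by
      have h4 := hinj ![z 0, z 1, 0] (funext fun k => by
        simpa [mulVec, dotProduct, Fin.sum_univ_three] using congrFun h k)
      exact ⟨congrFun h4 0, congrFun h4 1⟩
    have hv : ∀ {ν : Lam} {t : F2} {c : Kb}, ν - lf t ∈ mm →
        Val 1 x T 1 (l * ν * wt {2} (2 : Fin 3)) c → c = algebraMap F2 Kb t := by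
      intro ν t c h h'
      have h4 : l * ν - lf t ∈ mm := by
        convert add_mem h (mm.mul_mem_right ν ml) using 1
        ring
      have h5 := (val_res (p := 1) (q := x) (T := T) h4).mul Val.two
      rw [mul_one] at h5
      exact Val.unique h' h5
    refine E.gn_core hδ t0 t1 hT hL _ {2} (Θ.updateCol 2 0) lam hQ (by simp)
      (fun χ β' ε η hc hk hp k => ?_) hy (fun k k' h => k3 k k' (by simpa using h))
      (fun k hk k' h => ?_) (fun k hk k' h => ?_) fun lv hlv z h h' => ?_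
    · rw [hΘ χ β' ε η hc hk hp k]
      simp [Fin.sum_univ_three, z2 χ hc hk]
    · obtain rfl := Finset.mem_singleton.1 hk
      rw [hG.z, z1, show rs 0 = 0 from map_zero PadicInt.toZMod] at q0
      fin_cases k'
      exacts [Ideal.mul_mem_left _ _ (by simpa using q0), zero_mem _, (h hk).elim]
    · obtain rfl := Finset.mem_singleton.1 hk
      obtain rfl := Finset.mem_singleton.1 h
      exact k2
    · obtain ⟨e0, e1⟩ := hu z h
      obtain ⟨f0, f1⟩ := hu _ h'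
      have g0 : lv 0 2 = algebraMap F2 Kb b := hv b1 (hlv 0 2)
      have g1 : lv 1 2 = algebraMap F2 Kb a := hv a1 (hlv 1 2)
      simp only [mulVec, dotProduct, Fin.sum_univ_three, e0, e1, g0, g1, mul_zero, zero_add,
        mul_eq_zero, _root_.map_eq_zero] at f0 f1
      have e2 : z 2 = 0 := (not_and_or.1 hab).elim f1.resolve_left f0.resolve_left
      funext k
      fin_cases k
      exacts [e0, e1, e2]

end Pool.Agent.Lib.MP_f8d36e_nt.GG
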