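import Pool.Agent.Lib.MP_f8d36e_nt.GG.GB

/-! Job GR: the relations attached to a cocycle. -/

set_option autoImplicit false
set_option linter.unusedSectionVars false

open MvPowerSeries Matrix
open scoped MvPowerSeries.WithPiTopology

namespace Pool.Agent.Lib.MP_f8d36e_nt.GG

attribute [local instance 2000] Semiring.toNatAlgebra Ring.toIntAlgebra

section Alg
variable {M : Type} [AddCommGroup M] [Module Lam M]

/-- The norm operator of an involution. -/
def grN (r : AddMonoid.End M) : M →+ M :=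
  AddMonoidHom.mk' (fun v => r v + v) fun a b => by rw [map_add]; abel

theorem grN_apply (r : AddMonoid.End M) (v : M) : grN r v = r v + v := rfl

theorem grN_nat (r : AddMonoid.End M) (n : ℕ) (v : M) :
    grN r ((n : Lam) • v) = (n : Lam) • grN r v := by
  rw [Nat.cast_smul_eq_nsmul, Nat.cast_smul_eq_nsmul, map_nsmul]

/-- The norm operator on `mm Q`. -/
theorem gr_norm {r : AddMonoid.End M} {μ' : Lam} (hμ : μ' - 1 ∈ mm)
    (hS : ∀ y, r ((X 0 : Lam) • y) = (X 0 * μ' : Lam) • r y)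
    (hT : ∀ y, r ((X 1 : Lam) • y) = (X 1 : Lam) • r y) {Q F : Submodule Lam M}
    (hF : ∀ a ∈ mm, ∀ q ∈ Q, a • q ∈ F) (hN : ∀ q ∈ Q, grN r q ∈ F) {v : M} (hv : v ∈ mm • Q) :
    grN r v ∈ mm • F := by
  refine Submodule.smul_induction_on hv (fun f hf y hy => ?_) fun a b ha hb => ?_
  · obtain ⟨a, g, hg, rfl⟩ := Ideal.mem_span_insert.1 hf
    obtain ⟨b, c, rfl⟩ := Ideal.mem_span_pair.1 hg
    have e : grN r ((a * 2 + (b * X 0 + c * X 1) : Lam) • y) = (2 : Lam) • grN r (a • y) +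
        (X 0 : Lam) • (μ' • grN r (b • y) - (μ' - 1) • b • y) + (X 1 : Lam) • grN r (c • y) := by
      have e1 : (a * 2 + (b * X 0 + c * X 1) : Lam) • y =
          ((2 : ℕ) : Lam) • a • y + (X 0 : Lam) • b • y + (X 1 : Lam) • c • y := by
        push_cast
        module
      rw [e1, map_add, map_add, grN_nat, grN_apply r ((X 0 : Lam) • _),
        grN_apply r ((X 1 : Lam) • _), hS, hT, grN_apply r (b • y), grN_apply r (c • y)]
      push_cast
      module
    rw [e]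
    exact add_mem (add_mem (Submodule.smul_mem_smul relsThm_two (hN _ (Q.smul_mem _ hy)))
      (Submodule.smul_mem_smul relsThm_S (sub_mem (F.smul_mem _ (hN _ (Q.smul_mem _ hy)))
        (hF _ hμ _ (Q.smul_mem _ hy)))))
      (Submodule.smul_mem_smul relsThm_T (hN _ (Q.smul_mem _ hy)))
  · rw [map_add]
    exact add_mem ha hb

/-- Induction over a span for additive properties that hold on `mm Q`. -/
theorem gr_span {s : Set M} {Q : Submodule Lam M} (hs : Submodule.span Lam s ≤ Q)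
    (P : AddSubgroup M) (h1 : ∀ v ∈ s, v ∈ P) (h2 : ∀ v ∈ mm • Q, v ∈ P) {v : M}
    (hv : v ∈ Submodule.span Lam s) : v ∈ P := by
  induction hv using Submodule.span_induction with
  | mem _ h => exact h1 _ h
  | zero => exact P.zero_mem
  | add _ _ _ _ h h' => exact P.add_mem h h'
  | smul f v hv h' =>
    obtain ⟨t, ht⟩ := exists_sub_mem_mm f
    rw [show f • v = (f - (t.val : Lam)) • v + (t.val : Lam) • v by module,
      Nat.cast_smul_eq_nsmul]
    exact P.add_mem (h2 _ (Submodule.smul_mem_smul ht (hs hv))) (P.nsmul_mem h' _)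

/-- Characters separate. -/
theorem gr_sep {Q F : Submodule Lam M} (h2 : ∀ q ∈ Q, (2 : Lam) • q ∈ F) (v : Q)
    (h : ∀ ψ : Q →+ F2, (∀ q : Q, (q : M) ∈ F → ψ q = 0) → ψ v = 0) : (v : M) ∈ F := by
  set P : Submodule Lam Q := F.comap Q.subtype with hP
  let : Module (ZMod 2) (Q ⧸ P) := AddCommGroup.zmodModule fun q => by
    obtain ⟨y, rfl⟩ := P.mkQ_surjective q
    rw [← map_nsmul, Submodule.mkQ_apply, Submodule.Quotient.mk_eq_zero,
      ← Nat.cast_smul_eq_nsmul Lam]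
    exact h2 _ y.2
  show v ∈ P
  rw [← Submodule.Quotient.mk_eq_zero, ← Module.forall_dual_apply_eq_zero_iff (ZMod 2)]
  intro φ
  refine h (φ.toAddMonoidHom.comp P.mkQ.toAddMonoidHom) fun y hy => ?_
  show φ (Submodule.Quotient.mk y) = 0
  rw [(Submodule.Quotient.mk_eq_zero P).2 hy, map_zero]

/-- The norm of a combination of the generators. -/
theorem gr_sum {ι : Type} [Fintype ι] {r : AddMonoid.End M} {x : ι → M} {β : ι → F2}
    {μ : ι → Lam} (hμ : ∀ j, μ j - lf (β j) ∈ mm)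
    (hx : ∀ j, (1 + X 0 * μ j : Lam) • r (x j) = -x j) {Q F : Submodule Lam M}
    (hF : ∀ a ∈ mm, ∀ q ∈ Q, a • q ∈ F) (hN : ∀ q ∈ Q, grN r q ∈ F) (hQ : ∀ j, x j ∈ Q)
    (a : ι → F2) :
    grN r (∑ j, lf (a j) • x j) - (X 0 : Lam) • ∑ j, lf (a j * β j) • x j ∈ mm • F := by
  rw [map_sum, Finset.smul_sum, ← Finset.sum_sub_distrib]
  refine Submodule.sum_mem _ fun j _ => ?_
  have e : grN r (lf (a j) • x j) - (X 0 : Lam) • lf (a j * β j) • x j = (X 0 : Lam) •
      (lf (a j) • ((μ j - lf (β j)) • x j - μ j • grN r (x j))) := by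
    unfold lf
    rw [grN_nat, relsThm_val_mul, grN_apply]
    linear_combination (norm := module) ((a j).val : Lam) • hx j
  rw [e]
  exact Submodule.smul_mem_smul relsThm_S
    (F.smul_mem _ (sub_mem (hF _ (hμ j) _ (hQ j)) (F.smul_mem _ (hN _ (hQ j)))))

/-- The commutator relation to first order. -/
theorem gr_row {ι : Type} [Fintype ι] {x : ι → M} {β a : ι → F2} {b t s : F2} {μ ν : Lam}
    {y ny x0 Y0 Y1 N0 N1 : M} {Q F : Submodule Lam M} (hF : ∀ a ∈ mm, ∀ q ∈ Q, a • q ∈ F)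
    (hQ : ∀ j, x j ∈ Q) (h0 : x0 ∈ Q) (hY0 : Y0 ∈ Q) (hY1 : Y1 ∈ Q) (hN0 : N0 ∈ F) (hN1 : N1 ∈ F)
    (hμ : μ - lf b ∈ mm) (hν : ν - lf t ∈ mm)
    (hy : y - (∑ j, lf (a j) • x j + lf s • Y0 + lf t • Y1) ∈ F)
    (hn : ny - ((X 0 : Lam) • ∑ j, lf (a j * β j) • x j + lf s • N0 + lf t • N1) ∈ mm • F)
    (e2 : y + (1 + X 1 * ν : Lam) • x0 = x0 + (1 + X 0 * μ : Lam) • (ny - y)) :
    (lf t * X 1) • x0 + ∑ j, (lf (a j) * (2 + lf (b + β j) * X 0)) • x j +
      lf s • ((2 + lf b * X 0 : Lam) • Y0 + N0) + lf t • ((2 + lf b * X 0 : Lam) • Y1 + N1) ∈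
        mm • F := by
  have e3 : ∑ j, (lf (a j) * (2 + lf (b + β j) * X 0)) • x j =
      (X 0 : Lam) • ∑ j, (lf (β j) - lf b + lf (b + β j)) • lf (a j) • x j +
        (2 + X 0 * lf b : Lam) • ∑ j, lf (a j) • x j -
        (X 0 : Lam) • ∑ j, lf (a j * β j) • x j := by
    simp only [Finset.smul_sum]
    rw [← Finset.sum_add_distrib, ← Finset.sum_sub_distrib]
    refine Finset.sum_congr rfl fun j _ => ?_
    unfold lf
    rw [relsThm_val_mul]
    module
  have s1 : ∑ j, lf (a j) • x j ∈ Q := Q.sum_mem fun j _ => Q.smul_mem _ (hQ j)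
  have s2 : ∑ j, lf (a j * β j) • x j ∈ Q := Q.sum_mem fun j _ => Q.smul_mem _ (hQ j)
  have t1 : (2 + X 0 * μ : Lam) ∈ mm := add_mem relsThm_two (mm.mul_mem_right _ relsThm_S)
  have m1 := Submodule.smul_mem_smul relsThm_S (F.sum_mem fun j (_ : j ∈ Finset.univ) =>
    hF _ (relsThm_val_add b (β j)) _ (Q.smul_mem (lf (a j)) (hQ j)))
  have m2 := Submodule.smul_mem_smul relsThm_T (hF _ hν _ h0)
  have m3 := Submodule.smul_mem_smul relsThm_S (hF _ hμ _
    (add_mem (add_mem s1 (Q.smul_mem (lf s) hY0)) (Q.smul_mem (lf t) hY1)))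
  have m4 := Submodule.smul_mem_smul relsThm_S (hF _ relsThm_S _ (Q.smul_mem μ s2))
  have m5 := Submodule.smul_mem_smul t1 hy
  have m6 := (mm • F).smul_mem (1 + X 0 * μ : Lam) hn
  have m7 := Submodule.smul_mem_smul t1 (add_mem (F.smul_mem (lf s) hN0) (F.smul_mem (lf t) hN1))
  have m := add_mem (add_mem (sub_mem (add_mem (sub_mem (sub_mem m1 m2) m3) m4) m5) m6) m7
  rw [e3]
  refine (congrArg (· ∈ mm • F) ?_).mp m
  linear_combination (norm := module) -e2

variable [TopologicalSpace M] [IsTopologicalAddGroup M] [CompactSpace M] [T2Space M]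
  [ContinuousSMul Lam M]

theorem gr_closed {ι : Type} [Fintype ι] {z : ι → M} {P : Submodule Lam M}
    (h : P ≤ Submodule.span Lam (Set.range z)) : IsClosed (P : Set M) := by
  obtain ⟨n, g, hg⟩ := Submodule.fg_iff_exists_fin_generating_family.1
    (Submodule.FG.of_le (Submodule.fg_span (Set.finite_range z)) h)
  rw [← hg]
  exact isClosed_span g

end Alg

variable {ι : Type} [Fintype ι] [DecidableEq ι] {G : Type} [Group G] [TopologicalSpace G]
  [IsTopologicalGroup G] [CompactSpace G] [TotallyDisconnectedSpace G] {u w β : ι → F2}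
  {R : Matrix ι ι F2} {A K N : Subgroup G} [K.Normal] [N.Normal] {M : Type} [AddCommGroup M]
  [TopologicalSpace M] [IsTopologicalAddGroup M] [CompactSpace M] [T2Space M] [Module Lam M]
  [ContinuousSMul Lam M] (E : Env u w β R A K N M)
include E

theorem Env.rels2 {δ : G → M} (hδ : E.Coc δ) {κ : Type} [Fintype κ] (y : κ → M) (W : Finset κ)
    (d : κ → G) (Θ : Fin 3 → κ → F2)
    (hD : ∀ g ∈ E.s.D, δ g ∈ Qs (fun i => δ (E.s.τ i)) y) (hd : ∀ l, l ∉ W → y l = δ (d l))
    (hW : ∀ k, ∀ l ∈ W, Θ k l = 0)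
    (hΘ : ∀ (χ : G →* Multiplicative F2) (β' : ι → F2) (ε η : F2), Continuous χ →
      (∀ g, δ g = 0 → χ g = 1) → Par E.s χ β' ε η →
      ∀ k, ![η, ε, w ⬝ᵥ β'] k = ∑ l, Θ k l * (χ (d l)).toAdd)
    (h1 : ∀ l, E.cx.act E.s.c (y l) + y l ∈ Fa (fun i => δ (E.s.τ i)) y W)
    (h2 : ∀ l ∈ W, E.cx.act E.s.c (y l) + y l ∈ Fb (fun i => δ (E.s.τ i)) y W) :
    (∀ g, δ g ∈ Qs (fun i => δ (E.s.τ i)) y) ∧
      Rels2 u w β R (fun i => δ (E.s.τ i)) y (fun l => E.cx.act E.s.c (y l) + y l) W Θ := by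
  classical
  set x : ι → M := fun i => δ (E.s.τ i) with hxd
  set r : AddMonoid.End M := E.cx.act E.s.c with hrd
  set Q : Submodule Lam M := Qs x y with hQd
  set F : Submodule Lam M := Fa x y W with hFd
  have hQz : Q = Submodule.span Lam (Set.range (Sum.elim x y)) := by
    rw [Set.Sum.elim_range, Submodule.span_union]
    rfl
  have xQ : ∀ j, x j ∈ Q := fun j => hQz ▸ Submodule.subset_span ⟨Sum.inl j, rfl⟩
  have yQ : ∀ l, y l ∈ Q := fun l => hQz ▸ Submodule.subset_span ⟨Sum.inr l, rfl⟩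
  have WQ : Submodule.span Lam (y '' W) ≤ Q :=
    Submodule.span_le.2 fun _ ⟨l, _, e⟩ => e ▸ yQ l
  have FQ : F ≤ Q := sup_le Submodule.smul_le_right WQ
  have mF : mm • Q ≤ F := le_sup_left
  have hF : ∀ a ∈ mm, ∀ q ∈ Q, a • q ∈ F := fun a ha q hq => mF (Submodule.smul_mem_smul ha hq)
  obtain ⟨μ', hμ', hS⟩ := E.hS
  have hT := E.hT
  choose μ hμ hτ using E.tau
  have hx : ∀ j, (1 + X 0 * μ j : Lam) • r (x j) = -x j := fun j =>
    (hτ j _).symm.trans
      (eq_neg_of_add_eq_zero_right ((hδ.mul _ _).symm.trans (hδ.zero _ (E.s.τ_sq j))))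
  have rQ : ∀ v ∈ Q, r v ∈ Q := fun v hv => by
    rw [hQz] at hv ⊢
    refine relsThm_stab (E.cont_act _) hS hT (fun j => ?_) hv
    rw [← hQz]
    rcases j with j | l
    · obtain ⟨m, hm, -⟩ := exists_inv (mm.mul_mem_right (μ j) relsThm_S)
      have e : r (x j) = m • -x j := by rw [← hx j, smul_smul, hm, one_smul]
      show r (x j) ∈ Q
      rw [e]
      exact Q.smul_mem _ (neg_mem (xQ j))
    · show r (y l) ∈ Q
      rw [← add_sub_cancel_right (r (y l)) (y l)]
      exact sub_mem (FQ (h1 l)) (yQ l)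
  have nQ : ∀ v ∈ Q, grN r v ∈ F := fun v hv => by
    refine gr_span (Q := Q) hQz.ge (F.toAddSubgroup.comap (grN r)) ?_ (fun v hv => ?_) (hQz ▸ hv)
    · rintro _ ⟨j | l, rfl⟩
      · show r (x j) + x j ∈ F
        rw [show r (x j) + x j = (X 0 : Lam) • -(μ j • r (x j)) by
          linear_combination (norm := module) hx j]
        exact hF _ relsThm_S _ (neg_mem (Q.smul_mem _ (rQ _ (xQ j))))
      · exact h1 l
    · exact mF (gr_norm hμ' hS hT (fun a _ q hq => Q.smul_mem a hq)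
        (fun q hq => add_mem (rQ q hq) hq) hv)
  have nF : ∀ v ∈ F, grN r v ∈ mm • F := fun v hv => by
    obtain ⟨a, ha, b, hb, rfl⟩ := Submodule.mem_sup.1 hv
    rw [map_add]
    refine add_mem (gr_norm hμ' hS hT hF nQ ha) ?_
    refine gr_span WQ ((mm • F).toAddSubgroup.comap (grN r)) ?_
      (fun v hv => gr_norm hμ' hS hT hF nQ hv) hb
    rintro _ ⟨l, hl, rfl⟩
    exact h2 l hl
  have triv : ∀ (g : G), ∀ v ∈ Q, E.cx.act g v - v ∈ F := by
    intro g v hv
    by_cases hg : g ∈ A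
    · obtain ⟨l, -, h3, hl⟩ := E.scal ⟨g, hg⟩
      rw [hl, show l • v - v = (l - 1) • v by module]
      exact hF _ h3 _ hv
    · obtain ⟨g', rfl⟩ := E.odd hg
      obtain ⟨l, -, h3, hl⟩ := E.scal g'
      rw [E.act_mul, hl, show l • E.cx.act E.s.c v - v =
        (l - 1) • r v + (r v + v) - (2 : Lam) • v by module]
      exact sub_mem (add_mem (hF _ h3 _ (rQ _ hv)) (nQ _ hv)) (hF _ relsThm_two _ hv)
  have st : ∀ (g : G), ∀ v ∈ Q, E.cx.act g v ∈ Q := fun g v hv => by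
    rw [← sub_add_cancel (E.cx.act g v) v]
    exact add_mem (FQ (triv g v hv)) hv
  have all : ∀ g, δ g ∈ Q := by
    let H : Subgroup G :=
      { carrier := δ ⁻¹' Q
        one_mem' := by
          show δ 1 ∈ Q
          rw [hδ.one]
          exact zero_mem _
        mul_mem' := fun {a b} ha hb => by
          show δ (a * b) ∈ Q
          rw [hδ.mul]
          exact add_mem ha (st _ _ hb)
        inv_mem' := fun {a} ha => by
          show δ a⁻¹ ∈ Q
          rw [hδ.inv]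
          exact neg_mem (st _ _ ha) }
    have h0 : ∀ g ∈ N, g ∈ H := fun g hg => by
      show δ g ∈ Q
      rw [hδ.zero g hg]
      exact zero_mem _
    have hH : H = ⊤ := by
      by_contra hne
      obtain ⟨χ, c1, c2, c3⟩ := exists_char E.h2 H h0 ((gr_closed hQz.le).preimage hδ.cont) hne
      obtain ⟨β', ε, η, hp⟩ := E.par χ c1 fun g hg => c3 g (h0 g hg)
      obtain ⟨b4, b5, -⟩ := hp.dec.1 fun g hg => c3 g (hD g hg)
      refine c2 (hp.one (funext fun j => ?_) b4 b5)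
      rw [← hp.tau j, c3 (E.s.τ j) (xQ j)]
      rfl
    exact fun g => (hH.symm ▸ Subgroup.mem_top g : g ∈ H)
  let δ' : G → Q := fun g => ⟨δ g, all g⟩
  let x' : ι → Q := fun j => ⟨x j, xQ j⟩
  let Y' : Fin 3 → Q := fun k => ∑ l, lf (Θ k l) • (⟨y l, yQ l⟩ : Q)
  have hY' : ∀ k, (Y' k : M) = Yc Θ y k := fun k => by simp [Y', Yc]
  have chars : ∀ ψ : Q →+ F2, (∀ q : Q, (q : M) ∈ F → ψ q = 0) →
      (w ⬝ᵥ fun j => ψ (x' j)) = ψ (Y' 2) ∧
      (∀ i, ψ (δ' (E.s.φ i)) = ψ (Y' 0) * u i + ψ (Y' 1) * w i + R i ⬝ᵥ fun j => ψ (x' j)) ∧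
      ψ (δ' E.s.c) = ψ (Y' 0) + u ⬝ᵥ fun j => ψ (x' j) := by
    intro ψ p2
    let χ : G →* Multiplicative F2 := MonoidHom.mk' (fun g => Multiplicative.ofAdd (ψ (δ' g)))
      fun g h => by
        have e : δ' (g * h) = δ' g + δ' h + ⟨_, FQ (triv g _ (all h))⟩ := Subtype.ext (by
          show δ (g * h) = δ g + δ h + (E.cx.act g (δ h) - δ h)
          rw [hδ.mul]
          abel)
        rw [e, ψ.map_add, ψ.map_add, p2 ⟨_, _⟩ (triv g _ (all h)), add_zero, ofAdd_add]
    have z0 : ∀ g, δ g = 0 → χ g = 1 := fun g hg => by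
      show Multiplicative.ofAdd (ψ (δ' g)) = 1
      rw [show δ' g = 0 from Subtype.ext hg, map_zero, ofAdd_zero]
    have hc : Continuous χ := by
      let P : Submodule Lam Q :=
        { carrier := {q | ψ q = 0}
          zero_mem' := map_zero ψ
          add_mem' := fun {a b} ha hb => by
            show ψ (a + b) = 0
            rw [map_add, ha, hb, add_zero]
          smul_mem' := fun f q hq => by
            obtain ⟨t, ht⟩ := exists_sub_mem_mm f
            show ψ (f • q) = 0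
            rw [show f • q = (f - (t.val : Lam)) • q + (t.val : Lam) • q by module, map_add,
              p2 _ (hF _ ht _ q.2), Nat.cast_smul_eq_nsmul, map_nsmul, hq, smul_zero, add_zero] }
      have e : (χ.ker : Set G) = δ ⁻¹' (P.map Q.subtype) := by
        ext g
        refine ⟨fun h => ⟨δ' g, h, rfl⟩, fun ⟨q, hq, e⟩ => ?_⟩
        show ψ (δ' g) = 0
        rw [show δ' g = q from Subtype.ext e.symm]
        exact hq
      have ho : IsOpen (χ.ker : Set G) := by
        refine Subgroup.isOpen_of_isClosed_of_finiteIndex _ ?_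
        rw [e]
        exact (gr_closed ((Q.map_subtype_le P).trans hQz.le)).preimage hδ.cont
      refine continuous_of_continuousAt_one χ ((continuousAt_const (y := 1)).congr ?_)
      filter_upwards [ho.mem_nhds χ.ker.one_mem] with g hg
      exact hg.symm
    obtain ⟨β', ε, η, hp⟩ := E.par χ hc fun g hg => z0 g (hδ.zero g hg)
    have b0 : ∀ k, ![η, ε, w ⬝ᵥ β'] k = ψ (Y' k) := fun k => by
      rw [hΘ χ β' ε η hc z0 hp k, relsThm_char ψ (Θ k)]
      refine Finset.sum_congr rfl fun l _ => ?_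
      by_cases hl : l ∈ W
      · rw [hW k l hl, zero_mul, zero_mul]
      · exact congrArg (fun q => Θ k l * ψ q) (Subtype.ext (hd l hl).symm)
    obtain rfl : (fun j => ψ (x' j)) = β' := funext hp.tau
    rw [← b0 0, ← b0 1, ← b0 2]
    exact ⟨rfl, hp.phi, hp.cc⟩
  have h2Q : ∀ q ∈ Q, (2 : Lam) • q ∈ F := hF _ relsThm_two
  have lfs : ∀ (ψ : Q →+ F2) (t : F2) (q : Q), ψ (lf t • q) = ψ q * t := fun ψ t q => by
    rw [Nat.cast_smul_eq_nsmul, map_nsmul, nsmul_eq_mul, ZMod.natCast_zmod_val, mul_comm]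
  have YQ : ∀ k, Yc Θ y k ∈ Q := fun k => hY' k ▸ (Y' k).2
  have nY : ∀ k, grN r (Yc Θ y k) = Yc Θ (fun l => r (y l) + y l) k := fun k => by
    unfold Yc
    rw [map_sum]
    exact Finset.sum_congr rfl fun l _ => grN_nat _ _ _
  have n3 := gr_sum hμ hx hF nQ xQ
  have sw : ∑ j, lf (w j) • x j + Yc Θ y 2 ∈ F := by
    have h := gr_sep h2Q (∑ j, lf (w j) • x' j + Y' 2) fun ψ p => by
      rw [map_add, relsThm_char ψ w, (chars ψ p).1, CharTwo.add_self_eq_zero]
    simpa [hY', x'] using h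
  refine ⟨all, fun i => ?_, sw, ?_, ?_⟩
  · have hy : δ (E.s.φ i) - (∑ j, lf (R i j) • x j + lf (u i) • Yc Θ y 0 +
        lf (w i) • Yc Θ y 1) ∈ F := by
      have h := gr_sep h2Q (δ' (E.s.φ i) - (∑ j, lf (R i j) • x' j + lf (u i) • Y' 0 +
          lf (w i) • Y' 1)) fun ψ p => by
        rw [map_sub, map_add, map_add, relsThm_char ψ (R i), lfs, lfs, (chars ψ p).2.1 i]
        ring
      simpa [hY', x', δ'] using h
    obtain ⟨ν, h3, h4⟩ := E.phi i
    refine gr_row (ny := grN r (δ (E.s.φ i))) hF xQ (xQ i) (YQ 0) (YQ 1)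
      (nY 0 ▸ nQ _ (YQ 0)) (nY 1 ▸ nQ _ (YQ 1)) (hμ i) h3 hy ?_ ?_
    · have h5 := add_mem (nF _ hy) (n3 (R i))
      rw [map_sub, map_add, map_add, grN_nat, grN_nat, nY, nY] at h5
      refine (congrArg (· ∈ mm • F) ?_).mp h5
      abel
    · have h5 : E.s.φ i * E.s.τ i =
          E.s.φ i * E.s.τ i * (E.s.φ i)⁻¹ * (E.s.τ i)⁻¹ * (E.s.τ i * E.s.φ i) := by group
      have h6 := congrArg δ h5
      rw [hδ.mul, hδ.mul _ (_ * _), hδ.zero _ (E.s.comm i), zero_add,
        E.act_K (E.hN (E.s.comm i)), hδ.mul, hτ, h4] at h6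
      rw [grN_apply, add_sub_cancel_right]
      exact h6
  · have h5 := sub_mem (nF _ sw) (n3 w)
    rw [map_add, nY] at h5
    refine (congrArg (· ∈ mm • F) ?_).mp h5
    abel
  · have hy : δ E.s.c - (∑ j, lf (u j) • x j + Yc Θ y 0) ∈ F := by
      have h := gr_sep h2Q (δ' E.s.c - (∑ j, lf (u j) • x' j + Y' 0)) fun ψ p => by
        rw [map_sub, map_add, relsThm_char ψ u, (chars ψ p).2.2]
        ring
      simpa [hY', x', δ'] using h
    have h0 : grN r (δ E.s.c) = 0 := by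
      rw [grN_apply, add_comm, ← hδ.mul, E.s.c_sq, hδ.one]
    have h5 := neg_mem (add_mem (nF _ hy) (n3 u))
    rw [map_sub, map_add, nY, h0] at h5
    refine (congrArg (· ∈ mm • F) ?_).mp h5
    abel

end Pool.Agent.Lib.MP_f8d36e_nt.GG
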