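import Pool.Agent.Lib.MP_f8d36e_nt.Struct
import Pool.Agent.Lib.MP_f8d36e_nt.GG.Env

/-! Job GX: coordinates on the compositum of the towers. -/

set_option autoImplicit false
set_option linter.unusedSectionVars false

open MvPowerSeries Matrix
open scoped MvPowerSeries.WithPiTopology

namespace Pool.Agent.Lib.MP_f8d36e_nt.GG

theorem exists_coord2 {ι : Type} [Fintype ι] [DecidableEq ι] {G : Type} [Group G]
    [TopologicalSpace G] [IsTopologicalGroup G] [CompactSpace G] {u w : ι → F2}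
    {R : Matrix ι ι F2} {A N : Subgroup G} (s : Setup u w R A N) (hw : ∃ i, w i = 1) (hNA : N ≤ A)
    (hN : ∀ ρ : A →* Multiplicative ℤ_[2], Continuous ρ → ∀ x : A, (x : G) ∈ N → ρ x = 1)
    (ρp : G →* Multiplicative ℤ_[2]) (hp : Continuous ρp) (hp1 : ρp ≠ 1)
    (ρm : A →* Multiplicative ℤ_[2]) (hm : Continuous ρm) (hm1 : ρm ≠ 1)
    (hm2 : ∀ x y : A, (y : G) = s.c * x * s.c⁻¹ → ρm y = (ρm x)⁻¹)
    (rank : ∀ ρ : Fin 3 → A →* Multiplicative ℤ_[2], (∀ a, Continuous (ρ a)) →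
      ∀ t : Fin 3 → A, (Matrix.of fun a i => (ρ a (t i)).toAdd).det = 0) :
    ∃ (β : ι → F2) (ε : F2) (e : A →* Multiplicative (Fin 2 → ℤ_[2])), Adm u w R β ε ∧
      Coord2 s β e ∧
      ∀ ρ : A →* Multiplicative ℤ_[2], Continuous ρ → ∀ x : A, e x = 1 → ρ x = 1 := by
  have : CompactSpace A := isCompact_iff_compactSpace.1 (A.isClosed_of_isOpen s.isOpen).isCompact
  have odd : ∀ ρ : A →* Multiplicative ℤ_[2], Function.Surjective ρ →
      ¬ ∀ x, PadicInt.toZMod (ρ x).toAdd = 0 := fun ρ h1 h2 => by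
    obtain ⟨x, hx⟩ := h1 (Multiplicative.ofAdd 1)
    simpa [hx] using h2 x
  obtain ⟨v, m, m1, m2, m3⟩ := exists_scale ρm hm hm1
  obtain ⟨v', p, p1, p2, p3⟩ := exists_scale (ρp.comp A.subtype) (hp.comp continuous_subtype_val)
    fun e => hp1 (MonoidHom.ext fun g => by
      have := congrArg Multiplicative.toAdd
        (DFunLike.congr_fun e ⟨g * g, Subgroup.mul_self_mem_of_index_two s.index g⟩)
      simpa using this)
  have im : structInv s.c (-1) m := struct_scale (ρ := ρm)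
    ⟨hm, fun x y e => by simp [hm2 x y e]⟩ m1 (pow_ne_zero _ two_ne_zero) m3
  have ip : structInv s.c 1 p := struct_scale (ρ := ρp.comp A.subtype)
    ⟨hp.comp continuous_subtype_val, fun x y e => by simp [e]⟩ p1 (pow_ne_zero _ two_ne_zero) p3
  have m4 : ∀ i, ∀ x : A, (x : G) = s.φ i → (m x).toAdd = 0 := fun i x e => by
    obtain ⟨y, hy⟩ := struct_conj s.index s.c x
    obtain ⟨a, ha⟩ := struct_tau s i
    have := congrArg Multiplicative.toAdd (hN m m1 (x * a * y⁻¹ * a⁻¹) (by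
      simp only [Subgroup.coe_mul, Subgroup.coe_inv, hy, e, ha]
      rw [show s.φ i * (s.τ i * s.c⁻¹) * (s.c * s.φ i * s.c⁻¹)⁻¹ * (s.τ i * s.c⁻¹)⁻¹ =
        s.φ i * s.τ i * (s.φ i)⁻¹ * (s.τ i)⁻¹ by group]
      exact s.comm i))
    simp only [map_mul, map_inv, toAdd_mul, toAdd_inv, im.2 x y hy, toAdd_one] at this
    exact add_self_eq_zero.1 (by linear_combination this)
  obtain ⟨β, ε, η, k1, k2, k3, -, k5⟩ := struct_key s hNA (fun x => PadicInt.toZMod (m x).toAdd)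
    (struct_cont.comp (continuous_toAdd.comp m1)) (fun x y => by simp)
    (fun x y e => by simp [im.2 x y e, CharTwo.neg_eq]) (fun x hx => by simp [hN m m1 x hx]) 0
  obtain rfl : η = u ⬝ᵥ β := CharTwo.add_eq_zero.1 k3.symm
  obtain ⟨p4, ε', p5, p6⟩ := struct_inv s hNA hN ip
  obtain rfl : ε' = 1 := (struct_f2 ε').resolve_left fun e =>
    odd p p2 fun x => (struct_mod _).2 (p6 e x)
  simp only [one_mul, add_zero] at k1 p5
  let e : A →* Multiplicative (Fin 2 → ℤ_[2]) := MonoidHom.mk'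
    (fun x => Multiplicative.ofAdd ![(m x).toAdd, (p x).toAdd]) fun x y => by
      rw [← ofAdd_add]
      simp
  have e0 : ∀ x, (e x).toAdd 0 = (m x).toAdd := fun _ => rfl
  have e1 : ∀ x, (e x).toAdd 1 = (p x).toAdd := fun _ => rfl
  have ec : Continuous e := continuous_ofAdd.comp (continuous_pi fun i => by
    fin_cases i
    exacts [continuous_toAdd.comp m1, continuous_toAdd.comp p1])
  obtain ⟨i0, hi⟩ := hw
  have top : e.range.toAddSubgroup' = ⊤ := by
    refine surj_of_mod_two _ (isCompact_range (continuous_toAdd.comp ec)).isClosed fun y => ?_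
    obtain ⟨x, hx⟩ := m2 (Multiplicative.ofAdd (y 0))
    rcases struct_f2 (PadicInt.toZMod (y 1 - (p x).toAdd)) with h | h
    · refine ⟨(e x).toAdd, ⟨x, rfl⟩, Fin.forall_fin_two.2 ⟨?_, (struct_mod _).1 h⟩⟩
      simp [e0, hx]
    · refine ⟨(e (x * ⟨_, s.φ_mem i0⟩)).toAdd, ⟨_, rfl⟩, Fin.forall_fin_two.2 ⟨?_, ?_⟩⟩
      · rw [e0, map_mul, toAdd_mul, hx, m4 i0 _ rfl]
        simp
      · rw [← struct_mod, e1, map_mul, toAdd_mul, ← sub_sub, map_sub, h, p5 i0 _ rfl, hi, sub_self]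
  have sur : Function.Surjective e := fun y =>
    (top ▸ AddSubgroup.mem_top y.toAdd : y.toAdd ∈ e.range.toAddSubgroup')
  refine ⟨β, ε, e, ⟨fun i => ?_, ?_⟩, ⟨ec, sur, fun x y h => ?_,
    fun i x h => ⟨k1 i x h, p4 i x h⟩, fun i x h => ⟨m4 i x h, p5 i x h⟩, ?_⟩,
    fun ρ hρ x hx => ?_⟩
  · have := k2 i ⟨_, s.φ_mem i⟩ rfl
    rw [m4 i _ rfl, map_zero] at this
    exact (CharTwo.add_eq_zero.1 this.symm).symm
  · by_contra! h
    exact odd m m2 (k5 h.1 h.2 (by simp [h.1]))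
  · simp [e0, e1, im.2 x y h, ip.2 x y h]
  · by_contra! h
    obtain ⟨β', ε', η', j1, -, -, j4, j5⟩ := struct_key s hNA
      (fun x => PadicInt.toZMod (p x).toAdd) (struct_cont.comp (continuous_toAdd.comp p1))
      (fun x y => by simp) (fun x y e => by simp [ip.2 x y e])
      (fun x hx => by simp [hN p p1 x hx]) 0
    obtain ⟨a, b, -⟩ := j4 (fun x k => (struct_f2 _).resolve_right (h x (.inl k)))
      fun x k => (add_zero _).trans ((struct_f2 _).resolve_right (h x (.inr k)))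
    refine odd p p2 (j5 (funext fun i => ?_) a b)
    obtain ⟨x, k⟩ := struct_tau s i
    simp [← j1 i x k, p4 i x k]
  obtain ⟨g0, h0⟩ := sur (Multiplicative.ofAdd ![1, 0])
  obtain ⟨g1, h1⟩ := sur (Multiplicative.ofAdd ![0, 1])
  have := rank ![m, p, ρ] (fun a => by
    fin_cases a
    exacts [m1, p1, hρ]) ![g0, g1, x]
  simpa [det_fin_three, ← e0, ← e1, h0, h1, hx] using this

end Pool.Agent.Lib.MP_f8d36e_nt.GG
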