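import Pool.Agent.Lib.MP_f8d36e_nt.Glue
import Pool.Agent.Lib.MP_f8d36e_nt.Rank
import Pool.Agent.Lib.MP_f8d36e_nt.GG.GK
import Pool.Agent.Lib.MP_f8d36e_nt.GG.GX
import Pool.Agent.Lib.MP_f8d36e_nt.GG.GH

/-! The general criterion implies the conjecture. -/

set_option autoImplicit false

open scoped IntermediateField MvPowerSeries.WithPiTopology

namespace Pool.Agent.Lib.MP_f8d36e_nt.GG

theorem glue_sqf {e0 : F2} {m : ℕ} (hm : Squarefree m) (ho : Odd m) :
    Squarefree (2 ^ e0.val * m) := by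
  rcases (by decide : ∀ t : F2, t.val = 0 ∨ t.val = 1) e0 with e | e
  · rwa [e, pow_zero, one_mul]
  · rw [e, pow_one]
    exact (Nat.squarefree_mul (Nat.coprime_two_left.2 ho)).2 ⟨Nat.prime_two.prime.squarefree, hm⟩

theorem ggc_aux {e0 : F2} {m : ℕ} (hm : Squarefree m) (ho' : Odd m) (h1 : 1 < 2 ^ e0.val * m)
    (hc : CritN2 e0 m) {θ : Qbar} (hθ : θ ^ 2 = -((2 ^ e0.val * m : ℕ) : Qbar))
    (rank : ∀ ρ : Fin 3 → ℚ⟮θ⟯.fixingSubgroup →* Multiplicative ℤ_[2], (∀ a, Continuous (ρ a)) →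
      ∀ t : Fin 3 → ℚ⟮θ⟯.fixingSubgroup, (Matrix.of fun a i => (ρ a (t i)).toAdd).det = 0) :
    GGC 2 2 ℚ⟮θ⟯.fixingSubgroup := by
  obtain ⟨hw, a, b, hg⟩ := hc
  have hn' := glue_sqf (e0 := e0) hm ho'
  set H := ℚ⟮θ⟯.fixingSubgroup with hH
  have hθ' : θ ^ 2 = ((-((2 ^ e0.val * m : ℕ) : ℤ) : ℤ) : Qbar) := by
    rw [hθ, Int.cast_neg, Int.cast_natCast]
  have hi : H.index = 2 := fixing_index
    (by rw [← Int.squarefree_natAbs, Int.natAbs_neg, Int.natAbs_natCast]; exact hn')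
    (by omega) hθ'
  have ho : IsOpen (H : Set Gam) := fixing_open
  have hcl : IsClosed (H : Set Gam) := H.isClosed_of_isOpen ho
  have hn : H.Normal := Subgroup.normal_of_index_eq_two hi
  set K := tildeGal 2 H with hK
  have hKn : K.Normal := tilde_normal
  have hKc : IsClosed (K : Set Gam) := tilde_closed hcl
  set L := splitGal 2 K with hL
  have hLn : L.Normal := split_normal
  obtain ⟨s, par, P, hP, hP2, hD⟩ := exists_setup2 e0 hm ho' hθ L (unram_odd hi ho)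
  have hsq : ¬ IsSquare (2 ^ e0.val * m) := by
    rintro ⟨r, hr⟩
    have := Nat.isUnit_iff.1 (hn' r (hr ▸ dvd_rfl))
    rw [this] at hr
    omega
  obtain ⟨ca⟩ := exists_cmAct hsq hθ
  obtain ⟨ρm, m1, m2, m3⟩ := ca.exists_anti H mem_fixing (apply_sqrt hθ') hi
  obtain ⟨ρp, p1, g', p2⟩ := exists_cyc
  obtain ⟨β, ε, e, had, he, hk⟩ := exists_coord2 s hw (split_le.trans tilde_le)
    (fun ρ hρ x hx => (mem_tilde hcl x).mp (split_le hx) ρ hρ) ρp p1
    (fun h => p2 (by simp [h])) ρm m1 m2 (m3 s.c s.c_not) rank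
  obtain ⟨n0, n1, hpt⟩ := hg β ε had
  have hker : ∀ x : H, e x = 1 ↔ (x : Gam) ∈ K := fun x => by
    rw [mem_tilde hcl]
    refine ⟨fun h ρ hρ => hk ρ hρ x h, fun h => ?_⟩
    ext i
    exact congrArg Multiplicative.toAdd (h ((AddMonoidHom.toMultiplicative
      (Pi.evalAddMonoidHom (fun _ : Fin 2 => ℤ_[2]) i)).comp e)
      (continuous_ofAdd.comp ((continuous_apply i).comp (continuous_toAdd.comp he.cont))))
  obtain ⟨M, _, _, _, _, _, cx, hun⟩ :=
    exists_ctx K L hKc (split_closed hKc) split_le split_comm (pro_two hi ho)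
  choose g hg' using fun i : Fin 2 => he.surj (Multiplicative.ofAdd (Pi.single i 1))
  have hca : ∀ z : Gam, Continuous (cx.act z) := fun z =>
    cx.cont_act.comp (continuous_const.prodMk continuous_id)
  have heq : ∀ x y : H, e x = e y → cx.act x = cx.act y := fun x y h =>
    cx.act_eq ((hker (x * y⁻¹)).mp (by rw [map_mul, map_inv, h, mul_inv_cancel]))
  obtain ⟨_, _, a0, a1⟩ := exists_module (cx.act (g 0)) (cx.act (g 1)) (hca _) (hca _)
    (by rw [← map_mul, ← map_mul]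
        exact heq (g 0 * g 1) (g 1 * g 0) (by rw [map_mul, map_mul, mul_comm])) (hun _ _)
  have hX : ∀ (i : Fin 2) (z : H), e z = Multiplicative.ofAdd (Pi.single i 1) →
      ∀ x : M, cx.act z x = (1 + MvPowerSeries.X i : Lam) • x := fun i z hz x => by
    rw [heq z (g i) (hz.trans (hg' i).symm)]
    fin_cases i
    · exact (a0 x).symm
    · exact (a1 x).symm
  exact ⟨e, ⟨he.cont, he.surj, Subgroup.ext fun z => hker z⟩, M, inferInstance, inferInstance,
    inferInstance, cx.π, ⟨inferInstance, inferInstance, inferInstance⟩, ⟨cx.cont, cx.surj, cx.ker⟩,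
    fun i z hz x y h => by rw [cx.spec z x y h, hX i z hz],
    Env.null ⟨s, e, he, cx, tilde_le, hker, split_le, split_closed hKc, pro_two hi ho,
      hD ▸ split_split P hP hP2, hX, par, hw⟩ hpt⟩

theorem ggc_of_crit2 {e0 : F2} {m : ℕ} (hm : Squarefree m) (ho : Odd m) (h4 : 4 < 2 ^ e0.val * m)
    (hc : CritN2 e0 m) {θ : Qbar} (hθ : θ ^ 2 = -((2 ^ e0.val * m : ℕ) : Qbar)) :
    GGC 2 2 ℚ⟮θ⟯.fixingSubgroup :=
  ggc_aux hm ho (by omega) hc hθ (rank_two (glue_sqf hm ho) h4 hθ)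

end Pool.Agent.Lib.MP_f8d36e_nt.GG
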