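import Pool.Agent.Lib.MP_f8d36e_nt.GG.MDefs

/-! Job MA: algebra of the borders. -/

set_option autoImplicit false
set_option linter.unusedSectionVars false

open Matrix Finset

namespace Pool.Agent.Lib.MP_f8d36e_nt.GG

variable {k K : Type} [Field k] [Algebra F2 k] [Field K] [Algebra F2 K] {pt : Pat}

theorem ma_alg (f : k →+* K) (t : F2) : f (algebraMap F2 k t) = algebraMap F2 K t :=
  RingHom.congr_fun (RingHom.ext_zmod (f.comp (algebraMap F2 k)) (algebraMap F2 K)) t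

theorem ma_cases (t : F2) : t = 0 ∨ t = 1 := by revert t; decide

theorem ma_all {P : F2 → Prop} : (∀ c, P c) ↔ P 0 ∧ P 1 :=
  ⟨fun h => ⟨h 0, h 1⟩, fun h c => by rcases ma_cases c with rfl | rfl; exacts [h.1, h.2]⟩

theorem ma_sum (g : F2 → K) : ∑ c, g c = g 0 + g 1 := Fin.sum_univ_two g

theorem ma_all3 {P : Fin 3 → Prop} : (∀ l, P l) ↔ P 0 ∧ P 1 ∧ P 2 :=
  ⟨fun h => ⟨h 0, h 1, h 2⟩, fun h l => by fin_cases l; exacts [h.1, h.2.1, h.2.2]⟩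

theorem ma_ext {b b' : Bord K} (h1 : ∀ l c, b.cu l c = b'.cu l c) (h2 : ∀ l c, b.cw l c = b'.cw l c)
    (h3 : ∀ l c, b.ru l c = b'.ru l c) (h4 : ∀ l c, b.rw l c = b'.rw l c)
    (h5 : ∀ l c, b.d l c = b'.d l c) : b = b' := by
  cases b
  cases b'
  congr 1 <;> funext l c
  exacts [h1 l c, h2 l c, h3 l c, h4 l c, h5 l c]

theorem ma_zero {z : Fin 3 → K} (h0 : z 0 = 0) (h1 : z 1 = 0) (h2 : z 2 = 0) : z = 0 :=
  funext (ma_all3.2 ⟨h0, h1, h2⟩)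

theorem ma_ne {T : K} (h0 : T ≠ 0) (h1 : T ≠ 1) (t : F2) : T + algebraMap F2 K t ≠ 0 := by
  have two : (2 : K) = 0 := two_eq_zero
  rcases ma_cases t with rfl | rfl
  · rwa [map_zero, add_zero]
  · rw [map_one]
    exact fun h => h1 (by linear_combination h - two)

theorem ma_det {a b c d x y : K} (h : a * d - b * c ≠ 0) (h1 : a * x + b * y = 0)
    (h2 : c * x + d * y = 0) : x = 0 ∧ y = 0 :=
  ⟨(mul_eq_zero.1 (by linear_combination d * h1 - b * h2)).resolve_left h,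
    (mul_eq_zero.1 (by linear_combination a * h2 - c * h1)).resolve_left h⟩

theorem raw_map (f : k →+* K) (p q T : k) : (raw pt p q T).map f = raw pt (f p) (f q) (f T) := by
  refine ma_ext ?_ ?_ ?_ ?_ ?_ <;>
    simp [ma_all3, ma_all, raw, Bord.map, cf, ma_alg]

theorem sqb_map (f : k →+* K) (T : k) : (sqb pt T).map f = sqb pt (f T) := by
  refine ma_ext ?_ ?_ ?_ ?_ ?_ <;>
    simp [ma_all3, ma_all, sqb, raw, Bord.map, cf, ma_alg]

theorem locb_map (f : k →+* K) (x : k) (h h' : Matrix (Fin 3) (Fin 3) k) :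
    (locb x h h').map f = locb (f x) (h.map f) (h'.map f) := by
  refine ma_ext ?_ ?_ ?_ ?_ ?_ <;>
    simp [ma_all3, ma_all, locb, Bord.map, cf]

theorem raw_inj {T : K} (h0 : T ≠ 0) (h1 : T ≠ 1) :
    ColInj (raw pt 0 1 T) univ {0, 1} ∧ ColInj (raw pt 0 1 T).tr {0, 1} univ := by
  have two : (2 : K) = 0 := two_eq_zero
  constructor
  · intro z hz hc _
    have h2 := hz 2 (by decide)
    have e0 := (hc 0).2
    have e1 := (hc 1).2
    simp [raw, cf, Fin.sum_univ_three] at e0 e1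
    have hd : T * T - algebraMap F2 K (pt.ε 1) * algebraMap F2 K (pt.ε 0) ≠ 0 := by
      rw [← map_mul]
      rcases ma_cases (pt.ε 1 * pt.ε 0) with h | h <;> rw [h]
      · rw [map_zero, sub_zero]
        exact mul_ne_zero h0 h0
      · rw [map_one]
        have := sub_ne_zero.2 h1
        exact fun h => mul_ne_zero this this (by linear_combination h + (1 - T) * two)
    obtain ⟨a, b⟩ := ma_det hd e0 e1
    exact ma_zero a b h2
  · intro z _ hc _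
    have e0 := (hc 0).2
    have e1 := (hc 1).2
    have e2 := (hc 1).1
    simp [raw, Bord.tr, Fin.sum_univ_three] at e0 e1 e2
    exact ma_zero e0 e1 e2

theorem raw_ne {T : K} (h0 : T ≠ 0) (h1 : T ≠ 1) :
    ((raw pt 1 0 T).cw 0 0 ≠ 0 ∧ (raw pt 1 0 T).rw 0 0 ≠ 0) ∧
      (raw pt 1 0 T).cw 1 1 ≠ 0 ∧ (raw pt 1 0 T).rw 1 1 ≠ 0 := by
  simp [raw, cf, ma_ne h0 h1]

theorem sqb_inj {T : K} (h0 : T ≠ 0) (h1 : T ≠ 1) :
    ColInj (sqb pt T) {0, 1} {0, 1} ∧ ColInj (sqb pt T).tr {0, 1} {0, 1} := by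
  have key : ∀ z : Fin 3 → K, (∀ l, l ∉ ({0, 1} : Finset (Fin 3)) → z l = 0) →
      (∀ c, ∑ l, (raw pt 1 1 T).cw l c * z l = 0) → z = 0 := fun z hz hc => by
    have h2 := hz 2 (by decide)
    have e0 := hc 0
    have e1 := hc 1
    simp [raw, cf, Fin.sum_univ_three] at e0 e1
    have hd : (T + algebraMap F2 K (pt.ε 0)) * (T + algebraMap F2 K (pt.ε 1)) -
        algebraMap F2 K (pt.ε 1) * algebraMap F2 K (pt.ε 0) ≠ 0 := fun h =>
      mul_ne_zero h0 (ma_ne h0 h1 (pt.ε 0 + pt.ε 1)) (by rw [map_add]; linear_combination h)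
    obtain ⟨a, b⟩ := ma_det hd e0 e1
    exact ma_zero a b h2
  exact ⟨fun z hz hc _ => key z hz fun c => (hc c).2, fun z hz hc _ => key z hz fun c => (hc c).2⟩

theorem locb_inj {x : K} (hx : x ≠ 1) {h h' : Matrix (Fin 3) (Fin 3) K} {J : Finset (Fin 3)}
    (hj : ∀ z, (∀ l, l ∉ J → z l = 0) → h *ᵥ z = 0 → h' *ᵥ z = 0 → z = 0) :
    ColInj (locb x h h') univ J ∧ ColInj (locb x h h').tr J univ := by
  have two : (2 : K) = 0 := two_eq_zero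
  have hx' : 1 + x ≠ 0 := fun h => hx (by linear_combination h - two)
  constructor
  · intro z hz hc hd
    have hd' : (1 : K) * 1 - 1 * x ≠ 0 := fun h => hx (by linear_combination -h)
    have e : ∀ (t : K) (i : Fin 3), ∑ l, (t * h i l + h' i l) * z l =
        t * (h *ᵥ z) i + 1 * (h' *ᵥ z) i := fun t i => by
      simp only [mulVec, dotProduct, Fin.sum_univ_three]
      ring
    obtain ⟨a0, b0⟩ := ma_det hd' ((e 1 0).symm.trans (hc 0).1) ((e x 0).symm.trans (hc 1).1)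
    obtain ⟨a1, b1⟩ := ma_det hd' ((e 1 1).symm.trans (hc 0).2) ((e x 1).symm.trans (hc 1).2)
    exact hj z hz (ma_zero a0 a1 (hd 0 (mem_univ _))) (ma_zero b0 b1 (hd 1 (mem_univ _)))
  · intro z _ hc _
    have e0 := (hc 0).2
    have e1 := (hc 1).2
    have e2 := (hc 1).1
    simp [locb, Bord.tr, Fin.sum_univ_three, hx'] at e0 e1 e2
    rw [e0, zero_add] at e1
    exact ma_zero e0 ((mul_eq_zero.1 e1).resolve_left hx') e2

/-- The borders of the pencil. -/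
def ma_pen (pt : Pat) (k0 k1 : Bool) (i j : Fin 3) (c a1 a2 : F2) (p q T : K) : Bord K where
  cu := ![if k0 then (raw pt p q T).cu 0 else 0, if k1 then (raw pt p q T).cu 1 else 0,
    fun c' => if c' = c then p * algebraMap F2 K a2 else 0]
  cw := ![if k0 then (raw pt p q T).cw 0 else fun c' => if c' = 0 then p else 0,
    if k1 then (raw pt p q T).cw 1 else fun c' => if c' = 1 then p else 0,
    fun c' => if c' = c then p * algebraMap F2 K a1 else 0]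
  ru := ![fun c' => p * (raw pt p q T).ru i c', fun c' => p * (raw pt p q T).ru j c',
    fun c' => if c' = c then p * algebraMap F2 K a2 else 0]
  rw := ![fun c' => p * (raw pt p q T).rw i c', fun c' => p * (raw pt p q T).rw j c',
    fun c' => if c' = c then p * algebraMap F2 K a1 else 0]
  d := ![fun l => p * (raw pt p q T).d i l, fun l => p * (raw pt p q T).d j l, 0]

section
variable {k0 k1 : Bool} {i j : Fin 3} {c a1 a2 : F2}

theorem ma_pen_map (f : k →+* K) (p q T : k) : (ma_pen pt k0 k1 i j c a1 a2 p q T).map f =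
    ma_pen pt k0 k1 i j c a1 a2 (f p) (f q) (f T) := by
  have h := raw_map (pt := pt) f p q T
  refine ma_ext ?_ ?_ ?_ ?_ ?_ <;> refine ma_all3.2 ⟨?_, ?_, ?_⟩ <;> intro c' <;>
    cases k0 <;> cases k1 <;>
    simp [ma_pen, ← h, Bord.map, ma_alg, apply_ite f]

theorem ma_pen_lin (a b x : K) : (ma_pen pt k0 k1 i j c a1 a2 1 0 a).lin x
    (ma_pen pt k0 k1 i j c a1 a2 0 1 b) = ma_pen pt k0 k1 i j c a1 a2 1 x (a + b * x) := by
  refine ma_ext ?_ ?_ ?_ ?_ ?_ <;> refine ma_all3.2 ⟨?_, ?_, ?_⟩ <;>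
    cases k0 <;> cases k1 <;>
    simp [ma_pen, raw, Bord.lin, cf, ma_all] <;> ring

theorem ma_pen_st (x T : K) : IsSt (ma_pen pt k0 k1 i j c a1 a2 1 x T) c a1 a2 := by
  refine ⟨fun c' => by simp [ma_pen], ma_all3.2 ⟨⟨rfl, ?_⟩, ⟨rfl, ?_⟩, rfl, rfl⟩⟩
  · fin_cases i <;> simp [ma_pen, raw]
  · fin_cases j <;> simp [ma_pen, raw]

end

theorem ma_colInj {bd : Bord K} (h : ∀ z0 z1 z2 : K,
    (∀ c, bd.cu 0 c * z0 + bd.cu 1 c * z1 + bd.cu 2 c * z2 = 0 ∧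
      bd.cw 0 c * z0 + bd.cw 1 c * z1 + bd.cw 2 c * z2 = 0) →
    (∀ l, bd.d l 0 * z0 + bd.d l 1 * z1 + bd.d l 2 * z2 = 0) → z0 = 0 ∧ z1 = 0 ∧ z2 = 0) :
    ColInj bd univ univ := fun z _ hc hd => by
  simp only [Fin.sum_univ_three] at hc hd
  obtain ⟨a, b, c⟩ := h _ _ _ hc fun l => hd l (mem_univ l)
  exact ma_zero a b c

theorem ma_refines {bd : Bord K} {x T : K} (h : ∀ z0 z1 : K, ∃ y0 y1 : K,
    (y0 = 0 → y1 = 0 → z0 = 0 ∧ z1 = 0) ∧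
    (∀ c, bd.cu 0 c * y0 + bd.cu 1 c * y1 =
        (raw pt 1 x T).cu 0 c * z0 + (raw pt 1 x T).cu 1 c * z1 ∧
      bd.cw 0 c * y0 + bd.cw 1 c * y1 =
        (raw pt 1 x T).cw 0 c * z0 + (raw pt 1 x T).cw 1 c * z1) ∧
    ∀ u0 u1 w0 w1 : K, w0 + algebraMap F2 K (pt.ω 0) * z0 = 0 →
      w1 + algebraMap F2 K (pt.ω 1) * z1 = 0 → u1 + algebraMap F2 K (pt.η 1) * z1 = 0 →
      ∀ l, bd.ru l 0 * u0 + bd.rw l 0 * w0 + (bd.ru l 1 * u1 + bd.rw l 1 * w1) +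
        (bd.d l 0 * y0 + bd.d l 1 * y1) = 0) :
    Refines (raw pt 1 x T) univ {0, 1} bd univ {0, 1} := fun z hz => by
  have h2 := hz 2 (by decide)
  obtain ⟨y0, y1, a, b, c⟩ := h (z 0) (z 1)
  refine ⟨![y0, y1, 0], ma_all3.2 ⟨fun h => absurd (by decide) h, fun h => absurd (by decide) h,
    fun _ => rfl⟩, fun e => ?_, fun c' => ?_, fun yu yw hy l _ => ?_⟩
  · obtain ⟨a0, a1⟩ := a (congrFun e 0) (congrFun e 1)
    exact ma_zero a0 a1 h2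
  · simpa [Fin.sum_univ_three, h2] using b c'
  · have e0 := hy 0 (mem_univ _)
    have e1 := hy 1 (mem_univ _)
    have e2 := hy 2 (mem_univ _)
    simp [raw, Fin.sum_univ_three] at e0 e1 e2
    simpa [ma_sum, Fin.sum_univ_three] using c (yu 0) (yu 1) (yw 0) (yw 1) e0 e1 e2 l

/-- The properties of a member of the pencil. -/
def ma_Good (pt : Pat) (bd : Bord K) (x T : K) : Prop :=
  (ColInj bd univ univ ∧ ColInj bd.tr univ univ) ∧
    (T ≠ 0 → T ≠ 1 → T ≠ 1 + x → Refines (raw pt 1 x T) univ {0, 1} bd univ {0, 1})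

section
variable {x T : K}

theorem ma_A (h1 : pt.η 1 = 1) (h0 : pt.η 0 = 1 ∨ pt.ω 0 = 1) :
    ma_Good pt (ma_pen pt true true 0 2 1 1 (pt.ω 1) 1 x T) x T := by
  have two : (2 : K) = 0 := two_eq_zero
  refine ⟨⟨ma_colInj fun z0 z1 z2 hc hd => ?_, ma_colInj fun z0 z1 z2 hc hd => ?_⟩,
    fun _ _ _ => ma_refines fun z0 z1 => ⟨z0, z1, fun a b => ⟨a, b⟩, fun c => ⟨rfl, rfl⟩,
      fun u0 u1 w0 w1 e0 e1 e2 => ?_⟩⟩
  · obtain ⟨⟨c1, c2⟩, c3, c4⟩ := ma_all.1 hc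
    obtain ⟨d0, d1, -⟩ := ma_all3.1 hd
    clear hc hd
    rcases h0 with h0 | h0 <;> simp_all [ma_pen, raw, cf]
  · simp [ma_all, ma_all3, ma_pen, raw, h1, Bord.tr] at hc hd
    exact ⟨hc.1, hd.2, hc.2.2⟩
  · simp [ma_all3, ma_pen, raw, h1] at e2 ⊢
    refine ⟨e0, e2, ?_⟩
    linear_combination e1 + algebraMap F2 K (pt.ω 1) * e2 - algebraMap F2 K (pt.ω 1) * z1 * two

theorem ma_B (h1 : pt.η 1 = 1) (h0 : pt.η 0 = 0) (h2 : pt.ω 0 = 0) (h3 : pt.ε 0 = 0) :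
    ma_Good pt (ma_pen pt false true 0 2 1 1 (pt.ω 1) 1 x T) x T := by
  have two : (2 : K) = 0 := two_eq_zero
  refine ⟨⟨ma_colInj fun z0 z1 z2 hc hd => ?_, ma_colInj fun z0 z1 z2 hc hd => ?_⟩,
    fun t0 _ _ => ma_refines fun z0 z1 => ⟨T * z0, z1,
      fun a b => ⟨(mul_eq_zero.1 a).resolve_left t0, b⟩, ?_,
      fun u0 u1 w0 w1 e0 e1 e2 => ?_⟩⟩
  · simp [ma_all, ma_all3, ma_pen, raw, cf, h1, h2] at hc hd
    simp_all
  · simp [ma_all, ma_all3, ma_pen, raw, h1, Bord.tr] at hc hd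
    exact ⟨hc.1, hd.2, hc.2.2⟩
  · simp [ma_pen, raw, cf, h0, h3]
  · simp [ma_all3, ma_pen, raw, h1, h2] at e0 e2 ⊢
    refine ⟨e0, e2, ?_⟩
    linear_combination e1 + algebraMap F2 K (pt.ω 1) * e2 - algebraMap F2 K (pt.ω 1) * z1 * two

theorem ma_C (hx : x ≠ 0) (h1 : pt.η 1 = 1) (h2 : pt.ω 0 = 0) (h3 : pt.ε 0 = 1)
    (h4 : pt.ω 1 = 0) : ma_Good pt (ma_pen pt true true 1 2 0 1 0 1 x T) x T := by
  refine ⟨⟨ma_colInj fun z0 z1 z2 hc hd => ?_, ma_colInj fun z0 z1 z2 hc hd => ?_⟩,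
    fun _ _ _ => ma_refines fun z0 z1 => ⟨z0, z1, fun a b => ⟨a, b⟩, fun c => ⟨rfl, rfl⟩,
      fun u0 u1 w0 w1 e0 e1 e2 => ?_⟩⟩
  · obtain ⟨⟨c1, c2⟩, c3, c4⟩ := ma_all.1 hc
    obtain ⟨d0, d1, -⟩ := ma_all3.1 hd
    clear hc hd
    simp_all [ma_pen, raw, cf]
  · simp [ma_all, ma_pen, raw, Bord.tr] at hc
    exact ⟨hc.2.2, hc.2.1, hc.1⟩
  · simp [ma_all3, ma_pen, raw, h1, h2, h4] at e0 e1 e2 ⊢
    exact ⟨e1, e2, e0⟩

theorem ma_tr {k0 k1 : Bool} : ColInj (ma_pen pt k0 k1 0 1 1 0 1 1 x T).tr univ univ :=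
  ma_colInj fun z0 z1 z2 hc _ => by
    simp [ma_all, ma_pen, raw, Bord.tr] at hc
    exact ⟨hc.1, hc.2.2, hc.2.1⟩

theorem ma_D (hx : x ≠ 0) (h1 : pt.η 1 = 0) (h0 : pt.η 0 = 1 ∨ pt.ω 0 = 1)
    (h2 : pt.ω 1 = 1 ∨ pt.ε 1 = 1) : ma_Good pt (ma_pen pt true true 0 1 1 0 1 1 x T) x T := by
  refine ⟨⟨ma_colInj fun z0 z1 z2 hc hd => ?_, ma_tr⟩,
    fun _ _ _ => ma_refines fun z0 z1 => ⟨z0, z1, fun a b => ⟨a, b⟩, fun c => ⟨rfl, rfl⟩,
      fun u0 u1 w0 w1 e0 e1 e2 => ?_⟩⟩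
  · obtain ⟨⟨c1, c2⟩, c3, c4⟩ := ma_all.1 hc
    obtain ⟨d0, d1, -⟩ := ma_all3.1 hd
    clear hc hd
    rcases h0 with h0 | h0 <;> rcases h2 with h2 | h2 <;> simp_all [ma_pen, raw, cf]
  · simp [ma_all3, ma_pen, raw, h1] at e2 ⊢
    exact ⟨e0, e1, e2⟩

theorem ma_E (h1 : pt.η 1 = 0) (h0 : pt.η 0 = 1 ∨ pt.ω 0 = 1) (h2 : pt.ω 1 = 0)
    (h3 : pt.ε 1 = 0) : ma_Good pt (ma_pen pt true false 0 1 1 0 1 1 x T) x T := by
  refine ⟨⟨ma_colInj fun z0 z1 z2 hc hd => ?_, ma_tr⟩,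
    fun t0 _ _ => ma_refines fun z0 z1 => ⟨z0, T * z1,
      fun a b => ⟨a, (mul_eq_zero.1 b).resolve_left t0⟩, ?_,
      fun u0 u1 w0 w1 e0 e1 e2 => ?_⟩⟩
  · obtain ⟨⟨c1, c2⟩, c3, c4⟩ := ma_all.1 hc
    obtain ⟨d0, d1, -⟩ := ma_all3.1 hd
    clear hc hd
    rcases h0 with h0 | h0 <;> simp_all [ma_pen, raw, cf]
  · simp [ma_pen, raw, cf, h1, h3]
  · simp [ma_all3, ma_pen, raw, h1, h2] at e1 e2 ⊢
    exact ⟨e0, e1, e2⟩

theorem ma_F (h1 : pt.η 1 = 0) (h0 : pt.η 0 = 0) (h2 : pt.ω 0 = 0) (h3 : pt.ω 1 = 1)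
    (h4 : pt.ε 0 = 0) : ma_Good pt (ma_pen pt false true 0 1 1 0 1 1 x T) x T := by
  refine ⟨⟨ma_colInj fun z0 z1 z2 hc hd => ?_, ma_tr⟩,
    fun t0 _ _ => ma_refines fun z0 z1 => ⟨T * z0, z1,
      fun a b => ⟨(mul_eq_zero.1 a).resolve_left t0, b⟩, ?_,
      fun u0 u1 w0 w1 e0 e1 e2 => ?_⟩⟩
  · simp [ma_all, ma_all3, ma_pen, raw, cf, h1, h2, h3] at hc hd
    simp_all
  · simp [ma_pen, raw, cf, h0, h4]
  · simp [ma_all3, ma_pen, raw, h1, h2] at e0 e2 ⊢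
    exact ⟨e0, e1, e2⟩

theorem ma_G (h1 : pt.η 1 = 0) (h0 : pt.η 0 = 0) (h2 : pt.ω 0 = 0) (h3 : pt.ω 1 = 0) :
    ma_Good pt (ma_pen pt false false 0 1 1 0 1 1 x T) x T := by
  have two : (2 : K) = 0 := two_eq_zero
  refine ⟨⟨ma_colInj fun z0 z1 z2 hc _ => ?_, ma_tr⟩,
    fun t0 t1 t2 => ma_refines fun z0 z1 =>
      ⟨(T + algebraMap F2 K (pt.ε 0)) * z0 + x * algebraMap F2 K (pt.ε 1) * z1,
        x * algebraMap F2 K (pt.ε 0) * z0 + (T + algebraMap F2 K (pt.ε 1)) * z1,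
        ma_det ?_, ?_, fun u0 u1 w0 w1 e0 e1 e2 => ?_⟩⟩
  · simp [ma_all, ma_pen] at hc
    exact ⟨hc.1, hc.2.2, hc.2.1⟩
  · have t3 := sub_ne_zero.2 t1
    have t4 := sub_ne_zero.2 t2
    rcases ma_cases (pt.ε 0) with a | a <;> rcases ma_cases (pt.ε 1) with b | b <;>
      rw [a, b] <;> simp only [map_zero, map_one] <;> intro h
    · exact mul_ne_zero t0 t0 (by linear_combination h)
    · exact mul_ne_zero t0 t3 (by linear_combination h - T * two)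
    · exact mul_ne_zero t0 t3 (by linear_combination h - T * two)
    · exact mul_ne_zero t4 t4 (by linear_combination h + (x * x + x - T * x - 2 * T) * two)
  · simp [ma_all, ma_pen, raw, cf, h0, h1]
  · simp [ma_all3, ma_pen, raw, h1, h2, h3] at e0 e1 e2 ⊢
    exact ⟨e0, e1, e2⟩

end

theorem ma_key (hp : pt.Ok) : ∃ (k0 k1 : Bool) (i j : Fin 3) (c a1 a2 : F2), ∀ x T : K, x ≠ 0 →
    ma_Good pt (ma_pen pt k0 k1 i j c a1 a2 1 x T) x T := by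
  have hp' : pt.ε 1 * pt.ω 0 + pt.ε 0 * pt.ω 1 = pt.η 0 * pt.η 1 := hp
  have n : ∀ {s t : F2}, ¬ (s = 1 ∨ t = 1) → s = 0 ∧ t = 0 := by decide
  by_cases h0 : pt.η 0 = 1 ∨ pt.ω 0 = 1
  · rcases ma_cases (pt.η 1) with h1 | h1
    · by_cases h2 : pt.ω 1 = 1 ∨ pt.ε 1 = 1
      · exact ⟨_, _, _, _, _, _, _, fun _ _ hx => ma_D hx h1 h0 h2⟩
      · exact ⟨_, _, _, _, _, _, _, fun _ _ _ => ma_E h1 h0 (n h2).1 (n h2).2⟩
    · exact ⟨_, _, _, _, _, _, _, fun _ _ _ => ma_A h1 h0⟩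
  · obtain ⟨h2, h3⟩ := n h0
    rw [h2, h3, mul_zero, zero_mul, zero_add] at hp'
    rcases ma_cases (pt.η 1) with h1 | h1
    · rcases ma_cases (pt.ω 1) with h4 | h4
      · exact ⟨_, _, _, _, _, _, _, fun _ _ _ => ma_G h1 h2 h3 h4⟩
      · rw [h4, mul_one] at hp'
        exact ⟨_, _, _, _, _, _, _, fun _ _ _ => ma_F h1 h2 h3 h4 hp'⟩
    · rcases ma_cases (pt.ε 0) with h4 | h4
      · exact ⟨_, _, _, _, _, _, _, fun _ _ _ => ma_B h1 h2 h3 h4⟩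
      · rw [h4, one_mul] at hp'
        exact ⟨_, _, _, _, _, _, _, fun _ _ hx => ma_C hx h1 h3 h4 hp'⟩

/-- A pencil of borders with independent columns for every pattern. -/
theorem exists_pencil (hp : pt.Ok) (f : k →+* K) (a b : k) : ∃ (b0 b1 : Bord k) (c a1 a2 : F2),
    (∀ x : K, IsSt ((b0.map f).lin x (b1.map f)) c a1 a2) ∧
    ∀ x : K, x ≠ 0 → (ColInj ((b0.map f).lin x (b1.map f)) univ univ ∧
      ColInj ((b0.map f).lin x (b1.map f)).tr univ univ) ∧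
      (¬ Spec (f a) (f b) x → Refines (raw pt 1 x (f a + f b * x)) univ {0, 1}
        ((b0.map f).lin x (b1.map f)) univ {0, 1}) := by
  obtain ⟨k0, k1, i, j, c, a1, a2, h⟩ := ma_key (K := K) hp
  refine ⟨ma_pen pt k0 k1 i j c a1 a2 1 0 a, ma_pen pt k0 k1 i j c a1 a2 0 1 b, c, a1, a2, ?_⟩
  simp only [ma_pen_map, map_one, map_zero, ma_pen_lin]
  exact ⟨fun x => ma_pen_st x _, fun x hx => ⟨(h x _ hx).1, fun hs => (h x _ hx).2
    (fun e => hs (Or.inl e)) (fun e => hs (Or.inr (Or.inl e))) fun e => hs (Or.inr (Or.inr e))⟩⟩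

end Pool.Agent.Lib.MP_f8d36e_nt.GG
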