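import Pool.Agent.Lib.MP_f8d36e_nt.GG.MDefs

/-! Job MB: the bordered matrix. -/

set_option autoImplicit false
set_option linter.unusedSectionVars false

open Matrix Finset

namespace Pool.Agent.Lib.MP_f8d36e_nt.GG

variable {ι K : Type} [Fintype ι] [DecidableEq ι] [Field K] [Algebra F2 K] {u w β : ι → F2}
  {R R' Φ : Matrix ι ι F2} {p q T : K} {bd bd' : Bord K} {I J I' J' : Finset (Fin 3)}
  {J0 B B' W Λ : Finset ι} {n0 n1 : ι} {v : ℕ}

/-- The blocks of the bordered index set. -/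
abbrev bx (β : ι → F2) : ι ⊕ Fin 3 → F2 := Sum.elim β 0

/-- A set of indices inside the bordered index set. -/
abbrev inn (B : Finset ι) : Finset (ι ⊕ Fin 3) := B.disjSum ∅

/-- Symmetric matrices on the bordered index set. -/
def symE (B : Finset ι) : Sym B ≃ Sym (inn B) where
  toFun S := ⟨fromBlocks S.1 0 0 0, by
    rintro (i | i) (j | j)
    exacts [S.2.1 i j, rfl, rfl, rfl], by
    rintro (i | i) (j | j) h
    exacts [S.2.2 i j (by simpa using h), rfl, rfl, rfl]⟩
  invFun S := ⟨S.1.toBlocks₁₁, fun i j => S.2.1 _ _, fun i j h => S.2.2 _ _ (by simpa using h)⟩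
  left_inv S := Subtype.ext (toBlocks_fromBlocks₁₁ _ _ _ _)
  right_inv S := Subtype.ext (by
    ext (i | i) (j | j)
    · rfl
    · exact ((S.2.1 _ _).trans (S.2.2 _ _ (by simp))).symm
    · exact (S.2.2 _ _ (by simp)).symm
    · exact (S.2.2 _ _ (by simp)).symm)

theorem Bmat_add (S : Sym B) : Bmat u w β (Φ + S) p q T bd =
    mat (bx β) p q (Bmat u w β Φ p q T bd) (symE B S) := by
  ext (i | i) (j | j) <;> simp [Bmat, mat, symE, mul_add, add_assoc]

theorem Bmat_map {k : Type} [Field k] [Algebra F2 k] (f : k →+* K) (p q T : k) (bd : Bord k) :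
    (Bmat u w β R p q T bd).map f = Bmat u w β R (f p) (f q) (f T) (bd.map f) := by
  have h : ∀ x, f (algebraMap F2 k x) = algebraMap F2 K x := fun x =>
    DFunLike.congr_fun (RingHom.ext_zmod (f.comp (algebraMap F2 k)) (algebraMap F2 K)) x
  ext (i | i) (j | j) <;>
    simp only [Bmat, Bord.map, cf, map_apply, fromBlocks_apply₁₁, fromBlocks_apply₁₂,
      fromBlocks_apply₂₁, fromBlocks_apply₂₂, of_apply, apply_ite f, map_add f, map_mul f,
      map_zero f, h]

theorem Bmat_tr : (Bmat u w β R p q T bd)ᵀ = Bmat u w β Rᵀ p q T bd.tr := by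
  ext (i | i) (j | j)
  · simp only [Bmat, transpose_apply, fromBlocks_apply₁₁, of_apply, red_cf p q (β j) (β i)]
    by_cases e : i = j
    · rw [e]
    · rw [if_neg e, if_neg (Ne.symm e)]
  all_goals rfl

theorem Bmat_lin (a b x : K) (b0 b1 : Bord K) : Bmat u w β R 1 0 a b0 + x • Bmat u w β R 0 1 b b1 =
    Bmat u w β R 1 x (a + b * x) (b0.lin x b1) := by
  ext (i | i) (j | j) <;>
    simp only [Bmat, Bord.lin, cf, Matrix.add_apply, Matrix.smul_apply, fromBlocks_apply₁₁,
      fromBlocks_apply₁₂, fromBlocks_apply₂₁, fromBlocks_apply₂₂, of_apply, smul_eq_mul]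
  · split_ifs <;> ring
  · ring
  · ring

theorem Bord.map_lin {k : Type} [Field k] (f : k →+* K) (b0 b1 : Bord k) (x : k) :
    (b0.lin x b1).map f = (b0.map f).lin (f x) (b1.map f) := by
  simp only [Bord.map, Bord.lin, map_add, map_mul]

theorem ColInj.of_map {k : Type} [Field k] (f : k →+* K) {bd : Bord k}
    (h : ColInj (bd.map f) I J) : ColInj bd I J := by
  intro z h1 h2 h3
  have := h (fun l => f (z l)) (fun l hl => by rw [h1 l hl, map_zero]) (fun c => by
    simpa only [Bord.map, map_sum, map_mul, map_zero] using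
      And.intro (congrArg f (h2 c).1) (congrArg f (h2 c).2)) fun l hl => by
    simpa only [Bord.map, map_sum, map_mul, map_zero] using congrArg f (h3 l hl)
  exact funext fun l => (map_eq_zero f).1 (congrFun this l)

theorem mb_inl (Y : ι ⊕ Fin 3 → K) (i : ι) : (Bmat u w β R p q T bd *ᵥ Y) (.inl i) =
    T * algebraMap F2 K (w i) * Y (.inl i) +
      ∑ j, cf p q (β i) (β j) * algebraMap F2 K (R i j) * Y (.inl j) +
      algebraMap F2 K (u i) * ∑ l, bd.cu l (β i) * Y (.inr l) +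
      algebraMap F2 K (w i) * ∑ l, bd.cw l (β i) * Y (.inr l) := by
  simp only [mulVec, dotProduct, Fintype.sum_sum_type, Bmat, fromBlocks_apply₁₁,
    fromBlocks_apply₁₂, of_apply, add_mul, sum_add_distrib, ite_mul, zero_mul, sum_ite_eq,
    mem_univ, if_true, mul_sum, mul_assoc, add_assoc]

theorem mb_inr (Y : ι ⊕ Fin 3 → K) (l : Fin 3) : (Bmat u w β R p q T bd *ᵥ Y) (.inr l) =
    ∑ j, (algebraMap F2 K (u j) * bd.ru l (β j) + algebraMap F2 K (w j) * bd.rw l (β j)) *
      Y (.inl j) + ∑ l', bd.d l l' * Y (.inr l') := by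
  simp only [mulVec, dotProduct, Fintype.sum_sum_type, Bmat, fromBlocks_apply₂₁,
    fromBlocks_apply₂₂, of_apply]

theorem BS_iff : BS u w β R J0 p q T bd I J ↔ ∀ (y : ι → K) (z : Fin 3 → K),
    (∀ j, j ∉ J0 → y j = 0) → (∀ l, l ∉ J → z l = 0) →
    (∀ i ∈ J0, T * algebraMap F2 K (w i) * y i +
      ∑ j, cf p q (β i) (β j) * algebraMap F2 K (R i j) * y j +
      algebraMap F2 K (u i) * ∑ l, bd.cu l (β i) * z l +
      algebraMap F2 K (w i) * ∑ l, bd.cw l (β i) * z l = 0) →
    (∀ l ∈ I, ∑ j, (algebraMap F2 K (u j) * bd.ru l (β j) +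
      algebraMap F2 K (w j) * bd.rw l (β j)) * y j + ∑ l', bd.d l l' * z l' = 0) →
    y = 0 ∧ z = 0 := by
  rw [BS, Submodule.eq_bot_iff]
  constructor
  · intro h y z h1 h2 h3 h4
    have := h (Sum.elim y z) ⟨by
      rintro (j | j) hj
      exacts [h1 j (by simpa using hj), h2 j (by simpa using hj)], by
      rintro (i | i) hi
      exacts [(mb_inl _ i).trans (h3 i (by simpa using hi)),
        (mb_inr _ i).trans (h4 i (by simpa using hi))]⟩
    exact ⟨funext fun j => congrFun this (.inl j), funext fun j => congrFun this (.inr j)⟩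
  · intro h Y hY
    obtain ⟨a, b⟩ := h (fun j => Y (.inl j)) (fun l => Y (.inr l))
      (fun j hj => hY.1 _ (by simpa using hj)) (fun j hj => hY.1 _ (by simpa using hj))
      (fun i hi => (mb_inl Y i).symm.trans (hY.2 _ (by simpa using hi)))
      fun i hi => (mb_inr Y i).symm.trans (hY.2 _ (by simpa using hi))
    funext j
    rcases j with j | j
    exacts [congrFun a j, congrFun b j]

theorem BS.map {k : Type} [Field k] [Algebra F2 k] (f : k →+* K) {p q T : k} {bd : Bord k}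
    (h : BS u w β R J0 p q T bd I J) : BS u w β R J0 (f p) (f q) (f T) (bd.map f) I J := by
  unfold BS
  rw [← Bmat_map]
  exact ker_map f h

theorem BS.congr (h : BS u w β R J0 p q T bd I J) (e : ∀ i ∈ J0, ∀ j ∈ J0, R' i j = R i j) :
    BS u w β R' J0 p q T bd I J := by
  rw [BS_iff] at h ⊢
  refine fun y z h1 h2 h3 h4 => h y z h1 h2 (fun i hi => ?_) h4
  rw [← h3 i hi]
  congr 3
  refine sum_congr rfl fun j _ => ?_
  by_cases hj : j ∈ J0
  · rw [e i hi j hj]
  · rw [h1 j hj, mul_zero, mul_zero]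

theorem mb_fib (a b : F2 → K) (y : ι → K) :
    ∑ j, (algebraMap F2 K (u j) * a (β j) + algebraMap F2 K (w j) * b (β j)) * y j =
      ∑ c, (a c * ∑ j, (if β j = c then algebraMap F2 K (u j) * y j else 0) +
        b c * ∑ j, if β j = c then algebraMap F2 K (w j) * y j else 0) := by
  simp only [mul_sum, ← sum_add_distrib]
  rw [sum_comm]
  refine sum_congr rfl fun j _ => ?_
  simp only [mul_ite, mul_zero, sum_add_distrib, sum_ite_eq, mem_univ, if_true]
  ring

theorem BS.refine (h : BS u w β R J0 p q T bd' I' J') (e : Refines bd I J bd' I' J') :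
    BS u w β R J0 p q T bd I J := by
  rw [BS_iff] at h ⊢
  intro y z h1 h2 h3 h4
  obtain ⟨z', a1, a2, a3, a4⟩ := e z h2
  refine (h y z' h1 a1 (fun i hi => ?_) fun l hl => ?_).imp_right a2
  · rw [(a3 _).1, (a3 _).2]
    exact h3 i hi
  · rw [mb_fib]
    exact a4 _ _ (fun l hl => by rw [← mb_fib]; exact h4 l hl) l hl

theorem Dat2.tr (d : Dat2 v B B' W u w β Φ n0 n1) : Dat2 v B B' W u w β Φᵀ n0 n1 :=
  { d with
    ha := fun i j => (add_comm _ _).trans (d.ha i j)
    wit := fun b η h0 h1 => by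
      obtain ⟨j, j1, j2, j3⟩ := d.wit b η h0 h1
      refine ⟨j, j1, j2, Eq.trans (sum_congr rfl fun i _ => ?_) j3⟩
      exact congrArg (· * η i) (red_symm d.ha (mem_filter.1 (d.hW j1)).2.1 i).symm }

theorem card_inn (B : Finset ι) : #(inn B)ᶜ = #Bᶜ + 3 := by
  have : (inn B)ᶜ = Bᶜ.disjSum univ := by
    ext (i | i) <;> simp
  rw [this, card_disjSum, card_univ, Fintype.card_fin]

theorem cnt_inn (A : Finset ι) (c : F2) : cnt (bx β) (inn A) c = cnt β A c := by
  have : {i ∈ inn A | bx β i = c} = inn {i ∈ A | β i = c} := by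
    ext (i | i) <;> simp
  rw [cnt, this, card_disjSum, card_empty, add_zero, cnt]

theorem shape_B (ha : ∀ i j, Φ i j + Φ j i = u i * u j + if i = j then u i else 0)
    (hΛ : Λ ⊆ cls u w B' 0 1) :
    Shape (inn Λ) (inn B') (bx β) p q T (Bmat u w β Φ p q T bd) (#B'ᶜ + 3) := by
  refine ⟨fromBlocks Φ 0 0 0, (inn B')ᶜ.image fun j => Pi.single j 1,
    card_image_le.trans (card_inn B').le, ?_, fun y hy => ?_⟩
  · rintro (i | i) hi (j | j) hj
    · exact red_symm ha (mem_filter.1 (hΛ (by simpa using hi))).2.1 j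
    all_goals rfl
  have y0 : ∀ j, j ∉ inn B' → y j = 0 := fun j hj => by
    simpa [Pi.single_apply, apply_ite (algebraMap F2 K)] using
      hy (Pi.single j 1) (mem_image_of_mem _ (mem_compl.2 hj))
  rintro (i | i) hi
  · obtain ⟨-, i2, i3⟩ := mem_filter.1 (hΛ (show i ∈ Λ by simpa using hi))
    have y1 : ∀ l, y (.inr l) = 0 := fun l => y0 _ (by simp)
    rw [mb_inl, sum_subset (subset_univ (inn B')) fun j _ hj => by rw [y0 j hj, mul_zero]]
    simp [Fintype.sum_sum_type, y1, i3]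
  · simp at hi

theorem mb_wit (d : Dat v B B' W u w β Φ n0 n1) (c : F2) {Y : ι ⊕ Fin 3 → K}
    (h0 : ∀ j, j ∉ Jz n0 n1 → Y (.inl j) = 0) (h1 : ∀ j ∈ inn B', Y j = 0)
    (h : ∀ j ∈ W, β j = c → (Bmat u w β Φ p q T bd *ᵥ Y) (.inl j) = 0) (i : ι) :
    cf p q c (β i) * Y (.inl i) = 0 := by
  refine congrFun (red_wit d.wit c (y := fun i => cf p q c (β i) * Y (.inl i)) (fun j hj => ?_)
    fun j hj hc => ?_) i
  · by_cases e : j ∈ Jz n0 n1
    · rw [h1 _ (by simpa using (d.hB j).2 ⟨hj, by simpa [and_comm] using e⟩), mul_zero]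
    · rw [h0 j e, mul_zero]
  · have := h j hj hc
    obtain ⟨-, j1, j2⟩ := mem_filter.1 (d.hW hj)
    rw [mb_inl, j1, j2, hc, map_zero, mul_zero, zero_mul, zero_mul, zero_mul, zero_add, add_zero,
      add_zero] at this
    rw [← this]
    exact sum_congr rfl fun l _ => by ring

theorem inj_B (d : Dat v B B' W u w β Φ n0 n1) {I0 : Finset ι} (hW : W ⊆ I0)
    (h5 : ∀ c, ∃ i ∈ I0, i ∈ cls u w B' 0 1 ∧ β i = c)
    (h7 : ∀ c, ∃ i ∈ I0, i ∈ cls u w B' 1 0 ∧ β i = c) (hJ : J0 ⊆ Jz n0 n1) (hq : q ≠ 0)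
    (hc : ColInj bd I J) :
    Inj (inn B') (I0.disjSum I) (J0.disjSum J) (Bmat u w β Φ p q T bd) := by
  intro Y hY h0
  have a : ∀ i, Y (.inl i) = 0 := fun i => by
    have := mb_wit d (β i + 1) (fun j hj => hY.1 _ (by simpa using fun e => hj (hJ e))) h0
      (fun j hj _ => hY.2 _ (by simpa using hW hj)) i
    rw [cf, if_neg (by simp)] at this
    exact (mul_eq_zero.1 this).resolve_left hq
  have b := hc (fun l => Y (.inr l)) (fun l hl => hY.1 _ (by simpa using hl)) (fun c => ?_)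
    fun l hl => by simpa [mb_inr, a] using hY.2 (.inr l) (by simpa using hl)
  · funext j
    rcases j with j | j
    exacts [a j, congrFun b j]
  · obtain ⟨i, i1, i2, i3⟩ := h7 c
    obtain ⟨j, j1, j2, j3⟩ := h5 c
    constructor
    · simpa [mb_inl, a, (mem_filter.1 i2).2.1, (mem_filter.1 i2).2.2, i3] using
        hY.2 (.inl i) (by simpa using i1)
    · simpa [mb_inl, a, (mem_filter.1 j2).2.1, (mem_filter.1 j2).2.2, j3] using
        hY.2 (.inl j) (by simpa using j1)

theorem inj_blk (d : Dat v B B' W u w β Φ n0 n1) {c : F2} {l : Fin 3}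
    (h5 : ∃ i ∈ cls u w B' 0 1, β i = c) (hc : bd.cw l c ≠ 0) :
    Inj (inn B') (({j ∈ Jz n0 n1 | β j = c} : Finset ι).disjSum {l})
      (({j ∈ Jz n0 n1 | β j = c} : Finset ι).disjSum {l}) (Bmat u w β Φ 1 0 T bd) := by
  intro Y hY h0
  have m : ∀ j ∈ B', β j = c → Sum.inl j ∈
      ({j ∈ Jz n0 n1 | β j = c} : Finset ι).disjSum ({l} : Finset (Fin 3)) := fun j hj e => by
    obtain ⟨-, j0, j1⟩ := (d.hB j).1 hj
    simp [j0, j1, e]
  have a : ∀ i, Y (.inl i) = 0 := fun i => by
    by_cases e : β i = c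
    · have := mb_wit d c (fun j hj => hY.1 _ fun e => hj (mem_filter.1 (inl_mem_disjSum.1 e)).1) h0
        (fun j hj e => hY.2 _ (m j (mem_filter.1 (d.hW hj)).1 e)) i
      rwa [cf, if_pos e.symm, one_mul] at this
    · exact hY.1 _ fun e' => e (mem_filter.1 (inl_mem_disjSum.1 e')).2
  have b : ∀ l', l' ≠ l → Y (.inr l') = 0 := fun l' e => hY.1 _ (by simpa using e)
  obtain ⟨i, i2, i3⟩ := h5
  have e := hY.2 _ (m i (mem_filter.1 i2).1 i3)
  rw [mb_inl, sum_eq_single l (f := fun l => bd.cw l (β i) * Y (.inr l))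
    (fun l' _ e => by rw [b l' e, mul_zero]) (by simp)] at e
  have e' : Y (.inr l) = 0 := by
    simpa [a, (mem_filter.1 i2).2.1, (mem_filter.1 i2).2.2, i3, hc] using e
  funext j
  rcases j with j | j
  · exact a j
  · by_cases h : j = l
    · rw [h]
      exact e'
    · exact b j h

end Pool.Agent.Lib.MP_f8d36e_nt.GG
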