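import Pool.Agent.Lib.MP_f8d36e_nt.Comb
import Pool.Agent.Lib.MP_f8d36e_nt.GG.CDefs

/-! Definitions for the random matrix half. -/

set_option autoImplicit false

open Matrix Finset

namespace Pool.Agent.Lib.MP_f8d36e_nt.GG

/-- Three border columns and three border rows, given by their coefficients on the parts of
`u` and `w` in the two blocks. -/
structure Bord (K : Type) where
  cu : Fin 3 → F2 → K
  cw : Fin 3 → F2 → K
  ru : Fin 3 → F2 → K
  rw : Fin 3 → F2 → K
  d : Fin 3 → Fin 3 → K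

section
variable {K : Type} [Field K]

/-- The transposed border. -/
def Bord.tr (bd : Bord K) : Bord K := ⟨bd.ru, bd.rw, bd.cu, bd.cw, fun l l' => bd.d l' l⟩

/-- The image of a border. -/
def Bord.map {k : Type} [Field k] (f : k →+* K) (bd : Bord k) : Bord K :=
  ⟨fun l c => f (bd.cu l c), fun l c => f (bd.cw l c), fun l c => f (bd.ru l c),
    fun l c => f (bd.rw l c), fun l l' => f (bd.d l l')⟩

/-- The pencil of two borders. -/
def Bord.lin (b0 : Bord K) (x : K) (b1 : Bord K) : Bord K :=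
  ⟨fun l c => b0.cu l c + x * b1.cu l c, fun l c => b0.cw l c + x * b1.cw l c,
    fun l c => b0.ru l c + x * b1.ru l c, fun l c => b0.rw l c + x * b1.rw l c,
    fun l l' => b0.d l l' + x * b1.d l l'⟩

/-- The border columns in `J` are independent, seen on the main rows and the border rows in
`I`. -/
def ColInj (bd : Bord K) (I J : Finset (Fin 3)) : Prop :=
  ∀ z : Fin 3 → K, (∀ l, l ∉ J → z l = 0) →
    (∀ c, ∑ l, bd.cu l c * z l = 0 ∧ ∑ l, bd.cw l c * z l = 0) →
    (∀ l ∈ I, ∑ l', bd.d l l' * z l' = 0) → z = 0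

/-- Every solution for the border `bd` gives a solution for the border `bd'`. -/
def Refines (bd : Bord K) (I J : Finset (Fin 3)) (bd' : Bord K) (I' J' : Finset (Fin 3)) : Prop :=
  ∀ z : Fin 3 → K, (∀ l, l ∉ J → z l = 0) → ∃ z' : Fin 3 → K, (∀ l, l ∉ J' → z' l = 0) ∧
    (z' = 0 → z = 0) ∧
    (∀ c, ∑ l, bd'.cu l c * z' l = ∑ l, bd.cu l c * z l ∧
      ∑ l, bd'.cw l c * z' l = ∑ l, bd.cw l c * z l) ∧
    ∀ yu yw : F2 → K,
      (∀ l ∈ I, ∑ c, (bd.ru l c * yu c + bd.rw l c * yw c) + ∑ l', bd.d l l' * z l' = 0) →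
      ∀ l ∈ I', ∑ c, (bd'.ru l c * yu c + bd'.rw l c * yw c) + ∑ l', bd'.d l l' * z' l' = 0

variable [Algebra F2 K]

/-- The last row and the last column are the same vector, supported on block `c`. -/
def IsSt (bd : Bord K) (c a1 a2 : F2) : Prop :=
  (∀ c', bd.cw 2 c' = (if c' = c then algebraMap F2 K a1 else 0) ∧
    bd.rw 2 c' = (if c' = c then algebraMap F2 K a1 else 0) ∧
    bd.cu 2 c' = (if c' = c then algebraMap F2 K a2 else 0) ∧
    bd.ru 2 c' = (if c' = c then algebraMap F2 K a2 else 0)) ∧ ∀ l, bd.d 2 l = 0 ∧ bd.d l 2 = 0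

variable {ι : Type} [Fintype ι] [DecidableEq ι]

/-- The bordered matrix. -/
def Bmat (u w β : ι → F2) (R : Matrix ι ι F2) (p q T : K) (bd : Bord K) :
    Matrix (ι ⊕ Fin 3) (ι ⊕ Fin 3) K :=
  fromBlocks
    (of fun i j => (if i = j then T * algebraMap F2 K (w i) else 0) +
      cf p q (β i) (β j) * algebraMap F2 K (R i j))
    (of fun i l => algebraMap F2 K (u i) * bd.cu l (β i) + algebraMap F2 K (w i) * bd.cw l (β i))
    (of fun l j => algebraMap F2 K (u j) * bd.ru l (β j) + algebraMap F2 K (w j) * bd.rw l (β j))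
    (of bd.d)

/-- The bordered system on the indices `J0` has only the zero solution. -/
def BS (u w β : ι → F2) (R : Matrix ι ι F2) (J0 : Finset ι) (p q T : K) (bd : Bord K)
    (I J : Finset (Fin 3)) : Prop :=
  Ker (J0.disjSum I) (J0.disjSum J) (Bmat u w β R p q T bd) = ⊥

/-- All indices but two. -/
abbrev Jz (n0 n1 : ι) : Finset ι := (univ.erase n0).erase n1

end

/-- The sign pattern of an admissible pair, block by block. -/
structure Pat where
  η : F2 → F2
  ε : F2 → F2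
  ω : F2 → F2

/-- The relation between the signs. -/
def Pat.Ok (pt : Pat) : Prop := pt.ε 1 * pt.ω 0 + pt.ε 0 * pt.ω 1 = pt.η 0 * pt.η 1

section
variable {K : Type} [Field K] [Algebra F2 K]

/-- The border of the system in `GoodPt`. -/
def raw (pt : Pat) (p q T : K) : Bord K where
  cu := ![fun c => cf p q c 0 * algebraMap F2 K (pt.η 0),
    fun c => cf p q c 1 * algebraMap F2 K (pt.η 1), 0]
  cw := ![fun c => (if c = 0 then T else 0) + cf p q c 0 * algebraMap F2 K (pt.ε 0),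
    fun c => (if c = 1 then T else 0) + cf p q c 1 * algebraMap F2 K (pt.ε 1), 0]
  ru := ![0, 0, fun c => if c = 1 then 1 else 0]
  rw := ![fun c => if c = 0 then 1 else 0, fun c => if c = 1 then 1 else 0, 0]
  d := ![![algebraMap F2 K (pt.ω 0), 0, 0], ![0, algebraMap F2 K (pt.ω 1), 0],
    ![0, algebraMap F2 K (pt.η 1), 0]]

/-- The border of the system in `SqPt`. -/
def sqb (pt : Pat) (T : K) : Bord K where
  cu := (raw pt 1 1 T).cu
  cw := (raw pt 1 1 T).cw
  ru := ![fun c => if c = 1 then 1 else 0, fun c => if c = 1 then 1 else 0, 0]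
  rw := (raw pt 1 1 T).cw
  d := ![![(T + algebraMap F2 K (pt.ε 0)) * algebraMap F2 K (pt.ω 0),
      algebraMap F2 K (pt.ε 0 * pt.ω 1 + pt.η 1), 0],
    ![algebraMap F2 K (pt.ε 1 * pt.ω 0),
      (T + algebraMap F2 K (pt.ε 1)) * algebraMap F2 K (pt.ω 1) + algebraMap F2 K (pt.η 1), 0], 0]

/-- The border of the system in `LSys`. -/
def locb (x : K) (h h' : Matrix (Fin 3) (Fin 3) K) : Bord K where
  cu := fun l c => cf 1 x c 0 * h 0 l + h' 0 l
  cw := fun l c => cf 1 x c 0 * h 1 l + h' 1 l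
  ru := ![0, 0, fun c => if c = 1 then 1 + x else 0]
  rw := ![fun _ => 1, fun c => if c = 1 then 1 + x else 0, 0]
  d := ![h 2, h' 2, h' 0]

end

section
variable {ι : Type} [Fintype ι] [DecidableEq ι]

/-- The pattern of the pair `(β, ε)`. -/
def pat (e0 ε : F2) (u w β : ι → F2) : Pat where
  η := fun c => if c = 1 then u ⬝ᵥ β else 1 + ∑ j, u j + u ⬝ᵥ β
  ε := fun c => if c = 1 then ε else e0 + ε
  ω := fun c => if c = 1 then w ⬝ᵥ β else ∑ j, w j + w ⬝ᵥ β

/-- The linear relations of a Redei matrix with an admissible pair. -/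
structure Fix (e0 ε : F2) (u w β : ι → F2) (R : Matrix ι ι F2) (n0 n1 : ι) : Prop where
  ha : ∀ i j, R i j + R j i = u i * u j + if i = j then u i else 0
  row : ∀ i, ∑ j, R i j = (1 + ∑ j, u j) * u i + e0 * w i
  adm : ∀ i, (R *ᵥ β) i = u ⬝ᵥ β * u i + ε * w i
  h0 : β n0 = 0
  h1 : β n1 = 1

/-- The data that are fixed once `β` is chosen. -/
structure Dat2 (v : ℕ) (B B' W : Finset ι) (u w β : ι → F2) (Φ : Matrix ι ι F2) (n0 n1 : ι) :
    Prop extends Dat v B B' W u w β Φ n0 n1 where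
  hn0 : n0 ∈ B
  five : ∀ c, 2 * v ^ 5 ≤ cnt β (cls u w B' 0 1) c
  seven : ∀ c, ∃ i ∈ cls u w B' 1 0, β i = c
  b0 : cnt β B' 0 + v ^ 5 ≤ cnt β B' 1 + cnt β (cls u w B' 0 1) 0
  b1 : cnt β B' 1 + v ^ 5 ≤ cnt β B' 0 + cnt β (cls u w B' 0 1) 1
  lo : v ^ 9 ≤ Fintype.card ι
  hi : Fintype.card ι ≤ v ^ 12

/-- Balanced vectors. -/
structure GoodB (v : ℕ) (B : Finset ι) (u w : ι → F2) (Φ : Matrix ι ι F2) (β : ι → F2) :
    Prop where
  wit : Wit B (cls u w B 0 0) β Φ
  bal : ∀ b, #B ≤ 2 * cnt β B b + v ^ 7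
  bal5 : ∀ b, #(cls u w B 0 1) ≤ 2 * cnt β (cls u w B 0 1) b + v ^ 7
  bal7 : ∀ b, ∃ i ∈ cls u w B 1 0, β i = b

end

/-- The parameters of the line, over a field of prime degree. -/
structure Line2 (v r : ℕ) {k : Type} [Field k] (f : k →+* Kb) (a b x1 : k) : Prop
    extends Line v r f a b x1 where
  prime : r.Prime
  a0 : a ≠ 0
  a1 : a ≠ 1
  b1 : b ≠ 1
  ab0 : a + b ≠ 0
  ab1 : a + b ≠ 1

end Pool.Agent.Lib.MP_f8d36e_nt.GG
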