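import Pool.Agent.Lib.MP_f8d36e_nt.GG.MDefs

/-! Job MT: the point test without a condition on `T`, and the line. -/

set_option autoImplicit false
set_option linter.unusedSectionVars false

open Matrix Finset

namespace Pool.Agent.Lib.MP_f8d36e_nt.GG

theorem syz_zero {k : Type} [Field k] [Finite k] [Algebra F2 k] {q : k} (hq : q ≠ 0)
    (hg : Gen (q ^ 2)) {A : F2 → k →+ k} (hA : A ∈ Syz 1 q) : A = 0 := by
  have _ := hq
  have : CharP k 2 := charP_of_injective_algebraMap (algebraMap F2 k).injective 2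
  have hc : ∀ b b' : F2, b ≠ b' → ∀ x, q * A b x = A b' (q * x) := by
    intro b b' hb x
    refine weyl_ext fun y => ?_
    have h1 := hA.1 b b' x y
    have h2 := hA.1 b' b' (q * x) y
    rw [cf, if_neg hb] at h1
    rw [cf, if_pos rfl, one_mul, one_mul] at h2
    rw [h1, h2]
    congr 1
    ring
  refine funext fun b => AddMonoidHom.ext fun x => ?_
  have hb : b ≠ b + 1 := by simp
  have h1 := weyl_gen hg (A b) fun z => by
    rw [sq, mul_assoc, hc b (b + 1) hb, hc (b + 1) b hb.symm, mul_assoc]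
  have h2 : A b 1 = 0 := weyl_nondeg fun z => by
    obtain ⟨w, rfl⟩ := isSquare_of_charTwo' z
    have h3 := hA.2 b w
    rwa [one_mul, h1, mul_assoc] at h3
  rw [h1, h2, zero_mul]
  rfl

open Classical in
theorem mt_full {ι k : Type} [Fintype ι] [DecidableEq ι] [Field k] [Fintype k] [Algebra F2 k]
    {B I J : Finset ι} {β : ι → F2} {q : k} {Ψ : Matrix ι ι k} {e : ℕ}
    (hIJ : ∀ i ∈ B, i ∈ I ↔ i ∈ J) (hI : Inj B J I Ψᵀ) (hq : q ≠ 0) (hg : Gen (q ^ 2))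
    (he : #(J \ B) + e ≤ #(I \ B)) :
    ∑ y : ι → k with Vs B β 0 y = ⊤ ∧ Vs B β 1 y = ⊤,
      pr (fun S : Sym B => y ∈ Ker I J (mat β 1 q Ψ S)) ≤ 1 / (Nat.card k : ℝ) ^ e := by
  have : Finite (F2 → k →+ k) := finite_maps
  let _ : Fintype (Syz 1 q) := Fintype.ofFinite _
  let _ : Fintype (Ker (I \ B) J Ψ) := Fintype.ofFinite _
  have hk1 : 1 < Nat.card k := Finite.one_lt_card
  have hY := full_card_ker hI
  rw [← Finset.card_inter_add_card_sdiff J B, pow_add, Nat.card_eq_fintype_card] at hY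
  set N := Nat.card k ^ #(J ∩ B) with hN
  set c := Fintype.card (Ker (I \ B) J Ψ) with hcY
  have hkpos : 0 < Nat.card k := by omega
  have hcN : c * Nat.card k ^ e ≤ N := by
    refine Nat.le_of_mul_le_mul_right (le_trans ?_ hY) (pow_pos hkpos _)
    rw [mul_assoc, ← pow_add]
    exact Nat.mul_le_mul_left _ (Nat.pow_le_pow_right hkpos (by omega))
  have hone : Fintype.card (Syz 1 q) ≤ 1 := Fintype.card_le_one_iff.mpr fun A A' =>
    Subtype.ext ((syz_zero hq hg A.2).trans (syz_zero hq hg A'.2).symm)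
  have hmain : ∑ y : Ker (I \ B) J Ψ, ∑ A : Syz 1 q, sgn (full_Q B β Ψ A y y) ≤ (c : ℤ) := by
    refine le_trans (Finset.sum_le_card_nsmul _ _ 1 fun y _ => ?_) ?_
    · refine le_trans (Finset.sum_le_card_nsmul _ _ 1 fun A _ => full_sgn_le _) ?_
      rw [nsmul_eq_mul, mul_one, Finset.card_univ]
      exact_mod_cast hone
    · rw [nsmul_eq_mul, mul_one, Finset.card_univ]
  have hNpos : (0 : ℝ) < (Nat.card k : ℝ) ^ #(J ∩ B) := by positivity
  refine le_trans (Finset.sum_le_sum fun y hy =>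
    full_pr_le hq hIJ (mem_filter.mp hy).2.1 (mem_filter.mp hy).2.2) ?_
  refine le_trans (Finset.sum_le_sum_of_subset_of_nonneg (filter_subset _ _) fun y _ _ => ?_) ?_
  · split_ifs
    · exact div_nonneg (by exact_mod_cast (full_sum_nonneg B β 1 q Ψ y).1) hNpos.le
    · exact le_rfl
  rw [← Finset.sum_filter, Finset.sum_subtype (p := fun y => y ∈ Ker (I \ B) J Ψ) _
    (fun y => mem_filter_univ y), ← Finset.sum_div, div_le_div_iff₀ hNpos (by positivity), one_mul]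
  have h2 : (∑ y : Ker (I \ B) J Ψ, ∑ A : Syz 1 q, sgn (full_Q B β Ψ A y y)) *
      ((Nat.card k ^ e : ℕ) : ℤ) ≤ (N : ℤ) :=
    (mul_le_mul_of_nonneg_right hmain (Nat.cast_nonneg _)).trans (by exact_mod_cast hcN)
  exact_mod_cast h2

theorem mt_main {ι k : Type} [Fintype ι] [DecidableEq ι] [Field k] [Finite k] [Algebra F2 k]
    {Λ B I J : Finset ι} {β : ι → F2} {ρ s t r : ℕ} {q T : k} {Ψ : Matrix ι ι k}
    (hk : Nat.card k = 2 ^ r) (hΛ : Λ ⊆ J ∩ B) (hIJ : ∀ i ∈ B, i ∈ I ↔ i ∈ J)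
    (hs : #(J \ B) ≤ s) (hS : Shape Λ B β 1 q T Ψ ρ) (hI : Inj B I J Ψ)
    (hI' : Inj B J I Ψᵀ) (h0 : t ≤ cnt β Λ 0) (h1 : t ≤ cnt β Λ 1)
    (ht : 40 * r * (r + s + ρ + 1) ≤ t) (hq : q ≠ 0) (hg : Gen (q ^ 2)) {e : ℕ}
    (he : #(J \ B) + e ≤ #(I \ B)) :
    pr (fun S : Sym B => Ker I J (mat β 1 q Ψ S) ≠ ⊥) ≤
      2 / 2 ^ r * (1 / (2 ^ r) ^ e) + 1 / 2 ^ (2 * r) := by
  classical
  have hr := test_r_pos hk
  have m0 := test_cnt_mono β hΛ 0
  have m1 := test_cnt_mono β hΛ 1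
  have hdeg := degenerate (t := t) (D := r) hΛ hIJ hs hS hI (⊤ : AddSubgroup k)
    (fun V0 V1 => ¬ (V0 = ⊤ ∧ V1 = ⊤)) (fun V0 V1 _ _ hV _ _ hP => by
      refine (gain_pos hq h0 m0 h1 m1 hV).resolve_right fun ⟨a1, a2, _, a3⟩ => ?_
      have a4 := (hg V0 a2).resolve_left a1
      refine hP ⟨a4, AddSubgroup.eq_top_of_card_eq V1 ?_⟩
      rw [a3, a4, AddSubgroup.card_top])
  have hdeg2 : (Nat.card (⊤ : AddSubgroup k) : ℝ) ^ (2 * r + s + ρ) * 2 ^ (4 * r ^ 2) / 2 ^ t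
      ≤ 1 / 2 ^ (2 * r) := by
    rw [AddSubgroup.card_top, hk]
    push_cast
    rw [← pow_mul, ← pow_add]
    refine test_pow_le (le_trans ?_ ht)
    nlinarith [Nat.zero_le (r * s), Nat.zero_le (r * ρ), Nat.zero_le (r * r)]
  have := Fintype.ofFinite k
  have hfull := mt_full (β := β) hIJ hI' hq hg he
  rw [hk] at hfull
  have hmul : ((2 ^ r - 1 : ℕ) : ℝ) * pr (fun S : Sym B => ∃ y ∈ Ker I J (mat β 1 q Ψ S),
      y ≠ 0 ∧ Vs B β 0 y = ⊤ ∧ Vs B β 1 y = ⊤) ≤ 1 / ((2 ^ r : ℕ) : ℝ) ^ e := by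
    refine le_trans (mul_pr_le _ _ _ ?_) hfull
    rintro S ⟨y, hy, hy0, f0, f1⟩
    refine ⟨(univ.erase (0 : k)).image fun c => c • y, ?_, ?_, ?_⟩
    · intro a ha
      obtain ⟨c, hc, rfl⟩ := Finset.mem_image.1 ha
      have hc0 := Finset.ne_of_mem_erase hc
      exact Finset.mem_filter.2 ⟨mem_univ _, test_Vs_smul hc0 f0, test_Vs_smul hc0 f1⟩
    · rw [Finset.card_image_of_injective _ (smul_left_injective k hy0),
        Finset.card_erase_of_mem (mem_univ _), Finset.card_univ, ← Nat.card_eq_fintype_card, hk]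
    · intro a ha
      obtain ⟨c, -, rfl⟩ := Finset.mem_image.1 ha
      exact Submodule.smul_mem _ c hy
  have h2r : (2 : ℝ) ≤ 2 ^ r := by
    calc (2 : ℝ) = 2 ^ 1 := by norm_num
      _ ≤ 2 ^ r := pow_le_pow_right₀ (by norm_num) hr
  rw [Nat.cast_sub Nat.one_le_two_pow] at hmul
  push_cast at hmul
  have hfull2 : pr (fun S : Sym B => ∃ y ∈ Ker I J (mat β 1 q Ψ S),
      y ≠ 0 ∧ Vs B β 0 y = ⊤ ∧ Vs B β 1 y = ⊤) ≤ 2 / 2 ^ r * (1 / (2 ^ r) ^ e) := by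
    rw [div_mul_eq_mul_div, le_div_iff₀ (by positivity)]
    nlinarith [pr_nonneg (E := fun S : Sym B => ∃ y ∈ Ker I J (mat β 1 q Ψ S),
      y ≠ 0 ∧ Vs B β 0 y = ⊤ ∧ Vs B β 1 y = ⊤)]
  refine le_trans (le_trans (pr_mono ?_) pr_or_le) (add_le_add hfull2 (hdeg.trans hdeg2))
  intro S hS
  obtain ⟨y, hy, hy0⟩ := (Submodule.ne_bot_iff _).1 hS
  by_cases hf : Vs B β 0 y = ⊤ ∧ Vs B β 1 y = ⊤
  · exact Or.inl ⟨y, hy, hy0, hf⟩
  · exact Or.inr ⟨y, hy, hy0, fun _ => trivial, hk ▸ AddSubgroup.card_le_card_addGroup _,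
      hk ▸ AddSubgroup.card_le_card_addGroup _, hf⟩

theorem test_point2 {ι k : Type} [Fintype ι] [DecidableEq ι] [Field k] [Finite k] [Algebra F2 k]
    {Λ B I J : Finset ι} {β : ι → F2} {ρ s t r : ℕ} {q T : k} {Ψ : Matrix ι ι k}
    (hk : Nat.card k = 2 ^ r) (hΛ : Λ ⊆ J ∩ B) (hIJ : ∀ i ∈ B, i ∈ I ↔ i ∈ J)
    (hs : #(J \ B) ≤ s) (hS : Shape Λ B β 1 q T Ψ ρ) (hI : Inj B I J Ψ)
    (hI' : Inj B J I Ψᵀ) (h0 : t ≤ cnt β Λ 0) (h1 : t ≤ cnt β Λ 1)
    (ht : 40 * r * (r + s + ρ + 1) ≤ t) (hq : q ≠ 0) (hg : Gen (q ^ 2)) :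
    (#(J \ B) ≤ #(I \ B) →
      pr (fun S : Sym B => Ker I J (mat β 1 q Ψ S) ≠ ⊥) ≤ 5 / 2 ^ r) ∧
    (#(J \ B) < #(I \ B) →
      pr (fun S : Sym B => Ker I J (mat β 1 q Ψ S) ≠ ⊥) ≤ 5 / 4 ^ r) := by
  have e4 : (4 : ℝ) ^ r = 2 ^ r * 2 ^ r := by rw [← mul_pow]; norm_num
  have e2 : (2 : ℝ) ^ (2 * r) = 2 ^ r * 2 ^ r := by rw [two_mul, pow_add]
  have p1 : (1 : ℝ) ≤ 2 ^ r := one_le_pow₀ one_le_two
  have p0 : (0 : ℝ) < 2 ^ r := by positivity
  refine ⟨fun h => ?_, fun h => ?_⟩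
  · refine (mt_main hk hΛ hIJ hs hS hI hI' h0 h1 ht hq hg (e := 0) h).trans ?_
    have a1 : (1 : ℝ) / (2 ^ r * 2 ^ r) ≤ 1 / 2 ^ r :=
      one_div_le_one_div_of_le p0 (by nlinarith)
    have a2 : (0 : ℝ) < 1 / 2 ^ r := by positivity
    have a3 : (5 : ℝ) / 2 ^ r = 5 * (1 / 2 ^ r) := by ring
    have a4 : (2 : ℝ) / 2 ^ r = 2 * (1 / 2 ^ r) := by ring
    rw [e2, pow_zero, div_one, mul_one, a3, a4]
    linarith
  · refine (mt_main hk hΛ hIJ hs hS hI hI' h0 h1 ht hq hg (e := 1) h).trans ?_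
    have a2 : (0 : ℝ) < 1 / (2 ^ r * 2 ^ r) := by positivity
    have a3 : (5 : ℝ) / (2 ^ r * 2 ^ r) = 5 * (1 / (2 ^ r * 2 ^ r)) := by ring
    have a4 : (2 : ℝ) / 2 ^ r * (1 / 2 ^ r) = 2 * (1 / (2 ^ r * 2 ^ r)) := by
      field_simp
    rw [e2, e4, pow_one, a3, a4]
    linarith

theorem exists_line2 {v : ℕ} (hv : 2 ≤ v) : ∃ (r : ℕ) (k : Type) (_ : Field k) (_ : Finite k)
    (_ : Algebra F2 k) (f : k →+* Kb) (a b x1 : k), Line2 v r f a b x1 := by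
  classical
  obtain ⟨r, hr, h1, h2⟩ := Nat.exists_prime_lt_and_le_two_mul (5 * v) (by omega)
  have hcard : Nat.card (GaloisField 2 r) = 2 ^ r := GaloisField.card 2 r hr.ne_zero
  let f : GaloisField 2 r →+* Kb :=
    (IsAlgClosed.lift : GaloisField 2 r →ₐ[ZMod 2] Kb).toRingHom
  have h4 : 3 < Nat.card (GaloisField 2 r) := by
    rw [hcard]
    exact lt_of_lt_of_le (by norm_num : 3 < 2 ^ 2) (Nat.pow_le_pow_right two_pos (by omega))
  obtain ⟨b, hb⟩ := gainL_avoid (Function.injective_id) ({0, 1} : Finset (GaloisField 2 r))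
    (lt_of_le_of_lt Finset.card_le_two (by omega))
  simp only [id, mem_insert, mem_singleton, not_or] at hb
  let Θ : Finset Kb := insert 0 ((Icc 1 (2 ^ v)).biUnion fun j => Polynomial.nthRootsFinset j 1)
  have hΘ : #Θ ≤ 2 * (2 ^ v * 2 ^ v) := by
    have e1 : #((Icc 1 (2 ^ v)).biUnion fun j => Polynomial.nthRootsFinset j (1 : Kb))
        ≤ #(Icc 1 (2 ^ v)) * 2 ^ v := by
      refine card_biUnion_le_card_mul _ _ _ fun j hj => ?_
      rw [Polynomial.nthRootsFinset_def]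
      exact ((Multiset.toFinset_card_le _).trans (Polynomial.card_nthRoots j 1)).trans
        (mem_Icc.mp hj).2
    rw [Nat.card_Icc, Nat.add_sub_cancel] at e1
    have e2 := card_insert_le (0 : Kb)
      ((Icc 1 (2 ^ v)).biUnion fun j => Polynomial.nthRootsFinset j (1 : Kb))
    have e3 : 0 < 2 ^ v * 2 ^ v := by positivity
    show #(insert _ _) ≤ _
    omega
  have mΘ : ∀ θ : Kb, (θ = 0 ∨ ∃ j, 1 ≤ j ∧ j ≤ 2 ^ v ∧ θ ^ j = 1) → θ ∈ Θ := by
    rintro θ (rfl | ⟨j, j1, j2, e⟩)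
    · exact mem_insert_self _ _
    · exact mem_insert_of_mem (mem_biUnion.mpr ⟨j, mem_Icc.mpr ⟨j1, j2⟩,
        (Polynomial.mem_nthRootsFinset j1 1).mpr e⟩)
  let Y : Finset Kb := insert 0 (insert 1 (image₂ (fun s x => s - f b * x) Θ Θ))
  have hY : #Y < Nat.card (GaloisField 2 r) := by
    have e1 : #(image₂ (fun s x => s - f b * x) Θ Θ) ≤ #Θ * #Θ := card_image₂_le _ _ _
    have e2 := Nat.mul_le_mul hΘ hΘ
    have e3 := card_insert_le (1 : Kb) (image₂ (fun s x => s - f b * x) Θ Θ)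
    have e4 := card_insert_le (0 : Kb) (insert 1 (image₂ (fun s x => s - f b * x) Θ Θ))
    have e5 : 2 * (2 ^ v * 2 ^ v) * (2 * (2 ^ v * 2 ^ v)) = 2 ^ (4 * v + 2) := by ring
    have e6 : 2 ^ (4 * v + 3) ≤ 2 ^ r := Nat.pow_le_pow_right two_pos (by omega)
    have e7 : 2 ^ 2 ≤ 2 ^ (4 * v + 2) := Nat.pow_le_pow_right two_pos (by omega)
    rw [pow_succ] at e6
    rw [hcard]
    show #(insert _ _) < _
    omega
  obtain ⟨a, ha⟩ := gainL_avoid f.injective Y hY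
  have ha0 : a ≠ 0 := by rintro rfl; exact ha (by rw [map_zero]; exact mem_insert_self _ _)
  have ha1 : a ≠ 1 := by
    rintro rfl; exact ha (by rw [map_one]; exact mem_insert_of_mem (mem_insert_self _ _))
  obtain ⟨x1, hx⟩ := gainL_avoid (Function.injective_id)
    ({0, -a / b, (1 - a) / b} : Finset (GaloisField 2 r)) (lt_of_le_of_lt card_le_three h4)
  simp only [id, mem_insert, mem_singleton, not_or] at hx
  have hΘ0 : (0 : Kb) ∈ Θ := mΘ 0 (Or.inl rfl)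
  have hΘ1 : (1 : Kb) ∈ Θ := mΘ 1 (Or.inr ⟨1, le_rfl, Nat.one_le_two_pow, one_pow 1⟩)
  have hab : ∀ c : GaloisField 2 r, f c ∈ Θ → a + b ≠ c := by
    intro c hc e
    apply ha
    refine mem_insert_of_mem (mem_insert_of_mem (mem_image₂.mpr ⟨_, hc, _, hΘ1, ?_⟩))
    rw [← e, map_add]
    ring
  refine ⟨r, GaloisField 2 r, inferInstance, inferInstance, inferInstance, f, a, b, x1, ⟨hcard,
    h1.le, by omega, gen_of_prime hr hcard ha0 ha1,
    gen_of_prime hr hcard (pow_ne_zero 2 hb.1) (fun e => hb.2 (gainL_sq e)), hb.1,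
    gen_of_prime hr hcard (fun e => hx.2.1 ?_) (fun e => hx.2.2 ?_), hx.1, ?_⟩, hr, ha0, ha1,
    hb.2, hab 0 (by rw [map_zero]; exact hΘ0), hab 1 (by rw [map_one]; exact hΘ1)⟩
  · rw [eq_div_iff hb.1]; linear_combination e
  · rw [eq_div_iff hb.1]; linear_combination e
  · intro x V hV hb' hc s1 s2
    have m1 : x ∈ Θ := by
      apply mΘ
      rcases gainL_root hb' hc s1 with e | ⟨j, j1, j2, e⟩
      · exact Or.inl (pow_eq_zero_iff two_ne_zero |>.mp e)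
      · exact Or.inr ⟨j, j1, j2, gainL_sq (by rw [← pow_mul, mul_comm, pow_mul, e])⟩
    have m2 := mΘ _ (gainL_root hb' hc s2)
    apply ha
    refine mem_insert_of_mem (mem_insert_of_mem (mem_image₂.mpr ⟨_, m2, _, m1, ?_⟩))
    ring

end Pool.Agent.Lib.MP_f8d36e_nt.GG
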