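import Pool.Agent.Lib.MP_f8d36e_nt.GG.MB
import Pool.Agent.Lib.MP_f8d36e_nt.GG.MT

/-! Job MP: tests at one point. -/

set_option autoImplicit false
set_option linter.unusedSectionVars false

open Matrix Finset

namespace Pool.Agent.Lib.MP_f8d36e_nt.GG

theorem mp_num {v r s ρ : ℕ} (hv : 100 ≤ v) (hr : r ≤ 10 * v) (hs : s ≤ v + 5)
    (hρ : ρ ≤ v + 5) : 40 * r * (r + s + ρ + 1) ≤ v ^ 5 := by
  have h1 : r + s + ρ + 1 ≤ 13 * v := by omega
  calc 40 * r * (r + s + ρ + 1) ≤ 40 * (10 * v) * (13 * v) := by gcongr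
    _ = 5200 * v ^ 2 := by ring
    _ ≤ 100 ^ 3 * v ^ 2 := by gcongr; norm_num
    _ ≤ v ^ 3 * v ^ 2 := by gcongr
    _ = v ^ 5 := by ring

variable {ι k : Type} [Fintype ι] [DecidableEq ι] [Field k] [Finite k] [Algebra F2 k]
  {u w β : ι → F2} {Φ : Matrix ι ι F2} {q T : k} {bd : Bord k} {I J : Finset (Fin 3)}
  {B B' W : Finset ι} {n0 n1 : ι} {v r : ℕ}

theorem mp_sdiff (A B : Finset ι) (J : Finset (Fin 3)) :
    #(A.disjSum J \ inn B) = #(A \ B) + #J := by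
  rw [← card_disjSum]
  refine congrArg card ?_
  ext (i | i) <;> simp

theorem mp_inter {A B : Finset ι} (h : B ⊆ A) (J : Finset (Fin 3)) :
    A.disjSum J ∩ inn B = inn B :=
  inter_eq_right.mpr (disjSum_mono h (empty_subset _))

theorem mp_sub {A B Λ : Finset ι} (h : Λ ⊆ A) (h' : Λ ⊆ B) (J : Finset (Fin 3)) :
    inn Λ ⊆ A.disjSum J ∩ inn B :=
  subset_inter (disjSum_mono h (empty_subset _)) (disjSum_mono h' (empty_subset _))

theorem mp_iff (A B : Finset ι) (I J : Finset (Fin 3)) :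
    ∀ i ∈ inn B, i ∈ A.disjSum I ↔ i ∈ A.disjSum J := by
  rintro (i | i) hi
  · simp
  · simp at hi

theorem mp_pr (J0 : Finset ι) (p : k) :
    pr (fun S : Sym B' => ¬ BS u w β (Φ + S) J0 p q T bd I J) =
      pr (fun S : Sym (inn B') => Ker (J0.disjSum I) (J0.disjSum J)
        (mat (bx β) p q (Bmat u w β Φ p q T bd) S) ≠ ⊥) := by
  rw [← pr_equiv (symE B')]
  refine congrArg pr (funext fun S => ?_)
  rw [BS, Bmat_add]

theorem mp_ex (d : Dat2 v B B' W u w β Φ n0 n1) (c : F2) : ∃ i ∈ cls u w B' 0 1, β i = c := by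
  have hv := d.big
  obtain ⟨i, hi⟩ : ({i ∈ cls u w B' 0 1 | β i = c} : Finset ι).Nonempty :=
    card_pos.mp (lt_of_lt_of_le (by positivity) (d.five c))
  exact ⟨i, mem_filter.mp hi⟩

theorem mp_inj (d : Dat2 v B B' W u w β Φ n0 n1) (p : k) (hq : q ≠ 0) (c1 : ColInj bd I J) :
    Inj (inn B') ((Jz n0 n1).disjSum I) ((Jz n0 n1).disjSum J) (Bmat u w β Φ p q T bd) := by
  have hs : B' ⊆ Jz n0 n1 := d.toDat.sub
  refine inj_B d.toDat ((d.hW.trans (cls_sub _ _)).trans hs) (fun c => ?_) (fun c => ?_)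
    subset_rfl hq c1
  · obtain ⟨i, h1, h2⟩ := mp_ex d c
    exact ⟨i, hs (cls_sub _ _ h1), h1, h2⟩
  · obtain ⟨i, h1, h2⟩ := d.seven c
    exact ⟨i, hs (cls_sub _ _ h1), h1, h2⟩

theorem mp_inj' (d : Dat2 v B B' W u w β Φ n0 n1) (p : k) (hq : q ≠ 0)
    (c2 : ColInj bd.tr J I) :
    Inj (inn B') ((Jz n0 n1).disjSum J) ((Jz n0 n1).disjSum I) (Bmat u w β Φ p q T bd)ᵀ := by
  rw [Bmat_tr]
  exact mp_inj d.tr p hq c2

theorem mp_cnt (d : Dat2 v B B' W u w β Φ n0 n1) (c : F2) :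
    v ^ 5 ≤ cnt (bx β) (inn (cls u w B' 0 1)) c := by
  have := d.five c
  rw [cnt_inn]
  omega

theorem mp_ht (d : Dat2 v B B' W u w β Φ n0 n1) (hr : r ≤ 10 * v) :
    40 * r * (r + #(inn B')ᶜ + (#B'ᶜ + 3) + 1) ≤ v ^ 5 := by
  have := d.cB
  exact mp_num d.big hr (by rw [card_inn]; omega) (by omega)

variable (d : Dat2 v B B' W u w β Φ n0 n1) (hk : Nat.card k = 2 ^ r) (hr : r ≤ 10 * v)
include d hk hr

theorem test_gen (hq : q ≠ 0) (hg : Gen T ∨ Gen (q ^ 2)) (c1 : ColInj bd I J)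
    (c2 : ColInj bd.tr J I) (h : #J ≤ #I) :
    pr (fun S : Sym B' => ¬ BS u w β (Φ + S) (Jz n0 n1) 1 q T bd I J) ≤ 5 / 2 ^ r := by
  have hs : B' ⊆ Jz n0 n1 := d.toDat.sub
  have hc : #((Jz n0 n1).disjSum J \ inn B') ≤ #((Jz n0 n1).disjSum I \ inn B') := by
    rw [mp_sdiff, mp_sdiff]; omega
  rw [mp_pr]
  rcases hg with hg | hg
  · exact test_point hk (mp_sub ((cls_sub _ _).trans hs) (cls_sub _ _) J) (mp_iff _ _ I J)
      (card_sdiff_le _) (card_sdiff_le _) (shape_B d.ha subset_rfl) (mp_inj d 1 hq c1)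
      (mp_inj' d 1 hq c2) (mp_cnt d 0) (mp_cnt d 1) (mp_ht d hr) (.inl ⟨rfl, hq, hg, hc⟩)
  · exact (test_point2 hk (mp_sub ((cls_sub _ _).trans hs) (cls_sub _ _) J) (mp_iff _ _ I J)
      (card_sdiff_le _) (shape_B d.ha subset_rfl) (mp_inj d 1 hq c1)
      (mp_inj' d 1 hq c2) (mp_cnt d 0) (mp_cnt d 1) (mp_ht d hr) hq hg).1 hc

theorem test_lt (hq : q ≠ 0) (hg : Gen (q ^ 2)) (c1 : ColInj bd I J)
    (c2 : ColInj bd.tr J I) (h : #J < #I) :
    pr (fun S : Sym B' => ¬ BS u w β (Φ + S) (Jz n0 n1) 1 q T bd I J) ≤ 5 / 4 ^ r := by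
  have hs : B' ⊆ Jz n0 n1 := d.toDat.sub
  have hc : #((Jz n0 n1).disjSum J \ inn B') < #((Jz n0 n1).disjSum I \ inn B') := by
    rw [mp_sdiff, mp_sdiff]; omega
  rw [mp_pr]
  exact (test_point2 hk (mp_sub ((cls_sub _ _).trans hs) (cls_sub _ _) J) (mp_iff _ _ I J)
    (card_sdiff_le _) (shape_B d.ha subset_rfl) (mp_inj d 1 hq c1)
    (mp_inj' d 1 hq c2) (mp_cnt d 0) (mp_cnt d 1) (mp_ht d hr) hq hg).2 hc

theorem test_pz (hT : T ≠ 0) (hg : Gen (T ^ 2)) (c1 : ColInj bd I J)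
    (c2 : ColInj bd.tr J I) (h : #J < #I) :
    pr (fun S : Sym B' => ¬ BS u w β (Φ + S) (Jz n0 n1) 0 1 T bd I J) ≤ 5 / 2 ^ r := by
  have hs : B' ⊆ Jz n0 n1 := d.toDat.sub
  have hc : #((Jz n0 n1).disjSum J \ inn B') < #((Jz n0 n1).disjSum I \ inn B') := by
    rw [mp_sdiff, mp_sdiff]; omega
  rw [mp_pr]
  refine test_point hk (mp_sub ((cls_sub _ _).trans hs) (cls_sub _ _) J) (mp_iff _ _ I J)
    (card_sdiff_le _) (card_sdiff_le _) (shape_B d.ha subset_rfl) (mp_inj d 0 one_ne_zero c1)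
    (mp_inj' d 0 one_ne_zero c2) (mp_cnt d 0) (mp_cnt d 1) (mp_ht d hr)
    (.inr ⟨rfl, rfl, hT, hg, hc, ?_, ?_⟩)
  · simp only [mp_inter hs, cnt_inn]
    exact d.b0
  · simp only [mp_inter hs, cnt_inn]
    exact d.b1

theorem test_qz (hg : Gen T) (c : F2) (l : Fin 3) (c1 : bd.cw l c ≠ 0) (c2 : bd.rw l c ≠ 0) :
    pr (fun S : Sym B' => ¬ BS u w β (Φ + S) {j ∈ Jz n0 n1 | β j = c} 1 0 T bd {l} {l}) ≤
      5 / 2 ^ r := by
  have hs : B' ⊆ Jz n0 n1 := d.toDat.sub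
  obtain ⟨P, hP, hP'⟩ := exists_subset_card_eq
    (s := {i ∈ cls u w B' 0 1 | β i = c}) (n := v ^ 5)
    (by have := d.five c; unfold cnt at this; omega)
  have t1 := inj_blk (T := T) d.toDat (mp_ex d c) c1
  have t2 := inj_blk (T := T) (bd := bd.tr) d.tr.toDat (mp_ex d c) c2
  rw [← Bmat_tr] at t2
  have a1 := test_point (Λ := inn {i ∈ cls u w B' 0 1 | β i = c})
    (β := bx fun i => if i ∈ P then 0 else 1) (t := v ^ 5) hk
    (mp_sub (filter_subset_filter _ ((cls_sub _ _).trans hs))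
      ((filter_subset _ _).trans (cls_sub _ _)) {l})
    (fun _ _ => Iff.rfl) (card_sdiff_le _) (card_sdiff_le _)
    (red_shape (shape_B d.ha (filter_subset _ _)) _) t1 t2
    (by
      rw [cnt_inn, ← hP']
      exact card_le_card fun i hi => mem_filter.mpr ⟨hP hi, if_pos hi⟩)
    (by
      rw [cnt_inn]
      have h1 := card_sdiff_add_card_eq_card hP
      have h2 : #({i ∈ cls u w B' 0 1 | β i = c} \ P) ≤ cnt (fun i => if i ∈ P then 0 else 1)
          {i ∈ cls u w B' 0 1 | β i = c} 1 := card_le_card fun i hi =>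
        mem_filter.mpr ⟨(mem_sdiff.mp hi).1, if_neg (mem_sdiff.mp hi).2⟩
      have h3 := d.five c
      unfold cnt at h3
      omega)
    (mp_ht d hr) (.inl ⟨rfl, one_ne_zero, hg, le_rfl⟩)
  rw [mp_pr]
  refine (pr_mono fun S hS h => hS ?_).trans a1
  rw [← h]
  refine chain_ker ?_
  rintro (a | a) ha (b | b) hb
  · have e1 : β a = c := (mem_filter.mp (inl_mem_disjSum.mp ha)).2
    have e2 : β b = c := (mem_filter.mp (inl_mem_disjSum.mp hb)).2
    simp [mat, cf, e1, e2]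
  · have e : S.1 (Sum.inl a) (Sum.inr b) = 0 := (S.2.1 _ _).trans (S.2.2 _ _ (by simp))
    simp only [mat, of_apply, e, map_zero, mul_zero]
  · have e : S.1 (Sum.inr a) (Sum.inl b) = 0 := S.2.2 _ _ (by simp)
    simp only [mat, of_apply, e, map_zero, mul_zero]
  · have e : S.1 (Sum.inr a) (Sum.inr b) = 0 := S.2.2 _ _ (by simp)
    simp only [mat, of_apply, e, map_zero, mul_zero]

end Pool.Agent.Lib.MP_f8d36e_nt.GG
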