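import Pool.Agent.Lib.MP_f8d36e_nt.GG.MB

/-! Job MR: the criterion follows from the bordered systems. -/

set_option autoImplicit false
set_option linter.unusedSectionVars false

open Matrix Finset

namespace Pool.Agent.Lib.MP_f8d36e_nt.GG

variable {ι : Type} [Fintype ι] [DecidableEq ι] {u w β : ι → F2} {R R' : Matrix ι ι F2}
  {n0 n1 : ι} {e0 ε : F2}

theorem mr_pat (e0 ε : F2) (u w β : ι → F2) :
    (pat e0 ε u w β).η 0 = 1 + ∑ j, u j + u ⬝ᵥ β ∧ (pat e0 ε u w β).η 1 = u ⬝ᵥ β ∧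
    (pat e0 ε u w β).ε 0 = e0 + ε ∧ (pat e0 ε u w β).ε 1 = ε ∧
    (pat e0 ε u w β).ω 0 = ∑ j, w j + w ⬝ᵥ β ∧ (pat e0 ε u w β).ω 1 = w ⬝ᵥ β := by
  simp only [pat, zero_ne_one, if_false, if_true, and_self]

theorem Fix.mr_r1 (h : Fix e0 ε u w β R n0 n1) (i : ι) :
    ∑ j, R i j * β j = u ⬝ᵥ β * u i + ε * w i := h.adm i

theorem Fix.mr_r0 (h : Fix e0 ε u w β R n0 n1) (i : ι) :
    ∑ j, R i j * (1 + β j) = (1 + ∑ j, u j + u ⬝ᵥ β) * u i + (e0 + ε) * w i := by
  rw [(red_sums (R i)).1, h.row, show R i ⬝ᵥ β = _ from h.adm i]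
  ring

theorem Fix.mr_col (h : Fix e0 ε u w β R n0 n1) (l : ι → F2) (j : ι) :
    ∑ i, l i * R i j = ∑ i, R j i * l i + (u j * ∑ i, u i * l i + u j * l j) := by
  have a : ∀ i, l i * R i j =
      R j i * l i + (u j * (u i * l i) + if i = j then u i * l i else 0) := fun i => by
    have b : R i j = R j i + (u i * u j + if i = j then u i else 0) := by
      rw [← h.ha, add_comm (R i j), ← add_assoc, red_self, zero_add]
    rw [b]
    split_ifs <;> ring
  simp only [a, sum_add_distrib, ← mul_sum, sum_ite_eq', mem_univ, if_true]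

theorem Fix.mr_c1 (h : Fix e0 ε u w β R n0 n1) (j : ι) :
    ∑ i, β i * R i j = u j * β j + ε * w j := by
  rw [h.mr_col, h.mr_r1, show ∑ i, u i * β i = u ⬝ᵥ β from rfl]
  linear_combination red_self (u ⬝ᵥ β * u j)

theorem Fix.mr_c0 (h : Fix e0 ε u w β R n0 n1) (j : ι) :
    ∑ i, (1 + β i) * R i j = u j * β j + (e0 + ε) * w j := by
  rw [h.mr_col, h.mr_r0, (red_sums u).1]
  linear_combination red_self ((1 + ∑ j, u j + u ⬝ᵥ β) * u j)

theorem Fix.ok (h : Fix e0 ε u w β R n0 n1) : (pat e0 ε u w β).Ok := by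
  have a : ∑ i, (1 + β i) * ∑ j, R i j * β j = ∑ j, (∑ i, (1 + β i) * R i j) * β j := by
    simp only [mul_sum, sum_mul, mul_assoc]
    exact sum_comm
  have b : ∑ i, (1 + β i) * (u ⬝ᵥ β * u i + ε * w i) =
      u ⬝ᵥ β * ∑ i, u i * (1 + β i) + ε * ∑ i, w i * (1 + β i) := by
    rw [mul_sum, mul_sum, ← sum_add_distrib]
    exact sum_congr rfl fun i _ => by ring
  have c : ∑ j, (u j * β j + (e0 + ε) * w j) * β j =
      ∑ j, u j * β j * β j + (e0 + ε) * w ⬝ᵥ β := by
    rw [dotProduct, mul_sum, ← sum_add_distrib]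
    exact sum_congr rfl fun i _ => by ring
  simp only [h.mr_r1, h.mr_c0] at a
  rw [b, c, (red_sums u).1, (red_sums w).1, (red_sums u).2.2.2.2] at a
  obtain ⟨p1, p2, p3, p4, p5, p6⟩ := mr_pat e0 ε u w β
  rw [Pat.Ok, p1, p2, p3, p4, p5, p6]
  linear_combination a + red_self ((e0 + ε) * w ⬝ᵥ β) - red_self ((∑ j, u j + u ⬝ᵥ β) * u ⬝ᵥ β)

section

variable {K : Type} [Field K] [Algebra F2 K]

/-- A vector moved by multiples of the indicators of the two blocks. -/
def mrS (β : ι → F2) (y : ι → K) (s t : K) (j : ι) : K :=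
  y j + (s * algebraMap F2 K (1 + β j) + t * algebraMap F2 K (β j))

theorem mr_ite (T : K) (c : F2) : (if c = 0 then T else 0) = T * algebraMap F2 K (1 + c) ∧
    (if c = 1 then T else 0) = T * algebraMap F2 K c := by
  rcases red_cases c with rfl | rfl
  · simp
  · rw [red_one]
    simp

theorem mr_off {y : ι → K} {j : ι} (h0 : y n0 = 0) (h1 : y n1 = 0) (hj : j ∉ Jz n0 n1) :
    y j = 0 := by
  by_cases j1 : j = n1
  · rw [j1, h1]
  · by_cases j0 : j = n0
    · rw [j0, h0]
    · simp [j0, j1] at hj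

theorem mr_at {j : ι} (y : ι → K) (s t : K) :
    (β j = 0 → mrS β y s t j = y j + s) ∧ (β j = 1 → mrS β y s t j = y j + t) :=
  ⟨fun e => by rw [mrS, e, add_zero (1 : F2), map_one, map_zero]; ring,
    fun e => by rw [mrS, e, red_one, map_one, map_zero]; ring⟩

theorem mr_self (x : K) : x + x = 0 := by
  rw [← two_mul, two_eq_zero, zero_mul]

theorem mr_zero {y : ι → K} {s t : K} (h : mrS β y s t = 0 ∧ ![s, t, 0] = 0) : y = 0 := by
  have a : s = 0 := congrFun h.2 0
  have b : t = 0 := congrFun h.2 1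
  funext j
  have := congrFun h.1 j
  rwa [mrS, a, b, zero_mul, zero_mul, add_zero, add_zero] at this

theorem mr_row (h : Fix e0 ε u w β R n0 n1) (p q T s t : K) (y : ι → K) (i : ι) :
    T * algebraMap F2 K (w i) * mrS β y s t i +
      ∑ j, cf p q (β i) (β j) * algebraMap F2 K (R i j) * mrS β y s t j +
      algebraMap F2 K (u i) * ∑ l, (raw (pat e0 ε u w β) p q T).cu l (β i) * ![s, t, 0] l +
      algebraMap F2 K (w i) * ∑ l, (raw (pat e0 ε u w β) p q T).cw l (β i) * ![s, t, 0] l =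
    T * algebraMap F2 K (w i) * y i +
      ∑ j, cf p q (β i) (β j) * algebraMap F2 K (R i j) * y j := by
  have a : ∀ j, cf p q (β i) (β j) * algebraMap F2 K (R i j) * mrS β y s t j =
      cf p q (β i) (β j) * algebraMap F2 K (R i j) * y j +
      (s * cf p q (β i) 0 * algebraMap F2 K (R i j * (1 + β j)) +
        t * cf p q (β i) 1 * algebraMap F2 K (R i j * β j)) := fun j => by
    rcases red_cases (β j) with hb | hb
    · rw [(mr_at y s t).1 hb]
      simp only [hb, add_zero, map_zero, mul_one, mul_zero]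
      ring
    · rw [(mr_at y s t).2 hb]
      simp only [hb, red_one, map_zero, mul_one, mul_zero]
      ring
  obtain ⟨p1, p2, p3, p4, -⟩ := mr_pat e0 ε u w β
  simp only [a, sum_add_distrib, ← mul_sum, ← map_sum, h.mr_r0, h.mr_r1, ← p1]
  simp only [raw, Fin.sum_univ_three, cons_val_zero, cons_val_one, cons_val_two, tail_cons,
    head_cons, (mr_ite T _).1, (mr_ite T _).2, p2, p3, p4, mul_zero, add_zero, mrS]
  rw [map_add _ (_ * u i), map_add _ (_ * u i), map_mul, map_mul, map_mul, map_mul]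
  linear_combination mr_self (T * algebraMap F2 K (w i) *
      (s * algebraMap F2 K (1 + β i) + t * algebraMap F2 K (β i)) +
    s * cf p q (β i) 0 * (algebraMap F2 K ((pat e0 ε u w β).η 0) * algebraMap F2 K (u i) +
      algebraMap F2 K (e0 + ε) * algebraMap F2 K (w i)) +
    t * cf p q (β i) 1 * (algebraMap F2 K (u ⬝ᵥ β) * algebraMap F2 K (u i) +
      algebraMap F2 K ε * algebraMap F2 K (w i)))

theorem mr_dot (l : ι → F2) (y : ι → K) (s t : K) :
    ∑ j, algebraMap F2 K (l j * (1 + β j)) * mrS β y s t j =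
      ∑ j, algebraMap F2 K (l j * (1 + β j)) * y j + s * algebraMap F2 K (∑ j, l j + l ⬝ᵥ β) ∧
    ∑ j, algebraMap F2 K (l j * β j) * mrS β y s t j =
      ∑ j, algebraMap F2 K (l j * β j) * y j + t * algebraMap F2 K (l ⬝ᵥ β) := by
  obtain ⟨-, a, b, c, d⟩ := red_sums (β := β) l
  simp only [mrS]
  rw [red_dot, red_dot, a, b, c, d, map_zero, mul_zero, mul_zero, add_zero, zero_add]
  exact ⟨rfl, rfl⟩

theorem mr_bord (p q T s t : K) (y : ι → K) (l : Fin 3) :
    ∑ j, (algebraMap F2 K (u j) * (raw (pat e0 ε u w β) p q T).ru l (β j) +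
      algebraMap F2 K (w j) * (raw (pat e0 ε u w β) p q T).rw l (β j)) * mrS β y s t j +
      ∑ l', (raw (pat e0 ε u w β) p q T).d l l' * ![s, t, 0] l' =
    ![∑ j, algebraMap F2 K (w j * (1 + β j)) * y j, ∑ j, algebraMap F2 K (w j * β j) * y j,
      ∑ j, algebraMap F2 K (u j * β j) * y j] l := by
  obtain ⟨-, p2, -, -, p5, p6⟩ := mr_pat e0 ε u w β
  obtain ⟨a, b⟩ := mr_dot (β := β) w y s t
  have c := (mr_dot (β := β) u y s t).2
  have : l = 0 ∨ l = 1 ∨ l = 2 := by
    revert l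
    decide
  rcases this with rfl | rfl | rfl <;>
    simp only [raw, Fin.sum_univ_three, cons_val_zero, cons_val_one, cons_val_two, tail_cons,
      head_cons, (mr_ite (1 : K) _).1, (mr_ite (1 : K) _).2, p2, p5, p6, mul_zero, add_zero,
      zero_add, zero_mul, one_mul, Pi.zero_apply, ← map_mul, a, b, c]
  · linear_combination mr_self (s * algebraMap F2 K (∑ j, w j + w ⬝ᵥ β))
  · linear_combination mr_self (t * algebraMap F2 K (w ⬝ᵥ β))
  · linear_combination mr_self (t * algebraMap F2 K (u ⬝ᵥ β))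

theorem mr_w0 {y : ι → K} (e2 : ∑ i, algebraMap F2 K (w i) * y i = 0)
    (e3 : ∑ i, algebraMap F2 K (w i * β i) * y i = 0) :
    ∑ j, algebraMap F2 K (w j * (1 + β j)) * y j = 0 := by
  simp only [mul_add, mul_one, map_add, add_mul, sum_add_distrib, e2, e3, add_zero]

theorem mr_two {s t : K} (l : Fin 3) (hl : l ∉ ({0, 1} : Finset (Fin 3))) : ![s, t, 0] l = 0 := by
  obtain rfl : l = 2 := by
    revert l
    decide
  rfl

end

theorem good_raw (h : Fix e0 ε u w β R n0 n1) {p q T : Kb}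
    (hB : BS u w β R (Jz n0 n1) p q T (raw (pat e0 ε u w β) p q T) univ {0, 1}) :
    GoodPt u w β R p q T := fun y e1 e2 e3 e4 => by
  refine mr_zero (BS_iff.1 hB (mrS β y (y n0) (y n1)) ![y n0, y n1, 0]
    (fun j => mr_off (((mr_at y _ _).1 h.h0).trans (mr_self _))
      (((mr_at y _ _).2 h.h1).trans (mr_self _))) mr_two
    (fun i _ => (mr_row h ..).trans (e1 i)) fun l _ => (mr_bord ..).trans ?_)
  fin_cases l
  exacts [mr_w0 e2 e3, e3, e4]

theorem good_qz (h : Fix e0 ε u w β R n0 n1) {T : Kb}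
    (h0 : BS u w β R {j ∈ Jz n0 n1 | β j = 0} 1 0 T (raw (pat e0 ε u w β) 1 0 T) {0} {0})
    (h1 : BS u w β R {j ∈ Jz n0 n1 | β j = 1} 1 0 T (raw (pat e0 ε u w β) 1 0 T) {1} {1}) :
    GoodPt u w β R 1 0 T := fun y e1 e2 e3 _ => by
  have row : ∀ c i, β i = c → T * algebraMap F2 Kb (w i) * (if β i = c then y i else 0) +
      ∑ j, cf 1 0 (β i) (β j) * algebraMap F2 Kb (R i j) * (if β j = c then y j else 0) = 0 :=
    fun c i hi => by
      rw [if_pos hi]
      refine Eq.trans (congrArg _ (sum_congr rfl fun j _ => ?_)) (e1 i)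
      by_cases e : β j = c
      · rw [if_pos e, cf]
      · rw [if_neg e, if_neg fun k => e (k.symm.trans hi), zero_mul, zero_mul, mul_zero]
  have n01 : ∀ {j}, β j = 0 → ¬ β j = 1 := fun a b => zero_ne_one (a.symm.trans b)
  have a0 := mr_zero (BS_iff.1 h0 (mrS β (fun j => if β j = 0 then y j else 0) (y n0) 0)
    ![y n0, 0, 0] (fun j hj => by
      rcases red_cases (β j) with e | e
      · refine mr_off (n0 := n0) (n1 := n1) ?_ ?_ fun k => hj (mem_filter.2 ⟨k, e⟩)
        · rw [(mr_at _ _ _).1 h.h0, if_pos h.h0, mr_self]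
        · rw [(mr_at _ _ _).2 h.h1, if_neg fun k => n01 k h.h1, add_zero]
      · rw [(mr_at _ _ _).2 e, if_neg fun k => n01 k e, add_zero])
    (fun l hl => by fin_cases l <;> simp at hl ⊢)
    (fun i hi => (mr_row h ..).trans (row 0 i (mem_filter.1 hi).2)) fun l hl => by
      rw [mr_bord, mem_singleton.1 hl]
      refine Eq.trans (sum_congr rfl fun j _ => ?_) (mr_w0 e2 e3)
      rcases red_cases (β j) with e | e
      · rw [if_pos e]
      · rw [e, red_one, mul_zero, map_zero, zero_mul, zero_mul])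
  have a1 := mr_zero (BS_iff.1 h1 (mrS β (fun j => if β j = 1 then y j else 0) 0 (y n1))
    ![0, y n1, 0] (fun j hj => by
      rcases red_cases (β j) with e | e
      · rw [(mr_at _ _ _).1 e, if_neg (n01 e), add_zero]
      · refine mr_off (n0 := n0) (n1 := n1) ?_ ?_ fun k => hj (mem_filter.2 ⟨k, e⟩)
        · rw [(mr_at _ _ _).1 h.h0, if_neg (n01 h.h0), add_zero]
        · rw [(mr_at _ _ _).2 h.h1, if_pos h.h1, mr_self])
    (fun l hl => by fin_cases l <;> simp at hl ⊢)
    (fun i hi => (mr_row h ..).trans (row 1 i (mem_filter.1 hi).2)) fun l hl => by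
      rw [mr_bord, mem_singleton.1 hl]
      refine Eq.trans (sum_congr rfl fun j _ => ?_) e3
      rcases red_cases (β j) with e | e
      · rw [e, mul_zero, map_zero, zero_mul, zero_mul]
      · rw [if_pos e])
  funext j
  rcases red_cases (β j) with e | e
  · exact (if_pos e).symm.trans (congrFun a0 j)
  · exact (if_pos e).symm.trans (congrFun a1 j)

variable {K : Type} [Field K] [Algebra F2 K]

theorem mr_comb {T : K} {y : ι → K} (l : ι → F2)
    (e : ∀ i, T * algebraMap F2 K (w i) * y i + ∑ j, algebraMap F2 K (R i j) * y j = 0) :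
    T * ∑ j, algebraMap F2 K (w j * l j) * y j + ∑ j, algebraMap F2 K (∑ i, l i * R i j) * y j = 0 := by
  have a : ∑ j, algebraMap F2 K (∑ i, l i * R i j) * y j =
      ∑ i, algebraMap F2 K (l i) * ∑ j, algebraMap F2 K (R i j) * y j := by
    simp only [map_sum, map_mul, mul_sum, sum_mul, mul_assoc]
    exact sum_comm
  rw [a, mul_sum, ← sum_add_distrib]
  exact sum_eq_zero fun i _ => by
    rw [map_mul]
    linear_combination algebraMap F2 K (l i) * e i

theorem sq_of (h : Fix e0 ε u w β R n0 n1) {T : K}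
    (hB : BS u w β R (Jz n0 n1) 1 1 T (sqb (pat e0 ε u w β) T) {0, 1} {0, 1}) :
    SqPt w R T := fun y e => by
  refine mr_zero (BS_iff.1 hB (mrS β y (y n0) (y n1)) ![y n0, y n1, 0]
    (fun j => mr_off (((mr_at y _ _).1 h.h0).trans (mr_self _))
      (((mr_at y _ _).2 h.h1).trans (mr_self _))) mr_two
    (fun i _ => (mr_row h ..).trans (by simpa only [cf, ite_self, one_mul] using e i))
    fun l hl => ?_)
  generalize y n0 = s, y n1 = t
  obtain ⟨-, p2, p3, p4, p5, p6⟩ := mr_pat e0 ε u w β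
  obtain ⟨a, b⟩ := mr_dot (β := β) w y s t
  have c := (mr_dot (β := β) u y s t).2
  have sp : ∀ v : ι → K, ∑ j, algebraMap F2 K (w j) * v j =
      ∑ j, algebraMap F2 K (w j * (1 + β j)) * v j + ∑ j, algebraMap F2 K (w j * β j) * v j :=
    fun v => by
      rw [← sum_add_distrib]
      refine sum_congr rfl fun j _ => ?_
      rw [← add_mul, ← map_add, ← mul_add, add_assoc, red_self, add_zero, mul_one]
  have k : ∀ (l : ι → F2) (x : F2) (v : ι → K), ∑ j, (algebraMap F2 K (u j * β j) +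
      algebraMap F2 K (w j) * (T * algebraMap F2 K (l j) + algebraMap F2 K x)) * v j =
      ∑ j, algebraMap F2 K (u j * β j) * v j + T * ∑ j, algebraMap F2 K (w j * l j) * v j +
        algebraMap F2 K x * ∑ j, algebraMap F2 K (w j) * v j := fun l x v => by
    simp only [mul_sum, ← sum_add_distrib, map_mul]
    exact sum_congr rfl fun j _ => by ring
  have k' : ∀ x : F2, ∑ j, algebraMap F2 K (u j * β j + x * w j) * y j =
      ∑ j, algebraMap F2 K (u j * β j) * y j +
        algebraMap F2 K x * ∑ j, algebraMap F2 K (w j) * y j := fun x => by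
    simp only [mul_sum, ← sum_add_distrib, map_add, map_mul]
    exact sum_congr rfl fun j _ => by ring
  have f0 := mr_comb (fun j => 1 + β j) e
  have f1 := mr_comb β e
  simp only [h.mr_c0, h.mr_c1, k', sp y] at f0 f1
  rcases mem_insert.1 hl with rfl | hl
  · simp only [sqb, raw, cf, ite_self, Fin.sum_univ_three, cons_val_zero, cons_val_one,
      cons_val_two, tail_cons, head_cons, (mr_ite (1 : K) _).2, (mr_ite T _).1, p2, p3, p5, p6,
      mul_zero, add_zero, one_mul, ← map_mul (algebraMap F2 K) (u _), k, sp, a, b, c]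
    rw [map_add _ (_ * _), map_mul]
    linear_combination f0 + mr_self (s * (T + algebraMap F2 K (e0 + ε)) *
      algebraMap F2 K (∑ j, w j + w ⬝ᵥ β) + t * (algebraMap F2 K (e0 + ε) *
        algebraMap F2 K (w ⬝ᵥ β) + algebraMap F2 K (u ⬝ᵥ β)))
  · obtain rfl := mem_singleton.1 hl
    simp only [sqb, raw, cf, ite_self, Fin.sum_univ_three, cons_val_zero, cons_val_one,
      cons_val_two, tail_cons, head_cons, (mr_ite (1 : K) _).2, (mr_ite T _).2, p2, p4, p5, p6,
      mul_zero, add_zero, one_mul, ← map_mul (algebraMap F2 K) (u _), k, sp, a, b, c]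
    rw [map_mul _ ε]
    linear_combination f1 + mr_self (s * algebraMap F2 K ε * algebraMap F2 K (∑ j, w j + w ⬝ᵥ β) +
      t * ((T + algebraMap F2 K ε) * algebraMap F2 K (w ⬝ᵥ β) + algebraMap F2 K (u ⬝ᵥ β)))

theorem loc_iff {x T : K} {h h' : Matrix (Fin 3) (Fin 3) K} {J : Finset (Fin 3)} :
    BS u w β R (Jz n0 n1) 1 x T (locb x h h') univ J ↔ ∀ y z, (∀ l, l ∉ J → z l = 0) →
      LSys u w β R n0 n1 x T y (h *ᵥ z) (h' *ᵥ z) → y = 0 ∧ z = 0 := by
  have a : ∀ (c : K) (k : Fin 3) (z : Fin 3 → K),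
      ∑ l, (c * h k l + h' k l) * z l = c * (h *ᵥ z) k + (h' *ᵥ z) k := fun c k z => by
    simp only [mulVec, dotProduct, mul_sum, ← sum_add_distrib]
    exact sum_congr rfl fun l _ => by ring
  have b : ∀ (l : ι → F2) (y : ι → K),
      ∑ j, algebraMap F2 K (l j) * ((1 + x) * algebraMap F2 K (β j)) * y j =
        (1 + x) * ∑ j, algebraMap F2 K (l j * β j) * y j := fun l y => by
    simp only [mul_sum, map_mul]
    exact sum_congr rfl fun l _ => by ring
  have c : ∀ (y : ι → K) (z : Fin 3 → K), (∀ l ∈ (univ : Finset (Fin 3)),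
      ∑ j, (algebraMap F2 K (u j) * (locb x h h').ru l (β j) +
        algebraMap F2 K (w j) * (locb x h h').rw l (β j)) * y j +
        ∑ l', (locb x h h').d l l' * z l' = 0) ↔ Ext u w β 1 x y (h *ᵥ z) (h' *ᵥ z) := fun y z => by
    simp only [mem_univ, forall_true_left, Fin.forall_fin_succ, IsEmpty.forall_iff, and_true, locb,
      cons_val_zero, cons_val_succ, Pi.zero_apply, mul_zero, zero_add, add_zero, mul_one,
      (mr_ite (1 + x) _).2, b]
    rfl
  rw [BS_iff]
  refine forall_congr' fun y => forall_congr' fun z => ⟨fun k hz s => ?_, fun k h1 hz h2 h3 => ?_⟩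
  · refine k (fun j => mr_off s.1 s.2.1) hz (fun i hi => ?_) ((c y z).2 s.2.2.2)
    simp only [locb, a]
    exact s.2.2.1 i (mem_erase.1 (mem_erase.1 hi).2).1 (mem_erase.1 hi).1
  · refine k hz ⟨h1 _ (by simp), h1 _ (by simp), fun i i0 i1 => ?_, (c y z).1 h3⟩
    have := h2 i (by simp [i0, i1])
    simp only [locb, a] at this
    exact this

theorem LSys.congr {x T : K} {y : ι → K} {H H' : Fin 3 → K} (h : LSys u w β R n0 n1 x T y H H')
    (e : ∀ i j, i ≠ n0 → i ≠ n1 → j ≠ n0 → j ≠ n1 → R i j = R' i j) :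
    LSys u w β R' n0 n1 x T y H H' := by
  refine ⟨h.1, h.2.1, fun i i0 i1 => ?_, h.2.2.2⟩
  have a : ∀ j, cf 1 x (β i) (β j) * algebraMap F2 K (R' i j) * y j =
      cf 1 x (β i) (β j) * algebraMap F2 K (R i j) * y j := fun j => by
    by_cases j0 : j = n0
    · rw [j0, h.1, mul_zero, mul_zero]
    by_cases j1 : j = n1
    · rw [j1, h.2.1, mul_zero, mul_zero]
    rw [e i j i0 i1 j0 j1]
  simp only [Row, a]
  exact h.2.2.1 i i0 i1

end Pool.Agent.Lib.MP_f8d36e_nt.GG
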