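import Pool.Agent.Lib.MP_f8d36e_nt.GG.MP
import Pool.Agent.Lib.MP_f8d36e_nt.GG.MA
import Pool.Agent.Lib.MP_f8d36e_nt.GG.MR

/-! Job MQ: the special points. -/

set_option autoImplicit false
set_option linter.unusedSectionVars false

open Matrix Finset

namespace Pool.Agent.Lib.MP_f8d36e_nt.GG

theorem mq_cases (t : F2) : t = 0 ∨ t = 1 := by
  revert t
  decide

section
variable {ι k K : Type} [Fintype ι] [DecidableEq ι] [Field k] [Algebra F2 k] [Field K]
  [Algebra F2 K] {u w β : ι → F2} {R : Matrix ι ι F2} {n0 n1 : ι} {t0 t1 : Fin 3 → F2}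

theorem mq_alg (f : k →+* K) (t : F2) : f (algebraMap F2 k t) = algebraMap F2 K t := by
  rcases mq_cases t with rfl | rfl <;> simp

/-- Two distinct nonzero vectors over the prime field are independent. -/
theorem mq_ind (h0 : t0 ≠ 0) (h1 : t1 ≠ 0) (h : t0 ≠ t1) {a b : K}
    (e : ∀ l, algebraMap F2 K (t0 l) * a + algebraMap F2 K (t1 l) * b = 0) : a = 0 ∧ b = 0 := by
  obtain ⟨l, hl⟩ := Function.ne_iff.1 h
  obtain ⟨l0, k0⟩ := Function.ne_iff.1 h0
  obtain ⟨l1, k1⟩ := Function.ne_iff.1 h1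
  have k0 : t0 l0 = 1 := (mq_cases _).resolve_left k0
  have k1 : t1 l1 = 1 := (mq_cases _).resolve_left k1
  rcases mq_cases (t0 l) with p | p <;> rcases mq_cases (t1 l) with q | q
  · exact absurd (p.trans q.symm) hl
  · have : b = 0 := by simpa [p, q] using e l
    exact ⟨by simpa [k0, this] using e l0, this⟩
  · have : a = 0 := by simpa [p, q] using e l
    exact ⟨this, by simpa [k1, this] using e l1⟩
  · exact absurd (p.trans q.symm) hl

theorem mq_add (ψ : K →+ K) (t : F2) (z : K) :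
    ψ (algebraMap F2 K t * z) = algebraMap F2 K t * ψ z := by
  rcases mq_cases t with rfl | rfl <;> simp

/-- Additive maps that commute with the two parameters preserve the system. -/
theorem mq_psi {x T : K} {y : ι → K} {H H' : Fin 3 → K} (ψ : K →+ K)
    (hx : ∀ z, ψ (x * z) = x * ψ z) (hT : ∀ z, ψ (T * z) = T * ψ z)
    (h : LSys u w β R n0 n1 x T y H H') :
    LSys u w β R n0 n1 x T (fun i => ψ (y i)) (fun l => ψ (H l)) fun l => ψ (H' l) := by
  have hc : ∀ b b' z, ψ (cf 1 x b b' * z) = cf 1 x b b' * ψ z := fun b b' z => by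
    unfold cf
    split_ifs
    · rw [one_mul, one_mul]
    · exact hx z
  obtain ⟨a0, a1, a2, a3, a4, a5⟩ := h
  refine ⟨by simp [a0], by simp [a1], fun i i0 i1 => ?_, ?_, ?_, ?_⟩
  · simpa only [Row, map_add, map_sum, mul_assoc, hT, hc, mq_add, map_zero] using
      congrArg ψ (a2 i i0 i1)
  · simpa only [map_add, map_sum, mq_add, map_zero] using congrArg ψ a3
  · simpa only [map_add, map_sum, mq_add, map_zero, add_mul, one_mul, hx] using congrArg ψ a4
  · simpa only [map_add, map_sum, mq_add, map_zero, add_mul, one_mul, hx] using congrArg ψ a5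

/-- The four entries. -/
def mqE (x : K) (a : Fin 3 → Fin 3 → Fin 4) : Matrix (Fin 3) (Fin 3) K :=
  of fun i j => ![0, 1, x, 1 + x] (a i j)

/-- The first matrix of the second order system. -/
def mqA (t0 t1 : Fin 3 → F2) (θ : K) : Matrix (Fin 3) (Fin 3) K :=
  of fun l => ![algebraMap F2 K (t0 l) * θ + algebraMap F2 K (t1 l), 0, 0]

/-- The second matrix of the second order system. -/
def mqB (t0 t1 : Fin 3 → F2) (κ θ : K) : Matrix (Fin 3) (Fin 3) K :=
  of fun l => ![algebraMap F2 K (t0 l) * (κ * θ),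
    algebraMap F2 K (t0 l) * θ + algebraMap F2 K (t1 l), 0]

theorem mq_exists (f : k →+* K) {x : k} {h : Matrix (Fin 3) (Fin 3) K}
    (e : ∀ i j, InF (f x) (h i j)) : ∃ a, (mqE x a).map f = h := by
  have : ∀ i j, ∃ c : Fin 4, f (![0, 1, x, 1 + x] c) = h i j := fun i j => by
    rcases e i j with p | p | p | p
    exacts [⟨0, by simp [p]⟩, ⟨1, by simp [p]⟩, ⟨2, by simp [p]⟩, ⟨3, by simp [p]⟩]
  choose a ha using this
  exact ⟨a, Matrix.ext ha⟩

theorem mq_loc (f : k →+* K) {x T : k}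
    (h : ∀ a a', (∀ z, mqE x a *ᵥ z = 0 → mqE x a' *ᵥ z = 0 → z = 0) →
      BS u w β R (Jz n0 n1) 1 x T (locb x (mqE x a) (mqE x a')) univ univ) :
    Loc u w β R n0 n1 (f x) (f T) := by
  intro g g' hF hi y z hs
  obtain ⟨a, rfl⟩ := mq_exists f fun i j => (hF i j).1
  obtain ⟨a', rfl⟩ := mq_exists f fun i j => (hF i j).2
  have k1 : ∀ (M : Matrix (Fin 3) (Fin 3) k) (s : Fin 3 → k), M *ᵥ s = 0 →
      M.map f *ᵥ (f ∘ s) = 0 := fun M s e => funext fun i => by
    rw [← RingHom.map_mulVec, e, Pi.zero_apply, map_zero, Pi.zero_apply]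
  have := (h a a' fun s e e' => funext fun i =>
    (map_eq_zero f).1 (congrFun (hi _ (k1 _ _ e) (k1 _ _ e')) i)).map f
  rw [map_one, locb_map] at this
  exact loc_iff.1 this y z (fun l hl => absurd (mem_univ l) hl) hs

theorem mq_inj (h0 : t0 ≠ 0) (h1 : t1 ≠ 0) (h : t0 ≠ t1) (κ θ : K) (z : Fin 3 → K)
    (hz : ∀ l, l ∉ ({0, 1} : Finset (Fin 3)) → z l = 0) (e : mqA t0 t1 θ *ᵥ z = 0)
    (e' : mqB t0 t1 κ θ *ᵥ z = 0) : z = 0 := by
  have z0 : z 0 = 0 := (mq_ind h0 h1 h (a := θ * z 0) fun l => by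
    have := congrFun e l
    simp only [mqA, mulVec, dotProduct, Fin.sum_univ_three, of_apply, Matrix.cons_val,
      Pi.zero_apply] at this
    linear_combination this).2
  have z1 : z 1 = 0 := (mq_ind h0 h1 h (a := θ * z 1) fun l => by
    have := congrFun e' l
    simp only [mqB, mulVec, dotProduct, Fin.sum_univ_three, of_apply, Matrix.cons_val,
      Pi.zero_apply, z0] at this
    linear_combination this).2
  funext l
  fin_cases l
  exacts [z0, z1, hz 2 (by decide)]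

theorem mq_quad (f : k →+* K) {x T : k} (hL : Loc u w β R n0 n1 (f x) (f T))
    (h : ∀ t0 t1 : Fin 3 → F2, t0 ≠ 0 → t1 ≠ 0 → t0 ≠ t1 → ∀ (c : Fin 2) (θ : k),
      BS u w β R (Jz n0 n1) 1 x T (locb x (mqA t0 t1 θ) (mqB t0 t1 (![1, x] c) θ)) univ {0, 1}) :
    Quad u w β R n0 n1 (f x) (f T) := by
  intro t0 t1 h0 h1 h01 κ hκ y z0 z2 z3 hs e
  obtain ⟨θ, rfl⟩ : ∃ θ, z0 = f θ := by
    let _ := f.toAlgebra
    obtain ⟨φ, hφ⟩ := (Algebra.linearMap k K).exists_leftInverse_of_injective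
      (LinearMap.ker_eq_bot.2 f.injective)
    let ψ : K →ₗ[k] K := LinearMap.id - Algebra.linearMap k K ∘ₗ φ
    have p : ∀ a z, ψ.toAddMonoidHom (f a * z) = f a * ψ.toAddMonoidHom z :=
      fun a z => ψ.map_smul a z
    have p1 : ∀ t, ψ.toAddMonoidHom (algebraMap F2 K t) = 0 := fun t => by
      rw [← mq_alg f]
      exact sub_eq_zero.2 (congrArg f (LinearMap.congr_fun hφ _)).symm
    have hs' := mq_psi ψ.toAddMonoidHom (p x) (p T) hs
    simp only [map_add, mq_add, p1, add_zero] at hs'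
    have iF : ∀ t, InF (f x) (algebraMap F2 K t) := fun t => by
      rcases mq_cases t with rfl | rfl
      exacts [.inl (map_zero _), .inr (.inl (map_one _))]
    have := (hL (of fun l => ![algebraMap F2 K (t0 l), 0, 0])
      (of fun l => ![0, algebraMap F2 K (t0 l), algebraMap F2 K (t1 l)]) (fun i j => ?_)
      (fun z a b => ?_) _ ![ψ z0, ψ z2, ψ z3] (by
        convert hs' using 1 <;> funext l <;> simp [mulVec, dotProduct, Fin.sum_univ_three])).2
    · exact ⟨φ z0, sub_eq_zero.1 (congrFun this 0)⟩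
    · fin_cases j
      exacts [⟨iF _, .inl rfl⟩, ⟨.inl rfl, iF _⟩, ⟨.inl rfl, iF _⟩]
    · have a1 := mq_ind h0 h1 h01 (a := z 0) (b := 0) fun l => by
        simpa [mulVec, dotProduct, Fin.sum_univ_three] using congrFun a l
      have b1 := mq_ind h0 h1 h01 (a := z 1) (b := z 2) fun l => by
        simpa [mulVec, dotProduct, Fin.sum_univ_three] using congrFun b l
      funext l
      fin_cases l
      exacts [a1.1, b1.1, b1.2]
  obtain ⟨c, rfl⟩ : ∃ c : Fin 2, κ = f (![1, x] c) := by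
    rcases hκ with rfl | rfl
    exacts [⟨0, by simp⟩, ⟨1, by simp⟩]
  have := (h t0 t1 h0 h1 h01 c θ).map f
  rw [map_one, locb_map] at this
  have two : (2 : K) = 0 := two_eq_zero
  have := (loc_iff.1 this y ![1, z3, 0] (fun l hl => ?_) (by
    convert hs using 1 <;> funext l
    · simp [mqA, mulVec, dotProduct, Fin.sum_univ_three, mq_alg]
    · simp only [mqB, mulVec, dotProduct, Fin.sum_univ_three, map_apply, of_apply,
        Matrix.cons_val, map_add, map_mul, mq_alg, map_zero]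
      linear_combination algebraMap F2 K (t0 l) * e - algebraMap F2 K (t0 l) * z2 * two)).2
  · exact one_ne_zero (congrFun this 0)
  · fin_cases l
    exacts [absurd (by decide) hl, absurd (by decide) hl, rfl]

end

theorem mq_union {Ω α : Type} [Finite Ω] [Nonempty Ω] [Fintype α] (A : α → Ω → Prop)
    {ε : ℝ} (h : ∀ a, pr (A a) ≤ ε) : pr (fun x => ∃ a, A a x) ≤ Fintype.card α * ε :=
  (pr_mono fun _ ⟨a, e⟩ => ⟨a, mem_univ a, e⟩).trans (pr_exists_le_card univ A fun a _ => h a)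

theorem special {ι k : Type} [Fintype ι] [DecidableEq ι] [Field k] [Finite k] [Algebra F2 k]
    {u w β : ι → F2} {Φ : Matrix ι ι F2} {B B' W : Finset ι} {n0 n1 : ι} {v r : ℕ}
    (d : Dat2 v B B' W u w β Φ n0 n1) (hk : Nat.card k = 2 ^ r) (hr : r ≤ 10 * v)
    (hp : r.Prime) (f : k →+* Kb) {x : k} (h0 : x ≠ 0) (h1 : x ≠ 1) (T : k) :
    pr (fun S : Sym B' => ¬ (Loc u w β (Φ + S) n0 n1 (f x) (f T) ∧
      Quad u w β (Φ + S) n0 n1 (f x) (f T))) ≤ 4 ^ 20 / 2 ^ r := by
  have := Fintype.ofFinite k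
  have hg : Gen (x ^ 2) := gen_of_prime hp hk (pow_ne_zero 2 h0) fun e => h1 (gainL_sq e)
  have e1 := mq_union (Ω := Sym B') (ε := 5 / 2 ^ r)
    (fun (a : (Fin 3 → Fin 3 → Fin 4) × (Fin 3 → Fin 3 → Fin 4)) S =>
      (∀ z, mqE x a.1 *ᵥ z = 0 → mqE x a.2 *ᵥ z = 0 → z = 0) ∧
      ¬ BS u w β (Φ + S) (Jz n0 n1) 1 x T (locb x (mqE x a.1) (mqE x a.2)) univ univ)
    fun a => by
      by_cases hi : ∀ z, mqE x a.1 *ᵥ z = 0 → mqE x a.2 *ᵥ z = 0 → z = 0
      · have c := locb_inj (J := univ) h1 fun z _ => hi z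
        exact (pr_mono fun S h => h.2).trans (test_gen d hk hr h0 (.inr hg) c.1 c.2 le_rfl)
      · rw [pr_eq_zero fun S h => hi h.1]
        positivity
  have e2 := mq_union (Ω := Sym B') (ε := 5 / 4 ^ r)
    (fun (a : (Fin 3 → F2) × (Fin 3 → F2) × Fin 2 × k) S =>
      (a.1 ≠ 0 ∧ a.2.1 ≠ 0 ∧ a.1 ≠ a.2.1) ∧ ¬ BS u w β (Φ + S) (Jz n0 n1) 1 x T
        (locb x (mqA a.1 a.2.1 a.2.2.2) (mqB a.1 a.2.1 (![1, x] a.2.2.1) a.2.2.2)) univ {0, 1})
    fun a => by
      by_cases hi : a.1 ≠ 0 ∧ a.2.1 ≠ 0 ∧ a.1 ≠ a.2.1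
      · have c := locb_inj h1 (mq_inj hi.1 hi.2.1 hi.2.2 (![1, x] a.2.2.1) a.2.2.2)
        exact (pr_mono fun S h => h.2).trans (test_lt d hk hr h0 hg c.1 c.2 (by decide))
      · rw [pr_eq_zero fun S h => hi h.1]
        positivity
  refine ((pr_mono fun S h => ?_).trans (pr_or_le.trans (add_le_add e1 e2))).trans ?_
  · by_contra k1
    rw [not_or, not_exists, not_exists] at k1
    have hL := mq_loc f fun a a' hi => by_contra fun n => k1.1 (a, a') ⟨hi, n⟩
    exact h ⟨hL, mq_quad f hL fun t0 t1 a0 a1 a2 c θ => by_contra fun n =>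
      k1.2 (t0, t1, c, θ) ⟨⟨a0, a1, a2⟩, n⟩⟩
  · rw [Nat.card_eq_fintype_card] at hk
    simp only [Fintype.card_prod, Fintype.card_fun, Fintype.card_fin, ZMod.card, hk]
    push_cast
    rw [show (4 : ℝ) ^ r = 2 ^ r * 2 ^ r by rw [← mul_pow]; norm_num]
    field_simp
    norm_num

end Pool.Agent.Lib.MP_f8d36e_nt.GG
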