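import Pool.Agent.Lib.MP_f8d36e_nt.GG.Glue2
import Pool.Agent.Lib.MP_f8d36e_nt.GG.Count

/-! The conjecture holds for almost all imaginary quadratic fields. -/

set_option autoImplicit false

open Filter Finset Topology
open scoped IntermediateField

namespace Pool.Agent.Lib.MP_f8d36e_nt.GG

open Classical in
theorem main : Tendsto (fun X : ℕ =>
    (#((Icc 1 X).filter fun m : ℕ => Squarefree m ∧
      ∀ θ : Qbar, θ ^ 2 = -(m : Qbar) → GGC 2 2 ℚ⟮θ⟯.fixingSubgroup) : ℝ) /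
    #((Icc 1 X).filter fun m : ℕ => Squarefree m)) atTop (𝓝 1) :=
  count_ratio (fun m => ∀ θ : Qbar, θ ^ 2 = -(m : Qbar) → GGC 2 2 ℚ⟮θ⟯.fixingSubgroup)
    fun _ _ hm ho h4 hc _ hθ => ggc_of_crit2 hm ho h4 hc hθ

end Pool.Agent.Lib.MP_f8d36e_nt.GG
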